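import Pool.Agent.Helper819.Gr.Defs

/-!
Regular functions on sets of subspaces in terms of frames.
-/

open MvPolynomial

namespace Pool.Agent.Helper819.GradMap

noncomputable section

set_option linter.unusedSectionVars false

/-- All the coefficients of an `r`-tuple of polynomials. -/
def coeffs {n r : ℕ} (F : Fin r → MvPolynomial (Fin n) ℂ) : Fin r × (Fin n →₀ ℕ) → ℂ :=
  fun p => coeff p.2 (F p.1)

/-- Regularity in terms of a basis. -/
def IsRegF (r : ℕ) {n : ℕ} (Y : Set (Submodule ℂ (MvPolynomial (Fin n) ℂ))) (h : Y → ℂ) : Prop :=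
  ∀ (W : Y) (F : Fin r → MvPolynomial (Fin n) ℂ), IsFrame W.1 F →
    ∃ P Q : MvPolynomial (Fin r × (Fin n →₀ ℕ)) ℂ, eval (coeffs F) Q ≠ 0 ∧
      ∀ (W' : Y) (G : Fin r → MvPolynomial (Fin n) ℂ), IsFrame W'.1 G →
        eval (coeffs G) Q ≠ 0 → h W' = eval (coeffs G) P / eval (coeffs G) Q

variable {r n : ℕ}

/-- Plücker coordinates as polynomials in the coefficients. -/
def plP (r n : ℕ) : MvPolynomial (Fin r → (Fin n →₀ ℕ)) ℂ →ₐ[ℂ]
    MvPolynomial (Fin r × (Fin n →₀ ℕ)) ℂ :=
  aeval fun J => (Matrix.of fun i j => X (i, J j) :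
    Matrix (Fin r) (Fin r) (MvPolynomial (Fin r × (Fin n →₀ ℕ)) ℂ)).det

theorem eval_plP (F : Fin r → MvPolynomial (Fin n) ℂ)
    (P : MvPolynomial (Fin r → (Fin n →₀ ℕ)) ℂ) :
    eval (coeffs F) (plP r n P) = eval (plu F) P := by
  unfold plP
  have h1 := comp_aeval_apply (R := ℂ) (fun J : Fin r → (Fin n →₀ ℕ) =>
    (Matrix.of fun i j => X (i, J j) :
    Matrix (Fin r) (Fin r) (MvPolynomial (Fin r × (Fin n →₀ ℕ)) ℂ)).det) (aeval (coeffs F)) P
  rw [← coe_aeval_eq_eval, ← coe_aeval_eq_eval]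
  refine h1.trans ?_
  change aeval _ P = aeval _ P
  congr 2
  funext J
  rw [AlgHom.map_det]
  unfold plu
  congr 1
  ext i j
  change aeval (coeffs F) (X (i, J j)) = coeff (J j) (F i)
  rw [aeval_X]
  rfl

theorem IsReg.toF {Y : Set (Submodule ℂ (MvPolynomial (Fin n) ℂ))} {h : Y → ℂ}
    (hr : IsReg r Y h) : IsRegF r Y h := by
  intro W F hF
  obtain ⟨m, P, Q, _, _, hQ, h1⟩ := hr W F hF
  refine ⟨plP r n P, plP r n Q, by rw [eval_plP]; exact hQ, fun W' G hG hne => ?_⟩
  rw [eval_plP] at hne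
  rw [eval_plP, eval_plP]
  exact h1 W' G hG hne

/-- homogenization -/
def hmg (J : Fin r → (Fin n →₀ ℕ)) (K : ℕ) (P : MvPolynomial (Fin r × (Fin n →₀ ℕ)) ℂ) :
    MvPolynomial (Fin r → (Fin n →₀ ℕ)) ℂ :=
  ∑ s ∈ P.support, C (coeff s P) * (X J ^ (K - s.degree) *
    ∏ p ∈ s.support, X (Function.update J p.1 p.2) ^ s p)

theorem hmg_homog (J : Fin r → (Fin n →₀ ℕ)) {K : ℕ}
    {P : MvPolynomial (Fin r × (Fin n →₀ ℕ)) ℂ} (hK : P.totalDegree ≤ K) :
    (hmg J K P).IsHomogeneous K := by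
  unfold hmg
  refine IsHomogeneous.sum _ _ _ fun s hs => ?_
  have h1 : s.degree ≤ K := le_trans (le_totalDegree hs) hK
  have h2 := ((isHomogeneous_X ℂ J).pow (K - s.degree)).mul
    (IsHomogeneous.prod s.support (fun p => (X (Function.update J p.1 p.2) :
      MvPolynomial (Fin r → (Fin n →₀ ℕ)) ℂ) ^ s p) (fun p => 1 * s p)
      (fun p _ => (isHomogeneous_X ℂ _).pow (s p)))
  have h3 : 1 * (K - s.degree) + ∑ p ∈ s.support, 1 * s p = K := by
    simp only [one_mul]
    change K - s.degree + s.degree = K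
    omega
  rw [h3] at h2
  exact h2.C_mul _

theorem eval_hmg (J : Fin r → (Fin n →₀ ℕ)) {K : ℕ}
    {P : MvPolynomial (Fin r × (Fin n →₀ ℕ)) ℂ} (hK : P.totalDegree ≤ K)
    (x : (Fin r → (Fin n →₀ ℕ)) → ℂ) (hx : x J ≠ 0) :
    eval x (hmg J K P) = x J ^ K * eval (fun p => x (Function.update J p.1 p.2) / x J) P := by
  unfold hmg
  rw [map_sum, eval_eq, Finset.mul_sum]
  refine Finset.sum_congr rfl fun s hs => ?_
  have h1 : s.degree ≤ K := le_trans (le_totalDegree hs) hK
  rw [map_mul, map_mul, map_pow, eval_C, eval_X, map_prod]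
  simp only [map_pow, eval_X, div_pow]
  rw [Finset.prod_div_distrib]
  have h2 : ∏ i ∈ s.support, x J ^ s i = x J ^ s.degree := by
    rw [Finset.prod_pow_eq_pow_sum]
    rfl
  rw [h2]
  have h3 : x J ^ K = x J ^ (K - s.degree) * x J ^ s.degree := by
    rw [← pow_add]
    congr 1
    omega
  rw [h3]
  have h4 : x J ^ s.degree ≠ 0 := pow_ne_zero _ hx
  field_simp

theorem exists_minor {F : Fin r → MvPolynomial (Fin n) ℂ} (hF : LinearIndependent ℂ F) :
    ∃ J : Fin r → (Fin n →₀ ℕ), plu F J ≠ 0 := by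
  let v : (Fin n →₀ ℕ) → (Fin r → ℂ) := fun m i => coeff m (F i)
  have h1 : Submodule.span ℂ (Set.range v) = ⊤ := by
    by_contra hne
    obtain ⟨f, hf, hf2⟩ := Submodule.exists_le_ker_of_lt_top _ (lt_top_iff_ne_top.mpr hne)
    apply hf
    have h2 : ∀ m, ∑ i, f (Pi.single i 1) * coeff m (F i) = 0 := by
      intro m
      have h3 : f (v m) = 0 := hf2 (Submodule.subset_span ⟨m, rfl⟩)
      have h4 : v m = ∑ i, coeff m (F i) • (Pi.single i 1 : Fin r → ℂ) := by
        funext j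
        rw [Finset.sum_apply, Finset.sum_eq_single j]
        · simp [v]
        · intro b _ hb
          simp [Pi.single_apply, hb.symm]
        · simp
      rw [h4, map_sum] at h3
      rw [← h3]
      refine Finset.sum_congr rfl fun i _ => ?_
      rw [map_smul, smul_eq_mul, mul_comm]
    have h5 : ∑ i, f (Pi.single i 1) • F i = 0 := by
      ext m
      rw [coeff_sum, coeff_zero, ← h2 m]
      refine Finset.sum_congr rfl fun i _ => ?_
      rw [coeff_smul, smul_eq_mul]
    have h6 := Fintype.linearIndependent_iff.mp hF _ h5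
    apply LinearMap.pi_ext'
    intro i
    apply LinearMap.ext_ring
    exact h6 i
  obtain ⟨κ, a, _, ha2, ha3⟩ := exists_linearIndependent' ℂ v
  rw [h1] at ha2
  let b : Module.Basis κ ℂ (Fin r → ℂ) := Module.Basis.mk ha3 ha2.ge
  have hfin : Finite κ := Module.Finite.finite_basis b
  have : Fintype κ := Fintype.ofFinite κ
  have hcard : Fintype.card κ = Fintype.card (Fin r) := by
    rw [← Module.finrank_eq_card_basis b, Module.finrank_fin_fun, Fintype.card_fin]
  let e := Fintype.equivOfCardEq hcard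
  refine ⟨fun j => a (e.symm j), ?_⟩
  let b' : Module.Basis (Fin r) ℂ (Fin r → ℂ) := b.reindex e
  have h2 : LinearIndependent ℂ (fun j => v (a (e.symm j))) := by
    have := b'.linearIndependent
    have h3 : (b' : Fin r → (Fin r → ℂ)) = fun j => v (a (e.symm j)) := by
      funext j
      simp [b', b]
    rwa [h3] at this
  have h3 : (Matrix.of fun i j => coeff (a (e.symm j)) (F i) : Matrix (Fin r) (Fin r) ℂ) =
      (Matrix.of fun j => v (a (e.symm j))).transpose := rfl
  unfold plu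
  rw [h3, Matrix.det_transpose]
  intro h0
  obtain ⟨w, hw, hw2⟩ := Matrix.exists_vecMul_eq_zero_iff.mpr h0
  apply hw
  funext j
  apply Fintype.linearIndependent_iff.mp h2 w
  rw [← hw2]
  funext i
  simp [Matrix.vecMul, dotProduct]

theorem IsFrame.mat {W : Submodule ℂ (MvPolynomial (Fin n) ℂ)}
    {G : Fin r → MvPolynomial (Fin n) ℂ} (hG : IsFrame W G) (M : Matrix (Fin r) (Fin r) ℂ)
    (hM : M.det ≠ 0) : IsFrame W (fun i => ∑ l, M i l • G l) := by
  constructor
  · rw [Fintype.linearIndependent_iff]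
    intro c hc
    have h1 : ∑ l, (Matrix.vecMul c M) l • G l = 0 := by
      rw [← hc]
      simp only [Finset.smul_sum, smul_smul]
      rw [Finset.sum_comm]
      refine Finset.sum_congr rfl fun l _ => ?_
      rw [← Finset.sum_smul]
      rfl
    have h2 := Fintype.linearIndependent_iff.mp hG.1 _ h1
    exact congrFun (Matrix.eq_zero_of_vecMul_eq_zero hM (funext h2))
  · apply le_antisymm
    · rw [Submodule.span_le]
      rintro _ ⟨i, rfl⟩
      rw [← hG.2]
      exact Submodule.sum_mem _ fun l _ => Submodule.smul_mem _ _ (Submodule.subset_span ⟨l, rfl⟩)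
    · rw [← hG.2, Submodule.span_le]
      rintro _ ⟨l, rfl⟩
      have h1 : G l = ∑ i, M⁻¹ l i • ∑ j, M i j • G j := by
        simp only [Finset.smul_sum, smul_smul]
        rw [Finset.sum_comm]
        have h2 : ∀ j, ∑ i, (M⁻¹ l i * M i j) • G j = if l = j then G j else 0 := by
          intro j
          rw [← Finset.sum_smul]
          have h3 : ∑ i, M⁻¹ l i * M i j = (M⁻¹ * M) l j := (Matrix.mul_apply).symm
          rw [h3, Matrix.nonsing_inv_mul _ (isUnit_iff_ne_zero.mpr hM), Matrix.one_apply]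
          split_ifs
          · rw [one_smul]
          · rw [zero_smul]
        simp only [h2]
        rw [Finset.sum_ite_eq, if_pos (Finset.mem_univ _)]
      rw [SetLike.mem_coe, h1]
      exact Submodule.sum_mem _ fun i _ => Submodule.smul_mem _ _ (Submodule.subset_span ⟨i, rfl⟩)

/-- the submatrix -/
def sm (G : Fin r → MvPolynomial (Fin n) ℂ) (J : Fin r → (Fin n →₀ ℕ)) :
    Matrix (Fin r) (Fin r) ℂ := Matrix.of fun i j => coeff (J j) (G i)

/-- normalized frame -/
def can (G : Fin r → MvPolynomial (Fin n) ℂ) (J : Fin r → (Fin n →₀ ℕ)) :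
    Fin r → MvPolynomial (Fin n) ℂ := fun i => ∑ l, (sm G J)⁻¹ i l • G l

theorem can_frame {W : Submodule ℂ (MvPolynomial (Fin n) ℂ)}
    {G : Fin r → MvPolynomial (Fin n) ℂ} (hG : IsFrame W G) {J : Fin r → (Fin n →₀ ℕ)}
    (hJ : plu G J ≠ 0) : IsFrame W (can G J) := by
  apply hG.mat
  rw [Matrix.det_nonsing_inv, Ring.inverse_eq_inv']
  exact inv_ne_zero hJ

theorem coeffs_can (G : Fin r → MvPolynomial (Fin n) ℂ) (J : Fin r → (Fin n →₀ ℕ)) :
    coeffs (can G J) = fun p => plu G (Function.update J p.1 p.2) / plu G J := by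
  funext p
  change coeff p.2 (∑ l, (sm G J)⁻¹ p.1 l • G l) = _
  rw [coeff_sum]
  simp only [coeff_smul, smul_eq_mul]
  change (Matrix.mulVec (sm G J)⁻¹ (fun l => coeff p.2 (G l))) p.1 = _
  rw [Matrix.inv_def, Matrix.smul_mulVec, ← Matrix.cramer_eq_adjugate_mulVec, Pi.smul_apply,
    Matrix.cramer_apply, Ring.inverse_eq_inv', smul_eq_mul, div_eq_inv_mul]
  have h1 : (sm G J).updateCol p.1 (fun l => coeff p.2 (G l)) =
      Matrix.of fun i j => coeff (Function.update J p.1 p.2 j) (G i) := by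
    ext i j
    rw [Matrix.updateCol_apply, Matrix.of_apply, Function.update_apply]
    split_ifs <;> rfl
  rw [h1]
  rfl

theorem IsRegF.toReg {Y : Set (Submodule ℂ (MvPolynomial (Fin n) ℂ))} {h : Y → ℂ}
    (hr : IsRegF r Y h) : IsReg r Y h := by
  intro W F hF
  obtain ⟨J, hJ⟩ := exists_minor hF.1
  obtain ⟨P, Q, hQ, h1⟩ := hr W (can F J) (can_frame hF hJ)
  set K := max P.totalDegree Q.totalDegree with hK
  have hKP : P.totalDegree ≤ K := le_max_left _ _
  have hKQ : Q.totalDegree ≤ K := le_max_right _ _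
  refine ⟨1 + K, X J * hmg J K P, X J * hmg J K Q, (isHomogeneous_X ℂ J).mul (hmg_homog J hKP),
    (isHomogeneous_X ℂ J).mul (hmg_homog J hKQ), ?_, fun W' G hG hne => ?_⟩
  · rw [map_mul, eval_X, eval_hmg J hKQ _ hJ, ← coeffs_can]
    exact mul_ne_zero hJ (mul_ne_zero (pow_ne_zero _ hJ) hQ)
  · rw [map_mul, eval_X] at hne
    have hJ' : plu G J ≠ 0 := left_ne_zero_of_mul hne
    have h2 := right_ne_zero_of_mul hne
    rw [eval_hmg J hKQ _ hJ', ← coeffs_can] at h2
    rw [map_mul, map_mul, eval_X, eval_hmg J hKQ _ hJ', eval_hmg J hKP _ hJ', ← coeffs_can,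
      mul_div_mul_left _ _ hJ', mul_div_mul_left _ _ (pow_ne_zero _ hJ')]
    exact h1 W' (can G J) (can_frame hG hJ') (right_ne_zero_of_mul h2)

theorem isReg_iff {Y : Set (Submodule ℂ (MvPolynomial (Fin n) ℂ))} {h : Y → ℂ} :
    IsReg r Y h ↔ IsRegF r Y h := ⟨IsReg.toF, IsRegF.toReg⟩

end

end Pool.Agent.Helper819.GradMap
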