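import Pool.Agent.Helper819.Gr.K1

/-!
# The gradient map on GIT quotients

Varieties over `ℂ` are described by their sets of `ℂ`-points and their rings of regular
functions.  `Gr(r, ℂ[z₁,…,z_n]_k)` is the set of `r`-dimensional subspaces of the space of forms
of degree `k`, embedded into a projective space by the Plücker coordinates (the `r × r` minors of
the matrix of the coefficients of a basis); for `r = 1` this is the projective space of forms.
A function on a subset `Y` is regular when it is, locally, a quotient of two homogeneous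
polynomials of the same degree in the Plücker coordinates.
-/

open MvPolynomial

namespace Pool.Agent.Helper819.GradMap

noncomputable section

/-- Linear change of the variables, `f(z) ↦ f(g z)`. -/
def chg {n : ℕ} (g : Matrix (Fin n) (Fin n) ℂ) :
    MvPolynomial (Fin n) ℂ →ₐ[ℂ] MvPolynomial (Fin n) ℂ :=
  aeval fun i => ∑ j, C (g i j) * X j

/-- `ℙX_n^d`: the lines `ℂ f`, where `f` is a form of degree `d` in `n` variables with nonzero
discriminant, i.e. whose partial derivatives have no common zero in `ℂ^n ∖ {0}`. -/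
def PX (n d : ℕ) : Set (Submodule ℂ (MvPolynomial (Fin n) ℂ)) :=
  {L | L ≤ homogeneousSubmodule (Fin n) ℂ d ∧ Module.finrank ℂ L = 1 ∧
    ∀ f ∈ L, f ≠ 0 → ∀ x : Fin n → ℂ, (∀ i, eval x (pderiv i f) = 0) → x = 0}

/-- `Z_n^k`: the `n`-dimensional spaces of forms of degree `k` in `n` variables which have no
common zero in `ℂ^n ∖ {0}`. -/
def Z (n k : ℕ) : Set (Submodule ℂ (MvPolynomial (Fin n) ℂ)) :=
  {W | W ≤ homogeneousSubmodule (Fin n) ℂ k ∧ Module.finrank ℂ W = n ∧
    ∀ x : Fin n → ℂ, (∀ F ∈ W, eval x F = 0) → x = 0}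

/-- `F₁, …, F_r` is a basis of the space `W`. -/
def IsFrame {n r : ℕ} (W : Submodule ℂ (MvPolynomial (Fin n) ℂ))
    (F : Fin r → MvPolynomial (Fin n) ℂ) : Prop :=
  LinearIndependent ℂ F ∧ Submodule.span ℂ (Set.range F) = W

/-- The Plücker coordinates of the span of `F₁, …, F_r`: the `r × r` minors of the matrix of
the coefficients of `F₁, …, F_r` (for `r = 1`, the coefficients of `F₁`). -/
def plu {n r : ℕ} (F : Fin r → MvPolynomial (Fin n) ℂ) (J : Fin r → (Fin n →₀ ℕ)) : ℂ :=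
  (Matrix.of fun i j => coeff (J j) (F i)).det

/-- The regular functions on a set `Y` of `r`-dimensional spaces of forms: every point `W` of `Y`
(with basis `F`) has a neighbourhood, the set where a form `Q` in the Plücker coordinates does
not vanish, on which `h` is the quotient `P / Q` of two forms of the same degree in the Plücker
coordinates. -/
def IsReg (r : ℕ) {n : ℕ} (Y : Set (Submodule ℂ (MvPolynomial (Fin n) ℂ))) (h : Y → ℂ) : Prop :=
  ∀ (W : Y) (F : Fin r → MvPolynomial (Fin n) ℂ), IsFrame W.1 F →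
    ∃ (m : ℕ) (P Q : MvPolynomial (Fin r → (Fin n →₀ ℕ)) ℂ),
      P.IsHomogeneous m ∧ Q.IsHomogeneous m ∧ eval (plu F) Q ≠ 0 ∧
      ∀ (W' : Y) (G : Fin r → MvPolynomial (Fin n) ℂ), IsFrame W'.1 G →
        eval (plu G) Q ≠ 0 → h W' = eval (plu G) P / eval (plu G) Q

/-- `h` is an `SL_n`-invariant regular function on the set `Y` of `r`-dimensional spaces of
forms. -/
def IsInv (r : ℕ) {n : ℕ} (Y : Set (Submodule ℂ (MvPolynomial (Fin n) ℂ))) (h : Y → ℂ) : Prop :=
  IsReg r Y h ∧ ∀ (g : Matrix.SpecialLinearGroup (Fin n) ℂ) (W W' : Y),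
    W'.1 = W.1.map (chg g.1).toLinearMap → h W' = h W

theorem IsInv.mul {r n : ℕ} {Y : Set (Submodule ℂ (MvPolynomial (Fin n) ℂ))} {a b : Y → ℂ}
    (ha : IsInv r Y a) (hb : IsInv r Y b) : IsInv r Y (a * b) := by
  obtain ⟨ha, ha'⟩ := ha
  obtain ⟨hb, hb'⟩ := hb
  refine ⟨fun W F hF => ?_, fun g W W' h => ?_⟩
  · obtain ⟨m, P, Q, hmP, hmQ, hQ, h1⟩ := ha W F hF
    obtain ⟨m', P', Q', hmP', hmQ', hQ', h2⟩ := hb W F hF
    refine ⟨m + m', P * P', Q * Q', hmP.mul hmP', hmQ.mul hmQ',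
      by rw [map_mul]; exact mul_ne_zero hQ hQ', fun W' G hG hne => ?_⟩
    rw [map_mul] at hne
    rw [Pi.mul_apply, h1 W' G hG (left_ne_zero_of_mul hne),
      h2 W' G hG (right_ne_zero_of_mul hne), map_mul, map_mul, div_mul_div_comm]
  · rw [Pi.mul_apply, Pi.mul_apply, ha' g W W' h, hb' g W W' h]

theorem IsInv.add {r n : ℕ} {Y : Set (Submodule ℂ (MvPolynomial (Fin n) ℂ))} {a b : Y → ℂ}
    (ha : IsInv r Y a) (hb : IsInv r Y b) : IsInv r Y (a + b) := by
  obtain ⟨ha, ha'⟩ := ha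
  obtain ⟨hb, hb'⟩ := hb
  refine ⟨fun W F hF => ?_, fun g W W' h => ?_⟩
  · obtain ⟨m, P, Q, hmP, hmQ, hQ, h1⟩ := ha W F hF
    obtain ⟨m', P', Q', hmP', hmQ', hQ', h2⟩ := hb W F hF
    refine ⟨m + m', P * Q' + Q * P', Q * Q', (hmP.mul hmQ').add (hmQ.mul hmP'),
      hmQ.mul hmQ', by rw [map_mul]; exact mul_ne_zero hQ hQ', fun W' G hG hne => ?_⟩
    rw [map_mul] at hne
    rw [Pi.add_apply, h1 W' G hG (left_ne_zero_of_mul hne),
      h2 W' G hG (right_ne_zero_of_mul hne), map_add, map_mul, map_mul, map_mul,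
      div_add_div _ _ (left_ne_zero_of_mul hne) (right_ne_zero_of_mul hne)]
  · rw [Pi.add_apply, Pi.add_apply, ha' g W W' h, hb' g W W' h]

theorem IsInv.const {r n : ℕ} {Y : Set (Submodule ℂ (MvPolynomial (Fin n) ℂ))} (a : ℂ) :
    IsInv r Y (fun _ => a) := by
  refine ⟨fun W F _ => ⟨0, C a, 1, isHomogeneous_C _ _, isHomogeneous_one _ _,
    by rw [map_one]; exact one_ne_zero, fun W' G _ _ => ?_⟩, fun g W W' _ => rfl⟩
  rw [map_one, eval_C, div_one]

/-- The ring `ℂ[Y]^{SL_n}` of the `SL_n`-invariant regular functions on a set `Y` of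
`r`-dimensional spaces of forms, as a subalgebra of the algebra of all functions on `Y`. -/
def Inv (r : ℕ) {n : ℕ} (Y : Set (Submodule ℂ (MvPolynomial (Fin n) ℂ))) :
    Subalgebra ℂ (Y → ℂ) where
  carrier := {h | IsInv r Y h}
  mul_mem' := IsInv.mul
  add_mem' := IsInv.add
  algebraMap_mem' := IsInv.const

/-- The ring `ℂ[Y]^{SL_n}`, as a type; `Y // SL_n` is its prime spectrum. -/
def InvRing (r : ℕ) {n : ℕ} (Y : Set (Submodule ℂ (MvPolynomial (Fin n) ℂ))) : Type :=
  {h : Y → ℂ // h ∈ Inv r Y}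

/-- The ring structure of the subalgebra `Inv r Y`. -/
instance (r : ℕ) {n : ℕ} (Y : Set (Submodule ℂ (MvPolynomial (Fin n) ℂ))) :
    CommRing (InvRing r Y) := Subalgebra.toCommRing (Inv r Y)

/-- The algebra structure of the subalgebra `Inv r Y`. -/
instance (r : ℕ) {n : ℕ} (Y : Set (Submodule ℂ (MvPolynomial (Fin n) ℂ))) :
    Algebra ℂ (InvRing r Y) := Subalgebra.algebra (Inv r Y)

/-- The span of all the partial derivatives of the members of `L`; for `L = ℂ f` this is
`⟨∂f/∂z₁, …, ∂f/∂z_n⟩`. -/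
def gradSpace {n : ℕ} (L : Submodule ℂ (MvPolynomial (Fin n) ℂ)) :
    Submodule ℂ (MvPolynomial (Fin n) ℂ) :=
  ⨆ i : Fin n, L.map (pderiv i : Derivation ℂ (MvPolynomial (Fin n) ℂ) _).toLinearMap

end

end Pool.Agent.Helper819.GradMap
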