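import Pool.Agent.Helper819.Gr.Bridge

/-!
The gradient map between the two varieties and the pull back of invariant functions.
-/

open MvPolynomial

namespace Pool.Agent.Helper819.GradMap

open Pool.Agent.Helper819.Gr Pool.Agent.Helper819.Dyn

noncomputable section

set_option linter.unusedSectionVars false

theorem PX_gen {n d : ℕ} {L : Submodule ℂ (MvPolynomial (Fin n) ℂ)} (hL : L ∈ PX n d) :
    ∃ f : MvPolynomial (Fin n) ℂ, f ≠ 0 ∧ f.IsHomogeneous d ∧ L = Submodule.span ℂ {f} := by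
  obtain ⟨h1, h2, _⟩ := hL
  obtain ⟨v, hv, hv2⟩ := finrank_eq_one_iff'.mp h2
  refine ⟨v.1, fun h => hv (Subtype.ext h), h1 v.2, ?_⟩
  apply le_antisymm
  · intro w hw
    obtain ⟨c, hc⟩ := hv2 ⟨w, hw⟩
    have h3 : c • v.1 = w := congrArg Subtype.val hc
    rw [← h3]
    exact Submodule.smul_mem _ _ (Submodule.mem_span_singleton_self _)
  · rw [Submodule.span_singleton_le_iff_mem]
    exact v.2

theorem frame_one {n : ℕ} {L : Submodule ℂ (MvPolynomial (Fin n) ℂ)}
    {F : Fin 1 → MvPolynomial (Fin n) ℂ} (hF : IsFrame L F) :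
    F 0 ≠ 0 ∧ L = Submodule.span ℂ {F 0} := by
  refine ⟨hF.1.ne_zero 0, ?_⟩
  rw [← hF.2]
  congr 1
  ext x
  constructor
  · rintro ⟨i, rfl⟩
    rw [Subsingleton.elim i 0]
    rfl
  · rintro rfl
    exact ⟨0, rfl⟩

theorem frame_of_ne {n : ℕ} {f : MvPolynomial (Fin n) ℂ} (hf : f ≠ 0) :
    IsFrame (Submodule.span ℂ {f}) (fun _ : Fin 1 => f) := by
  constructor
  · exact LinearIndependent.of_subsingleton 0 hf
  · congr 1
    exact Set.range_const

theorem gradSpace_span {n : ℕ} (f : MvPolynomial (Fin n) ℂ) :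
    gradSpace (Submodule.span ℂ {f}) = Submodule.span ℂ (Set.range fun i => pderiv i f) := by
  unfold gradSpace
  apply le_antisymm
  · apply iSup_le
    intro i
    rw [Submodule.map_span, Submodule.span_le]
    rintro _ ⟨g, hg, rfl⟩
    rw [Set.mem_singleton_iff.mp hg]
    exact Submodule.subset_span ⟨i, rfl⟩
  · rw [Submodule.span_le]
    rintro _ ⟨i, rfl⟩
    refine Submodule.mem_iSup_of_mem i ⟨f, Submodule.mem_span_singleton_self _, rfl⟩

theorem PX_pos {n d : ℕ} (hd : 3 ≤ d) {L : Submodule ℂ (MvPolynomial (Fin n) ℂ)}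
    (hL : L ∈ PX n d) : ∃ N, n = N + 1 := by
  rcases n with _ | N
  · exfalso
    obtain ⟨f, hf, hfd, _⟩ := PX_gen hL
    obtain ⟨m, hm⟩ := MvPolynomial.ne_zero_iff.mp hf
    apply hm
    apply hfd.coeff_eq_zero
    have : m.degree = 0 := by
      rw [Finsupp.degree_eq_sum]
      simp
    omega
  · exact ⟨N, rfl⟩

theorem linInd_grad {N e : ℕ} (he : 2 ≤ e) {f : MvPolynomial (Fin (N + 1)) ℂ}
    (hf : f.IsHomogeneous (e + 1)) (hNZ : NZ (fun i => pderiv i f)) :
    LinearIndependent ℂ (fun i => pderiv i f) := by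
  rw [Fintype.linearIndependent_iff]
  intro u hu
  have h1 : u = 0 := by
    apply nn he hf hNZ
    rw [Finset.sum_comm]
    apply Finset.sum_eq_zero
    intro j _
    have h2 := congrArg (fun g => C (u j) * pderiv j g) hu
    simp only [map_sum, smul_eq_C_mul, pderiv_C_mul, map_zero, mul_zero] at h2
    rw [Finset.mul_sum] at h2
    rw [← h2]
    refine Finset.sum_congr rfl fun i _ => ?_
    change C (u i) * (C (u j) * pderiv i (pderiv j f)) = _
    rw [pd_comm i j]
    ring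
  exact fun i => congrFun h1 i

theorem PX_nonsing {n d : ℕ} {f : MvPolynomial (Fin n) ℂ}
    (hL : Submodule.span ℂ {f} ∈ PX n d) (hf : f ≠ 0) (x : Fin n → ℂ)
    (hx : ∀ i, eval x (pderiv i f) = 0) : x = 0 :=
  hL.2.2 f (Submodule.mem_span_singleton_self _) hf x hx

/-- The partial derivatives form a basis of the gradient space. -/
theorem frame_grad {n d : ℕ} (hd : 3 ≤ d) {L : Submodule ℂ (MvPolynomial (Fin n) ℂ)}
    (hL : L ∈ PX n d) {f : MvPolynomial (Fin n) ℂ} (hf : f ≠ 0)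
    (hLf : L = Submodule.span ℂ {f}) : IsFrame (gradSpace L) (fun i => pderiv i f) := by
  obtain ⟨N, rfl⟩ := PX_pos hd hL
  obtain ⟨e, rfl⟩ : ∃ e, d = e + 1 := ⟨d - 1, by omega⟩
  subst hLf
  refine ⟨linInd_grad (by omega) (hL.1 (Submodule.mem_span_singleton_self f))
    (fun x hx => PX_nonsing hL hf x hx), (gradSpace_span f).symm⟩

theorem gradSpace_mem {n d : ℕ} (hd : 3 ≤ d) {L : Submodule ℂ (MvPolynomial (Fin n) ℂ)}
    (hL : L ∈ PX n d) : gradSpace L ∈ Z n (d - 1) := by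
  obtain ⟨f, hf, hfd, hLf⟩ := PX_gen hL
  obtain ⟨h1, h2⟩ := frame_grad hd hL hf hLf
  refine ⟨?_, ?_, ?_⟩
  · rw [← h2, Submodule.span_le]
    rintro _ ⟨i, rfl⟩
    exact hfd.pderiv
  · rw [← h2, finrank_span_eq_card h1, Fintype.card_fin]
  · intro x hx
    subst hLf
    apply PX_nonsing hL hf
    intro i
    apply hx
    rw [← h2]
    exact Submodule.subset_span ⟨i, rfl⟩

/-- The gradient morphism `ℙX_n^d → Z_n^{d-1}`, `[f] ↦ ⟨∂f/∂z₁, …, ∂f/∂z_n⟩`. -/
def gradMap (n d : ℕ) (hd : 3 ≤ d) (L : PX n d) : Z n (d - 1) :=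
  ⟨gradSpace L.1, gradSpace_mem hd L.2⟩

/-- substitution of the coefficients of the partial derivatives -/
def cgrad (n : ℕ) : MvPolynomial (Fin n × (Fin n →₀ ℕ)) ℂ →ₐ[ℂ]
    MvPolynomial (Fin 1 × (Fin n →₀ ℕ)) ℂ :=
  aeval fun p => C ((p.2 p.1 + 1 : ℕ) : ℂ) * X (0, p.2 + Finsupp.single p.1 1)

theorem eval_cgrad {n : ℕ} (F : Fin 1 → MvPolynomial (Fin n) ℂ)
    (P : MvPolynomial (Fin n × (Fin n →₀ ℕ)) ℂ) :
    eval (coeffs F) (cgrad n P) = eval (coeffs fun i => pderiv i (F 0)) P := by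
  unfold cgrad
  have h1 := comp_aeval_apply (R := ℂ) (fun p : Fin n × (Fin n →₀ ℕ) =>
    (C ((p.2 p.1 + 1 : ℕ) : ℂ) * X ((0 : Fin 1), p.2 + Finsupp.single p.1 1) :
      MvPolynomial (Fin 1 × (Fin n →₀ ℕ)) ℂ)) (aeval (coeffs F)) P
  rw [← coe_aeval_eq_eval, ← coe_aeval_eq_eval]
  refine h1.trans ?_
  change aeval _ P = aeval _ P
  congr 2
  funext p
  rw [map_mul, aeval_X, algHom_C]
  change ((p.2 p.1 + 1 : ℕ) : ℂ) * coeff (p.2 + Finsupp.single p.1 1) (F 0) =
    coeff p.2 (pderiv p.1 (F 0))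
  rcases n with _ | N
  · exact p.1.elim0
  · rw [coeff_pderiv']

theorem gradSpace_chg {n d : ℕ} (hd : 3 ≤ d) {L : Submodule ℂ (MvPolynomial (Fin n) ℂ)}
    (hL : L ∈ PX n d) (g : Matrix (Fin n) (Fin n) ℂ) (hg : IsUnit g.det) :
    gradSpace (L.map (chg g).toLinearMap) = (gradSpace L).map (chg g).toLinearMap := by
  obtain ⟨f, hf, hfd, hLf⟩ := PX_gen hL
  obtain ⟨N, rfl⟩ := PX_pos hd hL
  subst hLf
  rw [Submodule.map_span, Set.image_singleton, gradSpace_span, gradSpace_span,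
    Submodule.map_span]
  have hp : ∀ i, pderiv i (chg g f) = ∑ l, g l i • chg g (pderiv l f) := by
    intro i
    have h1 := pderiv_subst g f i
    simp only [← smul_eq_C_mul] at h1
    exact h1
  apply le_antisymm
  · rw [Submodule.span_le]
    rintro _ ⟨i, rfl⟩
    change pderiv i (chg g f) ∈ _
    rw [hp]
    exact Submodule.sum_mem _ fun l _ => Submodule.smul_mem _ _
      (Submodule.subset_span ⟨pderiv l f, ⟨l, rfl⟩, rfl⟩)
  · rw [Submodule.span_le]
    rintro _ ⟨_, ⟨l, rfl⟩, rfl⟩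
    have h2 : chg g (pderiv l f) = ∑ i, g⁻¹ i l • pderiv i (chg g f) := by
      simp only [hp, Finset.smul_sum, smul_smul]
      rw [Finset.sum_comm]
      have h3 : ∀ m, ∑ i, (g⁻¹ i l * g m i) • chg g (pderiv m f) =
          (if m = l then chg g (pderiv m f) else 0) := by
        intro m
        rw [← Finset.sum_smul]
        have h4 : ∑ i, g⁻¹ i l * g m i = (g * g⁻¹) m l := by
          rw [Matrix.mul_apply]
          exact Finset.sum_congr rfl fun i _ => mul_comm _ _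
        rw [h4, Matrix.mul_nonsing_inv _ hg, Matrix.one_apply]
        split_ifs
        · rw [one_smul]
        · rw [zero_smul]
      simp only [h3]
      rw [Finset.sum_ite_eq' , if_pos (Finset.mem_univ _)]
    change chg g (pderiv l f) ∈ _
    rw [h2]
    exact Submodule.sum_mem _ fun i _ => Submodule.smul_mem _ _ (Submodule.subset_span ⟨i, rfl⟩)

theorem pull_mem {n d : ℕ} (hd : 3 ≤ d) {h : Z n (d - 1) → ℂ} (hh : IsInv n (Z n (d - 1)) h) :
    IsInv 1 (PX n d) (fun L => h (gradMap n d hd L)) := by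
  obtain ⟨hreg', hinv⟩ := hh
  have hreg := hreg'.toF
  refine ⟨IsRegF.toReg fun L F hF => ?_, fun g L L' hLL' => ?_⟩
  · obtain ⟨hF0, hLF⟩ := frame_one hF
    obtain ⟨P, Q, hQ, h1⟩ := hreg (gradMap n d hd L) _ (frame_grad hd L.2 hF0 hLF)
    refine ⟨cgrad n P, cgrad n Q, by rw [eval_cgrad]; exact hQ, fun L' G hG hne => ?_⟩
    obtain ⟨hG0, hLG⟩ := frame_one hG
    rw [eval_cgrad] at hne
    rw [eval_cgrad, eval_cgrad]
    exact h1 (gradMap n d hd L') _ (frame_grad hd L'.2 hG0 hLG) hne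
  · apply hinv g
    change gradSpace L'.1 = (gradSpace L.1).map _
    rw [hLL']
    exact gradSpace_chg hd L.2 g.1 (by rw [g.2]; exact isUnit_one)

/-- The pull back `h ∘ gradMap` of an invariant function along the gradient morphism. -/
def pull (n d : ℕ) (hd : 3 ≤ d) (h : InvRing n (Z n (d - 1))) : InvRing 1 (PX n d) :=
  ⟨fun L => h.1 (gradMap n d hd L), pull_mem hd h.2⟩

/-- The pull back of invariant functions along the gradient morphism as an algebra homomorphism,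
`ℂ[Z_n^{d-1}]^{SL_n} → ℂ[ℙX_n^d]^{SL_n}`. -/
def pullback (n d : ℕ) (hd : 3 ≤ d) : InvRing n (Z n (d - 1)) →ₐ[ℂ] InvRing 1 (PX n d) where
  toFun := pull n d hd
  map_one' := rfl
  map_mul' _ _ := rfl
  map_zero' := rfl
  map_add' _ _ := rfl
  commutes' _ := rfl

/-- The image of the morphism `ℙX_n^d // SL_n → Z_n^{d-1} // SL_n` induced by the gradient
morphism, as a subset of `Z_n^{d-1} // SL_n = Spec ℂ[Z_n^{d-1}]^{SL_n}`. -/
def gradImage (n d : ℕ) (hd : 3 ≤ d) : Set (PrimeSpectrum (InvRing n (Z n (d - 1)))) :=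
  Set.range (PrimeSpectrum.comap (pullback n d hd).toRingHom)

end

end Pool.Agent.Helper819.GradMap
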