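import Mathlib

/-!
Amalgamation of field extensions and descent of functions.
-/

open MvPolynomial

namespace Pool.Agent.Helper819.Gr

noncomputable section

set_option linter.unusedSectionVars false

/-- Two extensions of a field embed in a common algebraically closed field. -/
theorem amalgam {F A B : Type} [Field F] [Field A] [Field B] (i : F →+* A) (j : F →+* B) :
    ∃ (Ω : Type) (_ : Field Ω) (_ : IsAlgClosed Ω) (σ : A →+* Ω) (τ : B →+* Ω),
      ∀ a, σ (i a) = τ (j a) := by
  letI : Algebra F A := i.toAlgebra
  letI : Algebra F B := j.toAlgebra
  obtain ⟨M, hM⟩ := Ideal.exists_maximal (TensorProduct F A B)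
  letI : Field (TensorProduct F A B ⧸ M) := Ideal.Quotient.field M
  let Ω := AlgebraicClosure (TensorProduct F A B ⧸ M)
  let q : TensorProduct F A B →+* Ω :=
    (algebraMap (TensorProduct F A B ⧸ M) Ω).comp (Ideal.Quotient.mk M)
  refine ⟨Ω, inferInstance, inferInstance,
    q.comp (Algebra.TensorProduct.includeLeft : A →ₐ[F] TensorProduct F A B).toRingHom,
    q.comp (Algebra.TensorProduct.includeRight : B →ₐ[F] TensorProduct F A B).toRingHom, ?_⟩
  intro a
  change q (Algebra.TensorProduct.includeLeft (algebraMap F A a)) =
    q (Algebra.TensorProduct.includeRight (algebraMap F B a))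
  rw [AlgHom.commutes, AlgHom.commutes]

theorem mem_of_two {k L ι : Type} [Field k] [CharZero k] [Field L] [Algebra k L] (x : ι → L)
    (b : L)
    (h : ∀ (Ω : Type) [Field Ω] [IsAlgClosed Ω] (σ τ : L →+* Ω),
      (∀ a : k, σ (algebraMap k L a) = τ (algebraMap k L a)) →
      (∀ p, σ (x p) = τ (x p)) → σ b = τ b) :
    ∃ P Q : MvPolynomial ι k, aeval x Q ≠ 0 ∧ b * aeval x Q = aeval x P := by
  let K := IntermediateField.adjoin k (Set.range x)
  have hagree : ∀ (Ω : Type) [Field Ω] [IsAlgClosed Ω] (σ τ : L →+* Ω),
      (∀ a : K, σ (algebraMap K L a) = τ (algebraMap K L a)) → σ b = τ b := by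
    intro Ω _ _ σ τ hστ
    apply h Ω σ τ
    · intro a
      exact hστ (algebraMap k K a)
    · intro p
      exact hστ ⟨x p, IntermediateField.subset_adjoin _ _ ⟨p, rfl⟩⟩
  have hb : b ∈ K := by
    by_cases hal : IsAlgebraic K b
    · -- algebraic case
      let M := AlgebraicClosure L
      have hint : IsIntegral K b := hal.isIntegral
      let F := IntermediateField.adjoin K {b}
      have : FiniteDimensional K F := IntermediateField.adjoin.finiteDimensional hint
      let g : F := IntermediateField.AdjoinSimple.gen K b
      have hg : algebraMap F L g = b := IntermediateField.AdjoinSimple.algebraMap_gen K b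
      have hmin : minpoly K g = minpoly K b := IntermediateField.minpoly_gen K b
      have h0 : ∀ ψ : F →ₐ[K] M, ψ g = algebraMap L M b := by
        intro ψ
        obtain ⟨Ω, _, _, σ, τ, hστ⟩ := amalgam (ψ : F →+* M) (algebraMap F L)
        have h1 := hagree Ω (σ.comp (algebraMap L M)) τ (by
          intro a
          have h2 := hστ (algebraMap K F a)
          have h3 : (ψ : F →+* M) (algebraMap K F a) = algebraMap L M (algebraMap K L a) :=
            ψ.commutes a
          rw [h3] at h2
          exact h2)
        have h2 := hστ g
        rw [hg, ← h1] at h2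
        exact σ.injective h2
      have h1 : (minpoly K b).rootSet M = {algebraMap L M b} := by
        rw [← hmin, ← Algebra.IsAlgebraic.range_eval_eq_rootSet_minpoly M g]
        ext y
        constructor
        · rintro ⟨ψ, rfl⟩
          exact h0 ψ
        · rintro rfl
          refine ⟨IsScalarTower.toAlgHom K F M, ?_⟩
          exact h0 _
      have h2 : (minpoly K b).natDegree = 1 := by
        have hsep : (minpoly K b).Separable := (minpoly.irreducible hint).separable
        rw [← Polynomial.card_rootSet_eq_natDegree (K := M) hsep (IsAlgClosed.splits _)]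
        have : Fintype.card ((minpoly K b).rootSet M) =
            Fintype.card ({algebraMap L M b} : Set M) := by
          apply Fintype.card_congr
          rw [h1]
        rw [this]
        simp
      obtain ⟨c, hc⟩ := minpoly.natDegree_eq_one_iff.mp h2
      rw [← hc]
      exact c.2
    · -- transcendental case
      exfalso
      have htr : Transcendental K b := hal
      have htr' : Transcendental K (b + 1) := by
        intro h'
        apply hal
        have : b = (b + 1) - 1 := by ring
        rw [this]
        exact h'.sub isAlgebraic_one
      have hi : Function.Injective (Polynomial.aeval b : Polynomial K →ₐ[K] L).toRingHom :=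
        transcendental_iff_injective.mp htr
      have hj : Function.Injective (Polynomial.aeval (b + 1) : Polynomial K →ₐ[K] L).toRingHom :=
        transcendental_iff_injective.mp htr'
      let F := FractionRing (Polynomial K)
      let i : F →+* L := IsFractionRing.lift hi
      let j : F →+* L := IsFractionRing.lift hj
      have hi' : ∀ p, i (algebraMap (Polynomial K) F p) = Polynomial.aeval b p :=
        fun p => IsFractionRing.lift_algebraMap hi p
      have hj' : ∀ p, j (algebraMap (Polynomial K) F p) = Polynomial.aeval (b + 1) p :=
        fun p => IsFractionRing.lift_algebraMap hj p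
      obtain ⟨Ω, _, _, σ, τ, hστ⟩ := amalgam i j
      have h1 := hagree Ω σ τ (by
        intro a
        have h2 := hστ (algebraMap (Polynomial K) F (Polynomial.C a))
        rw [hi', hj', Polynomial.aeval_C, Polynomial.aeval_C] at h2
        exact h2)
      have h2 := hστ (algebraMap (Polynomial K) F Polynomial.X)
      rw [hi', hj', Polynomial.aeval_X, Polynomial.aeval_X, h1, map_add, map_one] at h2
      exact one_ne_zero (left_eq_add.mp h2)
  obtain ⟨P, Q, hPQ⟩ := (IntermediateField.mem_adjoin_range_iff k x b).mp hb
  by_cases hQ : aeval x Q = 0
  · rw [hQ, div_zero] at hPQ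
    exact ⟨0, 1, by simp, by rw [hPQ]; simp⟩
  · refine ⟨P, Q, hQ, ?_⟩
    rw [hPQ]
    field_simp

end

end Pool.Agent.Helper819.Gr
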