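import Pool.Agent.Helper819.Gr.RAct
import Pool.Agent.Helper819.Lie

/-!
The actions on forms and on tuples of forms, and the gradient map.
-/

open MvPolynomial

namespace Pool.Agent.Helper819.Gr

open Pool.Agent.Helper819.Apolar Pool.Agent.Helper819.Dyn

noncomputable section

set_option linter.unusedSectionVars false

/-- `1 + e Y` -/
def oneE {ι : Type} {n : ℕ} {R S : Type} [CommRing R] [CommRing S] [Algebra R S] (e : S)
    (Y : Mt ι n R) : Mt ι n S := fun s => 1 + e • (Y s).map (algebraMap R S)

/-- An action together with its derivative. -/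
structure DAct (ι : Type) [Fintype ι] [DecidableEq ι] (n : ℕ) (σ : Type) extends
    RAct ι n σ where
  xi : ∀ {R : Type} [CommRing R], Mt ι n R → (σ → R) → (σ → R)
  xi_add : ∀ {R : Type} [CommRing R] (Y Y' : Mt ι n R) (c : σ → R),
    xi (Y + Y') c = xi Y c + xi Y' c
  xi_smul : ∀ {R : Type} [CommRing R] (r : R) (Y : Mt ι n R) (c : σ → R),
    xi (r • Y) c = r • xi Y c
  map_xi : ∀ {R S : Type} [CommRing R] [CommRing S] (φ : R →+* S) (Y : Mt ι n R) (c : σ → R)
    (p : σ), φ (xi Y c p) = xi (fun s => (Y s).map φ) (fun q => φ (c q)) p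
  act_eps : ∀ {R S : Type} [CommRing R] [CommRing S] [Algebra R S] (e : S), e * e = 0 →
    ∀ (Y : Mt ι n R) (c : σ → R) (p : σ),
      act (oneE e Y) (fun q => algebraMap R S (c q)) p =
        algebraMap R S (c p) + e * algebraMap R S (xi Y c p)

section subst

variable {R S : Type} [CommRing R] [CommRing S] {N d : ℕ}

/-- linear substitution `F(g x)` -/
def subst (g : Matrix (Fin (N + 1)) (Fin (N + 1)) R) :
    MvPolynomial (Fin (N + 1)) R →ₐ[R] MvPolynomial (Fin (N + 1)) R :=
  bind₁ (fun l => ∑ m, C (g l m) * X m)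

theorem subst_subst (A B : Matrix (Fin (N + 1)) (Fin (N + 1)) R)
    (F : MvPolynomial (Fin (N + 1)) R) : subst B (subst A F) = subst (A * B) F := by
  unfold subst
  rw [bind₁_bind₁]
  congr 2
  funext l
  exact bind_lin A B l

theorem subst_one (F : MvPolynomial (Fin (N + 1)) R) : subst 1 F = F := by
  unfold subst
  have h1 : (fun l => ∑ m, C ((1 : Matrix (Fin (N + 1)) (Fin (N + 1)) R) l m) * X m) =
      (X : Fin (N + 1) → MvPolynomial (Fin (N + 1)) R) := by
    funext l
    rw [Finset.sum_eq_single l]
    · simp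
    · intro b _ hb
      rw [Matrix.one_apply_ne hb.symm]; simp
    · simp
  rw [h1, bind₁_X_left]
  rfl

theorem subst_homog (g : Matrix (Fin (N + 1)) (Fin (N + 1)) R) {F : MvPolynomial (Fin (N + 1)) R}
    (hF : F.IsHomogeneous d) : (subst g F).IsHomogeneous d := by
  have := hF.aeval (fun l => ∑ m, C (g l m) * X m) (n := 1) (by
    intro l
    refine IsHomogeneous.sum _ _ _ fun m _ => ?_
    exact isHomogeneous_C_mul_X _ _)
  unfold subst
  simpa using this

theorem map_subst (φ : R →+* S) (g : Matrix (Fin (N + 1)) (Fin (N + 1)) R)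
    (F : MvPolynomial (Fin (N + 1)) R) : map φ (subst g F) = subst (g.map φ) (map φ F) := by
  unfold subst
  rw [map_bind₁]
  congr 2
  funext l
  simp

theorem eval_subst (g : Matrix (Fin (N + 1)) (Fin (N + 1)) R)
    (F : MvPolynomial (Fin (N + 1)) R) (x : Fin (N + 1) → R) :
    eval x (subst g F) = eval (g.mulVec x) F := by
  unfold subst
  rw [Pool.Agent.Helper819.Zar.eval_bind]
  congr 2
  funext l
  simp [Matrix.mulVec, dotProduct]

theorem pderiv_subst (g : Matrix (Fin (N + 1)) (Fin (N + 1)) R)
    (F : MvPolynomial (Fin (N + 1)) R) (i : Fin (N + 1)) :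
    pderiv i (subst g F) = ∑ l, C (g l i) * subst g (pderiv l F) := by
  induction F using MvPolynomial.induction_on with
  | C a => simp [subst]
  | add p q hp hq =>
    simp only [map_add, hp, hq, mul_add, Finset.sum_add_distrib]
  | mul_X p l hp =>
    rw [map_mul, Derivation.leibniz, hp]
    simp only [Derivation.leibniz, map_add, smul_eq_mul, map_mul]
    have h1 : pderiv i (subst g (X l)) = C (g l i) := by
      unfold subst
      rw [bind₁_X_right, map_sum]
      simp only [pderiv_C_mul]
      rw [Finset.sum_eq_single i]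
      · simp
      · intro j _ hj
        rw [pderiv_X_of_ne hj, mul_zero]
      · simp
    rw [h1]
    simp only [mul_add, Finset.sum_add_distrib]
    congr 1
    · rw [Finset.sum_eq_single l]
      · rw [pderiv_X_self, map_one]; ring
      · intro j _ hj
        rw [pderiv_X_of_ne hj.symm]; simp
      · simp
    · rw [Finset.mul_sum]
      exact Finset.sum_congr rfl fun j _ => by ring

/-- derivative of the substitution -/
def dsub (Y : Matrix (Fin (N + 1)) (Fin (N + 1)) R) (F : MvPolynomial (Fin (N + 1)) R) :
    MvPolynomial (Fin (N + 1)) R :=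
  ∑ l, (∑ m, C (Y l m) * X m) * pderiv l F

theorem map_dsub (φ : R →+* S) (Y : Matrix (Fin (N + 1)) (Fin (N + 1)) R)
    (F : MvPolynomial (Fin (N + 1)) R) : map φ (dsub Y F) = dsub (Y.map φ) (map φ F) := by
  simp only [dsub, map_sum, map_mul, map_C, map_X, Matrix.map_apply, pderiv_map]

theorem dsub_add (Y Y' : Matrix (Fin (N + 1)) (Fin (N + 1)) R)
    (F : MvPolynomial (Fin (N + 1)) R) : dsub (Y + Y') F = dsub Y F + dsub Y' F := by
  simp only [dsub, Matrix.add_apply, map_add, add_mul, Finset.sum_add_distrib]

theorem dsub_smul (r : R) (Y : Matrix (Fin (N + 1)) (Fin (N + 1)) R)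
    (F : MvPolynomial (Fin (N + 1)) R) : dsub (r • Y) F = C r * dsub Y F := by
  simp only [dsub, Matrix.smul_apply, smul_eq_mul, map_mul, Finset.mul_sum, Finset.sum_mul,
    mul_assoc]

theorem subst_eps [Algebra R S] (e : S) (he : e * e = 0)
    (Y : Matrix (Fin (N + 1)) (Fin (N + 1)) R) (F : MvPolynomial (Fin (N + 1)) R) :
    subst (1 + e • Y.map (algebraMap R S)) (map (algebraMap R S) F) =
      map (algebraMap R S) F + C e * map (algebraMap R S) (dsub Y F) := by
  unfold subst
  have h1 : (fun l => ∑ m, C ((1 + e • Y.map (algebraMap R S) :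
      Matrix (Fin (N + 1)) (Fin (N + 1)) S) l m) * X m :
      Fin (N + 1) → MvPolynomial (Fin (N + 1)) S) =
      fun l => X l + C e * map (algebraMap R S) (∑ m, C (Y l m) * X m) := by
    funext l
    have h2 : ∀ m, C ((1 + e • Y.map (algebraMap R S) :
        Matrix (Fin (N + 1)) (Fin (N + 1)) S) l m) * (X m : MvPolynomial (Fin (N + 1)) S) =
        (if l = m then X m else 0) + C e * (C (algebraMap R S (Y l m)) * X m) := by
      intro m
      rw [Matrix.add_apply, Matrix.smul_apply, Matrix.map_apply, Matrix.one_apply, map_add,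
        add_mul, smul_eq_mul, map_mul, mul_assoc]
      congr 1
      split_ifs <;> simp
    simp_rw [h2]
    rw [Finset.sum_add_distrib, Finset.sum_ite_eq, if_pos (Finset.mem_univ _), map_sum,
      Finset.mul_sum]
    simp only [map_mul, map_C, map_X]
  rw [h1, bind_eps e he]
  rfl

end subst

section forms

variable {R S : Type} [CommRing R] [CommRing S] {N d : ℕ}

/-- The form with given coefficients. -/
def frm (c : Ex N d → R) : MvPolynomial (Fin (N + 1)) R := ∑ m : Ex N d, monomial m.1 (c m)

/-- The coefficients of a form. -/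
def cff (F : MvPolynomial (Fin (N + 1)) R) : Ex N d → R := fun m => coeff m.1 F

theorem frm_homog (c : Ex N d → R) : (frm c).IsHomogeneous d := by
  unfold frm
  refine IsHomogeneous.sum _ _ _ fun m _ => ?_
  apply isHomogeneous_monomial
  exact (mem_Ex m.1).mp m.2

theorem coeff_frm (c : Ex N d → R) (m : Ex N d) : coeff m.1 (frm c) = c m := by
  unfold frm
  rw [coeff_sum]
  simp only [coeff_monomial]
  rw [Finset.sum_eq_single m]
  · simp
  · intro b _ hb
    rw [if_neg]
    intro h
    exact hb (Subtype.ext h)
  · simp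

theorem cff_frm (c : Ex N d → R) : cff (frm c) = c := funext fun p => coeff_frm c p

theorem frm_cff {F : MvPolynomial (Fin (N + 1)) R} (hF : F.IsHomogeneous d) :
    frm (cff (d := d) F) = F := by
  ext m
  by_cases hm : m.degree = d
  · exact coeff_frm (cff (d := d) F) ⟨m, (mem_Ex m).mpr hm⟩
  · rw [(frm_homog _).coeff_eq_zero hm, hF.coeff_eq_zero hm]

theorem map_frm (φ : R →+* S) (c : Ex N d → R) : map φ (frm c) = frm (fun p => φ (c p)) := by
  unfold frm
  rw [map_sum]
  exact Finset.sum_congr rfl fun m _ => map_monomial _ _ _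

theorem frm_add (c c' : Ex N d → R) : frm (c + c') = frm c + frm c' := by
  simp only [frm, Pi.add_apply, map_add, Finset.sum_add_distrib]

theorem frm_smul (r : R) (c : Ex N d → R) : frm (r • c) = C r * frm c := by
  simp only [frm, Pi.smul_apply, smul_eq_mul, Finset.mul_sum, C_mul_monomial]

theorem frm_inj {c c' : Ex N d → R} (h : frm c = frm c') : c = c' := by
  rw [← cff_frm c, ← cff_frm c', h]

theorem cff_add (F G : MvPolynomial (Fin (N + 1)) R) :
    cff (d := d) (F + G) = cff F + cff G := by
  funext p
  simp [cff]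

theorem cff_C_mul (r : R) (F : MvPolynomial (Fin (N + 1)) R) :
    cff (d := d) (C r * F) = r • cff F := by
  funext p
  simp [cff]

theorem dsub_homog (Y : Matrix (Fin (N + 1)) (Fin (N + 1)) R)
    {F : MvPolynomial (Fin (N + 1)) R} (hd : 1 ≤ d) (hF : F.IsHomogeneous d) :
    (dsub Y F).IsHomogeneous d := by
  unfold dsub
  refine IsHomogeneous.sum _ _ _ fun l _ => ?_
  have h2 : (∑ m, C (Y l m) * X m : MvPolynomial (Fin (N + 1)) R).IsHomogeneous 1 :=
    IsHomogeneous.sum _ _ _ fun m _ => isHomogeneous_C_mul_X _ _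
  have h3 := h2.mul (hF.pderiv (i := l))
  rwa [Nat.add_sub_cancel' hd] at h3

/-- The action on forms, through the second factor. -/
def XA (N d : ℕ) : DAct Bool (N + 1) (Ex N d) where
  act A c := cff (subst (A true) (frm c))
  map_act φ A c p := by
    unfold cff
    rw [← coeff_map, map_subst, map_frm]
  act_act A B c := by
    rw [frm_cff (subst_homog _ (frm_homog c)), subst_subst]
    rfl
  act_one c := by
    change cff (subst 1 (frm c)) = c
    rw [subst_one, cff_frm]
  act_add A c c' := by
    rw [frm_add, map_add, cff_add]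
  act_smul A r c := by
    rw [frm_smul, map_mul]
    have : subst (A true) (C r) = C r := by
      unfold subst
      rw [bind₁_C_right]
    rw [this, cff_C_mul]
  xi Y c := cff (dsub (Y true) (frm c))
  xi_add Y Y' c := by
    rw [Pi.add_apply, dsub_add, cff_add]
  xi_smul r Y c := by
    rw [Pi.smul_apply, dsub_smul, cff_C_mul]
  map_xi φ Y c p := by
    unfold cff
    rw [← coeff_map, map_dsub, map_frm]
  act_eps e he Y c p := by
    unfold cff
    rw [← map_frm]
    change coeff p.1 (subst (1 + e • (Y true).map _) _) = _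
    rw [subst_eps e he, coeff_add, coeff_C_mul, coeff_map, coeff_map, coeff_frm]

/-- The action on tuples of forms -/
def zact (A : Mt Bool (N + 1) R) (F : Tuple R N) : Tuple R N :=
  fun i => ∑ j, C (A false j i) * subst (A true) (F j)

/-- The derivative of the action on tuples of forms -/
def zxi (Y : Mt Bool (N + 1) R) (F : Tuple R N) : Tuple R N :=
  fun i => ∑ j, C (Y false j i) * F j + dsub (Y true) (F i)

theorem zact_homog (A : Mt Bool (N + 1) R) {F : Tuple R N} (hF : ∀ i, (F i).IsHomogeneous d)
    (i : Fin (N + 1)) : (zact A F i).IsHomogeneous d :=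
  IsHomogeneous.sum _ _ _ fun _ _ => (subst_homog _ (hF _)).C_mul _

theorem zxi_homog (hd : 1 ≤ d) (Y : Mt Bool (N + 1) R) {F : Tuple R N}
    (hF : ∀ i, (F i).IsHomogeneous d) (i : Fin (N + 1)) : (zxi Y F i).IsHomogeneous d :=
  (IsHomogeneous.sum _ _ _ fun _ _ => (hF _).C_mul _).add (dsub_homog _ hd (hF i))

theorem zact_zact (A B : Mt Bool (N + 1) R) (F : Tuple R N) :
    zact B (zact A F) = zact (A * B) F := by
  funext i
  unfold zact
  simp_rw [map_sum, map_mul]
  have h1 : ∀ (g : Matrix (Fin (N + 1)) (Fin (N + 1)) R) (r : R), subst g (C r) = C r := by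
    intro g r
    unfold subst
    rw [bind₁_C_right]
  simp_rw [h1, subst_subst, Finset.mul_sum, ← mul_assoc, ← C_mul]
  rw [Finset.sum_comm]
  refine Finset.sum_congr rfl fun m _ => ?_
  rw [← Finset.sum_mul, ← map_sum]
  congr 2
  change _ = (A false * B false) m i
  rw [Matrix.mul_apply]
  exact Finset.sum_congr rfl fun l _ => mul_comm _ _

theorem map_zact (φ : R →+* S) (A : Mt Bool (N + 1) R) (F : Tuple R N) (i : Fin (N + 1)) :
    map φ (zact A F i) = zact (fun s => (A s).map φ) (fun j => map φ (F j)) i := by
  unfold zact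
  rw [map_sum]
  refine Finset.sum_congr rfl fun j _ => ?_
  rw [map_mul, map_C, map_subst]
  rfl

theorem map_zxi (φ : R →+* S) (A : Mt Bool (N + 1) R) (F : Tuple R N) (i : Fin (N + 1)) :
    map φ (zxi A F i) = zxi (fun s => (A s).map φ) (fun j => map φ (F j)) i := by
  unfold zxi
  rw [map_add, map_sum, map_dsub]
  congr 1
  refine Finset.sum_congr rfl fun j _ => ?_
  rw [map_mul, map_C]
  rfl

theorem zact_eps [Algebra R S] (e : S) (he : e * e = 0) (Y : Mt Bool (N + 1) R)
    (F : Tuple R N) (i : Fin (N + 1)) :
    zact (oneE e Y) (fun j => map (algebraMap R S) (F j)) i =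
      map (algebraMap R S) (F i) + C e * map (algebraMap R S) (zxi Y F i) := by
  unfold zact
  have h1 : ∀ j, subst (oneE e Y true) (map (algebraMap R S) (F j)) =
      map (algebraMap R S) (F j) + C e * map (algebraMap R S) (dsub (Y true) (F j)) :=
    fun j => subst_eps e he _ _
  simp_rw [h1]
  have h3 : (C e * C e : MvPolynomial (Fin (N + 1)) S) = 0 := by rw [← C_mul, he, C_0]
  have h4 : ∀ j, C (oneE e Y false j i) * (map (algebraMap R S) (F j) +
      C e * map (algebraMap R S) (dsub (Y true) (F j))) =
      (if j = i then (map (algebraMap R S) (F j) + C e * map (algebraMap R S)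
        (dsub (Y true) (F j))) else 0) +
        C e * map (algebraMap R S) (C (Y false j i) * F j) := by
    intro j
    have h5 : oneE e Y false j i = (if j = i then 1 else 0) + e * algebraMap R S (Y false j i) := by
      unfold oneE
      rw [Matrix.add_apply, Matrix.smul_apply, Matrix.map_apply, Matrix.one_apply, smul_eq_mul]
    rw [h5, map_add, map_mul, map_mul, map_C, add_mul]
    have h6 : C e * C (algebraMap R S (Y false j i)) * (map (algebraMap R S) (F j) +
      C e * map (algebraMap R S) (dsub (Y true) (F j))) =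
      C e * (C (algebraMap R S (Y false j i)) * map (algebraMap R S) (F j)) := by
      linear_combination (C (algebraMap R S (Y false j i)) *
        map (algebraMap R S) (dsub (Y true) (F j))) * h3
    rw [h6]
    congr 1
    split_ifs <;> simp
  simp_rw [h4]
  rw [Finset.sum_add_distrib, Finset.sum_ite_eq', if_pos (Finset.mem_univ _)]
  unfold zxi
  rw [map_add, map_sum, ← Finset.mul_sum]
  ring

/-- The action on tuples of forms. -/
def ZA (N d : ℕ) : DAct Bool (N + 1) (Ix N d) where
  act A c := cf (zact A (tup c))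
  map_act φ A c p := by
    unfold cf
    rw [← coeff_map, map_zact]
    congr 2
    funext j
    exact map_tup φ c j
  act_act A B c := by
    rw [tup_cf (zact_homog A (tup_homog c)), zact_zact]
  act_one {R} _ c := by
    have : zact (1 : Mt Bool (N + 1) R) (tup c) = tup c := by
      funext i
      unfold zact
      rw [Finset.sum_eq_single i]
      · change C ((1 : Matrix (Fin (N + 1)) (Fin (N + 1)) R) i i) * subst 1 _ = _
        rw [subst_one, Matrix.one_apply_eq, map_one, one_mul]
      · intro j _ hj
        change C ((1 : Matrix (Fin (N + 1)) (Fin (N + 1)) R) j i) * _ = _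
        rw [Matrix.one_apply_ne hj, map_zero, zero_mul]
      · simp
    rw [this, cf_tup]
  act_add A c c' := by
    have : zact A (tup (c + c')) = zact A (tup c) + zact A (tup c') := by
      funext i
      simp only [zact, tup_add, Pi.add_apply, map_add, mul_add, Finset.sum_add_distrib]
    rw [this, cf_add]
  act_smul {R} _ A r c := by
    have : zact A (tup (r • c)) = fun i => C r * zact A (tup c) i := by
      funext i
      have h1 : ∀ (g : Matrix (Fin (N + 1)) (Fin (N + 1)) R) (r : R), subst g (C r) = C r := by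
        intro g r
        unfold subst
        rw [bind₁_C_right]
      simp only [zact, tup_smul, map_mul, Finset.mul_sum, h1]
      exact Finset.sum_congr rfl fun j _ => by ring
    rw [this, cf_C_mul]
  xi Y c := cf (zxi Y (tup c))
  xi_add Y Y' c := by
    have : zxi (Y + Y') (tup c) = zxi Y (tup c) + zxi Y' (tup c) := by
      funext i
      simp only [zxi, Pi.add_apply, Matrix.add_apply, dsub_add, map_add, add_mul,
        Finset.sum_add_distrib]
      ring
    rw [this, cf_add]
  xi_smul r Y c := by
    have : zxi (r • Y) (tup c) = fun i => C r * zxi Y (tup c) i := by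
      funext i
      simp only [zxi, Pi.smul_apply, Matrix.smul_apply, smul_eq_mul, dsub_smul, map_mul, mul_add,
        Finset.mul_sum, mul_assoc]
    rw [this, cf_C_mul]
  map_xi φ Y c p := by
    unfold cf
    rw [← coeff_map, map_zxi]
    congr 2
    funext j
    exact map_tup φ c j
  act_eps {R S} _ _ _ e he Y c p := by
    have h1 : tup (fun p => algebraMap R S (c p)) =
        fun i => map (algebraMap R S) (tup c i) := by
      funext i
      exact (map_tup _ c i).symm
    unfold cf
    rw [h1, zact_eps e he, coeff_add, coeff_C_mul, coeff_map, coeff_map, coeff_tup]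

theorem frm_XA (A : Mt Bool (N + 1) R) (c : Ex N d → R) :
    frm ((XA N d).act A c) = subst (A true) (frm c) :=
  frm_cff (subst_homog _ (frm_homog c))

theorem tup_ZA (A : Mt Bool (N + 1) R) (c : Ix N d → R) :
    tup ((ZA N d).act A c) = zact A (tup c) :=
  tup_cf (zact_homog A (tup_homog c))

theorem frm_XA_xi (hd : 1 ≤ d) (Y : Mt Bool (N + 1) R) (c : Ex N d → R) :
    frm ((XA N d).xi Y c) = dsub (Y true) (frm c) :=
  frm_cff (dsub_homog _ hd (frm_homog c))

theorem tup_ZA_xi (hd : 1 ≤ d) (Y : Mt Bool (N + 1) R) (c : Ix N d → R) :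
    tup ((ZA N d).xi Y c) = zxi Y (tup c) :=
  tup_cf (zxi_homog hd Y (tup_homog c))

/-- The gradient map. -/
def grad (c : Ex N (d + 1) → R) : Ix N d → R := cf (fun i => pderiv i (frm c))

theorem tup_grad (c : Ex N (d + 1) → R) : tup (grad c) = fun i => pderiv i (frm c) :=
  tup_cf (fun _ => (frm_homog c).pderiv)

/-- diagonal embedding -/
def diag (g : Matrix (Fin (N + 1)) (Fin (N + 1)) R) : Mt Bool (N + 1) R := fun _ => g

theorem grad_act (A : Mt Bool (N + 1) R) (c : Ex N (d + 1) → R) :
    grad ((XA N (d + 1)).act A c) = (ZA N d).act (diag (A true)) (grad c) := by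
  have h1 : tup (grad ((XA N (d + 1)).act A c)) = tup ((ZA N d).act (diag (A true)) (grad c)) := by
    rw [tup_grad, tup_ZA, frm_XA, tup_grad]
    funext i
    rw [pderiv_subst]
    rfl
  rw [← cf_tup (grad ((XA N (d + 1)).act A c)), h1, cf_tup]

theorem grad_add (c c' : Ex N (d + 1) → R) : grad (c + c') = grad c + grad c' := by
  unfold grad
  rw [frm_add, ← cf_add]
  congr 1
  funext i
  simp

theorem grad_smul (r : R) (c : Ex N (d + 1) → R) : grad (r • c) = r • grad c := by
  unfold grad
  rw [frm_smul, ← cf_C_mul]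
  congr 1
  funext i
  simp

theorem map_grad (φ : R →+* S) (c : Ex N (d + 1) → R) (p : Ix N d) :
    φ (grad c p) = grad (fun q => φ (c q)) p := by
  unfold grad cf
  rw [← coeff_map, ← pderiv_map, map_frm]

end forms

end

end Pool.Agent.Helper819.Gr
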