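import Pool.Agent.Helper819.Gr.V1

/-!
Matrices self-adjoint for the polar form of a nonsingular form.
-/

open MvPolynomial

namespace Pool.Agent.Helper819.Gr

open Pool.Agent.Helper819.Apolar Pool.Agent.Helper819.Dyn

noncomputable section

set_option linter.unusedSectionVars false

variable {k : Type} [Field k] {N d e : ℕ}

theorem pd_comm {R : Type} [CommRing R] (i j : Fin (N + 1)) (F : MvPolynomial (Fin (N + 1)) R) :
    pderiv i (pderiv j F) = pderiv j (pderiv i F) := by
  by_cases h : i = j
  · rw [h]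
  · ext m
    rw [coeff_pderiv', coeff_pderiv', coeff_pderiv', coeff_pderiv']
    simp only [Finsupp.add_apply, Finsupp.single_apply, if_neg h, if_neg (fun h' => h h'.symm : ¬ j = i)]
    have h1 : m + Finsupp.single i 1 + Finsupp.single j 1 =
        m + Finsupp.single j 1 + Finsupp.single i 1 := by
      rw [add_assoc, add_comm (Finsupp.single i 1), ← add_assoc]
    rw [h1]
    push_cast
    ring

/-- Hessian matrix -/
def Hs (F : MvPolynomial (Fin (N + 1)) k) :
    Matrix (Fin (N + 1)) (Fin (N + 1)) (MvPolynomial (Fin (N + 1)) k) :=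
  Matrix.of fun i j => pderiv i (pderiv j F)

theorem Hs_symm (F : MvPolynomial (Fin (N + 1)) k) : (Hs F).transpose = Hs F := by
  refine Matrix.ext fun i j => ?_
  exact pd_comm _ _ _

/-- constants -/
def cm (A : Matrix (Fin (N + 1)) (Fin (N + 1)) k) :
    Matrix (Fin (N + 1)) (Fin (N + 1)) (MvPolynomial (Fin (N + 1)) k) := A.map C

theorem cm_mul (A B : Matrix (Fin (N + 1)) (Fin (N + 1)) k) : cm (A * B) = cm A * cm B :=
  Matrix.map_mul

theorem cm_transpose (A : Matrix (Fin (N + 1)) (Fin (N + 1)) k) :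
    cm A.transpose = (cm A).transpose := rfl

theorem cm_add (A B : Matrix (Fin (N + 1)) (Fin (N + 1)) k) : cm (A + B) = cm A + cm B := by
  refine Matrix.ext fun i j => ?_
  exact C_add

theorem cm_one : cm (1 : Matrix (Fin (N + 1)) (Fin (N + 1)) k) = 1 :=
  Matrix.map_one _ (map_zero _) (map_one _)

theorem cm_smul (a : k) (A : Matrix (Fin (N + 1)) (Fin (N + 1)) k) :
    cm (a • A) = (C a : MvPolynomial (Fin (N + 1)) k) • cm A := by
  refine Matrix.ext fun i j => ?_
  exact C_mul

/-- self-adjointness -/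
def IsK (F : MvPolynomial (Fin (N + 1)) k) (A : Matrix (Fin (N + 1)) (Fin (N + 1)) k) : Prop :=
  cm A * Hs F = Hs F * (cm A).transpose

theorem isK_iff_symm {F : MvPolynomial (Fin (N + 1)) k}
    {A : Matrix (Fin (N + 1)) (Fin (N + 1)) k} :
    IsK F A ↔ (cm A * Hs F).transpose = cm A * Hs F := by
  unfold IsK
  rw [Matrix.transpose_mul, Hs_symm]
  exact eq_comm

theorem IsK.add {F : MvPolynomial (Fin (N + 1)) k} {A B : Matrix (Fin (N + 1)) (Fin (N + 1)) k}
    (hA : IsK F A) (hB : IsK F B) : IsK F (A + B) := by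
  unfold IsK at *
  rw [cm_add, Matrix.transpose_add, Matrix.add_mul, Matrix.mul_add, hA, hB]

theorem IsK.smul {F : MvPolynomial (Fin (N + 1)) k} {A : Matrix (Fin (N + 1)) (Fin (N + 1)) k}
    (hA : IsK F A) (a : k) : IsK F (a • A) := by
  unfold IsK at *
  rw [cm_smul, Matrix.transpose_smul, Matrix.smul_mul, Matrix.mul_smul, hA]

theorem isK_one (F : MvPolynomial (Fin (N + 1)) k) : IsK F 1 := by
  unfold IsK
  rw [cm_one, Matrix.transpose_one, Matrix.one_mul, Matrix.mul_one]

/-- a gradient multiplied by a matrix being a gradient -/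
theorem isK_of_grad {F F' : MvPolynomial (Fin (N + 1)) k}
    {A : Matrix (Fin (N + 1)) (Fin (N + 1)) k}
    (h : ∀ i, pderiv i F' = ∑ l, C (A i l) * pderiv l F) : IsK F A := by
  rw [isK_iff_symm]
  have h1 : cm A * Hs F = Hs F' := by
    refine Matrix.ext fun i j => ?_
    rw [Matrix.mul_apply]
    change ∑ l, C (A i l) * pderiv l (pderiv j F) = pderiv i (pderiv j F')
    rw [pd_comm i j F', h i, map_sum]
    refine Finset.sum_congr rfl fun l _ => ?_
    rw [pderiv_C_mul, pd_comm l j]
  rw [h1, Hs_symm]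

theorem euler_eval {G : MvPolynomial (Fin (N + 1)) k} {n : ℕ} (hG : G.IsHomogeneous n)
    (u : Fin (N + 1) → k) : ∑ i, u i * eval u (pderiv i G) = n * eval u G := by
  have h1 := congrArg (eval u) hG.sum_X_mul_pderiv
  rw [map_sum, map_nsmul] at h1
  simp only [map_mul, eval_X] at h1
  rw [h1, nsmul_eq_mul]

/-- A form whose second directional derivative vanishes is singular. -/
theorem nn [CharZero k] (he : 2 ≤ e) {F : MvPolynomial (Fin (N + 1)) k}
    (hF : F.IsHomogeneous (e + 1)) (hNZ : NZ (fun i => pderiv i F)) (u : Fin (N + 1) → k)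
    (h : ∑ i, ∑ j, C (u i) * (C (u j) * Hs F i j) = 0) : u = 0 := by
  apply hNZ
  intro l
  have hl : (pderiv l F).IsHomogeneous e := hF.pderiv (i := l)
  have h1 := congrArg (fun G => eval u (pderiv l G)) h
  simp only [map_sum, pderiv_C_mul, map_mul, eval_C, map_zero] at h1
  have h2 : ∀ i j, pderiv l (Hs F i j) = pderiv i (pderiv j (pderiv l F)) := by
    intro i j
    change pderiv l (pderiv i (pderiv j F)) = _
    rw [pd_comm l i, pd_comm l j]
  simp only [h2] at h1
  have h3 : ∀ i, ∑ j, u i * (u j * eval u (pderiv i (pderiv j (pderiv l F)))) =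
      (e - 1 : ℕ) * (u i * eval u (pderiv i (pderiv l F))) := by
    intro i
    have h4 := euler_eval (hl.pderiv (i := i)) u
    rw [← Finset.mul_sum, mul_left_comm, ← h4]
    congr 1
    refine Finset.sum_congr rfl fun j _ => ?_
    rw [pd_comm]
  simp only [h3] at h1
  rw [← Finset.mul_sum, euler_eval hl u] at h1
  have h5 : ((e - 1 : ℕ) : k) ≠ 0 := Nat.cast_ne_zero.mpr (by omega)
  have h6 : ((e : ℕ) : k) ≠ 0 := Nat.cast_ne_zero.mpr (by omega)
  exact (mul_eq_zero.mp ((mul_eq_zero.mp h1).resolve_left h5)).resolve_left h6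

theorem quad_eq (F : MvPolynomial (Fin (N + 1)) k) (u : Fin (N + 1) → k) :
    ∑ i, ∑ j, C (u i) * (C (u j) * Hs F i j) =
      (fun i => (C (u i) : MvPolynomial (Fin (N + 1)) k)) ⬝ᵥ
        (Hs F).mulVec (fun i => C (u i)) := by
  unfold dotProduct Matrix.mulVec dotProduct
  refine Finset.sum_congr rfl fun i _ => ?_
  rw [Finset.mul_sum]
  exact Finset.sum_congr rfl fun j _ => by ring

theorem C_mulVec (A : Matrix (Fin (N + 1)) (Fin (N + 1)) k) (v : Fin (N + 1) → k) :
    (fun i => (C (A.mulVec v i) : MvPolynomial (Fin (N + 1)) k)) =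
      (cm A).mulVec (fun i => C (v i)) := by
  funext i
  unfold Matrix.mulVec dotProduct cm
  rw [map_sum]
  exact Finset.sum_congr rfl fun j _ => C_mul

/-- no generalised eigenvectors -/
theorem IsK.ker_sq [CharZero k] (he : 2 ≤ e) {F : MvPolynomial (Fin (N + 1)) k}
    (hF : F.IsHomogeneous (e + 1)) (hNZ : NZ (fun i => pderiv i F))
    {A : Matrix (Fin (N + 1)) (Fin (N + 1)) k} (hA : IsK F A) (v : Fin (N + 1) → k)
    (hv : A.transpose.mulVec (A.transpose.mulVec v) = 0) : A.transpose.mulVec v = 0 := by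
  apply nn he hF hNZ
  rw [quad_eq, C_mulVec]
  have h1 : (Hs F).mulVec ((cm A.transpose).mulVec fun i => (C (v i) : MvPolynomial (Fin (N + 1)) k)) =
      (cm A).mulVec ((Hs F).mulVec fun i => C (v i)) := by
    rw [Matrix.mulVec_mulVec, Matrix.mulVec_mulVec, cm_transpose, hA]
  rw [h1, Matrix.dotProduct_mulVec]
  have h2 : Matrix.vecMul ((cm A.transpose).mulVec fun i => (C (v i) : MvPolynomial (Fin (N + 1)) k))
      (cm A) = 0 := by
    rw [← Matrix.mulVec_transpose, ← cm_transpose, ← C_mulVec, ← C_mulVec, hv]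
    funext i
    exact C_0
  rw [h2]
  exact zero_dotProduct _

theorem IsK.comm [CharZero k] (he : 2 ≤ e) {F : MvPolynomial (Fin (N + 1)) k}
    (hF : F.IsHomogeneous (e + 1)) (hNZ : NZ (fun i => pderiv i F))
    {A B : Matrix (Fin (N + 1)) (Fin (N + 1)) k} (hA : IsK F A) (hB : IsK F B) :
    A * B = B * A := by
  set Z := A * B - B * A with hZ
  have hcZ : cm Z = cm A * cm B - cm B * cm A := by
    rw [← cm_mul, ← cm_mul]
    refine Matrix.ext fun i j => ?_
    exact C_sub _ _ _
  set W := cm Z * Hs F with hW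
  have hanti : W.transpose = -W := by
    have hA' : (Hs F) * (cm A).transpose = cm A * Hs F := hA.symm
    have hB' : (Hs F) * (cm B).transpose = cm B * Hs F := hB.symm
    rw [hW, hcZ, Matrix.transpose_mul, Hs_symm, Matrix.transpose_sub, Matrix.transpose_mul,
      Matrix.transpose_mul, Matrix.mul_sub, Matrix.sub_mul, ← Matrix.mul_assoc,
      ← Matrix.mul_assoc, hB', hA', Matrix.mul_assoc, Matrix.mul_assoc, hA', hB',
      Matrix.mul_assoc, Matrix.mul_assoc, neg_sub]
  have hWij : ∀ i j, W i j = ∑ l, C (Z i l) * pderiv l (pderiv j F) := fun i j => rfl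
  have hWd : ∀ i j m, pderiv m (W i j) = pderiv j (W i m) := by
    intro i j m
    rw [hWij, hWij, map_sum, map_sum]
    refine Finset.sum_congr rfl fun l _ => ?_
    rw [pderiv_C_mul, pderiv_C_mul, pd_comm m l, pd_comm m j, pd_comm j l]
  have hWa : ∀ i j, W i j = - W j i := by
    intro i j
    have := congrFun (congrFun hanti j) i
    rw [Matrix.transpose_apply] at this
    rw [this]
    rfl
  have hW0 : ∀ i j m, pderiv m (W i j) = 0 := by
    intro i j m
    have h1 : pderiv m (W i j) = - pderiv m (W i j) := by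
      calc pderiv m (W i j) = - pderiv m (W j i) := by rw [hWa i j, map_neg]
        _ = - pderiv i (W j m) := by rw [hWd j i m]
        _ = pderiv i (W m j) := by rw [hWa j m, map_neg, neg_neg]
        _ = pderiv j (W m i) := hWd m j i
        _ = - pderiv j (W i m) := by rw [hWa m i, map_neg]
        _ = - pderiv m (W i j) := by rw [hWd i j m]
    have h2 : (2 : MvPolynomial (Fin (N + 1)) k) * pderiv m (W i j) = 0 := by
      linear_combination h1
    exact (mul_eq_zero.mp h2).resolve_left two_ne_zero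
  have hWh : ∀ i j, (W i j).IsHomogeneous (e - 1) := by
    intro i j
    rw [hWij]
    refine IsHomogeneous.sum _ _ _ fun l _ => ?_
    exact ((hF.pderiv (i := j)).pderiv (i := l)).C_mul _
  have hWz : ∀ i j, W i j = 0 := by
    intro i j
    have h1 := (hWh i j).sum_X_mul_pderiv
    simp only [hW0, mul_zero, Finset.sum_const_zero] at h1
    have h2 : ((e - 1 : ℕ) : MvPolynomial (Fin (N + 1)) k) ≠ 0 :=
      Nat.cast_ne_zero.mpr (by omega)
    rw [nsmul_eq_mul] at h1
    exact (mul_eq_zero.mp h1.symm).resolve_left h2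
  have hZ0 : Z = 0 := by
    refine Matrix.ext fun i j => ?_
    have h1 : (fun l => Z i l) = 0 := by
      apply nn he hF hNZ
      rw [Finset.sum_comm]
      apply Finset.sum_eq_zero
      intro j _
      have h2 : ∀ l, C (Z i l) * (C (Z i j) * Hs F l j) =
          C (Z i j) * (C (Z i l) * pderiv l (pderiv j F)) := by
        intro l
        change C (Z i l) * (C (Z i j) * pderiv l (pderiv j F)) = _
        ring
      simp_rw [h2]
      rw [← Finset.mul_sum, ← hWij, hWz, mul_zero]
    exact congrFun h1 j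
  rw [← sub_eq_zero]
  exact hZ0

theorem IsK.mul [CharZero k] (he : 2 ≤ e) {F : MvPolynomial (Fin (N + 1)) k}
    (hF : F.IsHomogeneous (e + 1)) (hNZ : NZ (fun i => pderiv i F))
    {A B : Matrix (Fin (N + 1)) (Fin (N + 1)) k} (hA : IsK F A) (hB : IsK F B) :
    IsK F (A * B) := by
  have h1 := hA.comm he hF hNZ hB
  unfold IsK
  have h2 : (cm (A * B)).transpose = (cm A).transpose * (cm B).transpose := by
    rw [h1, cm_mul, Matrix.transpose_mul]
  rw [h2, cm_mul, Matrix.mul_assoc, hB, ← Matrix.mul_assoc, hA, Matrix.mul_assoc]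

theorem Hs_subst (g : Matrix (Fin (N + 1)) (Fin (N + 1)) k) (F : MvPolynomial (Fin (N + 1)) k) :
    Hs (subst g F) = (cm g).transpose * ((Hs F).map (subst g)) * cm g := by
  refine Matrix.ext fun i j => ?_
  change pderiv i (pderiv j (subst g F)) = _
  have h0 : ∀ (a : k) (G : MvPolynomial (Fin (N + 1)) k),
      pderiv i (C a * subst g G) = C a * ∑ l, C (g l i) * subst g (pderiv l G) := by
    intro a G
    rw [pderiv_C_mul, pderiv_subst]
  rw [pderiv_subst, map_sum]
  simp only [h0]
  rw [Matrix.mul_apply]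
  refine Finset.sum_congr rfl fun l _ => ?_
  rw [Matrix.mul_apply, Finset.sum_mul, Finset.mul_sum]
  refine Finset.sum_congr rfl fun m _ => ?_
  change C (g l j) * (C (g m i) * subst g (pderiv m (pderiv l F))) =
    C (g m i) * subst g (pderiv m (pderiv l F)) * C (g l j)
  ring

theorem IsK.subst {F : MvPolynomial (Fin (N + 1)) k}
    {A : Matrix (Fin (N + 1)) (Fin (N + 1)) k} (hA : IsK F A)
    (g h : Matrix (Fin (N + 1)) (Fin (N + 1)) k) (hgh : g * h = 1) :
    IsK (subst g F) (g.transpose * A * h.transpose) := by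
  have hhg : h * g = 1 := mul_eq_one_comm.mp hgh
  have hsub : ∀ (B : Matrix (Fin (N + 1)) (Fin (N + 1)) k),
      (cm B).map (Gr.subst g) = cm B := by
    intro B
    refine Matrix.ext fun i j => ?_
    change Gr.subst g (C (B i j)) = C (B i j)
    unfold Gr.subst
    rw [bind₁_C_right]
  have h1 : cm A * (Hs F).map (Gr.subst g) = (Hs F).map (Gr.subst g) * (cm A).transpose := by
    have h2 := congrArg (fun M => Matrix.map M (Gr.subst g)) hA
    simp only [Matrix.map_mul] at h2
    rw [hsub] at h2
    have h3 : (cm A).transpose.map (Gr.subst g) = (cm A).transpose := hsub A.transpose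
    rwa [h3] at h2
  unfold IsK
  have e1 : (cm h).transpose * (cm g).transpose = 1 := by
    rw [← Matrix.transpose_mul, ← cm_mul, hgh, cm_one, Matrix.transpose_one]
  have e2 : cm g * cm h = 1 := by rw [← cm_mul, hgh, cm_one]
  rw [Hs_subst, cm_mul, cm_mul, cm_transpose, cm_transpose, Matrix.transpose_mul,
    Matrix.transpose_mul, Matrix.transpose_transpose, Matrix.transpose_transpose]
  set M := (Hs F).map (Gr.subst g)
  calc (cm g).transpose * cm A * (cm h).transpose * ((cm g).transpose * M * cm g)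
      = (cm g).transpose * cm A * ((cm h).transpose * (cm g).transpose) * M * cm g := by
        simp only [Matrix.mul_assoc]
    _ = (cm g).transpose * (cm A * M) * cm g := by
        rw [e1, Matrix.mul_one]; simp only [Matrix.mul_assoc]
    _ = (cm g).transpose * (M * (cm A).transpose) * cm g := by rw [h1]
    _ = (cm g).transpose * M * (cm g * cm h) * (cm A).transpose * cm g := by
        rw [e2, Matrix.mul_one]; simp only [Matrix.mul_assoc]
    _ = (cm g).transpose * M * cm g * (cm h * ((cm A).transpose * cm g)) := by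
        simp only [Matrix.mul_assoc]

end

end Pool.Agent.Helper819.Gr
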