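import Pool.Agent.Helper819.Gr.K1

/-!
Simultaneous diagonalisation and the block decomposition.
-/

open MvPolynomial

namespace Pool.Agent.Helper819.Gr

open Pool.Agent.Helper819.Apolar Pool.Agent.Helper819.Dyn

noncomputable section

set_option linter.unusedSectionVars false

variable {k : Type} [Field k] {N d e : ℕ}

theorem exists_diag [IsAlgClosed k] [CharZero k] (he : 2 ≤ e)
    {F : MvPolynomial (Fin (N + 1)) k} (hF : F.IsHomogeneous (e + 1))
    (hNZ : NZ (fun i => pderiv i F)) :
    ∃ g h : Matrix (Fin (N + 1)) (Fin (N + 1)) k, g * h = 1 ∧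
      ∀ A, IsK (subst g F) A → A = Matrix.diagonal (fun i => A i i) := by
  let 𝒦 := {A : Matrix (Fin (N + 1)) (Fin (N + 1)) k // IsK F A}
  let fam : 𝒦 → Module.End k (Fin (N + 1) → k) := fun A => Matrix.toLin' A.1.transpose
  have hcomm : Pairwise fun A B : 𝒦 => Commute (fam A) (fam B) := by
    intro A B _
    change Matrix.toLin' A.1.transpose * Matrix.toLin' B.1.transpose =
      Matrix.toLin' B.1.transpose * Matrix.toLin' A.1.transpose
    rw [Module.End.mul_eq_comp, Module.End.mul_eq_comp, ← Matrix.toLin'_mul,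
      ← Matrix.toLin'_mul, ← Matrix.transpose_mul, ← Matrix.transpose_mul,
      A.2.comm he hF hNZ B.2]
  have htop := Module.End.iSup_iInf_maxGenEigenspace_eq_top_of_iSup_maxGenEigenspace_eq_top_of_commute
    fam hcomm (fun A => Module.End.iSup_maxGenEigenspace_eq_top (fam A))
  have hpow : ∀ (E : 𝒦) (m : ℕ) (v : Fin (N + 1) → k), ((fam E) ^ m) v = 0 → fam E v = 0 := by
    intro E m
    induction m with
    | zero =>
      intro v hv
      have : v = 0 := by simpa using hv
      rw [this, map_zero]
    | succ m ih =>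
      intro v hv
      rw [pow_succ] at hv
      have h1 := ih (fam E v) hv
      exact E.2.ker_sq he hF hNZ v h1
  have heig : ∀ (A : 𝒦) (μ : k) (v : Fin (N + 1) → k), v ∈ (fam A).maxGenEigenspace μ →
      fam A v = μ • v := by
    intro A μ v hv
    obtain ⟨m, hm⟩ := (Module.End.mem_maxGenEigenspace _ _ _).mp hv
    let E : 𝒦 := ⟨A.1 + (-μ) • 1, A.2.add ((isK_one F).smul _)⟩
    have hE : fam E = fam A - μ • (1 : Module.End k (Fin (N + 1) → k)) := by
      change Matrix.toLin' (A.1 + (-μ) • 1).transpose = _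
      rw [Matrix.transpose_add, Matrix.transpose_smul, Matrix.transpose_one, map_add, map_smul,
        Matrix.toLin'_one, sub_eq_add_neg]
      exact congrArg (fun z => Matrix.toLin' A.1.transpose + z)
        (LinearMap.ext fun v => neg_smul μ v)
    rw [← hE] at hm
    have h1 := hpow E m v hm
    rw [hE, LinearMap.sub_apply, LinearMap.smul_apply, Module.End.one_apply, sub_eq_zero] at h1
    exact h1
  let Vec : Set (Fin (N + 1) → k) := {v | ∃ χ : 𝒦 → k, ∀ A, fam A v = χ A • v}
  have hspan : Submodule.span k Vec = ⊤ := by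
    rw [eq_top_iff, ← htop]
    apply iSup_le
    intro χ v hv
    apply Submodule.subset_span
    refine ⟨χ, fun A => heig A _ v ?_⟩
    exact (Submodule.mem_iInf _).mp hv A
  obtain ⟨b0, hb1, _, hb3⟩ := Submodule.exists_fun_fin_finrank_span_eq k Vec
  have hfr : Module.finrank k (Submodule.span k Vec) = N + 1 := by
    rw [hspan, finrank_top, Module.finrank_fin_fun]
  let b : Fin (N + 1) → (Fin (N + 1) → k) := fun i => b0 (finCongr hfr.symm i)
  have hbV : ∀ i, b i ∈ Vec := fun i => hb1 _
  have hbli : LinearIndependent k b := hb3.comp _ (finCongr hfr.symm).injective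
  choose χ hχ using hbV
  let P : Matrix (Fin (N + 1)) (Fin (N + 1)) k := Matrix.of fun i j => b j i
  have hPu : IsUnit P := by
    rw [← Matrix.linearIndependent_cols_iff_isUnit]
    exact hbli
  have hPd : IsUnit P.det := (Matrix.isUnit_iff_isUnit_det _).mp hPu
  have hPP : P * P⁻¹ = 1 := Matrix.mul_nonsing_inv _ hPd
  have hPP' : P⁻¹ * P = 1 := Matrix.nonsing_inv_mul _ hPd
  refine ⟨P, P⁻¹, hPP, fun A hA => ?_⟩
  have hA' := hA.subst P⁻¹ P hPP'
  rw [subst_subst, hPP, subst_one] at hA'
  let B : 𝒦 := ⟨P⁻¹.transpose * A * P.transpose, hA'⟩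
  have h1 : B.1.transpose * P = P * Matrix.diagonal (fun j => χ j B) := by
    refine Matrix.ext fun i j => ?_
    have h2 := congrFun (hχ j B) i
    rw [Matrix.mul_diagonal]
    change (B.1.transpose.mulVec (b j)) i = _ at h2
    rw [Pi.smul_apply, smul_eq_mul, mul_comm] at h2
    exact h2
  have h3 : A.transpose = Matrix.diagonal (fun j => χ j B) := by
    have h4 : B.1.transpose = P * A.transpose * P⁻¹ := by
      change (P⁻¹.transpose * A * P.transpose).transpose = _
      rw [Matrix.transpose_mul, Matrix.transpose_mul, Matrix.transpose_transpose,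
        Matrix.transpose_transpose, Matrix.mul_assoc]
    rw [h4, Matrix.mul_assoc, hPP', Matrix.mul_one] at h1
    have h5 := congrArg (fun M => P⁻¹ * M) h1
    simp only [← Matrix.mul_assoc, hPP', Matrix.one_mul] at h5
    exact h5
  have h6 : A = Matrix.diagonal (fun j => χ j B) := by
    rw [← Matrix.transpose_transpose A, h3, Matrix.diagonal_transpose]
  conv_rhs => rw [h6]
  rw [h6]
  congr 1
  funext i
  rw [Matrix.diagonal_apply_eq]

/-- block coordinates -/
structure Blocks (f : Ex N (e + 1) → k) (bl : Fin (N + 1) → Fin (N + 1)) : Prop where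
  hess : ∀ i j, bl i ≠ bl j → pderiv i (pderiv j (frm f)) = 0
  scal : ∀ A, IsK (frm f) A → ∃ t : Fin (N + 1) → k, A = Matrix.diagonal (fun i => t (bl i))

theorem isK_diagonal {F : MvPolynomial (Fin (N + 1)) k} {t : Fin (N + 1) → k} :
    IsK F (Matrix.diagonal t) ↔ ∀ i j, (C (t i) - C (t j)) * pderiv i (pderiv j F) = 0 := by
  have h1 : cm (Matrix.diagonal t) = Matrix.diagonal (fun i => (C (t i) :
      MvPolynomial (Fin (N + 1)) k)) := by
    unfold cm
    rw [Matrix.diagonal_map (map_zero _)]
  unfold IsK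
  rw [h1, Matrix.diagonal_transpose]
  constructor
  · intro h i j
    have := congrFun (congrFun h i) j
    rw [Matrix.diagonal_mul, Matrix.mul_diagonal] at this
    change C (t i) * pderiv i (pderiv j F) = pderiv i (pderiv j F) * C (t j) at this
    rw [sub_mul, this]
    ring
  · intro h
    refine Matrix.ext fun i j => ?_
    rw [Matrix.diagonal_mul, Matrix.mul_diagonal]
    change C (t i) * pderiv i (pderiv j F) = pderiv i (pderiv j F) * C (t j)
    linear_combination h i j

theorem exists_blocks [IsAlgClosed k] [CharZero k] (he : 2 ≤ e) (f : Ex N (e + 1) → k)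
    (hNZ : NZ (tup (grad f))) :
    ∃ g h : Matrix (Fin (N + 1)) (Fin (N + 1)) k, g * h = 1 ∧
      ∃ bl, Blocks ((XA N (e + 1)).act (diag g) f) bl := by
  rw [tup_grad] at hNZ
  obtain ⟨g, h, hgh, hd⟩ := exists_diag he (frm_homog f) hNZ
  refine ⟨g, h, hgh, ?_⟩
  have hfrm : frm ((XA N (e + 1)).act (diag g) f) = subst g (frm f) := frm_XA _ _
  let s : Setoid (Fin (N + 1)) :=
    { r := fun i j => ∀ A, IsK (subst g (frm f)) A → A i i = A j j
      iseqv := ⟨fun i A _ => rfl, fun h A hA => (h A hA).symm,
        fun h h' A hA => (h A hA).trans (h' A hA)⟩ }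
  let bl : Fin (N + 1) → Fin (N + 1) := fun i => (Quotient.mk s i).out
  have hbl : ∀ i, ∀ A, IsK (subst g (frm f)) A → A (bl i) (bl i) = A i i := by
    intro i
    exact Quotient.mk_out (s := s) i
  refine ⟨bl, ?_, ?_⟩
  · intro i j hij
    rw [hfrm]
    have h1 : ¬ (∀ A, IsK (subst g (frm f)) A → A i i = A j j) := by
      intro hcon
      apply hij
      change (Quotient.mk s i).out = (Quotient.mk s j).out
      have : Quotient.mk s i = Quotient.mk s j := Quotient.sound hcon
      rw [this]
    push Not at h1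
    obtain ⟨A, hA, hne⟩ := h1
    have h2 := hd A hA
    rw [h2, isK_diagonal] at hA
    have h3 := hA i j
    refine (mul_eq_zero.mp h3).resolve_left ?_
    rw [← C_sub]
    intro h0
    rw [C_eq_zero, sub_eq_zero] at h0
    exact hne h0
  · intro A hA
    rw [hfrm] at hA
    refine ⟨fun i => A i i, ?_⟩
    have h2 : (fun i => A (bl i) (bl i)) = fun i => A i i := funext fun i => hbl i A hA
    rw [h2]
    exact hd A hA

theorem Blocks.isK {f : Ex N (e + 1) → k} {bl : Fin (N + 1) → Fin (N + 1)} (hb : Blocks f bl)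
    (t : Fin (N + 1) → k) : IsK (frm f) (Matrix.diagonal (fun i => t (bl i))) := by
  rw [isK_diagonal]
  intro i j
  by_cases h : bl i = bl j
  · rw [h, sub_self, zero_mul]
  · rw [hb.hess i j h, mul_zero]

end

end Pool.Agent.Helper819.Gr
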