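import Pool.Agent.Helper819.Gr.V5

/-!
Finiteness of linear stabilisers of nonsingular forms.
-/

open MvPolynomial

namespace Pool.Agent.Helper819.Gr

open Pool.Agent.Helper819.Apolar Pool.Agent.Helper819.Dyn

noncomputable section

set_option linter.unusedSectionVars false

variable {k : Type} [Field k] {N e : ℕ}

theorem det_ne_of_NZ {K : Type} [Field K] (he : 1 ≤ e) (f f' : Ex N (e + 1) → K)
    (hf : NZ (tup (grad f))) (g : Matrix (Fin (N + 1)) (Fin (N + 1)) K)
    (h : (XA N (e + 1)).act (diag g) f' = f) : g.det ≠ 0 := by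
  intro h0
  obtain ⟨v, hv, hgv⟩ := Matrix.exists_mulVec_eq_zero_iff.mpr h0
  apply hv
  apply hf
  intro i
  rw [← h, eval_grad_act, hgv]
  apply Finset.sum_eq_zero
  intro j _
  have h1 := eval_smul_hom (tup_homog (grad f') j) 0 0
  rw [zero_smul, zero_pow (by omega), zero_mul] at h1
  rw [h1, mul_zero]

theorem finite_stab [IsAlgClosed k] [CharZero k] (he : 2 ≤ e) (f0 : Ex N (e + 1) → k)
    (hf0 : NZ (tup (grad f0))) :
    {g : Matrix (Fin (N + 1)) (Fin (N + 1)) k | (XA N (e + 1)).act (diag g) f0 = f0}.Finite := by
  classical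
  set H := {g : Matrix (Fin (N + 1)) (Fin (N + 1)) k | (XA N (e + 1)).act (diag g) f0 = f0}
    with hH
  have key : ∀ i0 j0, ((fun g : Matrix (Fin (N + 1)) (Fin (N + 1)) k => g i0 j0) '' H).Finite := by
    intro i0 j0
    by_contra hinf
    let M0 := MvPolynomial (Fin (N + 1) × Fin (N + 1)) k
    let I : Ideal M0 :=
      { carrier := {P | ∀ g ∈ H, eval (fun p : Fin (N + 1) × Fin (N + 1) => g p.1 p.2) P = 0}
        add_mem' := by
          intro a b ha hb g hg
          rw [map_add, ha g hg, hb g hg, add_zero]
        zero_mem' := by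
          intro g _
          rw [map_zero]
        smul_mem' := by
          intro a b hb g hg
          rw [smul_eq_mul, map_mul, hb g hg, mul_zero] }
    let φ : Polynomial k →ₐ[k] M0 := Polynomial.aeval (X (i0, j0))
    let S0 : Submonoid M0 :=
      { carrier := {P | ∃ q : Polynomial k, q ≠ 0 ∧ φ q = P}
        mul_mem' := by
          rintro _ _ ⟨q, hq, rfl⟩ ⟨q', hq', rfl⟩
          exact ⟨q * q', mul_ne_zero hq hq', map_mul _ _ _⟩
        one_mem' := ⟨1, one_ne_zero, map_one _⟩ }
    have hdisj : Disjoint (I : Set M0) (S0 : Set M0) := by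
      rw [Set.disjoint_left]
      rintro _ hP ⟨q, hq, rfl⟩
      apply hinf
      refine (q.roots.toFinset.finite_toSet).subset ?_
      rintro _ ⟨g, hg, rfl⟩
      rw [Finset.mem_coe, Multiset.mem_toFinset, Polynomial.mem_roots hq, Polynomial.IsRoot.def]
      have h1 := hP g hg
      have h2 : eval (fun p : Fin (N + 1) × Fin (N + 1) => g p.1 p.2) (φ q) =
          q.eval (g i0 j0) := by
        change eval _ (Polynomial.aeval (X (i0, j0)) q) = _
        have h3 := Polynomial.hom_eval₂ q (algebraMap k M0)
          (eval (fun p : Fin (N + 1) × Fin (N + 1) => g p.1 p.2)) (X (i0, j0))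
        rw [Polynomial.aeval_def, h3]
        have h4 : (eval (fun p : Fin (N + 1) × Fin (N + 1) => g p.1 p.2)).comp
            (algebraMap k M0) = RingHom.id k := by
          ext a
          change eval _ (C a) = a
          exact eval_C _
        rw [h4, eval_X]
        rfl
      rw [h2] at h1
      exact h1
    obtain ⟨Q, hQ, hQ1, hQ2⟩ := Ideal.exists_le_prime_disjoint I S0 hdisj
    let L := FractionRing (M0 ⧸ Q)
    let π : M0 →ₐ[k] L := (IsScalarTower.toAlgHom k (M0 ⧸ Q) L).comp (Ideal.Quotient.mkₐ k Q)
    have hπ : ∀ x, π x = 0 ↔ x ∈ Q := by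
      intro x
      change algebraMap (M0 ⧸ Q) L (Ideal.Quotient.mk Q x) = 0 ↔ _
      rw [FaithfulSMul.algebraMap_eq_zero_iff, Ideal.Quotient.eq_zero_iff_mem]
    let G0 : Matrix (Fin (N + 1)) (Fin (N + 1)) M0 := Matrix.of fun i j => X (i, j)
    let G : Matrix (Fin (N + 1)) (Fin (N + 1)) L := G0.map π
    have hfix : (XA N (e + 1)).act (diag G) (fun p => algebraMap k L (f0 p)) =
        fun p => algebraMap k L (f0 p) := by
      funext p
      have h1 := (XA N (e + 1)).map_act (π : M0 →+* L) (diag G0)
        (fun p => algebraMap k M0 (f0 p)) p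
      have h2 : (fun q => (π : M0 →+* L) (algebraMap k M0 (f0 q))) =
          fun p => algebraMap k L (f0 p) := by
        funext q
        exact π.commutes _
      rw [h2] at h1
      have h3 : (fun s => (diag G0 s).map (π : M0 →+* L)) = diag G := rfl
      rw [h3] at h1
      rw [← h1]
      have h4 : algebraMap k L (f0 p) = π (algebraMap k M0 (f0 p)) := (π.commutes _).symm
      rw [h4]
      change π _ = _
      rw [← sub_eq_zero, ← map_sub, hπ]
      apply hQ1
      intro g hg
      rw [map_sub]
      have h5 := (XA N (e + 1)).map_act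
        (eval (fun p : Fin (N + 1) × Fin (N + 1) => g p.1 p.2)) (diag G0)
        (fun p => algebraMap k M0 (f0 p)) p
      rw [h5]
      have h6 : (fun q => eval (fun p : Fin (N + 1) × Fin (N + 1) => g p.1 p.2)
          (algebraMap k M0 (f0 q))) = f0 := by
        funext q
        change eval _ (C _) = _
        exact eval_C _
      have h7 : (fun s => (diag G0 s).map (eval (fun p : Fin (N + 1) × Fin (N + 1) =>
          g p.1 p.2))) = diag g := by
        funext s
        refine Matrix.ext fun i j => ?_
        change eval _ (X _) = _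
        rw [eval_X]
        rfl
      rw [h6, h7, congrFun h6 p]
      have h8 : (XA N (e + 1)).act (diag g) f0 = f0 := hg
      rw [h8, sub_self]
    have hNZL : NZ (tup (grad (fun p => algebraMap k L (f0 p)))) := by
      have h1 := NZ_map (K := L) hf0
      rw [grad_const]
      convert h1 using 1
      funext i
      exact (map_tup _ _ i).symm
    have hdet : G.det ≠ 0 := det_ne_of_NZ (by omega) _ _ hNZL G hfix
    have hmem : π (X (i0, j0)) ∈ (integralClosure
        (Subring.closure (Set.range (algebraMap k L))) L).toSubring := by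
      rw [← iInf_valuationSubring_superset, Subring.mem_iInf]
      rintro ⟨O, hO⟩
      have hk : ∀ a : k, algebraMap k L a ∈ O := fun a => hO ⟨a, rfl⟩
      let _ : Algebra k O := algO O hk
      have : IsScalarTower k O L := IsScalarTower.of_algebraMap_eq (fun _ => rfl)
      let c0 : Ex N (e + 1) → O := fun q => algebraMap k O (f0 q)
      have hG : Good O (grad c0) := by
        have h1 := good_const O hk hf0
        have h2 : grad c0 = fun p => algebraMap k O (grad f0 p) := grad_const f0
        rw [h2]
        exact h1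
      obtain ⟨h1, _⟩ := nl O he hG hG G G⁻¹ (Matrix.mul_nonsing_inv _
        (isUnit_iff_ne_zero.mpr hdet)) hfix
      exact h1 i0 j0
    have hint : IsIntegral (Subring.closure (Set.range (algebraMap k L))) (π (X (i0, j0))) := hmem
    have hint2 : IsIntegral k (π (X (i0, j0))) := by
      obtain ⟨P, hP1, hP2⟩ := hint
      have hcl : Subring.closure (Set.range (algebraMap k L)) = (algebraMap k L).range := by
        apply le_antisymm
        · rw [Subring.closure_le]
          rintro _ ⟨a, rfl⟩
          exact ⟨a, rfl⟩
        · rintro _ ⟨a, rfl⟩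
          exact Subring.subset_closure ⟨a, rfl⟩
      have hsurj : ∀ a : Subring.closure (Set.range (algebraMap k L)), ∃ b : k,
          algebraMap k L b = a := by
        rintro ⟨a, ha⟩
        rw [hcl] at ha
        exact ha
      choose u hu using hsurj
      refine ⟨∑ i ∈ Finset.range P.natDegree, Polynomial.monomial i (u (P.coeff i)) +
        Polynomial.X ^ P.natDegree, ?_, ?_⟩
      · rw [add_comm]
        apply Polynomial.monic_X_pow_add
        refine (Polynomial.degree_sum_le _ _).trans_lt ?_
        rw [Finset.sup_lt_iff (WithBot.bot_lt_coe _)]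
        intro i hi
        refine (Polynomial.degree_monomial_le _ _).trans_lt ?_
        exact WithBot.coe_lt_coe.mpr (Finset.mem_range.mp hi)
      · rw [Polynomial.eval₂_add, Polynomial.eval₂_finsetSum, Polynomial.eval₂_X_pow]
        simp only [Polynomial.eval₂_monomial, hu]
        rw [Polynomial.eval₂_eq_sum_range, Finset.sum_range_succ] at hP2
        rw [Polynomial.coeff_natDegree, hP1.leadingCoeff, map_one, one_mul] at hP2
        exact hP2
    obtain ⟨q, hq1, hq2⟩ := hint2
    have hq3 : π (φ q) = 0 := by
      rw [← hq2]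
      change π (Polynomial.aeval (X (i0, j0)) q) = _
      rw [← Polynomial.aeval_algHom_apply]
      rfl
    exact Set.disjoint_left.mp hQ2 ((hπ _).mp hq3) ⟨q, hq1.ne_zero, rfl⟩
  have hfin : {g : Matrix (Fin (N + 1)) (Fin (N + 1)) k | ∀ i j, g i j ∈
      ((fun g : Matrix (Fin (N + 1)) (Fin (N + 1)) k => g i j) '' H)}.Finite := by
    have h1 : (Set.univ.pi fun i : Fin (N + 1) => Set.univ.pi fun j : Fin (N + 1) =>
        ((fun g : Matrix (Fin (N + 1)) (Fin (N + 1)) k => g i j) '' H)).Finite :=
      Set.Finite.pi fun i => Set.Finite.pi fun j => key i j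
    refine h1.subset ?_
    intro g hg i _ j _
    exact hg i j
  refine hfin.subset ?_
  intro g hg i j
  exact ⟨g, hg, rfl⟩

end

end Pool.Agent.Helper819.Gr
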