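import Pool.Agent.Helper819.Gr.K2
import Pool.Agent.Helper819.Gr.V7

/-!
Gradients in the orbit of the gradient of a form in block coordinates.
-/

open MvPolynomial

namespace Pool.Agent.Helper819.Gr

open Pool.Agent.Helper819.Apolar Pool.Agent.Helper819.Dyn

noncomputable section

set_option linter.unusedSectionVars false

variable {k : Type} [Field k] {N d e : ℕ}

theorem grad_inj [CharZero k] {c c' : Ex N (e + 1) → k} (h : grad c = grad c') : c = c' := by
  funext α
  have h1 : ∃ i, α.1 i ≠ 0 := by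
    by_contra hcon
    push Not at hcon
    have h2 : α.1 = 0 := Finsupp.ext hcon
    have h3 := (mem_Ex α.1).mp α.2
    rw [h2] at h3
    simp at h3
  obtain ⟨i, hi⟩ := h1
  obtain ⟨m, rfl⟩ := exists_down α i hi
  have h2 := congrFun h (i, m)
  rw [grad_apply, grad_apply] at h2
  exact mul_left_cancel₀ (Nat.cast_ne_zero.mpr (Nat.succ_ne_zero _)) h2

theorem coeff_pd_frm (f : Ex N (e + 1) → k) (i : Fin (N + 1)) (m : Ex N e) :
    coeff m.1 (pderiv i (frm f)) = grad f (i, m) := rfl

theorem Blocks.supp [CharZero k] {f : Ex N (e + 1) → k} {bl : Fin (N + 1) → Fin (N + 1)}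
    (hb : Blocks f bl) {i j : Fin (N + 1)} {m : Ex N e} (h : grad f (i, m) ≠ 0)
    (hj : m.1 j ≠ 0) : bl j = bl i := by
  by_contra hne
  have h1 := hb.hess j i hne
  have h2 := congrArg (coeff (m.1 - Finsupp.single j 1)) h1
  rw [coeff_pderiv', coeff_zero, tsub_add_cancel_of_le (by
    rw [Finsupp.single_le_iff]; omega), coeff_pd_frm] at h2
  have h3 : (((m.1 - Finsupp.single j 1 : Fin (N + 1) →₀ ℕ) j + 1 : ℕ) : k) ≠ 0 :=
    Nat.cast_ne_zero.mpr (Nat.succ_ne_zero _)
  exact h ((mul_eq_zero.mp h2).resolve_left h3)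

theorem Blocks.scale [CharZero k] {f : Ex N (e + 1) → k} {bl : Fin (N + 1) → Fin (N + 1)}
    (hb : Blocks f bl) (s : Fin (N + 1) → k) :
    grad ((XA N (e + 1)).act (diag (Matrix.diagonal fun i => s (bl i))) f) =
      (ZA N e).act (pr2 (Matrix.diagonal fun i => s (bl i) ^ (e + 1)) 1) (grad f) := by
  rw [grad_act]
  funext p
  rw [ZA_diagonal (diag (diag (Matrix.diagonal fun i => s (bl i)) true))
    (fun i => s (bl i)) (fun i => s (bl i)) rfl rfl,
    ZA_diagonal (pr2 (Matrix.diagonal fun i => s (bl i) ^ (e + 1)) 1)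
      (fun i => s (bl i) ^ (e + 1)) (fun _ => 1) (by simp) rfl, mon_const, one_pow, mul_one]
  by_cases h0 : grad f p = 0
  · rw [h0, mul_zero, mul_zero]
  · have h1 : mon (fun i => s (bl i)) p.2.1 = s (bl p.1) ^ e := by
      have h9 : s (bl p.1) ^ e = mon (fun _ => s (bl p.1)) p.2.1 := by
        rw [mon_const, (mem_Ex p.2.1).mp p.2.2]
      rw [h9]
      unfold mon
      refine Finset.prod_congr rfl fun j _ => ?_
      by_cases hj : p.2.1 j = 0
      · rw [hj, pow_zero, pow_zero]
      · change s (bl j) ^ _ = s (bl p.1) ^ _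
        rw [hb.supp (i := p.1) (m := p.2) h0 hj]
    rw [h1, pow_succ']

theorem act_diag_inv_X {g h : Matrix (Fin (N + 1)) (Fin (N + 1)) k} (hgh : g * h = 1)
    (c : Ex N d → k) : (XA N d).act (diag h) ((XA N d).act (diag g) c) = c := by
  rw [(XA N d).act_act]
  have : diag g * diag h = 1 := by
    rw [diag_eq_pr2, diag_eq_pr2, pr2_mul, hgh, pr2_one]
  rw [this, (XA N d).act_one]

/-- Gradients in the orbit of a gradient. -/
theorem Blocks.orbit [IsAlgClosed k] [CharZero k] {f0 : Ex N (e + 1) → k}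
    {bl : Fin (N + 1) → Fin (N + 1)} (hb : Blocks f0 bl) (f1 : Ex N (e + 1) → k)
    (A : Mt Bool (N + 1) k) (hA : ∀ s, (A s).det ≠ 0)
    (h : (ZA N e).act A (grad f0) = grad f1) :
    ∃ s : Fin (N + 1) → k, (∀ i, s i ≠ 0) ∧
      (XA N (e + 1)).act (diag (Matrix.diagonal (fun i => s (bl i)) * A true)) f0 = f1 ∧
      A false = Matrix.diagonal (fun i => s (bl i) ^ (e + 1)) * A true := by
  have hgg : A true * (A true)⁻¹ = 1 := Matrix.mul_nonsing_inv _ (isUnit_iff_ne_zero.mpr (hA _))
  have hgg' : (A true)⁻¹ * A true = 1 := Matrix.nonsing_inv_mul _ (isUnit_iff_ne_zero.mpr (hA _))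
  set f2 := (XA N (e + 1)).act (diag (A true)⁻¹) f1 with hf2
  have hg2 : grad f2 = (ZA N e).act (pr2 (A false * (A true)⁻¹) 1) (grad f0) := by
    rw [hf2, grad_act, ← h, (ZA N e).act_act]
    congr 1
    rw [eta_pr2 A]
    change pr2 (A false) (A true) * diag (A true)⁻¹ = _
    rw [diag_eq_pr2, pr2_mul, hgg]
    rfl
  have hK : IsK (frm f0) (A false * (A true)⁻¹).transpose := by
    apply isK_of_grad (F' := frm f2)
    intro i
    have h1 := congrFun (tup_grad f2) i
    rw [hg2, tup_ZA] at h1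
    rw [← h1]
    unfold zact
    refine Finset.sum_congr rfl fun j _ => ?_
    rw [tup_grad]
    change C ((A false * (A true)⁻¹) j i) * subst 1 (pderiv j (frm f0)) = _
    rw [subst_one]
    rfl
  obtain ⟨t, ht⟩ := hb.scal _ hK
  have ht2 : A false * (A true)⁻¹ = Matrix.diagonal (fun i => t (bl i)) := by
    rw [← Matrix.transpose_transpose (A false * (A true)⁻¹), ht, Matrix.diagonal_transpose]
  have ht3 : A false = Matrix.diagonal (fun i => t (bl i)) * A true := by
    rw [← ht2, Matrix.mul_assoc, hgg', Matrix.mul_one]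
  have ht0 : ∀ i, t (bl i) ≠ 0 := by
    intro i hi
    apply hA false
    rw [ht3, Matrix.det_mul, Matrix.det_diagonal, Finset.prod_eq_zero (Finset.mem_univ i) hi,
      zero_mul]
  have hs : ∀ i, ∃ s : k, s ≠ 0 ∧ (t i ≠ 0 → s ^ (e + 1) = t i) := by
    intro i
    by_cases h0 : t i = 0
    · exact ⟨1, one_ne_zero, fun h => absurd h0 h⟩
    · obtain ⟨s, hs⟩ := IsAlgClosed.exists_pow_nat_eq (t i) (n := e + 1) (by omega)
      refine ⟨s, ?_, fun _ => hs⟩
      rintro rfl
      rw [zero_pow (by omega)] at hs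
      exact h0 hs.symm
  choose s hs0 hs1 using hs
  have hst : (fun i => s (bl i) ^ (e + 1)) = fun i => t (bl i) :=
    funext fun i => hs1 _ (ht0 i)
  refine ⟨s, hs0, ?_, by rw [hst]; exact ht3⟩
  have h5 : (XA N (e + 1)).act (diag (Matrix.diagonal fun i => s (bl i))) f0 = f2 := by
    apply grad_inj
    rw [hb.scale, hst, hg2, ht2]
  have h6 := act_diag_inv_X hgg' f1
  rw [← hf2, ← h5, (XA N (e + 1)).act_act] at h6
  exact h6

/-- Normalisation by the stabiliser. -/
theorem Blocks.conj [CharZero k] {f0 : Ex N (e + 1) → k}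
    {bl : Fin (N + 1) → Fin (N + 1)} (hb : Blocks f0 bl)
    {g h : Matrix (Fin (N + 1)) (Fin (N + 1)) k} (hgh : g * h = 1)
    (hfix : (XA N (e + 1)).act (diag g) f0 = f0) (s : Fin (N + 1) → k) :
    ∃ t : Fin (N + 1) → k, h * Matrix.diagonal (fun i => s (bl i)) * g =
      Matrix.diagonal (fun i => t (bl i)) := by
  have h1 := (hb.isK s).subst g h hgh
  have h2 : subst g (frm f0) = frm f0 := by
    have h9 := frm_XA (N := N) (d := e + 1) (diag g) f0
    rw [hfix] at h9
    exact h9.symm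
  rw [h2] at h1
  obtain ⟨t, ht⟩ := hb.scal _ h1
  refine ⟨t, ?_⟩
  have h3 := congrArg Matrix.transpose ht
  rw [Matrix.transpose_mul, Matrix.transpose_mul, Matrix.transpose_transpose,
    Matrix.transpose_transpose, Matrix.diagonal_transpose, Matrix.diagonal_transpose,
    ← Matrix.mul_assoc] at h3
  exact h3

end

end Pool.Agent.Helper819.Gr
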