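import Pool.Agent.Helper819.Gr.K3

/-!
Multidegrees and the tangent spaces of orbits.
-/

open MvPolynomial

namespace Pool.Agent.Helper819.Gr

open Pool.Agent.Helper819.Apolar Pool.Agent.Helper819.Dyn

noncomputable section

set_option linter.unusedSectionVars false

variable {k : Type} [Field k] {N d e : ℕ} (bl : Fin (N + 1) → Fin (N + 1))

/-- the multidegree with respect to the blocks -/
def mdeg (α : Fin (N + 1) →₀ ℕ) : Fin (N + 1) → ℕ := fun a => ∑ i, if bl i = a then α i else 0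

theorem mdeg_add (α β : Fin (N + 1) →₀ ℕ) : mdeg bl (α + β) = mdeg bl α + mdeg bl β := by
  funext a
  unfold mdeg
  rw [Pi.add_apply, ← Finset.sum_add_distrib]
  refine Finset.sum_congr rfl fun i _ => ?_
  split_ifs
  · exact Finsupp.add_apply _ _ _
  · rfl

theorem mdeg_single (i : Fin (N + 1)) : mdeg bl (Finsupp.single i 1) = Pi.single (bl i) 1 := by
  funext a
  unfold mdeg
  rw [Finset.sum_eq_single i]
  · rw [Finsupp.single_eq_same, Pi.single_apply]
    simp [eq_comm]
  · intro j _ hj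
    rw [Finsupp.single_eq_of_ne hj]; simp
  · simp

theorem mdeg_up (i : Fin (N + 1)) (m : Ex N e) :
    mdeg bl (up i m).1 = mdeg bl m.1 + Pi.single (bl i) 1 := by
  change mdeg bl (m.1 + Finsupp.single i 1) = _
  rw [mdeg_add, mdeg_single]

theorem sum_mdeg (α : Fin (N + 1) →₀ ℕ) : ∑ a, mdeg bl α a = α.degree := by
  unfold mdeg
  rw [Finset.sum_comm, Finsupp.degree_eq_sum]
  refine Finset.sum_congr rfl fun i _ => ?_
  rw [Finset.sum_ite_eq, if_pos (Finset.mem_univ _)]

theorem mdeg_ne_zero {α : Fin (N + 1) →₀ ℕ} {a : Fin (N + 1)} :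
    mdeg bl α a ≠ 0 ↔ ∃ i, bl i = a ∧ α i ≠ 0 := by
  unfold mdeg
  rw [Ne, Finset.sum_eq_zero_iff]
  push Not
  constructor
  · rintro ⟨i, _, hi⟩
    refine ⟨i, ?_⟩
    by_contra hcon
    apply hi
    split_ifs with h
    · by_contra h0
      exact hcon ⟨h, h0⟩
    · rfl
  · rintro ⟨i, hi, h0⟩
    exact ⟨i, Finset.mem_univ _, by rw [if_pos hi]; exact h0⟩

theorem mon_bl {R : Type} [CommMonoid R] (s : Fin (N + 1) → R) (α : Fin (N + 1) →₀ ℕ) :
    mon (fun i => s (bl i)) α = ∏ a, s a ^ mdeg bl α a := by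
  unfold mon mdeg
  simp_rw [← Finset.prod_pow_eq_pow_sum]
  rw [Finset.prod_comm]
  refine Finset.prod_congr rfl fun i _ => ?_
  rw [Finset.prod_eq_single (bl i)]
  · rw [if_pos rfl]
  · intro b _ hb
    rw [if_neg (fun h => hb h.symm), pow_zero]
  · simp

variable {bl} in
theorem Blocks.mdeg_eq [CharZero k] {f : Ex N (e + 1) → k}
    (hb : Blocks f bl) {i : Fin (N + 1)} {m : Ex N e} (h : grad f (i, m) ≠ 0) :
    mdeg bl m.1 = Pi.single (bl i) e := by
  funext a
  by_cases ha : a = bl i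
  · subst ha
    rw [Pi.single_eq_same]
    have h1 := sum_mdeg bl m.1
    rw [(mem_Ex m.1).mp m.2, Finset.sum_eq_single (bl i)] at h1
    · exact h1
    · intro b _ hb'
      by_contra h0
      obtain ⟨j, hj, hj0⟩ := (mdeg_ne_zero bl).mp h0
      exact hb' (hj ▸ hb.supp h hj0)
    · simp
  · rw [Pi.single_eq_of_ne ha]
    by_contra h0
    obtain ⟨j, hj, hj0⟩ := (mdeg_ne_zero bl).mp h0
    exact ha (hj ▸ hb.supp h hj0)

/-- projection to a multidegree -/
def pm (μ : Fin (N + 1) → ℕ) : (Ex N d → k) →ₗ[k] (Ex N d → k) where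
  toFun v := fun α => if mdeg bl α.1 = μ then v α else 0
  map_add' v w := by
    funext α
    simp only [Pi.add_apply]
    split_ifs <;> simp
  map_smul' r v := by
    funext α
    simp only [Pi.smul_apply, RingHom.id_apply, smul_eq_mul]
    split_ifs <;> simp

theorem pm_apply (μ : Fin (N + 1) → ℕ) (v : Ex N d → k) (α : Ex N d) :
    pm bl μ v α = if mdeg bl α.1 = μ then v α else 0 := rfl

/-- coefficient formula for the tangent vectors -/
theorem XA_xi_apply (Y : Mt Bool (N + 1) k) (f : Ex N (e + 1) → k) (α : Ex N (e + 1)) :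
    (XA N (e + 1)).xi Y f α =
      ∑ l, ∑ m, Y true l m * coeff α.1 (X m * pderiv l (frm f)) := by
  change coeff α.1 (∑ l, (∑ m, C (Y true l m) * X m) * pderiv l (frm f)) = _
  rw [coeff_sum]
  refine Finset.sum_congr rfl fun l _ => ?_
  rw [Finset.sum_mul, coeff_sum]
  refine Finset.sum_congr rfl fun m _ => ?_
  rw [mul_assoc, coeff_C_mul]

theorem ZA_xi_apply (Y : Mt Bool (N + 1) k) (G : Ix N e → k) (i : Fin (N + 1)) (β : Ex N e) :
    (ZA N e).xi Y G (i, β) = ∑ l, Y false l i * G (l, β) +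
      ∑ l, ∑ m, Y true l m * coeff β.1 (X m * pderiv l (tup G i)) := by
  change coeff β.1 (∑ j, C (Y false j i) * tup G j +
    ∑ l, (∑ m, C (Y true l m) * X m) * pderiv l (tup G i)) = _
  rw [coeff_add, coeff_sum, coeff_sum]
  congr 1
  · refine Finset.sum_congr rfl fun l _ => ?_
    rw [coeff_C_mul]
    congr 1
    exact coeff_tup G (l, β)
  · refine Finset.sum_congr rfl fun l _ => ?_
    rw [Finset.sum_mul, coeff_sum]
    refine Finset.sum_congr rfl fun m _ => ?_
    rw [mul_assoc, coeff_C_mul]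

variable {bl}

theorem Blocks.coeff_X_pd [CharZero k] {f : Ex N (e + 1) → k}
    (hb : Blocks f bl) {l m : Fin (N + 1)} {α : Ex N (e + 1)}
    (h : coeff α.1 (X m * pderiv l (frm f)) ≠ 0) :
    mdeg bl α.1 = Pi.single (bl l) e + Pi.single (bl m) 1 := by
  rw [mul_comm, coeff_mul_X'] at h
  split_ifs at h with hm
  · obtain ⟨β, rfl⟩ := exists_down α m (Finsupp.mem_support_iff.mp hm)
    have h1 : (up m β).1 - Finsupp.single m 1 = β.1 := by
      change β.1 + Finsupp.single m 1 - Finsupp.single m 1 = β.1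
      exact add_tsub_cancel_right _ _
    rw [h1, coeff_pd_frm] at h
    rw [mdeg_up, hb.mdeg_eq h]
  · exact absurd rfl h

/-- the tangent space is graded -/
theorem Blocks.pm_xi [CharZero k] {f : Ex N (e + 1) → k} (hb : Blocks f bl)
    (μ : Fin (N + 1) → ℕ) (Y : Mt Bool (N + 1) k) :
    ∃ Y' : Mt Bool (N + 1) k, pm bl μ ((XA N (e + 1)).xi Y f) = (XA N (e + 1)).xi Y' f := by
  classical
  refine ⟨fun _ => Matrix.of fun l m =>
    if Pi.single (bl l) e + Pi.single (bl m) 1 = μ then Y true l m else 0, ?_⟩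
  funext α
  rw [pm_apply, XA_xi_apply, XA_xi_apply]
  split_ifs with hα
  · refine Finset.sum_congr rfl fun l _ => Finset.sum_congr rfl fun m _ => ?_
    rw [Matrix.of_apply]
    by_cases h0 : coeff α.1 (X m * pderiv l (frm f)) = 0
    · rw [h0, mul_zero, mul_zero]
    · rw [if_pos (by rw [← hb.coeff_X_pd h0, hα])]
  · symm
    apply Finset.sum_eq_zero
    intro l _
    apply Finset.sum_eq_zero
    intro m _
    rw [Matrix.of_apply]
    by_cases h0 : coeff α.1 (X m * pderiv l (frm f)) = 0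
    · rw [h0, mul_zero]
    · rw [if_neg (by rw [← hb.coeff_X_pd h0]; exact hα), zero_mul]

end

end Pool.Agent.Helper819.Gr
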