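import Pool.Agent.Helper819.Gr.L1

/-!
Injectivity of the differential on normal spaces, by multidegree.
-/

open MvPolynomial

namespace Pool.Agent.Helper819.Gr

open Pool.Agent.Helper819.Apolar Pool.Agent.Helper819.Dyn

noncomputable section

set_option linter.unusedSectionVars false

variable {k : Type} [Field k] {N d e : ℕ} {bl : Fin (N + 1) → Fin (N + 1)}

theorem grad_sub (v w : Ex N (e + 1) → k) : grad (v - w) = grad v - grad w := by
  have h1 : v - w = v + (-1 : k) • w := by
    rw [neg_one_smul, sub_eq_add_neg]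
  have h2 : grad v - grad w = grad v + (-1 : k) • grad w := by
    rw [neg_one_smul, sub_eq_add_neg]
  rw [h1, h2, grad_add, grad_smul]

theorem grad_xi (Y : Mt Bool (N + 1) k) (f : Ex N (e + 1) → k) (i : Fin (N + 1)) (β : Ex N e) :
    grad ((XA N (e + 1)).xi Y f) (i, β) = ∑ l, Y true l i * grad f (l, β) +
      ∑ l, ∑ m, Y true l m * coeff β.1 (X m * pderiv l (tup (grad f) i)) := by
  have h1 : grad ((XA N (e + 1)).xi Y f) (i, β) =
      coeff β.1 (pderiv i (dsub (Y true) (frm f))) := by
    rw [← frm_XA_xi (by omega) Y f]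
    rfl
  rw [h1]
  unfold dsub
  rw [map_sum, coeff_sum, ← Finset.sum_add_distrib]
  refine Finset.sum_congr rfl fun l _ => ?_
  rw [Derivation.leibniz, coeff_add, map_sum, smul_eq_mul, smul_eq_mul, Finset.sum_mul, coeff_sum,
    add_comm]
  congr 1
  · have h2 : ∑ m, pderiv i (C (Y true l m) * X m : MvPolynomial (Fin (N + 1)) k) =
        C (Y true l i) := by
      rw [Finset.sum_eq_single i]
      · rw [pderiv_C_mul, pderiv_X_self, mul_one]
      · intro j _ hj
        rw [pderiv_C_mul, pderiv_X_of_ne hj, mul_zero]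
      · simp
    rw [h2, mul_comm, coeff_C_mul]
    rfl
  · refine Finset.sum_congr rfl fun m _ => ?_
    rw [mul_assoc, coeff_C_mul, tup_grad, pd_comm i l]

theorem pd_of_coeff {w f : Ex N (e + 1) → k} {A : Matrix (Fin (N + 1)) (Fin (N + 1)) k}
    (h : ∀ i β, grad w (i, β) = ∑ l, A i l * grad f (l, β)) (i : Fin (N + 1)) :
    pderiv i (frm w) = ∑ l, C (A i l) * pderiv l (frm f) := by
  have h1 : tup (grad w) = fun i => ∑ l, C (A i l) * tup (grad f) l := by
    rw [← tup_cf (d := e) (F := fun i => ∑ l, C (A i l) * tup (grad f) l) (fun i =>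
      IsHomogeneous.sum _ _ _ fun l _ => (tup_homog (grad f) l).C_mul _)]
    congr 1
    funext p
    rw [show p = (p.1, p.2) from rfl, h]
    change _ = coeff p.2.1 (∑ l, C (A p.1 l) * tup (grad f) l)
    rw [coeff_sum]
    refine Finset.sum_congr rfl fun l _ => ?_
    rw [coeff_C_mul]
    congr 1
    exact (coeff_tup (grad f) (l, p.2)).symm
  rw [tup_grad, tup_grad] at h1
  exact congrFun h1 i

theorem Blocks.inj [CharZero k] {f0 : Ex N (e + 1) → k} (hb : Blocks f0 bl)
    (a : Fin (N + 1)) (μ : Fin (N + 1) → ℕ) (hμ : μ a ≠ 0) (v : Ex N (e + 1) → k)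
    (Y : Mt Bool (N + 1) k)
    (h : ∀ i, bl i = a → ∀ β : Ex N e, mdeg bl β.1 + Pi.single a 1 = μ →
      grad v (i, β) = (ZA N e).xi Y (grad f0) (i, β)) :
    ∃ Y', pm bl μ v = pm bl μ ((XA N (e + 1)).xi Y' f0) := by
  classical
  let Cc : Fin (N + 1) → Fin (N + 1) → k := fun l i => Y false l i - Y true l i
  let Y3 : Matrix (Fin (N + 1)) (Fin (N + 1)) k :=
    Matrix.of fun l i => if bl i = a ∧ bl l ≠ a then Cc l i else 0
  let Y2 : Mt Bool (N + 1) k := fun _ => Y true + Y3
  set u : Ex N (e + 1) → k := v - (XA N (e + 1)).xi Y2 f0 with hu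
  have hstar : ∀ i, bl i = a → ∀ β : Ex N e, mdeg bl β.1 + Pi.single a 1 = μ →
      grad u (i, β) = ∑ l, (if bl l = a then Cc l i else 0) * grad f0 (l, β) := by
    intro i hi β hβ
    rw [hu, grad_sub, Pi.sub_apply, h i hi β hβ, ZA_xi_apply, grad_xi]
    have h1 : ∑ l, ∑ m, Y2 true l m * coeff β.1 (X m * pderiv l (tup (grad f0) i)) =
        ∑ l, ∑ m, Y true l m * coeff β.1 (X m * pderiv l (tup (grad f0) i)) := by
      refine Finset.sum_congr rfl fun l _ => Finset.sum_congr rfl fun m _ => ?_
      change (Y true l m + Y3 l m) * _ = _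
      rw [add_mul]
      by_cases hl : bl l = a
      · have : Y3 l m = 0 := by
          change (if bl m = a ∧ bl l ≠ a then Cc l m else 0) = 0
          rw [if_neg (fun h' => h'.2 hl)]
        rw [this, zero_mul, add_zero]
      · have h2 : pderiv l (tup (grad f0) i) = 0 := by
          rw [tup_grad]
          exact hb.hess l i (by rw [hi]; exact hl)
        rw [h2, mul_zero, coeff_zero, mul_zero, mul_zero, add_zero]
    rw [h1, add_sub_add_right_eq_sub, ← Finset.sum_sub_distrib]
    refine Finset.sum_congr rfl fun l _ => ?_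
    change Y false l i * _ - (Y true l i + Y3 l i) * _ = _
    by_cases hl : bl l = a
    · have : Y3 l i = 0 := by
        change (if bl i = a ∧ bl l ≠ a then Cc l i else 0) = 0
        rw [if_neg (fun h' => h'.2 hl)]
      rw [this, if_pos hl]
      change _ = (Y false l i - Y true l i) * _
      ring
    · have : Y3 l i = Y false l i - Y true l i := by
        change (if bl i = a ∧ bl l ≠ a then Cc l i else 0) = _
        rw [if_pos ⟨hi, hl⟩]
      rw [this, if_neg hl]
      ring
  have hv : v = (XA N (e + 1)).xi Y2 f0 + u := by rw [hu]; abel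
  by_cases hcase : μ = Pi.single a (e + 1)
  · set w := pm bl μ u with hw
    let Cs : Matrix (Fin (N + 1)) (Fin (N + 1)) k :=
      Matrix.of fun i l => if bl i = a ∧ bl l = a then Cc l i else 0
    have hgw : ∀ i β, grad w (i, β) = ∑ l, Cs i l * grad f0 (l, β) := by
      intro i β
      rw [grad_apply, hw, pm_apply, mdeg_up]
      by_cases hi : bl i = a
      · by_cases hβ : mdeg bl β.1 + Pi.single a 1 = μ
        · rw [hi, if_pos hβ, ← grad_apply, hstar i hi β hβ]
          refine Finset.sum_congr rfl fun l _ => ?_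
          change _ = (if bl i = a ∧ bl l = a then Cc l i else 0) * _
          simp [hi]
        · rw [hi, if_neg hβ, mul_zero]
          symm
          apply Finset.sum_eq_zero
          intro l _
          change (if bl i = a ∧ bl l = a then Cc l i else 0) * _ = 0
          split_ifs with hl
          · by_cases h0 : grad f0 (l, β) = 0
            · rw [h0, mul_zero]
            · exfalso
              apply hβ
              rw [hb.mdeg_eq h0, hl.2, hcase, ← Pi.single_add]
          · rw [zero_mul]
      · rw [if_neg, mul_zero]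
        · symm
          apply Finset.sum_eq_zero
          intro l _
          change (if bl i = a ∧ bl l = a then Cc l i else 0) * _ = 0
          rw [if_neg (fun h' => hi h'.1), zero_mul]
        · intro h'
          have := congrFun h' (bl i)
          rw [hcase, Pi.add_apply, Pi.single_eq_same, Pi.single_eq_of_ne hi] at this
          omega
    have hpd := pd_of_coeff hgw
    have hK := isK_of_grad hpd
    obtain ⟨t, ht⟩ := hb.scal _ hK
    have hpd2 : ∀ i, pderiv i (frm w) = C (t (bl i)) * pderiv i (frm f0) := by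
      intro i
      rw [hpd i, ht, Finset.sum_eq_single i]
      · rw [Matrix.diagonal_apply_eq]
      · intro j _ hj
        rw [Matrix.diagonal_apply_ne _ hj.symm, C_0, zero_mul]
      · simp
    let Y4 : Mt Bool (N + 1) k := fun _ => Matrix.diagonal (fun i => t (bl i))
    have he1 : ((e + 1 : ℕ) : k) ≠ 0 := Nat.cast_ne_zero.mpr (Nat.succ_ne_zero e)
    have hw4 : ((e + 1 : ℕ) : k) • w = (XA N (e + 1)).xi Y4 f0 := by
      apply frm_inj
      rw [frm_XA_xi (by omega), frm_smul]
      have h5 := (frm_homog w).sum_X_mul_pderiv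
      rw [nsmul_eq_mul] at h5
      have h6 : (C ((e + 1 : ℕ) : k) : MvPolynomial (Fin (N + 1)) k) = ((e + 1 : ℕ) :
          MvPolynomial (Fin (N + 1)) k) := map_natCast _ _
      rw [h6, ← h5]
      unfold dsub
      refine Finset.sum_congr rfl fun i _ => ?_
      have h7 : ∑ m, C (Y4 true i m) * X m = (C (t (bl i)) * X i : MvPolynomial (Fin (N + 1)) k) := by
        change ∑ m, C (Matrix.diagonal (fun i => t (bl i)) i m) * X m = _
        rw [Finset.sum_eq_single i]
        · rw [Matrix.diagonal_apply_eq]
        · intro j _ hj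
          rw [Matrix.diagonal_apply_ne _ hj.symm, C_0, zero_mul]
        · simp
      rw [h7, hpd2]
      ring
    refine ⟨Y2 + ((e + 1 : ℕ) : k)⁻¹ • Y4, ?_⟩
    rw [(XA N (e + 1)).xi_add, (XA N (e + 1)).xi_smul, ← hw4, smul_smul, inv_mul_cancel₀ he1,
      one_smul]
    conv_lhs => rw [hv]
    rw [map_add, map_add]
    congr 1
    funext α
    rw [pm_apply, pm_apply, hw, pm_apply]
    split_ifs <;> rfl
  · refine ⟨Y2, ?_⟩
    conv_lhs => rw [hv]
    rw [map_add]
    have h8 : pm bl μ u = 0 := by
      funext α
      rw [pm_apply]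
      split_ifs with hα
      · rw [← hα] at hμ
        obtain ⟨i, hi, hi0⟩ := (mdeg_ne_zero bl).mp hμ
        obtain ⟨β, rfl⟩ := exists_down α i hi0
        have hβ : mdeg bl β.1 + Pi.single a 1 = μ := by
          rw [← hα, mdeg_up, hi]
        have h9 := hstar i hi β hβ
        have h10 : ∑ l, (if bl l = a then Cc l i else 0) * grad f0 (l, β) = 0 := by
          apply Finset.sum_eq_zero
          intro l _
          split_ifs with hl
          · by_cases h0 : grad f0 (l, β) = 0
            · rw [h0, mul_zero]
            · exfalso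
              apply hcase
              rw [← hβ, hb.mdeg_eq h0, hl, ← Pi.single_add]
          · rw [zero_mul]
        rw [h10, grad_apply] at h9
        exact (mul_eq_zero.mp h9).resolve_left (Nat.cast_ne_zero.mpr (Nat.succ_ne_zero _))
      · rfl
    rw [h8, add_zero]

end

end Pool.Agent.Helper819.Gr
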