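import Pool.Agent.Helper819.Gr.L2

/-!
Functionals on the normal spaces.
-/

open MvPolynomial

namespace Pool.Agent.Helper819.Gr

open Pool.Agent.Helper819.Apolar Pool.Agent.Helper819.Dyn

noncomputable section

set_option linter.unusedSectionVars false

variable {k : Type} [Field k] {N d e : ℕ} {bl : Fin (N + 1) → Fin (N + 1)}

/-- tangent map -/
def XiL {n : ℕ} {ι σ : Type} [Fintype ι] [DecidableEq ι] (α : DAct ι n σ) (c : σ → k) :
    Mt ι n k →ₗ[k] (σ → k) where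
  toFun Y := α.xi Y c
  map_add' Y Y' := α.xi_add Y Y' c
  map_smul' r Y := α.xi_smul r Y c

/-- gradient as a linear map -/
def gradL (k : Type) [Field k] (N e : ℕ) : (Ex N (e + 1) → k) →ₗ[k] (Ix N e → k) where
  toFun v := grad v
  map_add' := grad_add
  map_smul' := grad_smul

theorem exists_xi_functionals [CharZero k] {f0 : Ex N (e + 1) → k} (hb : Blocks f0 bl) :
    ∃ ξ : Ex N (e + 1) → ((Ex N (e + 1) → k) →ₗ[k] k),
      (∀ v, ∃ Y, v - (fun α => ξ α v) = (XA N (e + 1)).xi Y f0) ∧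
      (∀ α Y, ξ α ((XA N (e + 1)).xi Y f0) = 0) ∧
      ∀ α v, ξ α v = ξ α (pm bl (mdeg bl α.1) v) := by
  classical
  set T := LinearMap.range (XiL (XA N (e + 1)) f0) with hT
  have hTm : ∀ v, v ∈ T ↔ ∃ Y, v = (XA N (e + 1)).xi Y f0 := by
    intro v
    constructor
    · rintro ⟨Y, rfl⟩
      exact ⟨Y, rfl⟩
    · rintro ⟨Y, rfl⟩
      exact ⟨Y, rfl⟩
  have hTg : ∀ μ v, v ∈ T → pm bl μ v ∈ T := by
    intro μ v hv
    obtain ⟨Y, rfl⟩ := (hTm v).mp hv
    obtain ⟨Y', hY'⟩ := hb.pm_xi μ Y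
    exact (hTm _).mpr ⟨Y', hY'⟩
  obtain ⟨s, hs⟩ := LinearMap.exists_rightInverse_of_surjective T.mkQ (by
    rw [Submodule.range_mkQ])
  have hs' : ∀ x, T.mkQ (s x) = x := fun x => by
    have := LinearMap.congr_fun hs x
    exact this
  let π0 : (Ex N (e + 1) → k) →ₗ[k] (Ex N (e + 1) → k) := s.comp T.mkQ
  have hπ1 : ∀ v, v ∈ T → π0 v = 0 := by
    intro v hv
    change s (T.mkQ v) = 0
    rw [Submodule.mkQ_apply, (Submodule.Quotient.mk_eq_zero T).mpr hv, map_zero]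
  have hπ2 : ∀ v, v - π0 v ∈ T := by
    intro v
    rw [← Submodule.Quotient.mk_eq_zero, ← Submodule.mkQ_apply, map_sub]
    change T.mkQ v - T.mkQ (s (T.mkQ v)) = 0
    rw [hs', sub_self]
  let M : Finset (Fin (N + 1) → ℕ) := Finset.univ.image (fun α : Ex N (e + 1) => mdeg bl α.1)
  refine ⟨fun α => (LinearMap.proj α).comp (π0.comp (pm bl (mdeg bl α.1))), ?_, ?_, ?_⟩
  · intro v
    rw [← hTm]
    have h1 : v - (fun α => ((LinearMap.proj α).comp (π0.comp (pm bl (mdeg bl α.1)))) v) =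
        ∑ μ ∈ M, pm bl μ (pm bl μ v - π0 (pm bl μ v)) := by
      funext α
      rw [Finset.sum_apply, Finset.sum_eq_single (mdeg bl α.1)]
      · rw [pm_apply, if_pos rfl, Pi.sub_apply, Pi.sub_apply, pm_apply, if_pos rfl]
        rfl
      · intro μ _ hμ
        rw [pm_apply, if_neg hμ.symm]
      · intro hα
        exact absurd (Finset.mem_image.mpr ⟨α, Finset.mem_univ _, rfl⟩) hα
    rw [h1]
    exact Submodule.sum_mem _ fun μ _ => hTg _ _ (hπ2 _)
  · intro α Y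
    change π0 (pm bl (mdeg bl α.1) ((XA N (e + 1)).xi Y f0)) α = 0
    rw [hπ1 _ (hTg _ _ ((hTm _).mpr ⟨Y, rfl⟩))]
    rfl
  · intro α v
    change π0 (pm bl (mdeg bl α.1) v) α = π0 (pm bl (mdeg bl α.1) (pm bl (mdeg bl α.1) v)) α
    have h3 : pm bl (mdeg bl α.1) (pm bl (mdeg bl α.1) v) = pm bl (mdeg bl α.1) v := by
      funext β
      simp only [pm_apply]
      split_ifs <;> rfl
    rw [h3]

/-- coordinate projection -/
def rp (bl : Fin (N + 1) → Fin (N + 1)) (a : Fin (N + 1)) (μ : Fin (N + 1) → ℕ) :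
    (Ix N e → k) →ₗ[k] (Ix N e → k) where
  toFun F := fun p => if bl p.1 = a ∧ mdeg bl p.2.1 + Pi.single a 1 = μ then F p else 0
  map_add' v w := by
    funext α
    simp only [Pi.add_apply]
    split_ifs <;> simp
  map_smul' r v := by
    funext α
    simp only [Pi.smul_apply, RingHom.id_apply, smul_eq_mul]
    split_ifs <;> simp

theorem exists_eta [CharZero k] {f0 : Ex N (e + 1) → k} (hb : Blocks f0 bl)
    (ξ : (Ex N (e + 1) → k) →ₗ[k] k) (μ : Fin (N + 1) → ℕ) (a : Fin (N + 1)) (hμ : μ a ≠ 0)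
    (h1 : ∀ Y, ξ ((XA N (e + 1)).xi Y f0) = 0) (h2 : ∀ v, ξ v = ξ (pm bl μ v)) :
    ∃ η : (Ix N e → k) →ₗ[k] k, (∀ v, η (grad v) = ξ v) ∧
      (∀ Y, η ((ZA N e).xi Y (grad f0)) = 0) ∧
      ∀ F F' : Ix N e → k, (∀ i β, bl i = a → mdeg bl β.1 + Pi.single a 1 = μ →
        F (i, β) = F' (i, β)) → η F = η F' := by
  let Φ : ((Ex N (e + 1) → k) × Mt Bool (N + 1) k) →ₗ[k] (Ix N e → k) :=
    (rp bl a μ).comp ((gradL k N e).coprod (XiL (ZA N e) (grad f0)))
  let g : Module.Dual k ((Ex N (e + 1) → k) × Mt Bool (N + 1) k) :=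
    ξ.comp (LinearMap.fst k _ _)
  have hg : g ∈ (LinearMap.ker Φ).dualAnnihilator := by
    rw [Submodule.mem_dualAnnihilator]
    rintro ⟨v, Y⟩ hvY
    rw [LinearMap.mem_ker] at hvY
    change ξ v = 0
    obtain ⟨Y', hY'⟩ := hb.inj a μ hμ v (-Y) (by
      intro i hi β hβ
      have h3 := congrFun hvY (i, β)
      change (if bl i = a ∧ mdeg bl β.1 + Pi.single a 1 = μ then
        (grad v + (ZA N e).xi Y (grad f0)) (i, β) else 0) = 0 at h3
      rw [if_pos ⟨hi, hβ⟩, Pi.add_apply] at h3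
      have h4 : (ZA N e).xi (-Y) (grad f0) = - (ZA N e).xi Y (grad f0) :=
        map_neg (XiL (ZA N e) (grad f0)) Y
      rw [h4, Pi.neg_apply]
      exact eq_neg_of_add_eq_zero_left h3)
    rw [h2, hY', ← h2, h1]
  rw [← LinearMap.range_dualMap_eq_dualAnnihilator_ker] at hg
  obtain ⟨η0, hη0⟩ := hg
  have hη : ∀ v Y, η0 (rp bl a μ (grad v + (ZA N e).xi Y (grad f0))) = ξ v := by
    intro v Y
    have := LinearMap.congr_fun hη0 (v, Y)
    exact this
  refine ⟨η0.comp (rp bl a μ), ?_, ?_, ?_⟩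
  · intro v
    have h3 := hη v 0
    have h4 : (ZA N e).xi 0 (grad f0) = 0 := map_zero (XiL (ZA N e) (grad f0))
    rw [h4, add_zero] at h3
    exact h3
  · intro Y
    have h3 := hη 0 Y
    have h4 : grad (0 : Ex N (e + 1) → k) = 0 := map_zero (gradL k N e)
    rw [h4, zero_add, map_zero] at h3
    exact h3
  · intro F F' hFF
    change η0 (rp bl a μ F) = η0 (rp bl a μ F')
    congr 1
    funext p
    change (if _ then F p else 0) = (if _ then F' p else 0)
    split_ifs with h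
    · exact hFF p.1 p.2 h.1 h.2
    · rfl

end

end Pool.Agent.Helper819.Gr
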