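import Mathlib

/-!
An assignment by Hall's theorem.
-/

namespace Pool.Agent.Helper819.Gr

theorem hall_assign {X B : Type} [Fintype X] [Fintype B] [DecidableEq X] [DecidableEq B]
    (w : X → B → ℕ) (d : ℕ) (hd : 0 < d) (hsum : ∀ x, ∑ b, w x b = d) (q : B → ℕ)
    (hq : ∀ b, ∑ x, w x b = d * q b) :
    ∃ a : X → B, (∀ x, w x (a x) ≠ 0) ∧
      ∀ b, (Finset.univ.filter (fun x => a x = b)).card = q b := by
  let t : X → Finset (Σ b, Fin (q b)) := fun x => (Finset.univ.filter fun b => w x b ≠ 0).sigma
    fun _ => Finset.univ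
  have ht : ∀ x (p : Σ b, Fin (q b)), p ∈ t x ↔ w x p.1 ≠ 0 := by
    intro x p
    simp [t]
  have hall : ∀ s : Finset X, s.card ≤ (s.biUnion t).card := by
    intro s
    let Bs : Finset B := s.biUnion fun x => Finset.univ.filter fun b => w x b ≠ 0
    have h1 : s.biUnion t = Bs.sigma fun _ => Finset.univ := by
      ext p
      simp [t, Bs]
    rw [h1, Finset.card_sigma]
    simp only [Finset.card_univ, Fintype.card_fin]
    have h2 : d * s.card ≤ d * ∑ b ∈ Bs, q b := by
      calc d * s.card = ∑ x ∈ s, ∑ b, w x b := by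
            rw [Finset.sum_congr rfl fun x _ => hsum x, Finset.sum_const, smul_eq_mul, mul_comm]
        _ = ∑ x ∈ s, ∑ b ∈ Bs, w x b := by
            refine Finset.sum_congr rfl fun x hx => ?_
            symm
            apply Finset.sum_subset (Finset.subset_univ _)
            intro b _ hb
            by_contra h0
            apply hb
            simp only [Bs, Finset.mem_biUnion, Finset.mem_filter]
            exact ⟨x, hx, Finset.mem_univ _, h0⟩
        _ ≤ ∑ x, ∑ b ∈ Bs, w x b :=
            Finset.sum_le_sum_of_subset_of_nonneg (Finset.subset_univ _) fun _ _ _ => Nat.zero_le _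
        _ = ∑ b ∈ Bs, d * q b := by
            rw [Finset.sum_comm]
            exact Finset.sum_congr rfl fun b _ => hq b
        _ = d * ∑ b ∈ Bs, q b := by rw [Finset.mul_sum]
    exact Nat.le_of_mul_le_mul_left h2 hd
  obtain ⟨f, hf1, hf2⟩ := (Finset.all_card_le_biUnion_card_iff_exists_injective t).mp hall
  refine ⟨fun x => (f x).1, fun x => (ht x _).mp (hf2 x), ?_⟩
  have hle : ∀ b ∈ (Finset.univ : Finset B),
      (Finset.univ.filter (fun x => (f x).1 = b)).card ≤ q b := by
    intro b _
    have h1 : (Finset.univ.filter (fun x => (f x).1 = b)).card ≤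
        ((Finset.univ : Finset (Fin (q b))).image (Sigma.mk (β := fun b => Fin (q b)) b)).card := by
      refine Finset.card_le_card_of_injOn f ?_ hf1.injOn
      intro x hx
      have hx' : (f x).1 = b := (Finset.mem_filter.mp hx).2
      subst hx'
      exact Finset.mem_coe.mpr (Finset.mem_image.mpr ⟨(f x).2, Finset.mem_univ _, rfl⟩)
    refine h1.trans (Finset.card_image_le.trans ?_)
    rw [Finset.card_univ, Fintype.card_fin]
  have hsumeq : ∑ b, (Finset.univ.filter (fun x => (f x).1 = b)).card = ∑ b, q b := by
    have h1 : ∑ b, (Finset.univ.filter (fun x => (f x).1 = b)).card = Fintype.card X := by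
      rw [← Finset.card_univ]
      exact (Finset.card_eq_sum_card_fiberwise (f := fun x => (f x).1)
        (fun x _ => Finset.mem_coe.mpr (Finset.mem_univ _))).symm
    have h2 : d * ∑ b, q b = d * Fintype.card X := by
      rw [Finset.mul_sum, ← Finset.sum_congr rfl fun b _ => hq b, Finset.sum_comm,
        Finset.sum_congr rfl fun x _ => hsum x, Finset.sum_const, Finset.card_univ, smul_eq_mul,
        mul_comm]
    rw [h1]
    exact (Nat.eq_of_mul_eq_mul_left hd h2).symm
  intro b
  exact (Finset.sum_eq_sum_iff_of_le hle).mp hsumeq b (Finset.mem_univ b)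

end Pool.Agent.Helper819.Gr
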