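import Pool.Agent.Helper819.Gr.L3
import Pool.Agent.Helper819.Gr.L4

/-!
Lifting invariant polynomials along the gradient.
-/

open MvPolynomial

namespace Pool.Agent.Helper819.Gr

open Pool.Agent.Helper819.Apolar Pool.Agent.Helper819.Dyn

noncomputable section

set_option linter.unusedSectionVars false

variable {k : Type} [Field k] {N d e : ℕ} {bl : Fin (N + 1) → Fin (N + 1)}

theorem coeff_scale {σ : Type} [Fintype σ] [DecidableEq σ] (c : σ → k) (P : MvPolynomial σ k) (μ : σ →₀ ℕ) :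
    coeff μ (aeval (fun α => C (c α) * X α : σ → MvPolynomial σ k) P) =
      (∏ α, c α ^ μ α) * coeff μ P := by
  induction P using MvPolynomial.induction_on' with
  | monomial u a =>
    have h2 : aeval (fun α => C (c α) * X α : σ → MvPolynomial σ k) (monomial u a) =
        monomial u ((∏ α, c α ^ u α) * a) := by
      rw [aeval_monomial, monomial_eq (s := u) (a := (∏ α, c α ^ u α) * a)]
      have h3 : ∀ (g : σ → MvPolynomial σ k), (u.prod fun n e => g n ^ e) = ∏ n, g n ^ u n := by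
        intro g
        exact Finsupp.prod_fintype _ _ (by simp)
      rw [h3, h3]
      simp only [mul_pow, Finset.prod_mul_distrib, map_mul, map_prod, map_pow, algebraMap_eq]
      ring
    rw [h2, coeff_monomial, coeff_monomial]
    split_ifs with h
    · rw [h]
    · rw [mul_zero]
  | add p q hp hq =>
    rw [map_add, coeff_add, hp, hq, coeff_add]
    ring

theorem eval_scale {σ : Type} (c v : σ → k) (P : MvPolynomial σ k) :
    eval v (aeval (fun α => C (c α) * X α : σ → MvPolynomial σ k) P) =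
      eval (fun α => c α * v α) P := by
  have h1 : eval v (bind₁ (fun α => C (c α) * X α : σ → MvPolynomial σ k) P) =
      eval (fun i => eval v (C (c i) * X i)) P := eval_bind' _ _ _
  rw [aeval_eq_bind₁, h1]
  congr 2
  funext p
  rw [map_mul, eval_C, eval_X]

theorem exists_prim [IsAlgClosed k] [CharZero k] (n : ℕ) (hn : 0 < n) :
    ∃ ζ : k, IsPrimitiveRoot ζ n := by
  have : NeZero ((n : ℕ) : k) := ⟨Nat.cast_ne_zero.mpr (by omega)⟩
  obtain ⟨ζ, hζ⟩ := IsAlgClosed.exists_root (Polynomial.cyclotomic n k) (by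
    rw [Polynomial.degree_cyclotomic]
    exact (Nat.cast_pos.mpr (Nat.totient_pos.mpr hn)).ne')
  exact ⟨ζ, Polynomial.isRoot_cyclotomic_iff.mp hζ⟩

/-- linear form as a polynomial -/
def lin {σ : Type} [Fintype σ] [DecidableEq σ] (η : (σ → k) →ₗ[k] k) : MvPolynomial σ k :=
  ∑ p, C (η fun j => if p = j then 1 else 0) * X p

theorem eval_lin {σ : Type} [Fintype σ] [DecidableEq σ] (η : (σ → k) →ₗ[k] k) (F : σ → k) :
    eval F (lin η) = η F := by
  unfold lin
  rw [map_sum, LinearMap.pi_apply_eq_sum_univ η F]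
  refine Finset.sum_congr rfl fun p _ => ?_
  rw [map_mul, eval_C, eval_X, smul_eq_mul, mul_comm]

theorem lin_homog {σ : Type} [Fintype σ] [DecidableEq σ] (η : (σ → k) →ₗ[k] k) :
    (lin η).IsHomogeneous 1 :=
  IsHomogeneous.sum _ _ _ fun _ _ => isHomogeneous_C_mul_X _ _

/-- divisibility of the multidegrees -/
theorem Blocks.dvd [IsAlgClosed k] [CharZero k] {f0 : Ex N (e + 1) → k} (hb : Blocks f0 bl)
    (P : MvPolynomial (Ex N (e + 1)) k)
    (hPH : ∀ g h : Matrix (Fin (N + 1)) (Fin (N + 1)) k, g * h = 1 →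
      (XA N (e + 1)).act (diag g) f0 = f0 → ∀ v, eval ((XA N (e + 1)).act (diag g) v) P = eval v P)
    (μ : Ex N (e + 1) →₀ ℕ) (hμ : μ ∈ P.support) (b : Fin (N + 1)) :
    (e + 1) ∣ ∑ α, μ α * mdeg bl α.1 b := by
  obtain ⟨ζ, hζ⟩ := exists_prim (k := k) (e + 1) (by omega)
  have hζ0 : ζ ≠ 0 := hζ.ne_zero (by omega)
  let s : Fin (N + 1) → k := fun c => if c = b then ζ else 1
  have hs0 : ∀ c, s c ≠ 0 := by
    intro c
    change (if c = b then ζ else 1) ≠ 0
    split_ifs
    · exact hζ0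
    · exact one_ne_zero
  have hse : ∀ c, s c ^ (e + 1) = 1 := by
    intro c
    change (if c = b then ζ else 1) ^ (e + 1) = 1
    split_ifs
    · exact hζ.pow_eq_one
    · exact one_pow _
  have hfix : (XA N (e + 1)).act (diag (Matrix.diagonal fun i => s (bl i))) f0 = f0 := by
    apply grad_inj
    rw [hb.scale]
    have : (fun i => s (bl i) ^ (e + 1)) = fun _ => (1 : k) := funext fun i => hse _
    rw [this]
    have h1 : pr2 (Matrix.diagonal fun _ => (1 : k)) (1 : Matrix (Fin (N + 1)) (Fin (N + 1)) k) =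
        1 := by
      rw [Matrix.diagonal_one]
      exact pr2_one
    rw [h1, (ZA N e).act_one]
  have hinv : (Matrix.diagonal fun i => s (bl i)) * (Matrix.diagonal fun i => (s (bl i))⁻¹) =
      (1 : Matrix (Fin (N + 1)) (Fin (N + 1)) k) := by
    rw [Matrix.diagonal_mul_diagonal, ← Matrix.diagonal_one]
    congr 1
    funext i
    exact mul_inv_cancel₀ (hs0 _)
  have h1 := hPH _ _ hinv hfix
  let c : Ex N (e + 1) → k := fun α => ζ ^ mdeg bl α.1 b
  have hc : ∀ v, (XA N (e + 1)).act (diag (Matrix.diagonal fun i => s (bl i))) v =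
      fun α => c α * v α := by
    intro v
    funext α
    rw [XA_diagonal (diag (Matrix.diagonal fun i => s (bl i))) (fun i => s (bl i)) rfl, mon_bl]
    congr 1
    rw [Finset.prod_eq_single b]
    · change (if b = b then ζ else 1) ^ _ = _
      rw [if_pos rfl]
    · intro a _ ha
      change (if a = b then ζ else 1) ^ _ = _
      rw [if_neg ha, one_pow]
    · simp
  have hP : aeval (fun α => C (c α) * X α : Ex N (e + 1) → MvPolynomial (Ex N (e + 1)) k) P =
      P := by
    apply MvPolynomial.funext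
    intro v
    rw [eval_scale, ← hc, h1]
  have h2 := coeff_scale c P μ
  rw [hP] at h2
  have h3 : coeff μ P ≠ 0 := mem_support_iff.mp hμ
  have h4 : ∏ α, c α ^ μ α = 1 := by
    apply mul_right_cancel₀ h3
    rw [← h2, one_mul]
  rw [← hζ.pow_eq_one_iff_dvd, ← Finset.prod_pow_eq_pow_sum, ← h4]
  refine Finset.prod_congr rfl fun α _ => ?_
  change _ = (ζ ^ mdeg bl α.1 b) ^ μ α
  rw [← pow_mul, mul_comm]

theorem Blocks.exists_Q0 [IsAlgClosed k] [CharZero k] {f0 : Ex N (e + 1) → k}
    (hb : Blocks f0 bl) (P : MvPolynomial (Ex N (e + 1)) k) (j : ℕ) (hPj : P.IsHomogeneous j)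
    (hPT : ∀ (Y : Mt Bool (N + 1) k) v, eval (v + (XA N (e + 1)).xi Y f0) P = eval v P)
    (hPH : ∀ g h : Matrix (Fin (N + 1)) (Fin (N + 1)) k, g * h = 1 →
      (XA N (e + 1)).act (diag g) f0 = f0 →
        ∀ v, eval ((XA N (e + 1)).act (diag g) v) P = eval v P) :
    ∃ Q : MvPolynomial (Ix N e) k, Q.IsHomogeneous j ∧
      (∀ (Y : Mt Bool (N + 1) k) F, eval (F + (ZA N e).xi Y (grad f0)) Q = eval F Q) ∧
      (∀ s s' : Fin (N + 1) → k, (∀ i, s (bl i) * s' (bl i) = 1) →
        ∀ F, eval ((ZA N e).act (pr2 (Matrix.diagonal fun i => s (bl i) ^ e)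
          (Matrix.diagonal fun i => s' (bl i))) F) Q = eval F Q) ∧
      ∀ v, eval (grad v) Q = eval v P := by
  classical
  obtain ⟨ξ, hξ1, hξ2, hξ3⟩ := exists_xi_functionals hb
  have hex : ∀ (α : Ex N (e + 1)) (a : Fin (N + 1)), ∃ η : (Ix N e → k) →ₗ[k] k,
      mdeg bl α.1 a ≠ 0 → (∀ v, η (grad v) = ξ α v) ∧
      (∀ Y, η ((ZA N e).xi Y (grad f0)) = 0) ∧
      ∀ F F' : Ix N e → k, (∀ i β, bl i = a → mdeg bl β.1 + Pi.single a 1 = mdeg bl α.1 →
        F (i, β) = F' (i, β)) → η F = η F' := by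
    intro α a
    by_cases h : mdeg bl α.1 a ≠ 0
    · obtain ⟨η, hη⟩ := exists_eta hb (ξ α) (mdeg bl α.1) a h (hξ2 α) (hξ3 α)
      exact ⟨η, fun _ => hη⟩
    · exact ⟨0, fun h' => absurd h' h⟩
  choose η hη using hex
  have hsumw : ∀ α : Ex N (e + 1), ∑ b, mdeg bl α.1 b = e + 1 := by
    intro α
    rw [sum_mdeg, (mem_Ex α.1).mp α.2]
  have hexa : ∀ μ : Ex N (e + 1) →₀ ℕ, ∃ a : (Σ α : Ex N (e + 1), Fin (μ α)) → Fin (N + 1),
      μ ∈ P.support → (∀ x, mdeg bl x.1.1 (a x) ≠ 0) ∧
        ∀ b, (e + 1) * (Finset.univ.filter (fun x => a x = b)).card =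
          ∑ x : (Σ α : Ex N (e + 1), Fin (μ α)), mdeg bl x.1.1 b := by
    intro μ
    by_cases hμ : μ ∈ P.support
    · have hdvd : ∀ b, ∃ q, ∑ x : (Σ α : Ex N (e + 1), Fin (μ α)), mdeg bl x.1.1 b =
          (e + 1) * q := by
        intro b
        have h1 : ∑ x : (Σ α : Ex N (e + 1), Fin (μ α)), mdeg bl x.1.1 b =
            ∑ α, μ α * mdeg bl α.1 b := by
          rw [Fintype.sum_sigma]
          refine Finset.sum_congr rfl fun α _ => ?_
          change ∑ _y : Fin (μ α), mdeg bl α.1 b = _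
          rw [Finset.sum_const, Finset.card_univ, Fintype.card_fin, smul_eq_mul]
        rw [h1]
        exact hb.dvd P hPH μ hμ b
      choose q hq using hdvd
      obtain ⟨a, ha1, ha2⟩ := hall_assign
        (fun (x : Σ α : Ex N (e + 1), Fin (μ α)) b => mdeg bl x.1.1 b) (e + 1) (by omega)
        (fun x => hsumw x.1) q hq
      exact ⟨a, fun _ => ⟨ha1, fun b => by rw [ha2, hq]⟩⟩
    · exact ⟨fun _ => 0, fun h => absurd h hμ⟩
  choose a ha using hexa
  let Q : MvPolynomial (Ix N e) k := ∑ μ ∈ P.support, C (coeff μ P) *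
    ∏ x : (Σ α : Ex N (e + 1), Fin (μ α)), lin (η x.1 (a μ x))
  have hQ : ∀ F, eval F Q = ∑ μ ∈ P.support, coeff μ P *
      ∏ x : (Σ α : Ex N (e + 1), Fin (μ α)), η x.1 (a μ x) F := by
    intro F
    change eval F (∑ μ ∈ P.support, _) = _
    rw [map_sum]
    refine Finset.sum_congr rfl fun μ _ => ?_
    rw [map_mul, eval_C, map_prod]
    congr 1
    exact Finset.prod_congr rfl fun x _ => eval_lin _ _
  refine ⟨Q, ?_, ?_, ?_, ?_⟩
  · refine IsHomogeneous.sum _ _ _ fun μ hμ => ?_
    apply IsHomogeneous.C_mul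
    have h1 := IsHomogeneous.prod (Finset.univ : Finset (Σ α : Ex N (e + 1), Fin (μ α)))
      (fun x => lin (η x.1 (a μ x))) (fun _ => 1) (fun x _ => lin_homog _)
    have h2 : ∑ _x : (Σ α : Ex N (e + 1), Fin (μ α)), 1 = j := by
      rw [Finset.sum_const, smul_eq_mul, mul_one, Finset.card_univ, Fintype.card_sigma]
      simp only [Fintype.card_fin]
      have h3 : μ.degree = j := by
        by_contra hne
        exact (mem_support_iff.mp hμ) (hPj.coeff_eq_zero hne)
      rw [← h3, Finsupp.degree_eq_sum]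
    rwa [h2] at h1
  · intro Y F
    rw [hQ, hQ]
    refine Finset.sum_congr rfl fun μ hμ => ?_
    congr 1
    refine Finset.prod_congr rfl fun x _ => ?_
    rw [map_add, (hη _ _ ((ha μ hμ).1 x)).2.1 Y, add_zero]
  · intro s s' hss F
    rw [hQ, hQ]
    refine Finset.sum_congr rfl fun μ hμ => ?_
    congr 1
    let c : (Σ α : Ex N (e + 1), Fin (μ α)) → k := fun x =>
      s (a μ x) ^ (e + 1) * ∏ b, s' b ^ mdeg bl x.1.1 b
    have h1 : ∀ x : (Σ α : Ex N (e + 1), Fin (μ α)), η x.1 (a μ x)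
        ((ZA N e).act (pr2 (Matrix.diagonal fun i => s (bl i) ^ e)
          (Matrix.diagonal fun i => s' (bl i))) F) = c x * η x.1 (a μ x) F := by
      intro x
      obtain ⟨_, _, h3⟩ := hη _ _ ((ha μ hμ).1 x)
      rw [h3 _ (c x • F) (by
        intro i β hi hβ
        rw [ZA_diagonal (pr2 (Matrix.diagonal fun i => s (bl i) ^ e)
          (Matrix.diagonal fun i => s' (bl i))) (fun i => s (bl i) ^ e) (fun i => s' (bl i))
          rfl rfl, Pi.smul_apply, smul_eq_mul]
        congr 1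
        change s (bl i) ^ e * mon (fun i => s' (bl i)) β.1 =
          s (a μ x) ^ (e + 1) * ∏ b, s' b ^ mdeg bl x.1.1 b
        rw [mon_bl, ← hβ]
        have h4 : ∏ b, s' b ^ (mdeg bl β.1 + Pi.single (a μ x) 1 : Fin (N + 1) → ℕ) b =
            (∏ b, s' b ^ mdeg bl β.1 b) * s' (a μ x) := by
          simp only [Pi.add_apply, pow_add, Finset.prod_mul_distrib]
          congr 1
          rw [Finset.prod_eq_single (a μ x)]
          · rw [Pi.single_eq_same, pow_one]
          · intro b _ hb'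
            rw [Pi.single_eq_of_ne hb', pow_zero]
          · simp
        rw [h4, hi]
        have h5 : s (a μ x) * s' (a μ x) = 1 := by
          rw [← hi]
          exact hss i
        rw [pow_succ]
        linear_combination (-(s (a μ x) ^ e * ∏ b, s' b ^ mdeg bl β.1 b)) * h5), map_smul,
        smul_eq_mul]
    simp_rw [h1]
    rw [Finset.prod_mul_distrib]
    have h6 : ∏ x, c x = 1 := by
      change ∏ x, (s (a μ x) ^ (e + 1) * ∏ b, s' b ^ mdeg bl x.1.1 b) = 1
      rw [Finset.prod_mul_distrib, Finset.prod_comm]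
      have h7 : ∏ x, s (a μ x) ^ (e + 1) =
          ∏ b, s b ^ (∑ x : (Σ α : Ex N (e + 1), Fin (μ α)), mdeg bl x.1.1 b) := by
        rw [← Finset.prod_fiberwise (s := Finset.univ) (g := a μ)]
        refine Finset.prod_congr rfl fun b _ => ?_
        rw [← (ha μ hμ).2 b, pow_mul, ← Finset.prod_const]
        refine Finset.prod_congr rfl fun x hx => ?_
        rw [(Finset.mem_filter.mp hx).2]
      rw [h7, ← Finset.prod_mul_distrib]
      apply Finset.prod_eq_one
      intro b _
      rw [Finset.prod_pow_eq_pow_sum, ← mul_pow]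
      by_cases h0 : ∑ x : (Σ α : Ex N (e + 1), Fin (μ α)), mdeg bl x.1.1 b = 0
      · rw [h0, pow_zero]
      · obtain ⟨x, _, hx⟩ := Finset.exists_ne_zero_of_sum_ne_zero h0
        obtain ⟨i, hi, _⟩ := (mdeg_ne_zero bl).mp hx
        rw [← hi, hss i, one_pow]
    rw [h6, one_mul]
  · intro v
    rw [hQ]
    obtain ⟨Y, hY⟩ := hξ1 v
    have h1 : eval v P = eval (fun α => ξ α v) P := by
      have h2 : v = (fun α => ξ α v) + (XA N (e + 1)).xi Y f0 := by rw [← hY]; abel
      conv_lhs => rw [h2]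
      exact hPT Y _
    rw [h1, eval_eq']
    refine Finset.sum_congr rfl fun μ hμ => ?_
    congr 1
    rw [Fintype.prod_sigma]
    refine Finset.prod_congr rfl fun α _ => ?_
    have h3 : ∀ y : Fin (μ α), η α (a μ ⟨α, y⟩) (grad v) = ξ α v := fun y =>
      (hη _ _ ((ha μ hμ).1 ⟨α, y⟩)).1 v
    simp only [h3]
    rw [Finset.prod_const, Finset.card_univ, Fintype.card_fin]

end

end Pool.Agent.Helper819.Gr
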