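import Pool.Agent.Helper819.Gr.L5

/-!
Averaging over the stabiliser: the lifting lemma.
-/

open MvPolynomial

namespace Pool.Agent.Helper819.Gr

open Pool.Agent.Helper819.Apolar Pool.Agent.Helper819.Dyn

noncomputable section

set_option linter.unusedSectionVars false

section gen

variable {k : Type} [Field k] {ι : Type} [Fintype ι] [DecidableEq ι] {n : ℕ} {σ : Type}

theorem act_xi (α : DAct ι n σ) (A B : Mt ι n k) (hAB : A * B = 1) (Y : Mt ι n k) (c : σ → k) :
    α.act A (α.xi Y c) = α.xi (B * Y * A) (α.act A c) := by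
  let S := DualNumber k
  let ε : S := DualNumber.eps
  have hε : ε * ε = 0 := DualNumber.eps_mul_eps
  let AS : Mt ι n S := fun s => (A s).map (algebraMap k S)
  let cS : σ → S := fun p => algebraMap k S (c p)
  have h1 : α.act AS (α.act (oneE ε Y) cS) =
      α.act (oneE ε (B * Y * A)) (α.act AS cS) := by
    rw [α.act_act, α.act_act]
    congr 1
    funext s
    change (1 + ε • (Y s).map (algebraMap k S)) * (A s).map (algebraMap k S) =
      (A s).map (algebraMap k S) * (1 + ε • (B s * Y s * A s).map (algebraMap k S))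
    rw [Matrix.add_mul, Matrix.mul_add, Matrix.one_mul, Matrix.mul_one, Matrix.smul_mul,
      Matrix.mul_smul, ← Matrix.map_mul, ← Matrix.map_mul]
    have h2 : A s * (B s * Y s * A s) = Y s * A s := by
      have h3 : A s * B s = 1 := congrFun hAB s
      rw [Matrix.mul_assoc, ← Matrix.mul_assoc (A s), h3, Matrix.one_mul]
    rw [h2]
  have hAS : ∀ x : σ → k, α.act AS (fun p => algebraMap k S (x p)) =
      fun p => algebraMap k S (α.act A x p) := by
    intro x
    funext p
    exact (α.map_act (algebraMap k S) A x p).symm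
  have h2 : α.act (oneE ε Y) cS = cS + ε • (fun p => algebraMap k S (α.xi Y c p)) := by
    funext p
    exact α.act_eps ε hε Y c p
  rw [h2, α.act_add, α.act_smul, hAS, hAS] at h1
  funext p
  have h4 := congrFun h1 p
  rw [α.act_eps ε hε] at h4
  rw [Pi.add_apply, Pi.smul_apply, smul_eq_mul] at h4
  have h5 := add_left_cancel h4
  have h6 := congrArg TrivSqZeroExt.snd h5
  have h7 : ∀ a : k, TrivSqZeroExt.snd (ε * algebraMap k S a) = a := by
    intro a
    change TrivSqZeroExt.snd (TrivSqZeroExt.inr (1 : k) * TrivSqZeroExt.inl a) = a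
    simp
  rw [h7, h7] at h6
  exact h6

theorem eval_homog_compT (α : RAct ι n σ) [Infinite k] {Q : MvPolynomial σ k} {j : ℕ}
    (hQ : Q.IsHomogeneous j) (B : Mt ι n k) : (compT α B Q).IsHomogeneous j := by
  apply homog_of_scale
  intro r x
  rw [eval_compT, eval_compT, α.act_smul, eval_smul_hom hQ]

end gen

variable {k : Type} [Field k] {N d e : ℕ} {bl : Fin (N + 1) → Fin (N + 1)}

theorem pr2_diag_mul (a b h : Matrix (Fin (N + 1)) (Fin (N + 1)) k) :
    pr2 a b * diag h = pr2 (a * h) (b * h) := by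
  rw [diag_eq_pr2, pr2_mul]

theorem diag_mul_pr2 (a b h : Matrix (Fin (N + 1)) (Fin (N + 1)) k) :
    diag h * pr2 a b = pr2 (h * a) (h * b) := by
  rw [diag_eq_pr2, pr2_mul]

theorem diagonal_pow_bl (s : Fin (N + 1) → k) (m : ℕ) :
    (Matrix.diagonal fun i => s (bl i) ^ m) = (Matrix.diagonal fun i => s (bl i)) ^ m := by
  rw [Matrix.diagonal_pow]
  rfl

theorem conj_pow (g h M : Matrix (Fin (N + 1)) (Fin (N + 1)) k) (hgh : g * h = 1) (m : ℕ) :
    h * M ^ m * g = (h * M * g) ^ m := by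
  have hhg : h * g = 1 := mul_eq_one_comm.mp hgh
  induction m with
  | zero => rw [pow_zero, pow_zero, Matrix.mul_one, hhg]
  | succ m ih =>
    rw [pow_succ, pow_succ, ← ih]
    simp only [Matrix.mul_assoc]
    rw [← Matrix.mul_assoc g h, hgh, Matrix.one_mul]

theorem conj_pull (g h M M' : Matrix (Fin (N + 1)) (Fin (N + 1)) k) (hgh : g * h = 1)
    (hM : h * M * g = M') : M * g = g * M' := by
  rw [← hM, ← Matrix.mul_assoc, ← Matrix.mul_assoc, hgh, Matrix.one_mul]

/-- The lifting lemma. -/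
theorem Blocks.lift [IsAlgClosed k] [CharZero k] (he : 2 ≤ e) {f0 : Ex N (e + 1) → k}
    (hb : Blocks f0 bl) (hNZ : NZ (tup (grad f0))) (P : MvPolynomial (Ex N (e + 1)) k) (j : ℕ)
    (hPj : P.IsHomogeneous j)
    (hPT : ∀ (Y : Mt Bool (N + 1) k) v, eval (v + (XA N (e + 1)).xi Y f0) P = eval v P)
    (hPH : ∀ g h : Matrix (Fin (N + 1)) (Fin (N + 1)) k, g * h = 1 →
      (XA N (e + 1)).act (diag g) f0 = f0 →
        ∀ v, eval ((XA N (e + 1)).act (diag g) v) P = eval v P) :
    ∃ Q : MvPolynomial (Ix N e) k, Q.IsHomogeneous j ∧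
      (∀ (Y : Mt Bool (N + 1) k) F, eval (F + (ZA N e).xi Y (grad f0)) Q = eval F Q) ∧
      (∀ A : Mt Bool (N + 1) k, (∀ s, (A s).det ≠ 0) → (ZA N e).act A (grad f0) = grad f0 →
        ∀ F, eval ((ZA N e).act A F) Q = eval F Q) ∧
      ∀ v, eval (grad v) Q = eval v P := by
  classical
  obtain ⟨Q0, h1, h2, h3, h4⟩ := hb.exists_Q0 P j hPj hPT hPH
  have hfin := finite_stab he f0 hNZ
  let H : Finset (Matrix (Fin (N + 1)) (Fin (N + 1)) k) := hfin.toFinset
  have hH : ∀ g, g ∈ H ↔ (XA N (e + 1)).act (diag g) f0 = f0 := by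
    intro g
    rw [Set.Finite.mem_toFinset]
    rfl
  have hHdet : ∀ g ∈ H, g * g⁻¹ = 1 ∧ g⁻¹ * g = 1 := by
    intro g hg
    have hd := det_ne_of_NZ (by omega) f0 f0 hNZ g ((hH g).mp hg)
    exact ⟨Matrix.mul_nonsing_inv _ (isUnit_iff_ne_zero.mpr hd),
      Matrix.nonsing_inv_mul _ (isUnit_iff_ne_zero.mpr hd)⟩
  have hone : (1 : Matrix (Fin (N + 1)) (Fin (N + 1)) k) ∈ H := by
    rw [hH]
    have : diag (1 : Matrix (Fin (N + 1)) (Fin (N + 1)) k) = 1 := rfl
    rw [this, (XA N (e + 1)).act_one]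
  have hmul : ∀ g ∈ H, ∀ g' ∈ H, g * g' ∈ H := by
    intro g hg g' hg'
    rw [hH]
    have : diag (g * g') = diag g * diag g' := by
      rw [diag_eq_pr2, diag_eq_pr2, diag_eq_pr2, pr2_mul]
    rw [this, ← (XA N (e + 1)).act_act, (hH g).mp hg, (hH g').mp hg']
  have hinvH : ∀ g ∈ H, g⁻¹ ∈ H := by
    intro g hg
    rw [hH]
    have := act_diag_inv_X (hHdet g hg).1 f0
    rwa [(hH g).mp hg] at this
  have hcard : ((H.card : ℕ) : k) ≠ 0 :=
    Nat.cast_ne_zero.mpr (Finset.card_ne_zero.mpr ⟨1, hone⟩)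
  let Q : MvPolynomial (Ix N e) k := C ((H.card : k)⁻¹) *
    ∑ g ∈ H, compT (ZA N e).toRAct (diag g) Q0
  have hQ : ∀ F, eval F Q = (H.card : k)⁻¹ * ∑ g ∈ H, eval ((ZA N e).act (diag g) F) Q0 := by
    intro F
    change eval F (C _ * ∑ g ∈ H, _) = _
    rw [map_mul, eval_C, map_sum]
    congr 1
    exact Finset.sum_congr rfl fun g _ => eval_compT _ _ _ _
  have hgr : ∀ g ∈ H, (ZA N e).act (diag g) (grad f0) = grad f0 := by
    intro g hg
    have := grad_act (diag g) f0
    rw [(hH g).mp hg] at this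
    exact this.symm
  refine ⟨Q, ?_, ?_, ?_, ?_⟩
  · apply IsHomogeneous.C_mul
    exact IsHomogeneous.sum _ _ _ fun g _ => eval_homog_compT _ h1 _
  · intro Y F
    rw [hQ, hQ]
    refine congrArg (fun z => (H.card : k)⁻¹ * z) ?_
    refine Finset.sum_congr rfl fun g hg => ?_
    rw [(ZA N e).act_add, act_xi (ZA N e) (diag g) (diag g⁻¹) (by
      rw [diag_eq_pr2, diag_eq_pr2, pr2_mul, (hHdet g hg).1, pr2_one]), hgr g hg, h2]
  · intro A hA hfix F
    obtain ⟨s, hs0, hs1, hs2⟩ := hb.orbit f0 A hA hfix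
    set h := Matrix.diagonal (fun i => s (bl i)) * A true with hh
    have hhH : h ∈ H := (hH h).mpr hs1
    have hss : (Matrix.diagonal fun i => (s (bl i))⁻¹) * (Matrix.diagonal fun i => s (bl i)) =
        (1 : Matrix (Fin (N + 1)) (Fin (N + 1)) k) := by
      rw [Matrix.diagonal_mul_diagonal, ← Matrix.diagonal_one]
      congr 1
      funext i
      exact inv_mul_cancel₀ (hs0 _)
    have hA2 : A = pr2 (Matrix.diagonal fun i => s (bl i) ^ e)
        (Matrix.diagonal fun i => (s (bl i))⁻¹) * diag h := by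
      have e1 : (Matrix.diagonal fun i => s (bl i) ^ e) * h = A false := by
        rw [hs2, hh, ← Matrix.mul_assoc, Matrix.diagonal_mul_diagonal]
        simp only [pow_succ]
      have e2 : (Matrix.diagonal fun i => (s (bl i))⁻¹) * h = A true := by
        rw [hh, ← Matrix.mul_assoc, hss, Matrix.one_mul]
      rw [pr2_diag_mul, e1, e2]
      exact eta_pr2 A
    rw [hQ, hQ]
    refine congrArg (fun z => (H.card : k)⁻¹ * z) ?_
    -- each term
    have hterm : ∀ g ∈ H, eval ((ZA N e).act (diag g) ((ZA N e).act A F)) Q0 =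
        eval ((ZA N e).act (diag (h * g)) F) Q0 := by
      intro g hg
      rw [(ZA N e).act_act, hA2, mul_assoc]
      have h5 : diag h * diag g = diag (h * g) := by
        rw [diag_eq_pr2, diag_eq_pr2, diag_eq_pr2, pr2_mul]
      rw [h5]
      have hgH := hmul h hhH g hg
      obtain ⟨t, ht⟩ := hb.conj (hHdet _ hgH).1 ((hH _).mp hgH) s
      obtain ⟨t', ht'⟩ := hb.conj (hHdet _ hgH).1 ((hH _).mp hgH) (fun i => (s i)⁻¹)
      set g' := h * g
      have htt : ∀ i, t (bl i) * t' (bl i) = 1 := by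
        intro i
        have h6 : (Matrix.diagonal fun i => t (bl i)) * (Matrix.diagonal fun i => t' (bl i)) =
            (1 : Matrix (Fin (N + 1)) (Fin (N + 1)) k) := by
          rw [← ht, ← ht']
          calc g'⁻¹ * (Matrix.diagonal fun i => s (bl i)) * g' *
              (g'⁻¹ * (Matrix.diagonal fun i => (s (bl i))⁻¹) * g') =
              g'⁻¹ * ((Matrix.diagonal fun i => s (bl i)) * (g' * g'⁻¹) *
                (Matrix.diagonal fun i => (s (bl i))⁻¹)) * g' := by
                simp only [Matrix.mul_assoc]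
            _ = 1 := by
                rw [(hHdet _ hgH).1, Matrix.mul_one, mul_eq_one_comm.mp hss, Matrix.mul_one,
                  (hHdet _ hgH).2]
        have h7 := congrFun (congrFun h6 i) i
        rw [Matrix.diagonal_mul_diagonal, Matrix.diagonal_apply_eq, Matrix.one_apply_eq] at h7
        exact h7
      have h8 : pr2 (Matrix.diagonal fun i => s (bl i) ^ e)
          (Matrix.diagonal fun i => (s (bl i))⁻¹) * diag g' =
          diag g' * pr2 (Matrix.diagonal fun i => t (bl i) ^ e)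
            (Matrix.diagonal fun i => t' (bl i)) := by
        have e1 : (Matrix.diagonal fun i => s (bl i) ^ e) * g' =
            g' * (Matrix.diagonal fun i => t (bl i) ^ e) := by
          apply conj_pull g' g'⁻¹ _ _ (hHdet _ hgH).1
          rw [diagonal_pow_bl, diagonal_pow_bl, conj_pow g' g'⁻¹ _ (hHdet _ hgH).1, ht]
        have e2 : (Matrix.diagonal fun i => (s (bl i))⁻¹) * g' =
            g' * (Matrix.diagonal fun i => t' (bl i)) :=
          conj_pull g' g'⁻¹ _ _ (hHdet _ hgH).1 ht'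
        rw [pr2_diag_mul, diag_mul_pr2, e1, e2]
      rw [h8, ← (ZA N e).act_act, h3 t t' htt]
    rw [Finset.sum_congr rfl hterm]
    refine Finset.sum_nbij' (fun g => h * g) (fun g => h⁻¹ * g) ?_ ?_ ?_ ?_ ?_
    · intro g hg
      exact hmul h hhH g hg
    · intro g hg
      exact hmul _ (hinvH h hhH) g hg
    · intro g hg
      change h⁻¹ * (h * g) = g
      rw [← Matrix.mul_assoc, (hHdet h hhH).2, Matrix.one_mul]
    · intro g hg
      change h * (h⁻¹ * g) = g
      rw [← Matrix.mul_assoc, (hHdet h hhH).1, Matrix.one_mul]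
    · intro g hg
      rfl
  · intro v
    rw [hQ]
    have h5 : ∀ g ∈ H, eval ((ZA N e).act (diag g) (grad v)) Q0 = eval v P := by
      intro g hg
      have h6 := grad_act (diag g) v
      change grad _ = (ZA N e).act (diag g) (grad v) at h6
      rw [← h6, h4, hPH g g⁻¹ (hHdet g hg).1 ((hH g).mp hg)]
    rw [Finset.sum_congr rfl h5, Finset.sum_const, nsmul_eq_mul, ← mul_assoc,
      inv_mul_cancel₀ hcard, one_mul]

end

end Pool.Agent.Helper819.Gr
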