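import Pool.Agent.Helper819.Gr.Taylor
import Pool.Agent.Helper819.Gr.Field

/-!
Leading forms of the Reynolds operator, and the ideal of leading coefficients.
-/

open MvPolynomial

namespace Pool.Agent.Helper819.Gr

open Pool.Agent.Helper819.Apolar Pool.Agent.Helper819.Dyn

noncomputable section

set_option linter.unusedSectionVars false

variable {k : Type} [Field k] {ι : Type} [Fintype ι] [DecidableEq ι] {n : ℕ} {σ : Type}

theorem act_orb [Infinite k] (α : RAct ι n σ) (B : Mt ι n k) (c : σ → k) :
    α.act (fun s => (B s).map (algebraMap k (KJ ι n k))) (orb α c) =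
      fun p => Rsub B (orb α c p) := by
  funext p
  apply poly_ext
  intro A _
  have h1 := α.map_act (eval (ent A)) (fun s => (B s).map (algebraMap k (KJ ι n k))) (orb α c) p
  have h2 : (fun s => ((B s).map (algebraMap k (KJ ι n k))).map (eval (ent A))) = B := by
    funext s
    ext i j
    simp
  rw [h2] at h1
  rw [h1, eval_Rsub, eval_orb]
  have h3 : (fun q => eval (ent A) (orb α c q)) = α.act A c := funext fun q => eval_orb α A c q
  rw [h3, α.act_act]

theorem tayl_compT [Infinite k] (α : RAct ι n σ) (B : Mt ι n k) (c v : σ → k)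
    (q : MvPolynomial σ k) :
    tayl (orb α c) (orb α v) (compT α B q) =
      (tayl (orb α c) (orb α v) q).map (Rsub B : KJ ι n k →+* KJ ι n k) := by
  rw [map_tayl (Rsub B), ← act_orb, ← act_orb]
  unfold tayl
  rw [aeval_compT]
  congr 2
  have h1 : (fun p => Polynomial.C (orb α c p) + Polynomial.X * Polynomial.C (orb α v p)) =
      (fun p => Polynomial.C (orb α c p)) +
        (Polynomial.X : Polynomial (KJ ι n k)) • (fun p => Polynomial.C (orb α v p)) := rfl
  rw [h1, α.act_add, α.act_smul]
  funext p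
  rw [Pi.add_apply, Pi.smul_apply, smul_eq_mul, α.map_act, α.map_act]
  congr 1

theorem orb_add (α : RAct ι n σ) (c v : σ → k) : orb α (c + v) = orb α c + orb α v := by
  unfold orb
  rw [← α.act_add]
  congr 1
  funext p
  simp

theorem orb_smul (α : RAct ι n σ) (t : k) (v : σ → k) :
    orb α (t • v) = (C t : KJ ι n k) • orb α v := by
  unfold orb
  rw [← α.act_smul]
  congr 1
  funext p
  simp

theorem lf_sharp [CharZero k] (α : RAct ι n σ) (w : ι → ℕ) (q : MvPolynomial σ k) (c v : σ → k)
    (j : ℕ) : eval v (lf j (sharp α w q) c) =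
      rho w ((tayl (orb α c) (orb α v) q).coeff j) := by
  rw [eval_lf]
  have h1 : tayl c v (sharp α w q) =
      ∑ i ∈ Finset.range ((tayl (orb α c) (orb α v) q).natDegree + 1),
        Polynomial.C (rho w ((tayl (orb α c) (orb α v) q).coeff i)) * Polynomial.X ^ i := by
    apply Polynomial.funext
    intro t
    rw [eval_tayl]
    have h2 : (fun p => c p + t * v p) = c + t • v := rfl
    have h3 : aeval (c + t • v) (sharp α w q) = eval (c + t • v) (sharp α w q) := by
      rw [← coe_aeval_eq_eval]; rfl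
    rw [h2, h3, eval_sharp, orb_add, orb_smul]
    have h4 : aeval (orb α c + (C t : KJ ι n k) • orb α v) q =
        (tayl (orb α c) (orb α v) q).eval (C t) := by
      rw [eval_tayl]
      rfl
    rw [h4, Polynomial.eval_eq_sum_range, rho_sum, Polynomial.eval_finsetSum]
    refine Finset.sum_congr rfl fun i _ => ?_
    rw [Polynomial.eval_mul, Polynomial.eval_C, Polynomial.eval_pow, Polynomial.eval_X, ← C_pow,
      mul_comm ((tayl (orb α c) (orb α v) q).coeff i), rho_smul, mul_comm]
  rw [h1, Polynomial.finsetSum_coeff]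
  simp only [Polynomial.coeff_C_mul, Polynomial.coeff_X_pow]
  by_cases hj : j ∈ Finset.range ((tayl (orb α c) (orb α v) q).natDegree + 1)
  · rw [Finset.sum_eq_single j]
    · simp
    · intro b _ hb
      rw [if_neg hb.symm, mul_zero]
    · intro hn
      exact absurd hj hn
  · rw [Finset.sum_eq_zero]
    · rw [Polynomial.coeff_eq_zero_of_natDegree_lt, rho_zero]
      rw [Finset.mem_range, not_lt] at hj
      omega
    · intro i hi
      rw [if_neg, mul_zero]
      rintro rfl
      exact hj hi

/-- The ideal of coefficients `χ` for which `χ Q` is a leading form along the orbit of `F0`. -/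
def aIdeal (α : RAct ι n σ) (F0 : σ → k) (j : ℕ) (Q : MvPolynomial σ k) :
    Ideal (MvPolynomial σ k) where
  carrier := {χ | ∃ q : MvPolynomial σ k, ∀ v : σ → k, (∀ i < j, (tayl (orb α F0) (orb α v) q).coeff i = 0) ∧
    (tayl (orb α F0) (orb α v) q).coeff j = C (eval v Q) * aeval (orb α F0) χ}
  add_mem' := by
    rintro a b ⟨q, hq⟩ ⟨q', hq'⟩
    refine ⟨q + q', fun v => ⟨fun i hi => ?_, ?_⟩⟩
    · rw [map_add, Polynomial.coeff_add, (hq v).1 i hi, (hq' v).1 i hi, add_zero]
    · rw [map_add, Polynomial.coeff_add, (hq v).2, (hq' v).2, map_add]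
      ring
  zero_mem' := by
    refine ⟨0, fun v => ⟨fun i hi => ?_, ?_⟩⟩
    · rw [map_zero, Polynomial.coeff_zero]
    · rw [map_zero, Polynomial.coeff_zero, map_zero, mul_zero]
  smul_mem' := by
    rintro a χ ⟨q, hq⟩
    refine ⟨a * q, fun v => ⟨fun i hi => ?_, ?_⟩⟩
    · rw [map_mul]
      exact coeff_mul_low' (i := 0) (j := j) (by intro a ha; omega) (hq v).1 i (by omega)
    · rw [map_mul]
      have h1 := coeff_mul_low (i := 0) (j := j) (A := tayl (orb α F0) (orb α v) a)
        (B := tayl (orb α F0) (orb α v) q) (by intro a ha; omega) (hq v).1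
      rw [zero_add] at h1
      rw [h1, (hq v).2, tayl_coeff_zero, smul_eq_mul, map_mul]
      ring

theorem aIdeal_compT [Infinite k] (α : RAct ι n σ) (F0 : σ → k) (j : ℕ) (Q : MvPolynomial σ k)
    (B : Mt ι n k) {χ : MvPolynomial σ k} (h : χ ∈ aIdeal α F0 j Q) :
    compT α B χ ∈ aIdeal α F0 j Q := by
  obtain ⟨q, hq⟩ := h
  refine ⟨compT α B q, fun v => ⟨fun i hi => ?_, ?_⟩⟩
  · rw [tayl_compT, Polynomial.coeff_map, (hq v).1 i hi, map_zero]
  · rw [tayl_compT, Polynomial.coeff_map, (hq v).2, map_mul, ← Rsub_aeval_orb]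
    congr 1
    change Rsub B (C _) = _
    exact algHom_C _ _

theorem aIdeal_of_orb (α : RAct ι n σ) (F0 : σ → k) (j : ℕ) (Q : MvPolynomial σ k)
    {χ : MvPolynomial σ k} (h : aeval (orb α F0) χ = 0) : χ ∈ aIdeal α F0 j Q := by
  refine ⟨0, fun v => ⟨fun i hi => ?_, ?_⟩⟩
  · rw [map_zero, Polynomial.coeff_zero]
  · rw [map_zero, Polynomial.coeff_zero, h, mul_zero]

/-- From a nonvanishing coefficient to a semi-invariant with given leading form. -/
theorem exists_lead_of [IsAlgClosed k] [CharZero k] [Finite σ] (α : RAct ι n σ) (F0 : σ → k)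
    {r : ι → ℕ} {D : MvPolynomial σ k} (hD : IsSemi α r D)
    (hmin : ∀ c : σ → k, eval c D ≠ 0 → (∀ P : MvPolynomial σ k, aeval (orb α F0) P = 0 →
      eval c P = 0) → ∀ P : MvPolynomial σ k, aeval (orb α c) P = 0 → eval F0 P = 0)
    (j : ℕ) (Q : MvPolynomial σ k) (hne : ∃ χ ∈ aIdeal α F0 j Q, aeval (orb α F0) χ ≠ 0) :
    ∃ (m : ℕ) (q : MvPolynomial σ k), IsSemi α (m • r) q ∧ Ord j q F0 ∧
      ∀ v, eval v (lf j q F0) = eval F0 D ^ m * eval v Q := by
  have hinf : Infinite k := inferInstance
  obtain ⟨χ, hχ, hχ0⟩ := hne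
  have hrad : D ∈ (aIdeal α F0 j Q).radical := by
    rw [← vanishingIdeal_zeroLocus_eq_radical (K := k), mem_vanishingIdeal_iff]
    intro c hc
    have hc' : ∀ b ∈ aIdeal α F0 j Q, eval c b = 0 := by
      intro b hb
      have := (mem_zeroLocus_iff.mp hc) b hb
      rw [← coe_aeval_eq_eval]
      exact this
    have goal : eval c D = 0 := by
      by_contra hcD
      have h1 := hmin c hcD (fun P hP => hc' P (aIdeal_of_orb α F0 j Q hP))
      have h2 : ∀ A : Mt ι n k, eval (α.act A F0) χ = 0 := by
        intro A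
        rw [← eval_compT]
        apply h1
        apply poly_ext
        intro B _
        rw [eval_aeval_orb, map_zero, eval_compT, α.act_act]
        have h3 := hc' _ (aIdeal_compT α F0 j Q (B * A) hχ)
        rw [eval_compT] at h3
        exact h3
      apply hχ0
      apply poly_ext
      intro A _
      rw [eval_aeval_orb, map_zero, h2]
    rw [← coe_aeval_eq_eval] at goal
    exact goal
  obtain ⟨m, q, hq⟩ := hrad
  refine ⟨m, sharp α (m • r) q, isSemi_sharp _ _ _, ?_, ?_⟩
  · rw [ord_iff]
    intro i hi v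
    rw [← eval_lf, lf_sharp, (hq v).1 i hi, rho_zero]
  · intro v
    rw [lf_sharp, (hq v).2, rho_smul, aeval_orb_semi α (hD.pow m), rho_smul, rho_dtw, map_pow]
    ring

end

end Pool.Agent.Helper819.Gr
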