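import Pool.Agent.Helper819.Gr.Lead1

/-!
The tangent space of an orbit and functions on the orbit: generic computations.
-/

open MvPolynomial

namespace Pool.Agent.Helper819.Gr

open Pool.Agent.Helper819.Apolar Pool.Agent.Helper819.Dyn

noncomputable section

set_option linter.unusedSectionVars false

variable {k : Type} [Field k] {ι : Type} [Fintype ι] [DecidableEq ι] {n : ℕ} {σ : Type}

/-- the function field of the group -/
abbrev LJ (ι : Type) (n : ℕ) (k : Type) [Field k] : Type := FractionRing (KJ ι n k)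

/-- the embedding of polynomials -/
def pj (ι : Type) (n : ℕ) (k : Type) [Field k] : KJ ι n k →ₐ[k] LJ ι n k :=
  IsScalarTower.toAlgHom k (KJ ι n k) (LJ ι n k)

theorem pj_inj : Function.Injective (pj ι n k) := IsFractionRing.injective (KJ ι n k) (LJ ι n k)

/-- the generic matrices over the function field -/
def GM (ι : Type) (n : ℕ) (k : Type) [Field k] : Mt ι n (LJ ι n k) :=
  fun s => Matrix.of fun i j => pj ι n k (X (s, i, j))

theorem pj_eq (q : KJ ι n k) : pj ι n k q = aeval (ent (GM ι n k)) q := by
  have : pj ι n k = aeval (ent (GM ι n k)) := by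
    apply algHom_ext
    intro p
    rw [aeval_X]
    rfl
  rw [this]

theorem det_GM (s : ι) : (GM ι n k s).det ≠ 0 := by
  intro h
  have h1 : pj ι n k (dtw n k (fun _ : ι => 1)) = 0 := by
    rw [pj_eq, aeval_dtw]
    unfold detw
    exact Finset.prod_eq_zero (Finset.mem_univ s) (by rw [h, pow_one])
  rw [map_eq_zero_iff _ pj_inj] at h1
  exact dtw_ne_zero k _ h1

theorem pj_orb (α : RAct ι n σ) (c : σ → k) (p : σ) :
    pj ι n k (orb α c p) = α.act (GM ι n k) (fun q => algebraMap k _ (c q)) p := by
  rw [pj_eq, aeval_orb]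

theorem pj_aeval_orb (α : RAct ι n σ) (c : σ → k) (P : MvPolynomial σ k) :
    pj ι n k (aeval (orb α c) P) = aeval (fun p => pj ι n k (orb α c p)) P :=
  comp_aeval_apply (orb α c) (pj ι n k) P

instance : Algebra.EssFiniteType k (LJ ι n k) := by
  have h1 : Algebra.EssFiniteType (KJ ι n k) (LJ ι n k) :=
    Algebra.EssFiniteType.of_isLocalization _ (nonZeroDivisors (KJ ι n k))
  exact Algebra.EssFiniteType.comp k (KJ ι n k) (LJ ι n k)

/-- the first Taylor coefficient -/
theorem tayl_coeff_one [Fintype σ] {R : Type} [CommRing R] [Algebra k R] (c v : σ → R)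
    (P : MvPolynomial σ k) :
    (tayl c v P).coeff 1 = ∑ p, v p * aeval c (pderiv p P) := by
  classical
  induction P using MvPolynomial.induction_on with
  | C a =>
    unfold tayl
    rw [algHom_C]
    simp only [pderiv_C, map_zero, mul_zero, Finset.sum_const_zero]
    have : algebraMap k (Polynomial R) a = Polynomial.C (algebraMap k R a) := rfl
    rw [this, Polynomial.coeff_C_succ]
  | add p q hp hq =>
    rw [map_add, Polynomial.coeff_add, hp, hq, ← Finset.sum_add_distrib]
    refine Finset.sum_congr rfl fun p _ => ?_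
    rw [map_add, map_add]
    ring
  | mul_X p i hp =>
    have h0 : tayl c v (X i : MvPolynomial σ k) =
        Polynomial.C (c i) + Polynomial.X * Polynomial.C (v i) := by
      unfold tayl
      rw [aeval_X]
    have h1 : (tayl c v (p * X i)).coeff 1 =
        (tayl c v p).coeff 1 * c i + (tayl c v p).coeff 0 * v i := by
      rw [map_mul, h0, mul_add, Polynomial.coeff_add, Polynomial.coeff_mul_C, ← mul_assoc,
        mul_comm (tayl c v p) Polynomial.X, mul_assoc, Polynomial.coeff_X_mul,
        Polynomial.coeff_mul_C]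
    rw [h1, hp, tayl_coeff_zero]
    have h2 : ∀ q, aeval c (pderiv q (p * X i)) =
        (if q = i then aeval c p else 0) + aeval c (pderiv q p) * c i := by
      intro q
      rw [Derivation.leibniz, map_add, smul_eq_mul, smul_eq_mul, map_mul, map_mul, aeval_X]
      congr 1
      · by_cases hq : q = i
        · subst hq
          rw [pderiv_X_self, map_one, mul_one, if_pos rfl]
        · rw [pderiv_X_of_ne (fun h => hq h.symm), map_zero, mul_zero, if_neg hq]
      · ring
    simp_rw [h2, mul_add, Finset.sum_add_distrib]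
    rw [add_comm]
    congr 1
    · rw [Finset.sum_eq_single i]
      · rw [if_pos rfl]; ring
      · intro b _ hb
        rw [if_neg hb, mul_zero]
      · simp
    · rw [Finset.sum_mul]
      exact Finset.sum_congr rfl fun q _ => by ring

/-- the effect of a dual number valued homomorphism on the orbit map -/
theorem dual_orb' (α : DAct ι n σ) (φ : LJ ι n k →+* DualNumber (LJ ι n k))
    (h1 : ∀ a, (φ a).fst = a)
    (h2 : ∀ a : k, φ (algebraMap k _ a) = algebraMap k (DualNumber (LJ ι n k)) a)
    (Y : Mt ι n (LJ ι n k))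
    (hY : ∀ s i j, (φ (GM ι n k s i j)).snd = (Y s * GM ι n k s) i j) (f : σ → k) (p : σ) :
    (φ (pj ι n k (orb α.toRAct f p))).snd =
      α.act (GM ι n k) (α.xi Y (fun p => algebraMap k (LJ ι n k) (f p))) p := by
  rw [pj_orb]
  have e1 := α.map_act φ (GM ι n k) (fun p => algebraMap k (LJ ι n k) (f p)) p
  rw [e1]
  have e2 : (fun s => (GM ι n k s).map φ) = oneE (DualNumber.eps : DualNumber (LJ ι n k)) Y *
      (fun s => (GM ι n k s).map (algebraMap (LJ ι n k) (DualNumber (LJ ι n k)))) := by
    funext s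
    ext1 i j
    have e3 : (oneE (DualNumber.eps : DualNumber (LJ ι n k)) Y *
      (fun s => (GM ι n k s).map (algebraMap (LJ ι n k) (DualNumber (LJ ι n k))))) s i j =
        algebraMap (LJ ι n k) (DualNumber (LJ ι n k)) (GM ι n k s i j) +
          DualNumber.eps * algebraMap (LJ ι n k) (DualNumber (LJ ι n k))
            ((Y s * GM ι n k s) i j) := by
      unfold oneE
      rw [Pi.mul_apply, add_mul, one_mul, Matrix.add_apply, Matrix.map_apply, Matrix.smul_mul,
        Matrix.smul_apply, ← Matrix.map_mul, Matrix.map_apply, smul_eq_mul]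
    rw [e3, Matrix.map_apply]
    apply TrivSqZeroExt.ext
    · rw [h1, fst_form]
    · rw [hY, snd_form]
  have e4 : (fun p => φ (algebraMap k (LJ ι n k) (f p))) =
      fun p => algebraMap (LJ ι n k) (DualNumber (LJ ι n k)) (algebraMap k (LJ ι n k) (f p)) := by
    funext q
    rw [h2]
    rfl
  rw [e2, e4, ← α.act_act]
  have e5 : α.act (oneE (DualNumber.eps : DualNumber (LJ ι n k)) Y)
      (fun p => algebraMap (LJ ι n k) (DualNumber (LJ ι n k)) (algebraMap k (LJ ι n k) (f p))) =
      (fun p => algebraMap (LJ ι n k) (DualNumber (LJ ι n k)) (algebraMap k (LJ ι n k) (f p))) +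
        (DualNumber.eps : DualNumber (LJ ι n k)) • (fun p => algebraMap (LJ ι n k)
          (DualNumber (LJ ι n k)) (α.xi Y (fun p => algebraMap k (LJ ι n k) (f p)) p)) := by
    funext q
    exact α.act_eps _ DualNumber.eps_mul_eps Y _ q
  rw [e5, α.act_add, α.act_smul]
  simp only [Pi.add_apply, Pi.smul_apply, smul_eq_mul]
  rw [← α.map_act, ← α.map_act, snd_form]

theorem act_inj_det (α : RAct ι n σ) {K : Type} [Field K] (A : Mt ι n K)
    (hA : ∀ s, (A s).det ≠ 0) {c c' : σ → K} (h : α.act A c = α.act A c') : c = c' := by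
  have h1 := congrArg (α.act (fun s => (A s)⁻¹)) h
  have h2 := α.act_inv_left A (fun s => (A s)⁻¹) (mul_inv_mt A hA) c
  have h3 := α.act_inv_left A (fun s => (A s)⁻¹) (mul_inv_mt A hA) c'
  rw [h2, h3] at h1
  exact h1

theorem act_GM_inj (α : RAct ι n σ) {c c' : σ → LJ ι n k}
    (h : α.act (GM ι n k) c = α.act (GM ι n k) c') : c = c' :=
  act_inj_det α (GM ι n k) det_GM h

/-- The tangent space of the orbit is cut out by the differentials of the equations. -/
theorem exists_xi_of_kernel [CharZero k] [Fintype σ] (α : DAct ι n σ) (F0 : σ → k)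
    (v : σ → LJ ι n k)
    (hv : ∀ P : MvPolynomial σ k, aeval (orb α.toRAct F0) P = 0 →
      ∑ p, α.act (GM ι n k) v p *
        aeval (fun p => pj ι n k (orb α.toRAct F0 p)) (pderiv p P) = 0) :
    ∃ Y : Mt ι n (LJ ι n k), α.xi Y (fun p => algebraMap k (LJ ι n k) (F0 p)) = v := by
  obtain ⟨φ, h1, h2, h3⟩ := exists_dual_ext (k := k) (L := LJ ι n k)
    (fun p => pj ι n k (orb α.toRAct F0 p)) (α.act (GM ι n k) v) (by
    intro P hP
    rw [← pj_aeval_orb, map_eq_zero_iff _ pj_inj] at hP
    exact hv P hP)
  let Y : Mt ι n (LJ ι n k) := fun s =>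
    (Matrix.of fun i j => (φ (GM ι n k s i j)).snd) * (GM ι n k s)⁻¹
  have hY : ∀ s i j, (φ (GM ι n k s i j)).snd = (Y s * GM ι n k s) i j := by
    intro s i j
    change _ = ((Matrix.of fun i j => (φ (GM ι n k s i j)).snd) * (GM ι n k s)⁻¹ *
      GM ι n k s) i j
    rw [mul_assoc, Matrix.nonsing_inv_mul _ (isUnit_iff_ne_zero.mpr (det_GM s)), mul_one]
    rfl
  refine ⟨Y, ?_⟩
  apply act_GM_inj α.toRAct
  funext p
  rw [← dual_orb' α φ h1 h2 Y hY, h3]

/-- The tangent space as a submodule. -/
def TT (α : DAct ι n σ) {R : Type} [CommRing R] (c : σ → R) : Submodule R (σ → R) where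
  carrier := {v | ∃ Y : Mt ι n R, α.xi Y c = v}
  add_mem' := by
    rintro a b ⟨Y, rfl⟩ ⟨Y', rfl⟩
    exact ⟨Y + Y', α.xi_add _ _ _⟩
  zero_mem' := by
    refine ⟨(0 : R) • 0, ?_⟩
    rw [α.xi_smul, zero_smul]
  smul_mem' := by
    rintro r a ⟨Y, rfl⟩
    exact ⟨r • Y, α.xi_smul _ _ _⟩

theorem map_TT (α : DAct ι n σ) {R S : Type} [CommRing R] [CommRing S] (φ : R →+* S)
    {c v : σ → R} (h : v ∈ TT α c) : (fun p => φ (v p)) ∈ TT α (fun p => φ (c p)) := by
  obtain ⟨Y, rfl⟩ := h
  exact ⟨_, funext fun p => (α.map_xi φ Y c p).symm⟩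

/-- A finite family of equations whose differentials form a basis of the conormal space of the
orbit at the generic point, with dual vectors. -/
theorem exists_conormal [CharZero k] [Fintype σ] (α : DAct ι n σ) (F0 : σ → k) :
    ∃ (c : ℕ) (P : Fin c → MvPolynomial σ k) (v : Fin c → σ → LJ ι n k),
      (∀ i, aeval (orb α.toRAct F0) (P i) = 0) ∧
      (∀ i j, ∑ p, α.act (GM ι n k) (v j) p *
        aeval (fun p => pj ι n k (orb α.toRAct F0 p)) (pderiv p (P i)) = if i = j then 1 else 0) ∧
      ∀ w : σ → LJ ι n k, w - ∑ i, (∑ p, α.act (GM ι n k) w p *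
        aeval (fun p => pj ι n k (orb α.toRAct F0 p)) (pderiv p (P i))) • v i ∈
          TT α (fun p => algebraMap k (LJ ι n k) (F0 p)) := by
  classical
  let L := LJ ι n k
  let D : MvPolynomial σ k → Module.Dual L (σ → L) := fun P =>
    (∑ p, (aeval (fun p => pj ι n k (orb α.toRAct F0 p)) (pderiv p P) : L) •
      (LinearMap.proj p : (σ → L) →ₗ[L] L)) ∘ₗ α.actL (GM ι n k)
  have hD : ∀ P w, D P w = ∑ p, α.act (GM ι n k) w p *
        aeval (fun p => pj ι n k (orb α.toRAct F0 p)) (pderiv p P) := by
    intro P w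
    change (∑ p, (aeval (fun p => pj ι n k (orb α.toRAct F0 p)) (pderiv p P) : L) •
      (LinearMap.proj p : (σ → L) →ₗ[L] L)) (α.act (GM ι n k) w) = _
    rw [LinearMap.sum_apply]
    exact Finset.sum_congr rfl fun p _ => by
      rw [LinearMap.smul_apply, smul_eq_mul, mul_comm]; rfl
  let S : Set (Module.Dual L (σ → L)) := D '' {P | aeval (orb α.toRAct F0) P = 0}
  obtain ⟨f, hf1, hf2, hf3⟩ := Submodule.exists_fun_fin_finrank_span_eq L S
  choose P hP using hf1
  let Φ : (σ → L) →ₗ[L] (Fin (Module.finrank L (Submodule.span L S)) → L) :=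
    LinearMap.pi f
  have hΦ : Function.Surjective Φ := by
    rw [← LinearMap.dualMap_injective_iff, injective_iff_map_eq_zero]
    intro g hg
    have h1 : ∀ w, g (Φ w) = 0 := fun w => congrFun (congrArg DFunLike.coe hg) w
    have h2 : ∑ i, g (Pi.single i 1) • f i = 0 := by
      apply LinearMap.ext
      intro w
      rw [LinearMap.sum_apply, LinearMap.zero_apply, ← h1 w]
      conv_rhs => rw [pi_eq_sum_univ (Φ w), map_sum]
      refine Finset.sum_congr rfl fun i _ => ?_
      rw [map_smul, LinearMap.smul_apply, smul_eq_mul, smul_eq_mul, mul_comm]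
      congr 1
      congr 1
      funext j
      rw [Pi.single_apply]
      simp only [eq_comm]
    have h3 := Fintype.linearIndependent_iff.mp hf3 _ h2
    apply LinearMap.pi_ext'
    intro i
    ext
    simpa using h3 i
  choose v hv using fun i => hΦ (Pi.single i 1)
  refine ⟨_, P, v, fun i => (hP i).1, fun i j => ?_, fun w => ?_⟩
  · rw [← hD, (hP i).2]
    have := congrFun (hv j) i
    rw [Pi.single_apply] at this
    exact this
  · obtain ⟨Y, hY⟩ := exists_xi_of_kernel α F0 (w - ∑ i, (∑ p, α.act (GM ι n k) w p *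
        aeval (fun p => pj ι n k (orb α.toRAct F0 p)) (pderiv p (P i))) • v i) (by
      intro P' hP'
      rw [← hD]
      have h1 : D P' ∈ Submodule.span L (Set.range f) := by
        rw [hf2]
        exact Submodule.subset_span ⟨P', hP', rfl⟩
      have h2 : ∀ i, f i (w - ∑ i, (∑ p, α.act (GM ι n k) w p *
        aeval (fun p => pj ι n k (orb α.toRAct F0 p)) (pderiv p (P i))) • v i) = 0 := by
        intro i
        rw [map_sub, map_sum, sub_eq_zero]
        simp only [map_smul, smul_eq_mul]
        have h3 : ∀ j, f i (v j) = if i = j then 1 else 0 := by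
          intro j
          have := congrFun (hv j) i
          rw [Pi.single_apply] at this
          exact this
        simp_rw [h3]
        rw [Finset.sum_eq_single i]
        · rw [if_pos rfl, mul_one, ← hD, (hP i).2]
        · intro b _ hb
          rw [if_neg (fun h => hb h.symm), mul_zero]
        · simp
      generalize D P' = T at h1
      induction h1 using Submodule.span_induction with
      | mem x hx => obtain ⟨i, rfl⟩ := hx; exact h2 i
      | zero => rfl
      | add x y _ _ hx hy => rw [LinearMap.add_apply, hx, hy, add_zero]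
      | smul a x _ hx => rw [LinearMap.smul_apply, hx, smul_zero])
    exact ⟨Y, hY⟩

end

end Pool.Agent.Helper819.Gr
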