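import Pool.Agent.Helper819.Gr.Lead2

/-!
Universality of invariance properties.
-/

open MvPolynomial

namespace Pool.Agent.Helper819.Gr

open Pool.Agent.Helper819.Apolar Pool.Agent.Helper819.Dyn

noncomputable section

set_option linter.unusedSectionVars false

variable {k : Type} [Field k] {ι : Type} [Fintype ι] [DecidableEq ι] {n : ℕ} {σ : Type}

theorem aeval_eq_eval_self {τ : Type} (x : τ → k) (P : MvPolynomial τ k) :
    aeval x P = eval x P := by
  rw [← coe_aeval_eq_eval]; rfl

/-- Tangential invariance over arbitrary algebras. -/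
theorem xi_univ [Infinite k] (α : DAct ι n σ) (F0 : σ → k) (Q : MvPolynomial σ k)
    (hQ : ∀ (Y : Mt ι n k) (v : σ → k), eval (v + α.xi Y F0) Q = eval v Q)
    {R : Type} [CommRing R] [Algebra k R] (Y : Mt ι n R) (v : σ → R) :
    aeval (v + α.xi Y (fun p => algebraMap k R (F0 p))) Q = aeval v Q := by
  let T := MvPolynomial (Jx ι n ⊕ σ) k
  let gA : Mt ι n T := fun s => Matrix.of fun i j => X (Sum.inl (s, i, j))
  let gc : σ → T := fun p => X (Sum.inr p)
  have key : aeval (gc + α.xi gA (fun p => (C (F0 p) : T))) Q = aeval gc Q := by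
    apply MvPolynomial.funext
    intro x
    have e1 := comp_aeval_apply (gc + α.xi gA (fun p => (C (F0 p) : T))) (aeval x : T →ₐ[k] k) Q
    have e2 := comp_aeval_apply gc (aeval x : T →ₐ[k] k) Q
    rw [aeval_eq_eval_self] at e1 e2
    rw [e1, e2]
    have e4 : (fun i => aeval x ((gc + α.xi gA (fun p => (C (F0 p) : T))) i)) =
        (fun p => x (Sum.inr p)) +
          α.xi (fun s => Matrix.of fun i j => x (Sum.inl (s, i, j))) F0 := by
      funext p
      rw [Pi.add_apply, Pi.add_apply, map_add, aeval_eq_eval_self, aeval_eq_eval_self, α.map_xi]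
      congr 1
      · simp [gc]
      · congr 1
        · funext s
          ext i j
          simp [gA]
        · funext q
          exact eval_C _
    have e5 : (fun i => aeval x (gc i)) = fun p => x (Sum.inr p) := by
      funext q
      simp [gc]
    rw [e4, e5, aeval_eq_eval_self, aeval_eq_eval_self]
    exact hQ _ _
  let φ : T →ₐ[k] R := aeval (Sum.elim (ent Y) v)
  have h1 := congrArg φ key
  rw [comp_aeval_apply (gc + α.xi gA (fun p => (C (F0 p) : T))) φ Q,
    comp_aeval_apply gc φ Q] at h1
  have e1 : (fun i => φ ((gc + α.xi gA (fun p => (C (F0 p) : T))) i)) =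
      v + α.xi Y (fun p => algebraMap k R (F0 p)) := by
    funext p
    rw [Pi.add_apply, map_add, Pi.add_apply]
    congr 1
    · change aeval _ _ = _
      rw [aeval_X]
      rfl
    · have := α.map_xi φ.toRingHom gA (fun p => (C (F0 p) : T)) p
      change φ (α.xi gA (fun p => (C (F0 p) : T)) p) = _ at this
      rw [this]
      congr 1
      · funext s
        ext i j
        change φ (X (Sum.inl (s, i, j))) = _
        change aeval _ _ = _
        rw [aeval_X]
        rfl
      · funext q
        exact algHom_C _ _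
  have e2 : (fun i => φ (gc i)) = v := by
    funext q
    change aeval _ _ = _
    rw [aeval_X]
    rfl
  rw [e1, e2] at h1
  exact h1

/-- Invariance under the stabiliser over extension fields. -/
theorem stab_univ [IsAlgClosed k] [Finite σ] (α : RAct ι n σ) (F0 : σ → k)
    (Q : MvPolynomial σ k)
    (hQ : ∀ A : Mt ι n k, (∀ s, (A s).det ≠ 0) → α.act A F0 = F0 →
      ∀ v : σ → k, eval (α.act A v) Q = eval v Q)
    {K : Type} [Field K] [Algebra k K] (h : Mt ι n K) (hdet : ∀ s, (h s).det ≠ 0)
    (hF : α.act h (fun p => algebraMap k K (F0 p)) = fun p => algebraMap k K (F0 p))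
    (v : σ → K) : aeval (α.act h v) Q = aeval v Q := by
  by_contra hne
  let T := MvPolynomial (Jx ι n ⊕ σ) k
  let gA : Mt ι n T := fun s => Matrix.of fun i j => X (Sum.inl (s, i, j))
  let gc : σ → T := fun p => X (Sum.inr p)
  let G : T := aeval (α.act gA gc) Q - aeval gc Q
  let φ : T →ₐ[k] K := aeval (Sum.elim (ent h) v)
  have hφA : (fun s => (gA s).map φ.toRingHom) = h := by
    funext s
    ext i j
    change φ (X (Sum.inl (s, i, j))) = _
    change aeval _ _ = _
    rw [aeval_X]
    rfl
  have hφc : (fun q => φ (gc q)) = v := by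
    funext q
    change aeval _ _ = _
    rw [aeval_X]
    rfl
  have hG : φ G ≠ 0 := by
    change φ (aeval (α.act gA gc) Q - aeval gc Q) ≠ 0
    rw [map_sub, comp_aeval_apply (α.act gA gc) φ Q, comp_aeval_apply gc φ Q, hφc]
    have e1 : (fun i => φ (α.act gA gc i)) = α.act h v := by
      funext p
      have := α.map_act φ.toRingHom gA gc p
      change φ (α.act gA gc p) = _ at this
      rw [this, hφA]
      congr 1
    rw [e1]
    exact sub_ne_zero.mpr hne
  have hD : φ (detw (fun _ : ι => 1) gA) ≠ 0 := by
    have := map_detw φ.toRingHom (fun _ : ι => 1) gA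
    change φ (detw _ gA) = _ at this
    rw [this, hφA]
    exact detw_ne_zero _ _ hdet
  obtain ⟨y, hy1, hy2⟩ := exists_point (k := k) (K := K) (Sum.elim (ent h) v)
    (G * detw (fun _ : ι => 1) gA) (by
      change φ _ ≠ 0
      rw [map_mul]
      exact mul_ne_zero hG hD)
  let A : Mt ι n k := fun s => Matrix.of fun i j => y (Sum.inl (s, i, j))
  let c : σ → k := fun p => y (Sum.inr p)
  have hyA : (fun s => (gA s).map (eval y)) = A := by
    funext s
    ext i j
    simp [gA, A]
  have hyc : (fun q => eval y (gc q)) = c := by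
    funext q
    simp [gc, c]
  rw [map_mul, map_detw, hyA] at hy2
  have hA : ∀ s, (A s).det ≠ 0 := by
    intro s h0
    apply right_ne_zero_of_mul hy2
    unfold detw
    exact Finset.prod_eq_zero (Finset.mem_univ s) (by rw [h0, pow_one])
  have hAF : α.act A F0 = F0 := by
    funext p
    have h1 := hy1 (α.act gA (fun q => C (F0 q)) p - C (F0 p)) (by
      have := α.map_act φ.toRingHom gA (fun q => (C (F0 q) : T)) p
      change φ (α.act gA (fun q => C (F0 q)) p) = _ at this
      change φ _ = 0
      rw [map_sub, this, hφA]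
      have e1 : (fun q => φ.toRingHom (C (F0 q))) = fun q => algebraMap k K (F0 q) := by
        funext q
        exact algHom_C _ _
      rw [e1, hF]
      have e2 : φ (C (F0 p)) = algebraMap k K (F0 p) := algHom_C _ _
      rw [e2, sub_self])
    rw [map_sub, eval_C, α.map_act, hyA, sub_eq_zero] at h1
    simp only [eval_C] at h1
    exact h1
  apply left_ne_zero_of_mul hy2
  change eval y (aeval (α.act gA gc) Q - aeval gc Q) = 0
  have e1 := comp_aeval_apply (α.act gA gc) (aeval y : T →ₐ[k] k) Q
  have e2 := comp_aeval_apply gc (aeval y : T →ₐ[k] k) Q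
  rw [aeval_eq_eval_self] at e1 e2
  rw [map_sub, e1, e2]
  have e3 : (fun i => aeval y (α.act gA gc i)) = α.act A c := by
    funext p
    rw [aeval_eq_eval_self, α.map_act, hyA, hyc]
  have e4 : (fun i => aeval y (gc i)) = c := by
    funext p
    rw [aeval_eq_eval_self]
    exact congrFun hyc p
  rw [e3, e4, aeval_eq_eval_self, aeval_eq_eval_self, hQ A hA hAF c, sub_self]

end

end Pool.Agent.Helper819.Gr
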