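import Pool.Agent.Helper819.Gr.Lead3

/-!
Every invariant form on the normal space of a minimal orbit is a leading form of a semi-invariant.
-/

open MvPolynomial

namespace Pool.Agent.Helper819.Gr

open Pool.Agent.Helper819.Apolar Pool.Agent.Helper819.Dyn

noncomputable section

set_option linter.unusedSectionVars false

variable {k : Type} [Field k] {ι : Type} [Fintype ι] [DecidableEq ι] {n : ℕ} {σ : Type}

theorem eval_map_aeval {L Ω τ : Type} [Field L] [Algebra k L] [CommRing Ω] (f : L →+* Ω)
    [Algebra k Ω] (hf : ∀ a : k, f (algebraMap k L a) = algebraMap k Ω a)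
    (g : σ → MvPolynomial τ L) (Q : MvPolynomial σ k) (s : τ → Ω) :
    eval s (map f (aeval g Q)) = aeval (fun p => eval s (map f (g p))) Q := by
  rw [aeval_def, aeval_def]
  have h1 := hom_eval₂ Q (algebraMap k (MvPolynomial τ L)) ((eval s).comp (map f)) g
  change ((eval s).comp (map f)) _ = _
  rw [h1]
  congr 1
  ext a
  change eval s (map f (algebraMap k (MvPolynomial τ L) a)) = _
  rw [IsScalarTower.algebraMap_apply k L (MvPolynomial τ L) a]
  change eval s (map f (C _)) = _
  rw [map_C, eval_C, hf]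

/-- the two specialisations of the coefficient polynomial agree -/
theorem descent_step [IsAlgClosed k] [CharZero k] [Fintype σ] (α : DAct ι n σ) (F0 : σ → k)
    (Q : MvPolynomial σ k)
    (hQT : ∀ (Y : Mt ι n k) (v : σ → k), eval (v + α.xi Y F0) Q = eval v Q)
    (hQH : ∀ A : Mt ι n k, (∀ s, (A s).det ≠ 0) → α.act A F0 = F0 →
      ∀ v : σ → k, eval (α.act A v) Q = eval v Q)
    {c : ℕ} (P : Fin c → MvPolynomial σ k) (v : Fin c → σ → LJ ι n k)
    (hPv : ∀ i j, ∑ p, α.act (GM ι n k) (v j) p *
        aeval (fun p => pj ι n k (orb α.toRAct F0 p)) (pderiv p (P i)) = if i = j then 1 else 0)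
    (hw : ∀ w : σ → LJ ι n k, w - ∑ i, (∑ p, α.act (GM ι n k) w p *
        aeval (fun p => pj ι n k (orb α.toRAct F0 p)) (pderiv p (P i))) • v i ∈
          TT α (fun p => algebraMap k (LJ ι n k) (F0 p)))
    {Ω : Type} [Field Ω] [IsAlgClosed Ω] (f g : LJ ι n k →+* Ω)
    (hk : ∀ a : k, f (algebraMap k _ a) = g (algebraMap k _ a))
    (hx : ∀ p, f (pj ι n k (orb α.toRAct F0 p)) = g (pj ι n k (orb α.toRAct F0 p))) :
    map f (aeval (fun p => ∑ i, C (v i p) * X i : σ → MvPolynomial (Fin c) (LJ ι n k)) Q) =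
      map g (aeval (fun p => ∑ i, C (v i p) * X i : σ → MvPolynomial (Fin c) (LJ ι n k)) Q) := by
  classical
  have hinf : Infinite k := inferInstance
  let _ : Algebra k Ω := (f.comp (algebraMap k (LJ ι n k))).toAlgebra
  have hfk : ∀ a : k, f (algebraMap k _ a) = algebraMap k Ω a := fun a => rfl
  have hgk : ∀ a : k, g (algebraMap k _ a) = algebraMap k Ω a := fun a => (hk a).symm
  let M1 : Mt ι n Ω := fun s => (GM ι n k s).map f
  let M2 : Mt ι n Ω := fun s => (GM ι n k s).map g
  have hM1 : ∀ s, (M1 s).det ≠ 0 := by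
    intro s
    have e1 : (M1 s).det = f (GM ι n k s).det := by
      rw [RingHom.map_det]; rfl
    rw [e1]
    exact (map_ne_zero f).mpr (det_GM s)
  have hM2 : ∀ s, (M2 s).det ≠ 0 := by
    intro s
    have e1 : (M2 s).det = g (GM ι n k s).det := by
      rw [RingHom.map_det]; rfl
    rw [e1]
    exact (map_ne_zero g).mpr (det_GM s)
  let F : σ → Ω := fun p => algebraMap k Ω (F0 p)
  let y : σ → Ω := fun p => g (pj ι n k (orb α.toRAct F0 p))
  have hy1 : α.act M1 F = y := by
    funext p
    have e1 := α.map_act f (GM ι n k) (fun q => algebraMap k _ (F0 q)) p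
    rw [← pj_orb, hx] at e1
    exact e1.symm
  have hy2 : α.act M2 F = y := by
    funext p
    have e1 := α.map_act g (GM ι n k) (fun q => algebraMap k _ (F0 q)) p
    rw [← pj_orb] at e1
    simp only [hgk] at e1
    exact e1.symm
  let h : Mt ι n Ω := M1 * (fun s => (M2 s)⁻¹)
  have hdet : ∀ s, (h s).det ≠ 0 := by
    intro s
    change (M1 s * (M2 s)⁻¹).det ≠ 0
    rw [Matrix.det_mul]
    exact mul_ne_zero (hM1 s) (inv_det_ne M2 hM2 s)
  have hhM2 : h * M2 = M1 := by
    change M1 * (fun s => (M2 s)⁻¹) * M2 = M1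
    rw [mul_assoc, inv_mul_mt M2 hM2, mul_one]
  have hhF : α.act h F = F := by
    change α.act (M1 * (fun s => (M2 s)⁻¹)) F = F
    rw [← α.act_act, hy1, ← hy2, α.act_inv_left M2 _ (mul_inv_mt M2 hM2)]
  -- evaluation of k-polynomials
  have hfe : ∀ R : MvPolynomial σ k, f (aeval (fun p => pj ι n k (orb α.toRAct F0 p)) R) =
      aeval y R := by
    intro R
    rw [aeval_def, aeval_def]
    have := hom_eval₂ R (algebraMap k (LJ ι n k)) f (fun p => pj ι n k (orb α.toRAct F0 p))
    rw [this]
    congr 1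
    funext p
    exact hx p
  have hge : ∀ R : MvPolynomial σ k, g (aeval (fun p => pj ι n k (orb α.toRAct F0 p)) R) =
      aeval y R := by
    intro R
    rw [aeval_def, aeval_def]
    have := hom_eval₂ R (algebraMap k (LJ ι n k)) g (fun p => pj ι n k (orb α.toRAct F0 p))
    rw [this]
    congr 1
    ext a
    exact hgk a
  let D2 : Fin c → (σ → Ω) →ₗ[Ω] Ω := fun i =>
    (∑ p, (aeval y (pderiv p (P i)) : Ω) • (LinearMap.proj p : (σ → Ω) →ₗ[Ω] Ω)) ∘ₗ α.actL M2
  have hD2 : ∀ i w, D2 i w = ∑ p, α.act M2 w p * aeval y (pderiv p (P i)) := by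
    intro i w
    change (∑ p, (aeval y (pderiv p (P i)) : Ω) • (LinearMap.proj p : (σ → Ω) →ₗ[Ω] Ω))
      (α.act M2 w) = _
    rw [LinearMap.sum_apply]
    exact Finset.sum_congr rfl fun p _ => by
      rw [LinearMap.smul_apply, smul_eq_mul, mul_comm]; rfl
  let E : (σ → Ω) →ₗ[Ω] (σ → Ω) :=
    LinearMap.id - ∑ i, (D2 i).smulRight (fun p => g (v i p))
  have hE : ∀ w, E w = w - ∑ i, D2 i w • (fun p => g (v i p)) := by
    intro w
    change (LinearMap.id - ∑ i, (D2 i).smulRight (fun p => g (v i p)) : (σ → Ω) →ₗ[Ω] (σ → Ω)) w = _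
    rw [LinearMap.sub_apply, LinearMap.sum_apply]
    rfl
  have hgD : ∀ (w : σ → LJ ι n k) i, g (∑ p, α.act (GM ι n k) w p *
      aeval (fun p => pj ι n k (orb α.toRAct F0 p)) (pderiv p (P i))) =
      D2 i (fun p => g (w p)) := by
    intro w i
    rw [hD2, map_sum]
    refine Finset.sum_congr rfl fun p _ => ?_
    rw [map_mul, hge, α.map_act]
  have hET : ∀ w, E w ∈ TT α F := by
    intro w
    rw [LinearMap.pi_apply_eq_sum_univ E w]
    apply Submodule.sum_mem
    intro p _
    apply Submodule.smul_mem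
    have h1 := map_TT α g (hw (fun q => if p = q then 1 else 0))
    have h2 : (fun p => g (algebraMap k (LJ ι n k) (F0 p))) = F := funext fun p => hgk _
    rw [h2] at h1
    have h3 : E (fun j => if p = j then 1 else 0) = fun q => g (((fun q => if p = q then 1 else 0) -
        ∑ i, (∑ q', α.act (GM ι n k) (fun q => if p = q then 1 else 0) q' *
        aeval (fun p => pj ι n k (orb α.toRAct F0 p)) (pderiv q' (P i))) • v i :
          σ → LJ ι n k) q) := by
      funext q
      rw [hE, Pi.sub_apply, Pi.sub_apply, map_sub, Finset.sum_apply, Finset.sum_apply, map_sum]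
      congr 1
      · split_ifs <;> simp
      · refine Finset.sum_congr rfl fun i _ => ?_
        rw [Pi.smul_apply, Pi.smul_apply, smul_eq_mul, smul_eq_mul, map_mul, hgD]
        congr 2
        funext q
        split_ifs <;> simp
    rw [h3]
    exact h1
  apply MvPolynomial.funext
  intro s
  rw [eval_map_aeval f hfk, eval_map_aeval g hgk]
  let u1 : σ → Ω := ∑ i, s i • (fun p => f (v i p))
  let u2 : σ → Ω := ∑ i, s i • (fun p => g (v i p))
  have hu1 : (fun p => eval s (map f (∑ i, C (v i p) * X i : MvPolynomial (Fin c) (LJ ι n k)))) =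
      u1 := by
    funext p
    rw [map_sum, map_sum]
    change _ = (∑ i, s i • (fun p => f (v i p)) : σ → Ω) p
    rw [Finset.sum_apply]
    refine Finset.sum_congr rfl fun i _ => ?_
    rw [map_mul, map_C, map_X, map_mul, eval_C, eval_X, Pi.smul_apply, smul_eq_mul, mul_comm]
  have hu2 : (fun p => eval s (map g (∑ i, C (v i p) * X i : MvPolynomial (Fin c) (LJ ι n k)))) =
      u2 := by
    funext p
    rw [map_sum, map_sum]
    change _ = (∑ i, s i • (fun p => g (v i p)) : σ → Ω) p
    rw [Finset.sum_apply]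
    refine Finset.sum_congr rfl fun i _ => ?_
    rw [map_mul, map_C, map_X, map_mul, eval_C, eval_X, Pi.smul_apply, smul_eq_mul, mul_comm]
  rw [hu1, hu2]
  have hDu : ∀ i, D2 i (α.act h u1) = s i := by
    intro i
    rw [hD2]
    have e1 : α.act M2 (α.act h u1) = α.act M1 u1 := by
      rw [α.act_act, hhM2]
    rw [e1]
    have e2 : α.act M1 u1 = ∑ j, s j • α.act M1 (fun p => f (v j p)) := by
      change α.act M1 (∑ i, s i • (fun p => f (v i p))) = _
      rw [α.act_sum]
      exact Finset.sum_congr rfl fun j _ => α.act_smul _ _ _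
    rw [e2]
    simp only [Finset.sum_apply, Pi.smul_apply, smul_eq_mul, Finset.sum_mul]
    rw [Finset.sum_comm]
    have e3 : ∀ j, ∑ p, s j * α.act M1 (fun p => f (v j p)) p * aeval y (pderiv p (P i)) =
        s j * (if i = j then 1 else 0) := by
      intro j
      have e4 := congrArg f (hPv i j)
      rw [map_sum] at e4
      have e5 : f (if i = j then 1 else 0) = if i = j then 1 else 0 := by
        split_ifs <;> simp
      rw [e5] at e4
      rw [← e4, Finset.mul_sum]
      refine Finset.sum_congr rfl fun p _ => ?_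
      rw [map_mul, hfe, α.map_act, mul_assoc]
    simp_rw [e3]
    rw [Finset.sum_eq_single i]
    · rw [if_pos rfl, mul_one]
    · intro b _ hb
      rw [if_neg (fun h => hb h.symm), mul_zero]
    · simp
  obtain ⟨Y, hY⟩ := hET (α.act h u1)
  have h1 : α.act h u1 = u2 + α.xi Y F := by
    rw [hY, hE]
    have : ∑ i, D2 i (α.act h u1) • (fun p => g (v i p)) = u2 :=
      Finset.sum_congr rfl fun i _ => by rw [hDu]
    rw [this]
    abel
  rw [← stab_univ α.toRAct F0 Q hQH h hdet hhF u1, h1]
  exact xi_univ α F0 Q hQT Y u2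

end

end Pool.Agent.Helper819.Gr
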