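import Pool.Agent.Helper819.Gr.Lead4

/-!
Every invariant form on the normal space of a minimal orbit is a leading form of a semi-invariant.
-/

open MvPolynomial

namespace Pool.Agent.Helper819.Gr

open Pool.Agent.Helper819.Apolar Pool.Agent.Helper819.Dyn

noncomputable section

set_option linter.unusedSectionVars false

variable {k : Type} [Field k] {ι : Type} [Fintype ι] [DecidableEq ι] {n : ℕ} {σ : Type}

theorem exists_chi [IsAlgClosed k] [CharZero k] [Fintype σ] (α : DAct ι n σ) (F0 : σ → k)
    (j : ℕ) (Q : MvPolynomial σ k) (hQj : Q.IsHomogeneous j)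
    (hQT : ∀ (Y : Mt ι n k) (v : σ → k), eval (v + α.xi Y F0) Q = eval v Q)
    (hQH : ∀ A : Mt ι n k, (∀ s, (A s).det ≠ 0) → α.act A F0 = F0 →
      ∀ v : σ → k, eval (α.act A v) Q = eval v Q) :
    ∃ χ ∈ aIdeal α.toRAct F0 j Q, aeval (orb α.toRAct F0) χ ≠ 0 := by
  classical
  have hinf : Infinite k := inferInstance
  obtain ⟨c, P, v, hP, hPv, hw⟩ := exists_conormal α F0
  let x : σ → LJ ι n k := fun p => pj ι n k (orb α.toRAct F0 p)
  let ω : MvPolynomial (Fin c) (LJ ι n k) :=
    aeval (fun p => ∑ i, C (v i p) * X i : σ → MvPolynomial (Fin c) (LJ ι n k)) Q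
  have hωj : ω.IsHomogeneous j := by
    have := hQj.aeval (fun p => ∑ i, C (v i p) * X i : σ → MvPolynomial (Fin c) (LJ ι n k))
      (n := 1) (by
        intro p
        refine IsHomogeneous.sum _ _ _ fun i _ => ?_
        exact isHomogeneous_C_mul_X _ _)
    rw [one_mul] at this
    exact this
  have hdesc : ∀ m, ∃ b d : MvPolynomial σ k, aeval x d ≠ 0 ∧ coeff m ω * aeval x d = aeval x b := by
    intro m
    apply mem_of_two
    intro Ω _ _ f g hk hx
    have h1 := descent_step α F0 Q hQT hQH P v hPv hw f g hk hx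
    have h2 := congrArg (coeff m) h1
    rw [coeff_map, coeff_map] at h2
    exact h2
  choose b d hd hbd using hdesc
  let χ : MvPolynomial σ k := ∏ m ∈ ω.support, d m
  let B : (Fin c →₀ ℕ) → MvPolynomial σ k := fun m => b m * ∏ m' ∈ ω.support.erase m, d m'
  have hB : ∀ m ∈ ω.support, aeval x (B m) = coeff m ω * aeval x χ := by
    intro m hm
    change aeval x (b m * ∏ m' ∈ ω.support.erase m, d m') = coeff m ω * aeval x (∏ m ∈ ω.support, d m)
    rw [← Finset.mul_prod_erase _ _ hm, map_mul, map_mul, ← mul_assoc, hbd]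
  have hχ : aeval x χ ≠ 0 := by
    change aeval x (∏ m ∈ ω.support, d m) ≠ 0
    rw [map_prod]
    exact Finset.prod_ne_zero_iff.mpr fun m _ => hd m
  refine ⟨χ, ?_, ?_⟩
  swap
  · intro h0
    apply hχ
    rw [← pj_aeval_orb, h0, map_zero]
  refine ⟨∑ m ∈ ω.support, B m * ∏ i, P i ^ m i, fun w => ?_⟩
  -- Taylor expansion of the equations
  let A : Fin c → Polynomial (KJ ι n k) := fun i =>
    tayl (orb α.toRAct F0) (orb α.toRAct w) (P i)
  have hA0 : ∀ i, (A i).coeff 0 = 0 := by
    intro i
    change (tayl (orb α.toRAct F0) (orb α.toRAct w) (P i)).coeff 0 = 0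
    rw [tayl_coeff_zero, hP]
  have hAX : ∀ i, A i = Polynomial.X * (A i).divX := by
    intro i
    have h1 := Polynomial.divX_mul_X_add (A i)
    rw [hA0, Polynomial.C_0, add_zero, mul_comm] at h1
    exact h1.symm
  let G : (Fin c →₀ ℕ) → Polynomial (KJ ι n k) := fun m => ∏ i, (A i).divX ^ m i
  have hG : ∀ m ∈ ω.support, tayl (orb α.toRAct F0) (orb α.toRAct w) (B m * ∏ i, P i ^ m i) =
      Polynomial.X ^ j * (tayl (orb α.toRAct F0) (orb α.toRAct w) (B m) * G m) := by
    intro m hm
    rw [map_mul, map_prod]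
    have h1 : ∏ i, tayl (orb α.toRAct F0) (orb α.toRAct w) (P i ^ m i) =
        Polynomial.X ^ j * G m := by
      have h2 : ∀ i, tayl (orb α.toRAct F0) (orb α.toRAct w) (P i ^ m i) =
          Polynomial.X ^ m i * (A i).divX ^ m i := by
        intro i
        rw [map_pow]
        change A i ^ m i = _
        conv_lhs => rw [hAX i]
        rw [mul_pow]
      rw [Finset.prod_congr rfl fun i _ => h2 i, Finset.prod_mul_distrib,
        Finset.prod_pow_eq_pow_sum]
      have h3 : ∑ i, m i = j := by
        have h4 : m.degree = j := by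
          by_contra hne
          exact (mem_support_iff.mp hm) (hωj.coeff_eq_zero hne)
        rw [← h4, Finsupp.degree_eq_sum]
      rw [h3]
    rw [h1]
    ring
  rw [map_sum, Finset.sum_congr rfl hG]
  constructor
  · intro i hi
    rw [Polynomial.finsetSum_coeff]
    apply Finset.sum_eq_zero
    intro m _
    rw [Polynomial.coeff_X_pow_mul', if_neg (by omega)]
  · rw [Polynomial.finsetSum_coeff]
    apply pj_inj
    have hc : ∀ m, (Polynomial.X ^ j * (tayl (orb α.toRAct F0) (orb α.toRAct w) (B m) * G m)).coeff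
        j = aeval (orb α.toRAct F0) (B m) * ∏ i, (A i).coeff 1 ^ m i := by
      intro m
      rw [Polynomial.coeff_X_pow_mul', if_pos le_rfl, Nat.sub_self, Polynomial.mul_coeff_zero,
        tayl_coeff_zero]
      congr 1
      change (∏ i, (A i).divX ^ m i).coeff 0 = _
      rw [Polynomial.coeff_zero_eq_eval_zero, Polynomial.eval_prod]
      refine Finset.prod_congr rfl fun i _ => ?_
      rw [Polynomial.eval_pow, ← Polynomial.coeff_zero_eq_eval_zero, Polynomial.coeff_divX]
    rw [Finset.sum_congr rfl fun m _ => hc m, map_sum]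
    let wL : σ → LJ ι n k := fun p => algebraMap k _ (w p)
    let Dw : Fin c → LJ ι n k := fun i => ∑ p, α.act (GM ι n k) wL p *
      aeval (fun p => pj ι n k (orb α.toRAct F0 p)) (pderiv p (P i))
    have hD : ∀ i, pj ι n k ((A i).coeff 1) = Dw i := by
      intro i
      change pj ι n k ((tayl (orb α.toRAct F0) (orb α.toRAct w) (P i)).coeff 1) = _
      rw [coeff_tayl_map, tayl_coeff_one]
      exact Finset.sum_congr rfl fun p _ => by rw [pj_orb]
    have h1 : ∀ m ∈ ω.support, pj ι n k (aeval (orb α.toRAct F0) (B m) *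
        ∏ i, (A i).coeff 1 ^ m i) = aeval x χ * (coeff m ω * ∏ i, Dw i ^ m i) := by
      intro m hm
      rw [map_mul, pj_aeval_orb, map_prod]
      have h2 := hB m hm
      change aeval (fun p => pj ι n k (orb α.toRAct F0 p)) (B m) = _ at h2
      rw [h2]
      simp only [map_pow, hD]
      ring
    rw [Finset.sum_congr rfl h1, ← Finset.mul_sum, ← eval_eq']
    have h2 : eval Dw ω = aeval wL Q := by
      have h3 := eval_map_aeval (k := k) (σ := σ) (RingHom.id (LJ ι n k)) (fun a => rfl)
        (fun p => ∑ i, C (v i p) * X i : σ → MvPolynomial (Fin c) (LJ ι n k)) Q Dw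
      rw [map_id] at h3
      change eval Dw (aeval _ Q) = _
      rw [h3]
      obtain ⟨Y, hY⟩ := hw wL
      have h4 := xi_univ α F0 Q hQT Y (∑ i, Dw i • v i)
      rw [hY] at h4
      have h5 : ∑ i, Dw i • v i + (wL - ∑ i, (∑ p, α.act (GM ι n k) wL p *
        aeval (fun p => pj ι n k (orb α.toRAct F0 p)) (pderiv p (P i))) • v i) = wL := by
        change ∑ i, Dw i • v i + (wL - ∑ i, Dw i • v i) = wL
        abel
      rw [h5] at h4
      rw [h4]
      congr 2
      funext p
      rw [map_id, map_sum, Finset.sum_apply]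
      refine Finset.sum_congr rfl fun i _ => ?_
      rw [map_mul, eval_C, eval_X, Pi.smul_apply, smul_eq_mul, mul_comm]
    rw [h2, map_mul, pj_aeval_orb]
    have h6 : aeval wL Q = algebraMap k (LJ ι n k) (eval w Q) := by
      have := comp_aeval_apply w (Algebra.ofId k (LJ ι n k)) Q
      rw [aeval_eq_eval_self] at this
      exact this.symm
    have h7 : pj ι n k (C (eval w Q)) = algebraMap k (LJ ι n k) (eval w Q) := algHom_C _ _
    rw [h6, h7, mul_comm]

/-- Invariant forms on the normal space are leading forms of semi-invariants. -/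
theorem exists_lead [IsAlgClosed k] [CharZero k] [Fintype σ] (α : DAct ι n σ) (F0 : σ → k)
    {r : ι → ℕ} {D : MvPolynomial σ k} (hD : IsSemi α.toRAct r D)
    (hmin : ∀ c : σ → k, eval c D ≠ 0 → (∀ P : MvPolynomial σ k, aeval (orb α.toRAct F0) P = 0 →
      eval c P = 0) → ∀ P : MvPolynomial σ k, aeval (orb α.toRAct c) P = 0 → eval F0 P = 0)
    (j : ℕ) (Q : MvPolynomial σ k) (hQj : Q.IsHomogeneous j)
    (hQT : ∀ (Y : Mt ι n k) (v : σ → k), eval (v + α.xi Y F0) Q = eval v Q)
    (hQH : ∀ A : Mt ι n k, (∀ s, (A s).det ≠ 0) → α.act A F0 = F0 →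
      ∀ v : σ → k, eval (α.act A v) Q = eval v Q) :
    ∃ (m : ℕ) (q : MvPolynomial σ k), IsSemi α.toRAct (m • r) q ∧ Ord j q F0 ∧
      ∀ v, eval v (lf j q F0) = eval F0 D ^ m * eval v Q :=
  exists_lead_of α.toRAct F0 hD hmin j Q (exists_chi α F0 j Q hQj hQT hQH)

end

end Pool.Agent.Helper819.Gr
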