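import Pool.Agent.Helper819.Gr.V6
import Pool.Agent.Helper819.Gr.L6

/-!
The rings of invariants.
-/

open MvPolynomial

namespace Pool.Agent.Helper819.Gr

open Pool.Agent.Helper819.Apolar Pool.Agent.Helper819.Dyn

noncomputable section

set_option linter.unusedSectionVars false

/-- resultant data -/
structure ResD (k : Type) [Field k] (N e : ℕ) where
  D : MvPolynomial (Ix N e) k
  r : Bool → ℕ
  semi : IsSemi (ZA N e).toRAct r D
  hr : r true = e * r false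
  iff : ∀ c, eval c D ≠ 0 ↔ NZ (tup c)
  ext : ∀ (K : Type) [Field K] [Algebra k K] (c : Ix N e → K), aeval c D ≠ 0 → NZ (tup c)

theorem exists_ResD {k : Type} [Field k] [IsAlgClosed k] [CharZero k] {N e : ℕ} (he : 1 ≤ e) :
    Nonempty (ResD k N e) := by
  obtain ⟨D, r, h1, h2, h3, h4⟩ := exists_res (k := k) (N := N) (e := e) he
  exact ⟨⟨D, r, h1, h2, h3, h4⟩⟩

variable {k : Type} [Field k] {N e : ℕ} (𝓡 : ResD k N e)

namespace ResD

/-- discriminant -/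
def dsc (c : Ex N (e + 1) → k) : k := eval (grad c) 𝓡.D

/-- discriminant polynomial -/
def dX : MvPolynomial (Ex N (e + 1)) k := pull 𝓡.D

theorem eval_dX (c : Ex N (e + 1) → k) : eval c 𝓡.dX = 𝓡.dsc c := eval_pull c _

theorem dX_semi : IsSemi (XA N (e + 1)).toRAct (wx 𝓡.r) 𝓡.dX := 𝓡.semi.pull

/-- nonsingular forms -/
abbrev Xs : Type := {c : Ex N (e + 1) → k // 𝓡.dsc c ≠ 0}

/-- fraction -/
def fr (m : ℕ) (p : MvPolynomial (Ex N (e + 1)) k) : 𝓡.Xs → k :=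
  fun c => eval c.1 p / 𝓡.dsc c.1 ^ m

theorem fr_mul (m m' : ℕ) (p p' : MvPolynomial (Ex N (e + 1)) k) :
    𝓡.fr m p * 𝓡.fr m' p' = 𝓡.fr (m + m') (p * p') := by
  funext c
  change eval c.1 p / 𝓡.dsc c.1 ^ m * (eval c.1 p' / 𝓡.dsc c.1 ^ m') =
    eval c.1 (p * p') / 𝓡.dsc c.1 ^ (m + m')
  rw [map_mul, pow_add, div_mul_div_comm]

theorem fr_add (m m' : ℕ) (p p' : MvPolynomial (Ex N (e + 1)) k) :
    𝓡.fr m p + 𝓡.fr m' p' = 𝓡.fr (m + m') (p * 𝓡.dX ^ m' + 𝓡.dX ^ m * p') := by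
  funext c
  change eval c.1 p / 𝓡.dsc c.1 ^ m + (eval c.1 p' / 𝓡.dsc c.1 ^ m') =
    eval c.1 (p * 𝓡.dX ^ m' + 𝓡.dX ^ m * p') / 𝓡.dsc c.1 ^ (m + m')
  rw [map_add, map_mul, map_mul, map_pow, map_pow, eval_dX, pow_add, div_add_div _ _
    (pow_ne_zero _ c.2) (pow_ne_zero _ c.2)]

theorem fr_shift (m l : ℕ) (p : MvPolynomial (Ex N (e + 1)) k) :
    𝓡.fr (l + m) (𝓡.dX ^ l * p) = 𝓡.fr m p := by
  funext c
  change eval c.1 (𝓡.dX ^ l * p) / 𝓡.dsc c.1 ^ (l + m) = eval c.1 p / 𝓡.dsc c.1 ^ m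
  rw [map_mul, map_pow, eval_dX, pow_add, mul_div_mul_left _ _ (pow_ne_zero _ c.2)]

/-- The ring of invariants of nonsingular forms. -/
def SS : Subalgebra k (𝓡.Xs → k) where
  carrier := {h | ∃ m p, IsSemi (XA N (e + 1)).toRAct (m • wx 𝓡.r) p ∧ h = 𝓡.fr m p}
  mul_mem' := by
    rintro _ _ ⟨m, p, hp, rfl⟩ ⟨m', p', hp', rfl⟩
    refine ⟨m + m', p * p', ?_, 𝓡.fr_mul _ _ _ _⟩
    rw [add_smul]
    exact hp.mul hp'
  add_mem' := by
    rintro _ _ ⟨m, p, hp, rfl⟩ ⟨m', p', hp', rfl⟩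
    refine ⟨m + m', p * 𝓡.dX ^ m' + 𝓡.dX ^ m * p', ?_, 𝓡.fr_add _ _ _ _⟩
    rw [add_smul]
    exact (hp.mul (𝓡.dX_semi.pow m')).add ((𝓡.dX_semi.pow m).mul hp')
  algebraMap_mem' := by
    intro a
    refine ⟨0, C a, ?_, ?_⟩
    · rw [zero_smul]
      have := (IsSemi.one (α := (XA N (e + 1)).toRAct) (k := k)).C_mul a
      rwa [mul_one] at this
    · funext c
      change a = eval c.1 (C a) / 𝓡.dsc c.1 ^ 0
      rw [eval_C, pow_zero, div_one]

/-- element of the ring -/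
def mkS (m : ℕ) (p : MvPolynomial (Ex N (e + 1)) k)
    (hp : IsSemi (XA N (e + 1)).toRAct (m • wx 𝓡.r) p) : 𝓡.SS := ⟨𝓡.fr m p, m, p, hp, rfl⟩

/-- The image of the ring of invariants of tuples. -/
def RR : Subalgebra k 𝓡.SS where
  carrier := {h | ∃ m q, IsSemi (ZA N e).toRAct (m • 𝓡.r) q ∧ h.1 = 𝓡.fr m (pull q)}
  mul_mem' := by
    rintro h h' ⟨m, p, hp, e1⟩ ⟨m', p', hp', e2⟩
    refine ⟨m + m', p * p', ?_, ?_⟩
    · rw [add_smul]
      exact hp.mul hp'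
    · change h.1 * h'.1 = _
      rw [e1, e2, fr_mul, map_mul]
  add_mem' := by
    rintro h h' ⟨m, p, hp, e1⟩ ⟨m', p', hp', e2⟩
    refine ⟨m + m', p * 𝓡.D ^ m' + 𝓡.D ^ m * p', ?_, ?_⟩
    · rw [add_smul]
      exact (hp.mul (𝓡.semi.pow m')).add ((𝓡.semi.pow m).mul hp')
    · change h.1 + h'.1 = _
      rw [e1, e2, fr_add, map_add, map_mul, map_mul, map_pow, map_pow]
      rfl
  algebraMap_mem' := by
    intro a
    refine ⟨0, C a, ?_, ?_⟩
    · rw [zero_smul]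
      have := (IsSemi.one (α := (ZA N e).toRAct) (k := k)).C_mul a
      rwa [mul_one] at this
    · funext c
      change a = eval c.1 (pull (C a)) / 𝓡.dsc c.1 ^ 0
      rw [eval_pull, eval_C, pow_zero, div_one]

end ResD

section fermat

/-- coefficients of the Fermat form -/
def fermat (k : Type) [Field k] (N e : ℕ) : Ex N (e + 1) → k := cff (∑ i, X i ^ (e + 1))

theorem grad_fermat_NZ [CharZero k] (he : 1 ≤ e) : NZ (tup (grad (fermat k N e))) := by
  intro x hx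
  have h1 : (∑ i, X i ^ (e + 1) : MvPolynomial (Fin (N + 1)) k).IsHomogeneous (e + 1) := by
    refine IsHomogeneous.sum _ _ _ fun i _ => ?_
    have := (isHomogeneous_X k i).pow (e + 1)
    rwa [one_mul] at this
  rw [tup_grad] at hx
  unfold fermat at hx
  rw [frm_cff h1] at hx
  funext i
  have h2 := hx i
  have h3 : pderiv i (∑ j, X j ^ (e + 1) : MvPolynomial (Fin (N + 1)) k) =
      ((e + 1 : ℕ) : MvPolynomial (Fin (N + 1)) k) * X i ^ e := by
    rw [map_sum, Finset.sum_eq_single i]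
    · rw [Derivation.leibniz_pow, pderiv_X_self]
      simp
    · intro j _ hj
      rw [Derivation.leibniz_pow, pderiv_X_of_ne hj]
      simp
    · simp
  change eval x (pderiv i (∑ j, X j ^ (e + 1))) = 0 at h2
  rw [h3, map_mul, map_natCast, map_pow, eval_X] at h2
  exact pow_eq_zero_iff (by omega) |>.mp ((mul_eq_zero.mp h2).resolve_left
    (Nat.cast_ne_zero.mpr (Nat.succ_ne_zero e)))

end fermat

namespace ResD

theorem dsc_fermat [CharZero k] (he : 1 ≤ e) : 𝓡.dsc (fermat k N e) ≠ 0 :=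
  (𝓡.iff _).mpr (grad_fermat_NZ he)

theorem NZ_of_dsc {c : Ex N (e + 1) → k} (hc : 𝓡.dsc c ≠ 0) : NZ (tup (grad c)) :=
  (𝓡.iff _).mp hc

/-- homogeneity of semi-invariants -/
theorem semi_homog [IsAlgClosed k] {m : ℕ} {p : MvPolynomial (Ex N (e + 1)) k}
    (hp : IsSemi (XA N (e + 1)).toRAct (m • wx 𝓡.r) p) :
    p.IsHomogeneous (m * ((N + 1) * 𝓡.r false)) := by
  have hinf : Infinite k := IsAlgClosed.instInfinite
  apply homog_of_scale
  intro a x
  obtain ⟨t, ht⟩ := IsAlgClosed.exists_pow_nat_eq a (n := e + 1) (by omega)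
  have h1 := hp (diag (Matrix.diagonal fun _ => t)) x
  have h2 : (XA N (e + 1)).act (diag (Matrix.diagonal fun _ => t)) x = a • x := by
    funext α
    rw [XA_diagonal (diag (Matrix.diagonal fun _ => t)) (fun _ => t) rfl, mon_const,
      (mem_Ex α.1).mp α.2, ht]
    rfl
  rw [h2] at h1
  rw [h1]
  congr 1
  rw [detw_smul, detw_wx]
  change detw 𝓡.r (diag (Matrix.diagonal fun _ => t)) ^ m = _
  rw [diag_eq_pr2, detw_pr2, 𝓡.hr, Matrix.det_diagonal, Finset.prod_const, Finset.card_univ,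
    Fintype.card_fin, ← ht]
  ring

theorem rf_pos [IsAlgClosed k] [CharZero k] (he : 1 ≤ e) : 0 < 𝓡.r false := by
  by_contra h0
  have h1 : 𝓡.r false = 0 := by omega
  have h2 := 𝓡.semi_homog (m := 1) (p := 𝓡.dX) (by rw [one_smul]; exact 𝓡.dX_semi)
  rw [h1, mul_zero, mul_zero] at h2
  have h3 := eval_smul_hom h2 0 (fermat k N e)
  rw [zero_smul, pow_zero, one_mul, eval_dX, eval_dX] at h3
  apply 𝓡.dsc_fermat he
  rw [← h3]
  by_contra h4
  have h5 := (𝓡.iff _).mp h4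
  have h6 : grad (0 : Ex N (e + 1) → k) = 0 := map_zero (gradL k N e)
  rw [h6] at h5
  have h7 := h5 (fun _ => 1) (by
    intro i
    unfold tup
    simp)
  exact one_ne_zero (congrFun h7 0)

end ResD

end

end Pool.Agent.Helper819.Gr
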