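import Pool.Agent.Helper819.Gr.M1

/-!
Finiteness of the ring of invariants of forms over the image of the ring of invariants of tuples.
-/

open MvPolynomial

namespace Pool.Agent.Helper819.Gr

open Pool.Agent.Helper819.Apolar Pool.Agent.Helper819.Dyn Pool.Agent.Helper819.Zar

noncomputable section

set_option linter.unusedSectionVars false

variable {k : Type} [Field k] {N e : ℕ} (𝓡 : ResD k N e)

namespace ResD

theorem homComp_mul' {σ : Type} {F : MvPolynomial σ k} {d : ℕ}
    (hF : F.IsHomogeneous d) (G : MvPolynomial σ k) (m : ℕ) (hm : m < d) :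
    homogeneousComponent m (G * F) = 0 := by
  conv_lhs => rw [← sum_homogeneousComponent G]
  rw [Finset.sum_mul, map_sum]
  apply Finset.sum_eq_zero
  intro j _
  rw [homogeneousComponent_of_mem ((homogeneousComponent_isHomogeneous j G).mul hF), if_neg]
  omega

theorem mem_SS (h : 𝓡.SS) : ∃ m p, ∃ hp : IsSemi (XA N (e + 1)).toRAct (m • wx 𝓡.r) p,
    h = 𝓡.mkS m p hp := by
  obtain ⟨m, p, hp, h1⟩ := h.2
  exact ⟨m, p, hp, Subtype.ext h1⟩

/-- Hilbert's finiteness theorem. -/
theorem finiteType [IsAlgClosed k] [CharZero k] (he : 1 ≤ e) : Algebra.FiniteType k 𝓡.SS := by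
  classical
  let gens : Set (MvPolynomial (Ex N (e + 1)) k) :=
    {p | ∃ m, 1 ≤ m ∧ IsSemi (XA N (e + 1)).toRAct (m • wx 𝓡.r) p}
  obtain ⟨s, hs1, hs2⟩ := (Submodule.fg_span_iff_fg_span_finset_subset
    (R := MvPolynomial (Ex N (e + 1)) k) gens).mp (IsNoetherian.noetherian _)
  have hs1' : ∀ p : s, ∃ m, 1 ≤ m ∧ IsSemi (XA N (e + 1)).toRAct (m • wx 𝓡.r) p.1 :=
    fun p => hs1 p.2
  choose w hw1 hw2 using hs1'
  let g : s → 𝓡.SS := fun p => 𝓡.mkS (w p) p.1 (hw2 p)
  set A := Algebra.adjoin k (Set.range g) with hA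
  set δ := (N + 1) * 𝓡.r false with hδ
  have hδ0 : 0 < δ := Nat.mul_pos (Nat.succ_pos N) (𝓡.rf_pos he)
  have key : ∀ m p (hp : IsSemi (XA N (e + 1)).toRAct (m • wx 𝓡.r) p), 𝓡.mkS m p hp ∈ A := by
    intro m
    induction m using Nat.strong_induction_on with
    | _ m ih =>
      intro p hp
      have h1 := 𝓡.semi_homog hp
      by_cases hm : m = 0
      · subst hm
        rw [zero_mul] at h1
        have ha : p = C (coeff 0 p) := totalDegree_eq_zero_iff_eq_C.mp
          (Nat.le_zero.mp h1.totalDegree_le)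
        have h2 : 𝓡.mkS 0 p hp = algebraMap k 𝓡.SS (coeff 0 p) := by
          apply Subtype.ext
          funext c
          change eval c.1 p / 𝓡.dsc c.1 ^ 0 = coeff 0 p
          rw [pow_zero, div_one]
          conv_lhs => rw [ha]
          rw [eval_C]
        rw [h2]
        exact A.algebraMap_mem _
      · have hps : p ∈ Submodule.span (MvPolynomial (Ex N (e + 1)) k) (s : Set _) := by
          rw [← hs2]
          exact Submodule.subset_span ⟨m, by omega, hp⟩
        obtain ⟨c, hc⟩ := Submodule.mem_span_finset'.mp hps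
        let c' : s → MvPolynomial (Ex N (e + 1)) k := fun f =>
          homogeneousComponent ((m - w f) * δ) (c f)
        have hp2 : p = ∑ f : s, if w f ≤ m then c' f * f.1 else 0 := by
          have h3 := congrArg (homogeneousComponent (m * δ)) hc
          rw [homogeneousComponent_eq_self h1, map_sum] at h3
          rw [← h3]
          refine Finset.sum_congr rfl fun f _ => ?_
          have hfh := 𝓡.semi_homog (hw2 f)
          rw [smul_eq_mul]
          split_ifs with hf
          · have h4 : m * δ = (m - w f) * δ + w f * δ := by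
              rw [← add_mul, Nat.sub_add_cancel hf]
            rw [h4, Dyn.homComp_mul hfh]
          · apply homComp_mul' hfh
            exact Nat.mul_lt_mul_of_pos_right (by omega) hδ0
        have hp3 : p = ∑ f : s, if w f ≤ m then
            sharp (XA N (e + 1)).toRAct ((m - w f) • wx 𝓡.r) (c' f) * f.1 else 0 := by
          have h3 := congrArg (sharp (XA N (e + 1)).toRAct (m • wx 𝓡.r)) hp2
          rw [sharp_semi _ hp, sharp_sum] at h3
          conv_lhs => rw [h3]
          refine Finset.sum_congr rfl fun f _ => ?_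
          split_ifs with hf
          · have h4 : m • wx 𝓡.r = (m - w f) • wx 𝓡.r + w f • wx 𝓡.r := by
              rw [← add_smul, Nat.sub_add_cancel hf]
            conv_lhs => rw [h4]
            exact sharp_mul_semi _ _ (hw2 f) _
          · exact sharp_semi _ IsSemi.zero
        let t : s → 𝓡.SS := fun f => if w f ≤ m then
          𝓡.mkS (m - w f) (sharp (XA N (e + 1)).toRAct ((m - w f) • wx 𝓡.r) (c' f))
            (isSemi_sharp _ _ _) * g f else 0
        have hsum : 𝓡.mkS m p hp = ∑ f, t f := by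
          apply Subtype.ext
          rw [AddSubmonoidClass.coe_finsetSum]
          funext x
          rw [Finset.sum_apply]
          change eval x.1 p / 𝓡.dsc x.1 ^ m = _
          conv_lhs => rw [hp3]
          rw [map_sum, Finset.sum_div]
          refine Finset.sum_congr rfl fun f _ => ?_
          by_cases hf : w f ≤ m
          · rw [if_pos hf]
            have h5 : t f = 𝓡.mkS (m - w f) (sharp (XA N (e + 1)).toRAct
                ((m - w f) • wx 𝓡.r) (c' f)) (isSemi_sharp _ _ _) * g f := if_pos hf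
            rw [h5]
            change _ = (𝓡.fr (m - w f) _ * 𝓡.fr (w f) f.1) x
            rw [fr_mul, Nat.sub_add_cancel hf]
            rfl
          · rw [if_neg hf]
            have h5 : t f = 0 := if_neg hf
            rw [h5, map_zero, zero_div]
            rfl
        rw [hsum]
        refine Subalgebra.sum_mem _ fun f _ => ?_
        by_cases hf : w f ≤ m
        · have h5 : t f = 𝓡.mkS (m - w f) (sharp (XA N (e + 1)).toRAct
              ((m - w f) • wx 𝓡.r) (c' f)) (isSemi_sharp _ _ _) * g f := if_pos hf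
          rw [h5]
          refine Subalgebra.mul_mem _ (ih _ ?_ _ _) (Algebra.subset_adjoin ⟨f, rfl⟩)
          have := hw1 f
          omega
        · have h5 : t f = 0 := if_neg hf
          rw [h5]
          exact Subalgebra.zero_mem _
  refine ⟨⟨Finset.univ.image g, ?_⟩⟩
  rw [Finset.coe_image, Finset.coe_univ, Set.image_univ, eq_top_iff]
  intro h _
  obtain ⟨m, p, hp, rfl⟩ := 𝓡.mem_SS h
  exact key m p hp

theorem isIntegral [IsAlgClosed k] [CharZero k] (he : 1 ≤ e) :
    Algebra.IsIntegral 𝓡.RR 𝓡.SS := by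
  constructor
  intro h
  obtain ⟨m, p, hp, rfl⟩ := 𝓡.mem_SS h
  obtain ⟨n, l, b, hb1, hb2⟩ := integrality 𝓡.semi 𝓡.hr ⟨fermat k N e, 𝓡.dsc_fermat he⟩ p m hp
  let a : ℕ → 𝓡.RR := fun i => ⟨𝓡.mkS l (pull (b i)) (by
    rw [← wx_smul]
    exact (hb1 i).pull), l, b i, hb1 i, rfl⟩
  refine ⟨∑ i ∈ Finset.range n, Polynomial.monomial i (a i) + Polynomial.X ^ n, ?_, ?_⟩
  · rw [add_comm]
    apply Polynomial.monic_X_pow_add
    refine (Polynomial.degree_sum_le _ _).trans_lt ?_
    rw [Finset.sup_lt_iff (WithBot.bot_lt_coe _)]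
    intro i hi
    refine (Polynomial.degree_monomial_le _ _).trans_lt ?_
    exact WithBot.coe_lt_coe.mpr (Finset.mem_range.mp hi)
  · rw [Polynomial.eval₂_add, Polynomial.eval₂_finsetSum, Polynomial.eval₂_X_pow]
    simp only [Polynomial.eval₂_monomial]
    apply Subtype.ext
    funext x
    have h1 := hb2 x.1 x.2
    refine Eq.trans ?_ h1
    rw [add_comm]
    change ((𝓡.mkS m p hp ^ n : 𝓡.SS).1 x) + ((∑ i ∈ Finset.range n, (a i : 𝓡.SS) *
      𝓡.mkS m p hp ^ i : 𝓡.SS).1 x) = _
    congr 1
    rw [AddSubmonoidClass.coe_finsetSum, Finset.sum_apply]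
    refine Finset.sum_congr rfl fun i _ => ?_
    change eval x.1 (pull (b i)) / 𝓡.dsc x.1 ^ l * _ = _
    rw [eval_pull]
    rfl

theorem finite [IsAlgClosed k] [CharZero k] (he : 1 ≤ e) : Module.Finite 𝓡.RR 𝓡.SS := by
  have h1 := 𝓡.finiteType he
  have h2 := 𝓡.isIntegral he
  have h3 : Algebra.FiniteType 𝓡.RR 𝓡.SS := Algebra.FiniteType.of_restrictScalars_finiteType k _ _
  exact @Algebra.IsIntegral.finite 𝓡.RR 𝓡.SS _ _ _ h2 h3

end ResD

end

end Pool.Agent.Helper819.Gr
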