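import Pool.Agent.Helper819.Gr.M2
import Pool.Agent.Helper819.Gr.Field

/-!
Invariants of tuples separate the orbits of nonsingular forms.
-/

open MvPolynomial

namespace Pool.Agent.Helper819.Gr

open Pool.Agent.Helper819.Apolar Pool.Agent.Helper819.Dyn Pool.Agent.Helper819.Zar

noncomputable section

set_option linter.unusedSectionVars false

section gen

variable {k : Type} [Field k] [IsAlgClosed k] [CharZero k] {ι : Type} [Fintype ι]
  [DecidableEq ι] {n : ℕ} {σ : Type}

theorem orbit_of_closure (α : RAct ι n σ) {c0 c1 : σ → k}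
    (h : ∀ P : MvPolynomial σ k, aeval (orb α c0) P = 0 ↔ aeval (orb α c1) P = 0) :
    ∃ A : Mt ι n k, (∀ s, (A s).det ≠ 0) ∧ α.act A c0 = c1 := by
  let K := FractionRing (KJ ι n k)
  let u0 : MvPolynomial σ k →+* KJ ι n k := (aeval (orb α c0) : MvPolynomial σ k →ₐ[k] KJ ι n k)
  let u1 : MvPolynomial σ k →+* KJ ι n k := (aeval (orb α c1) : MvPolynomial σ k →ₐ[k] KJ ι n k)
  let I : Ideal (MvPolynomial σ k) := RingHom.ker u0
  have hI : I.IsPrime := RingHom.ker_isPrime u0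
  let R0 := MvPolynomial σ k ⧸ I
  let ψ0 : R0 →+* KJ ι n k := Ideal.Quotient.lift I u0 (fun a ha => ha)
  let ψ1 : R0 →+* KJ ι n k := Ideal.Quotient.lift I u1 (fun a ha => (h a).mp ha)
  have hψ0 : Function.Injective ψ0 := by
    rw [injective_iff_map_eq_zero]
    intro a ha
    obtain ⟨b, rfl⟩ := Ideal.Quotient.mk_surjective a
    exact Ideal.Quotient.eq_zero_iff_mem.mpr ha
  have hψ1 : Function.Injective ψ1 := by
    rw [injective_iff_map_eq_zero]
    intro a ha
    obtain ⟨b, rfl⟩ := Ideal.Quotient.mk_surjective a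
    exact Ideal.Quotient.eq_zero_iff_mem.mpr ((h b).mpr ha)
  let g0 : R0 →+* K := (algebraMap (KJ ι n k) K).comp ψ0
  let g1 : R0 →+* K := (algebraMap (KJ ι n k) K).comp ψ1
  have hg0 : Function.Injective g0 := (IsFractionRing.injective (KJ ι n k) K).comp hψ0
  have hg1 : Function.Injective g1 := (IsFractionRing.injective (KJ ι n k) K).comp hψ1
  let F := FractionRing R0
  let i : F →+* K := IsFractionRing.lift hg0
  let j : F →+* K := IsFractionRing.lift hg1
  have hi : ∀ x, i (algebraMap R0 F x) = g0 x := fun x => IsFractionRing.lift_algebraMap hg0 x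
  have hj : ∀ x, j (algebraMap R0 F x) = g1 x := fun x => IsFractionRing.lift_algebraMap hg1 x
  obtain ⟨Ω, _, _, s, t, hst⟩ := amalgam i j
  have hst' : ∀ P : MvPolynomial σ k, s (algebraMap (KJ ι n k) K (u0 P)) =
      t (algebraMap (KJ ι n k) K (u1 P)) := by
    intro P
    have h1 := hst (algebraMap R0 F (Ideal.Quotient.mk I P))
    rw [hi, hj] at h1
    exact h1
  let s' : KJ ι n k →+* Ω := s.comp (algebraMap (KJ ι n k) K)
  let t' : KJ ι n k →+* Ω := t.comp (algebraMap (KJ ι n k) K)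
  letI : Algebra k Ω := (s'.comp C).toAlgebra
  have hks : ∀ a : k, s' (C a) = algebraMap k Ω a := fun a => rfl
  have hkt : ∀ a : k, t' (C a) = algebraMap k Ω a := by
    intro a
    have h1 := hst' (C a)
    have h2 : u0 (C a) = C a := (aeval (orb α c0) : MvPolynomial σ k →ₐ[k] KJ ι n k).commutes a
    have h3 : u1 (C a) = C a := (aeval (orb α c1) : MvPolynomial σ k →ₐ[k] KJ ι n k).commutes a
    rw [h2, h3] at h1
    exact h1.symm
  let A0 : Mt ι n Ω := fun b => (gmat ι n k b).map s'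
  let A1 : Mt ι n Ω := fun b => (gmat ι n k b).map t'
  have hd0 : ∀ b, (A0 b).det ≠ 0 := by
    intro b h0
    apply gmat_det_ne (k := k) ι n b
    have h1 := RingHom.map_det s' (gmat ι n k b)
    have h2 : s' (gmat ι n k b).det = 0 := h1.trans h0
    have h3 : algebraMap (KJ ι n k) K (gmat ι n k b).det = 0 := (map_eq_zero s).mp h2
    rwa [FaithfulSMul.algebraMap_eq_zero_iff] at h3
  have hd1 : ∀ b, (A1 b).det ≠ 0 := by
    intro b h0
    apply gmat_det_ne (k := k) ι n b
    have h1 := RingHom.map_det t' (gmat ι n k b)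
    have h2 : t' (gmat ι n k b).det = 0 := h1.trans h0
    have h3 : algebraMap (KJ ι n k) K (gmat ι n k b).det = 0 := (map_eq_zero t).mp h2
    rwa [FaithfulSMul.algebraMap_eq_zero_iff] at h3
  have hact : α.act A0 (fun q => algebraMap k Ω (c0 q)) =
      α.act A1 (fun q => algebraMap k Ω (c1 q)) := by
    funext p
    have h1 := hst' (X p)
    have h2 : u0 (X p) = orb α c0 p := aeval_X _ _
    have h3 : u1 (X p) = orb α c1 p := aeval_X _ _
    rw [h2, h3] at h1
    change s' (orb α c0 p) = t' (orb α c1 p) at h1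
    unfold orb at h1
    rw [α.map_act, α.map_act] at h1
    simp only [hks, hkt] at h1
    exact h1
  let B : Mt ι n Ω := A0 * fun b => (A1 b)⁻¹
  have hB : α.act B (fun q => algebraMap k Ω (c0 q)) = fun q => algebraMap k Ω (c1 q) := by
    change α.act (A0 * _) _ = _
    rw [← α.act_act, hact, α.act_act, mul_inv_mt A1 hd1, α.act_one]
  have hdB : ∀ b, (B b).det ≠ 0 := by
    intro b
    change (A0 b * (A1 b)⁻¹).det ≠ 0
    rw [Matrix.det_mul]
    exact mul_ne_zero (hd0 b) (inv_det_ne A1 hd1 b)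
  obtain ⟨y, hy1, hy2⟩ := exists_point (k := k) (ent B) (dtw n k (fun _ => 1)) (by
    rw [aeval_dtw]
    exact detw_ne_zero _ _ hdB)
  obtain ⟨A, rfl⟩ := ent_surj y
  refine ⟨A, ?_, ?_⟩
  · intro b h0
    apply hy2
    rw [eval_dtw]
    unfold detw
    exact Finset.prod_eq_zero (Finset.mem_univ b) (by rw [h0, pow_one])
  · funext p
    have h1 := hy1 (orb α c0 p - C (c1 p)) (by
      rw [map_sub, aeval_orb, hB, algHom_C, sub_self])
    rw [map_sub, eval_orb, eval_C, sub_eq_zero] at h1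
    exact h1

theorem closure_trans (α : RAct ι n σ) {c0 c : σ → k}
    (h : ∀ P : MvPolynomial σ k, aeval (orb α c0) P = 0 → eval c P = 0) (P : MvPolynomial σ k)
    (hP : aeval (orb α c0) P = 0) : aeval (orb α c) P = 0 := by
  apply poly_ext
  intro A _
  rw [eval_aeval_orb, map_zero, ← eval_compT]
  apply h
  rw [← Rsub_aeval_orb, hP, map_zero]

end gen

variable {k : Type} [Field k] {N e : ℕ} (𝓡 : ResD k N e)

namespace ResD

/-- Semi-invariants of tuples separate orbits of gradients. -/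
theorem separate [IsAlgClosed k] [CharZero k] (he : 2 ≤ e) {c0 c1 : Ex N (e + 1) → k}
    (h0 : 𝓡.dsc c0 ≠ 0) (h1 : 𝓡.dsc c1 ≠ 0)
    (h : ∀ (l : ℕ) q, IsSemi (ZA N e).toRAct (l • 𝓡.r) q → eval (grad c0) q = 0 →
      eval (grad c1) q = 0) :
    ∃ A : Mt Bool (N + 1) k, (∀ s, (A s).det ≠ 0) ∧ (ZA N e).act A (grad c0) = grad c1 := by
  set α := (ZA N e).toRAct with hα
  let I0 : Ideal (MvPolynomial (Ix N e) k) := RingHom.ker (aeval (orb α (grad c0)))
  let I1 : Ideal (MvPolynomial (Ix N e) k) := RingHom.ker (aeval (orb α (grad c1)))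
  have hex : ∃ c : Ix N e → k, eval c 𝓡.D ≠ 0 ∧ ∀ P ∈ I0 ⊔ I1, eval c P = 0 := by
    by_contra hcon
    push Not at hcon
    have h2 : 𝓡.D ∈ (I0 ⊔ I1).radical := by
      rw [← vanishingIdeal_zeroLocus_eq_radical (K := k), mem_vanishingIdeal_iff]
      intro x hx
      by_contra hne
      rw [aeval_eq_eval_self] at hne
      obtain ⟨P, hP, hP2⟩ := hcon x hne
      apply hP2
      have := (mem_zeroLocus_iff.mp hx) P hP
      rwa [aeval_eq_eval_self] at this
    obtain ⟨l, hl⟩ := h2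
    obtain ⟨a, ha, b, hb, hab⟩ := Submodule.mem_sup.mp hl
    have h3 := congrArg (sharp α (l • 𝓡.r)) hab
    rw [sharp_add, sharp_semi _ (𝓡.semi.pow l)] at h3
    have h4 : ∀ (c : Ix N e → k) P, aeval (orb α c) P = 0 →
        eval c (sharp α (l • 𝓡.r) P) = 0 := by
      intro c P hP
      rw [eval_sharp, hP, rho_zero]
    have h5 := h l (sharp α (l • 𝓡.r) a) (isSemi_sharp _ _ _) (h4 _ _ ha)
    have h6 := h4 (grad c1) b hb
    have h7 := congrArg (eval (grad c1)) h3
    rw [map_add, h5, h6, add_zero, map_pow] at h7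
    exact pow_ne_zero l h1 h7.symm
  obtain ⟨c, hcD, hc⟩ := hex
  have hc0 : ∀ P, aeval (orb α (grad c0)) P = 0 → eval c P = 0 :=
    fun P hP => hc P (Submodule.mem_sup_left hP)
  have hc1 : ∀ P, aeval (orb α (grad c1)) P = 0 → eval c P = 0 :=
    fun P hP => hc P (Submodule.mem_sup_right hP)
  have e0 : ∀ P, aeval (orb α (grad c0)) P = 0 ↔ aeval (orb α c) P = 0 := fun P =>
    ⟨fun hP => closure_trans α hc0 P hP, fun hP => closure_trans α
      (kl he 𝓡.semi 𝓡.hr 𝓡.ext c0 h0 c hcD hc0) P hP⟩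
  have e1 : ∀ P, aeval (orb α (grad c1)) P = 0 ↔ aeval (orb α c) P = 0 := fun P =>
    ⟨fun hP => closure_trans α hc1 P hP, fun hP => closure_trans α
      (kl he 𝓡.semi 𝓡.hr 𝓡.ext c1 h1 c hcD hc1) P hP⟩
  exact orbit_of_closure α fun P => (e0 P).trans (e1 P).symm

theorem separate' [IsAlgClosed k] [CharZero k] (he : 2 ≤ e) {c0 c1 : Ex N (e + 1) → k}
    {bl : Fin (N + 1) → Fin (N + 1)} (hb : Blocks c0 bl)
    (h0 : 𝓡.dsc c0 ≠ 0) (h1 : 𝓡.dsc c1 ≠ 0)
    (h : ∀ (l : ℕ) q, IsSemi (ZA N e).toRAct (l • 𝓡.r) q → eval (grad c0) q = 0 →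
      eval (grad c1) q = 0) :
    ∃ g h : Matrix (Fin (N + 1)) (Fin (N + 1)) k, g * h = 1 ∧
      (XA N (e + 1)).act (diag g) c0 = c1 := by
  obtain ⟨A, hA, hact⟩ := 𝓡.separate he h0 h1 h
  obtain ⟨s, hs, hs1, _⟩ := hb.orbit c1 A hA hact
  refine ⟨_, _, Matrix.mul_nonsing_inv _ (isUnit_iff_ne_zero.mpr ?_), hs1⟩
  rw [Matrix.det_mul, Matrix.det_diagonal]
  exact mul_ne_zero (Finset.prod_ne_zero_iff.mpr fun i _ => hs _) (hA _)

end ResD

end

end Pool.Agent.Helper819.Gr
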