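import Pool.Agent.Helper819.Gr.M3

/-!
Leading forms and Krull's intersection theorem.
-/

open MvPolynomial

namespace Pool.Agent.Helper819.Gr

open Pool.Agent.Helper819.Apolar Pool.Agent.Helper819.Dyn Pool.Agent.Helper819.Zar

noncomputable section

set_option linter.unusedSectionVars false

section gen

variable {k : Type} [Field k] {σ : Type}

theorem aeval_homog_mem {R : Type} [CommRing R] [Algebra k R] (𝔫 : Ideal R) {Q : MvPolynomial σ k}
    {j : ℕ} (hQ : Q.IsHomogeneous j) (y : σ → R) (hy : ∀ p, y p ∈ 𝔫) : aeval y Q ∈ 𝔫 ^ j := by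
  classical
  rw [Q.as_sum, map_sum]
  refine Submodule.sum_mem _ fun m hm => ?_
  rw [aeval_monomial]
  apply Ideal.mul_mem_left
  have hdeg : ∑ i ∈ m.support, m i = j := by
    have : m.degree = j := by
      by_contra hne
      exact (mem_support_iff.mp hm) (hQ.coeff_eq_zero hne)
    rw [← this]
    rfl
  rw [← hdeg, ← Finset.prod_pow_eq_pow_sum]
  exact Ideal.prod_mem_prod fun i _ => Ideal.pow_mem_pow (hy i) _

theorem ord_mem_pow [Infinite k] {M : ℕ} {P : MvPolynomial σ k} {c : σ → k} (h : Ord M P c) :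
    P ∈ (RingHom.ker (eval c)) ^ M := by
  set 𝔫 := RingHom.ker (eval c) with h𝔫
  let y : σ → MvPolynomial σ k := fun p => X p - C (c p)
  have hy : ∀ p, y p ∈ 𝔫 := by
    intro p
    rw [h𝔫, RingHom.mem_ker]
    change eval c (X p - C (c p)) = 0
    rw [map_sub, eval_X, eval_C, sub_self]
  have h1 : (tayl (fun p => (C (c p) : MvPolynomial σ k)) y P).eval 1 = P := by
    rw [eval_tayl]
    have : (fun p => C (c p) + 1 * y p) = (X : σ → MvPolynomial σ k) := by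
      funext p
      change C (c p) + 1 * (X p - C (c p)) = X p
      ring
    rw [this]
    exact aeval_X_left_apply P
  have h2 : ∀ i, (tayl (fun p => (C (c p) : MvPolynomial σ k)) y P).coeff i =
      aeval y (lf i P c) := fun i => (aeval_lf i P c y).symm
  rw [← h1, Polynomial.eval_eq_sum_range]
  refine Submodule.sum_mem _ fun i _ => ?_
  rw [one_pow, mul_one, h2]
  by_cases hi : i < M
  · rw [h i hi, map_zero]
    exact Submodule.zero_mem _
  · exact Ideal.pow_le_pow_right (by omega) (aeval_homog_mem 𝔫 (lf_homog i P c) y hy)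

end gen

variable {k : Type} [Field k] {N e : ℕ}

theorem tayl_pull {R : Type} [CommRing R] [Algebra k R] (c v : Ex N (e + 1) → R)
    (q : MvPolynomial (Ix N e) k) : tayl c v (pull q) = tayl (grad c) (grad v) q := by
  unfold tayl
  rw [aeval_pull]
  congr 2
  have h1 : (fun p => Polynomial.C (c p) + Polynomial.X * Polynomial.C (v p)) =
      (fun p => Polynomial.C (c p)) + (Polynomial.X : Polynomial R) • (fun p => Polynomial.C (v p)) :=
    rfl
  rw [h1, grad_add, grad_smul]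
  funext p
  rw [Pi.add_apply, Pi.smul_apply, smul_eq_mul, map_grad Polynomial.C c p,
    map_grad Polynomial.C v p]

theorem eval_lf_pull (j : ℕ) (q : MvPolynomial (Ix N e) k) (c v : Ex N (e + 1) → k) :
    eval v (lf j (pull q) c) = eval (grad v) (lf j q (grad c)) := by
  rw [eval_lf, eval_lf, tayl_pull]

theorem Ord.pull [Infinite k] {j : ℕ} {q : MvPolynomial (Ix N e) k} {c : Ex N (e + 1) → k}
    (h : Ord j q (grad c)) : Ord j (pull q) c := by
  intro i hi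
  apply MvPolynomial.funext
  intro v
  rw [eval_lf_pull, h i hi, map_zero, map_zero]

variable (𝓡 : ResD k N e)

namespace ResD

/-- element of the subring -/
def mkR (l : ℕ) (q : MvPolynomial (Ix N e) k) (hq : IsSemi (ZA N e).toRAct (l • 𝓡.r) q) : 𝓡.RR :=
  ⟨𝓡.mkS l (pull q) (by rw [← wx_smul]; exact hq.pull), l, q, hq, rfl⟩

theorem sharp_mem [CharZero k] (𝔪 : Ideal 𝓡.RR) (p : MvPolynomial (Ex N (e + 1)) k) (m : ℕ)
    (hp : IsSemi (XA N (e + 1)).toRAct (m • wx 𝓡.r) p) (L : ℕ)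
    (hL : 𝓡.dX ^ L * p ∈ Ideal.span {P | ∃ l q, ∃ hq : IsSemi (ZA N e).toRAct (l • 𝓡.r) q,
      P = pull q ∧ 𝓡.mkR l q hq ∈ 𝔪}) :
    𝓡.mkS m p hp ∈ Ideal.map (algebraMap 𝓡.RR 𝓡.SS) 𝔪 := by
  obtain ⟨n, f, g, hfg⟩ := Submodule.mem_span_set'.mp hL
  have hg : ∀ i, ∃ l q, ∃ hq : IsSemi (ZA N e).toRAct (l • 𝓡.r) q,
      (g i).1 = pull q ∧ 𝓡.mkR l q hq ∈ 𝔪 := fun i => (g i).2
  choose l q hq hgq hm using hg
  set M := ∑ i, l i with hM
  have hlM : ∀ i, l i ≤ M := fun i =>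
    Finset.single_le_sum (f := l) (fun _ _ => Nat.zero_le _) (Finset.mem_univ i)
  set W := M + L + m with hW
  have hws : IsSemi (XA N (e + 1)).toRAct (W • wx 𝓡.r) (𝓡.dX ^ (M + L) * p) := by
    rw [hW, add_smul]
    exact (𝓡.dX_semi.pow _).mul hp
  have h1 : 𝓡.dX ^ (M + L) * p = ∑ i, (𝓡.dX ^ M * f i) * pull (q i) := by
    rw [pow_add, mul_assoc, ← hfg, Finset.mul_sum]
    refine Finset.sum_congr rfl fun i _ => ?_
    rw [smul_eq_mul, hgq, mul_assoc]
  have h2 : 𝓡.dX ^ (M + L) * p = ∑ i,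
      sharp (XA N (e + 1)).toRAct ((W - l i) • wx 𝓡.r) (𝓡.dX ^ M * f i) * pull (q i) := by
    have h3 := congrArg (sharp (XA N (e + 1)).toRAct (W • wx 𝓡.r)) h1
    rw [sharp_semi _ hws, sharp_sum] at h3
    rw [h3]
    refine Finset.sum_congr rfl fun i _ => ?_
    have h4 : W • wx 𝓡.r = (W - l i) • wx 𝓡.r + l i • wx 𝓡.r := by
      rw [← add_smul, Nat.sub_add_cancel (by have := hlM i; omega)]
    conv_lhs => rw [h4]
    apply sharp_mul_semi
    rw [← wx_smul]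
    exact (hq i).pull
  have h5 : 𝓡.mkS m p hp = ∑ i, 𝓡.mkS (W - l i)
      (sharp (XA N (e + 1)).toRAct ((W - l i) • wx 𝓡.r) (𝓡.dX ^ M * f i)) (isSemi_sharp _ _ _) *
        algebraMap 𝓡.RR 𝓡.SS (𝓡.mkR (l i) (q i) (hq i)) := by
    apply Subtype.ext
    rw [AddSubmonoidClass.coe_finsetSum]
    funext x
    rw [Finset.sum_apply]
    change 𝓡.fr m p x = _
    rw [← 𝓡.fr_shift m (M + L) p]
    change eval x.1 (𝓡.dX ^ (M + L) * p) / 𝓡.dsc x.1 ^ W = _
    rw [h2, map_sum, Finset.sum_div]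
    refine Finset.sum_congr rfl fun i _ => ?_
    change _ = (𝓡.fr (W - l i) _ * 𝓡.fr (l i) (pull (q i))) x
    rw [fr_mul, Nat.sub_add_cancel (by have := hlM i; omega)]
    rfl
  rw [h5]
  refine Submodule.sum_mem _ fun i _ => ?_
  apply Ideal.mul_mem_left
  exact Ideal.mem_map_of_mem _ (hm i)

/-- The improvement step. -/
theorem step [IsAlgClosed k] [CharZero k] (he : 2 ≤ e) {f0 : Ex N (e + 1) → k}
    {bl : Fin (N + 1) → Fin (N + 1)} (hb : Blocks f0 bl) (h0 : 𝓡.dsc f0 ≠ 0) (m : ℕ)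
    (p : MvPolynomial (Ex N (e + 1)) k) (hp : IsSemi (XA N (e + 1)).toRAct (m • wx 𝓡.r) p)
    (j : ℕ) (hj : 1 ≤ j) (hord : Ord j p f0) :
    ∃ (l : ℕ) (q : MvPolynomial (Ix N e) k), IsSemi (ZA N e).toRAct (l • 𝓡.r) q ∧
      eval (grad f0) q = 0 ∧ Ord (j + 1) (𝓡.dX ^ l * p - 𝓡.dX ^ m * pull q) f0 := by
  have hNZ := 𝓡.NZ_of_dsc h0
  set L := lf j p f0 with hL
  obtain ⟨Q, hQ1, hQ2, hQ3, hQ4⟩ := hb.lift he hNZ (C (𝓡.dsc f0 ^ m)⁻¹ * L) j
    ((lf_homog j p f0).C_mul _) (by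
      intro Y v
      rw [map_mul, map_mul, eval_C, eval_C, hL, lf_xi hp hord]) (by
      intro g h hgh hfix v
      rw [map_mul, map_mul, eval_C, eval_C, hL, lf_stab hp j hfix]
      have h1 := 𝓡.dX_semi (diag g) f0
      rw [hfix, eval_dX] at h1
      have h2 : detw (wx 𝓡.r) (diag g) = 1 := by
        apply mul_right_cancel₀ h0
        rw [← h1, one_mul]
      rw [detw_smul, h2, one_pow, one_mul])
  obtain ⟨l, q, hq, hqO, hqL⟩ := exists_lead (ZA N e) (grad f0) 𝓡.semi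
    (fun c hc h P hP => kl he 𝓡.semi 𝓡.hr 𝓡.ext f0 h0 c hc h P hP) j Q hQ1 hQ2 hQ3
  refine ⟨l, q, hq, ?_, ?_⟩
  · have h1 := eval_lf 0 q (grad f0) 0
    rw [hqO 0 (by omega), map_zero, tayl_coeff_zero, aeval_eq_eval_self] at h1
    exact h1.symm
  · intro i hi
    rcases Nat.lt_succ_iff_lt_or_eq.mp hi with hi' | rfl
    · exact ((hord.mul_left _).sub (hqO.pull.mul_left _)) i hi'
    · apply MvPolynomial.funext
      intro v
      rw [lf_sub, lf_mul_left hord, lf_mul_left hqO.pull, map_sub, map_mul, map_mul, eval_C,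
        eval_C, eval_lf_pull, hqL, hQ4, map_mul, eval_C, map_pow, map_pow, eval_dX, map_zero]
      change 𝓡.dsc f0 ^ l * eval v (lf i p f0) - 𝓡.dsc f0 ^ m * (𝓡.dsc f0 ^ l *
        ((𝓡.dsc f0 ^ m)⁻¹ * eval v (lf i p f0))) = 0
      have h2 : 𝓡.dsc f0 ^ m * (𝓡.dsc f0 ^ m)⁻¹ = 1 := mul_inv_cancel₀ (pow_ne_zero _ h0)
      linear_combination (-(𝓡.dsc f0 ^ l * eval v (lf i p f0))) * h2

/-- the ideal generated by invariants of tuples vanishing at the gradient -/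
def ai (f0 : Ex N (e + 1) → k) : Ideal (MvPolynomial (Ex N (e + 1)) k) :=
  Ideal.span {P | ∃ (l : ℕ) (q : MvPolynomial (Ix N e) k), IsSemi (ZA N e).toRAct (l • 𝓡.r) q ∧
    P = pull q ∧ eval (grad f0) q = 0}

theorem approx [IsAlgClosed k] [CharZero k] (he : 2 ≤ e) {f0 : Ex N (e + 1) → k}
    {bl : Fin (N + 1) → Fin (N + 1)} (hb : Blocks f0 bl) (h0 : 𝓡.dsc f0 ≠ 0) (m : ℕ)
    (p : MvPolynomial (Ex N (e + 1)) k) (hp : IsSemi (XA N (e + 1)).toRAct (m • wx 𝓡.r) p)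
    (hp0 : eval f0 p = 0) (M : ℕ) :
    ∃ (L : ℕ) (a p' : MvPolynomial (Ex N (e + 1)) k), a ∈ 𝓡.ai f0 ∧
      IsSemi (XA N (e + 1)).toRAct ((L + m) • wx 𝓡.r) p' ∧ Ord (M + 1) p' f0 ∧
      𝓡.dX ^ L * p = a + p' := by
  induction M with
  | zero =>
    refine ⟨0, 0, p, Submodule.zero_mem _, by rwa [zero_add], ?_, by rw [pow_zero]; ring⟩
    intro i hi
    have hi0 : i = 0 := by omega
    subst hi0
    apply MvPolynomial.funext
    intro v
    rw [eval_lf, tayl_coeff_zero, aeval_eq_eval_self, hp0, map_zero]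
  | succ M ih =>
    obtain ⟨L, a, p', ha, hp', hord, heq⟩ := ih
    obtain ⟨l, q, hq, hq0, hord'⟩ := 𝓡.step he hb h0 (L + m) p' hp' (M + 1) (by omega) hord
    refine ⟨l + L, 𝓡.dX ^ l * a + 𝓡.dX ^ (L + m) * pull q,
      𝓡.dX ^ l * p' - 𝓡.dX ^ (L + m) * pull q, ?_, ?_, hord', ?_⟩
    · apply Submodule.add_mem
      · exact Ideal.mul_mem_left _ _ ha
      · exact Ideal.mul_mem_left _ _ (Ideal.subset_span ⟨l, q, hq, rfl, hq0⟩)
    · apply IsSemi.sub
      · have : (l + L + m) • wx 𝓡.r = l • wx 𝓡.r + (L + m) • wx 𝓡.r := by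
          rw [← add_smul, add_assoc]
        rw [this]
        exact (𝓡.dX_semi.pow l).mul hp'
      · have : (l + L + m) • wx 𝓡.r = (L + m) • wx 𝓡.r + l • wx 𝓡.r := by
          rw [← add_smul, add_assoc, add_comm]
        rw [this]
        refine (𝓡.dX_semi.pow _).mul ?_
        rw [← wx_smul]
        exact hq.pull
    · rw [pow_add, mul_assoc, heq]
      ring

theorem krull_step [IsAlgClosed k] [CharZero k] (he : 2 ≤ e) {f0 : Ex N (e + 1) → k}
    {bl : Fin (N + 1) → Fin (N + 1)} (hb : Blocks f0 bl) (h0 : 𝓡.dsc f0 ≠ 0) (m : ℕ)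
    (p : MvPolynomial (Ex N (e + 1)) k) (hp : IsSemi (XA N (e + 1)).toRAct (m • wx 𝓡.r) p)
    (hp0 : eval f0 p = 0) : ∃ a, eval f0 a ≠ 0 ∧ a * p ∈ 𝓡.ai f0 := by
  set 𝔞 := 𝓡.ai f0 with h𝔞
  set 𝔫 : Ideal (MvPolynomial (Ex N (e + 1)) k) := RingHom.ker (eval f0) with h𝔫
  have h𝔫max : 𝔫.IsMaximal := RingHom.ker_isMaximal_of_surjective (eval f0)
    (fun a => ⟨C a, eval_C a⟩)
  let q𝔞 := Ideal.Quotient.mk 𝔞
  let 𝔫1 : Ideal (MvPolynomial (Ex N (e + 1)) k ⧸ 𝔞) := 𝔫.map q𝔞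
  have hmem : ∀ M, p ∈ 𝔞 ⊔ 𝔫 ^ M := by
    intro M
    obtain ⟨L, a, p', ha, hp', hord, heq⟩ := 𝓡.approx he hb h0 m p hp hp0 M
    have hp'n : p' ∈ 𝔫 ^ M := Ideal.pow_le_pow_right (Nat.le_succ M) (ord_mem_pow hord)
    have hcop : 𝔫 ^ M ⊔ Ideal.span {𝓡.dX ^ L} = ⊤ := by
      apply Ideal.pow_sup_eq_top
      rw [Ideal.eq_top_iff_one]
      by_contra hcon
      have h1 : 𝔫 = 𝔫 ⊔ Ideal.span {𝓡.dX ^ L} := h𝔫max.eq_of_le
        (fun h => hcon (by rw [h]; trivial)) le_sup_left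
      have h2 : 𝓡.dX ^ L ∈ 𝔫 := by
        rw [h1]
        exact Submodule.mem_sup_right (Ideal.subset_span rfl)
      rw [h𝔫, RingHom.mem_ker, map_pow, eval_dX] at h2
      exact pow_ne_zero L h0 h2
    have h1 : (1 : MvPolynomial (Ex N (e + 1)) k) ∈ 𝔫 ^ M ⊔ Ideal.span {𝓡.dX ^ L} := by
      rw [hcop]; trivial
    obtain ⟨n, hn, u', hu', hnu⟩ := Submodule.mem_sup.mp h1
    obtain ⟨u, rfl⟩ := Ideal.mem_span_singleton'.mp hu'
    have h2 : p = u * a + (n * p + u * p') := by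
      have : p = (n + u * 𝓡.dX ^ L) * p := by rw [hnu, one_mul]
      conv_lhs => rw [this]
      rw [add_mul, mul_assoc, heq]
      ring
    rw [h2]
    exact Submodule.add_mem_sup (Ideal.mul_mem_left _ _ ha)
      (Submodule.add_mem _ (Ideal.mul_mem_right _ _ hn) (Ideal.mul_mem_left _ _ hp'n))
  have hiInf : q𝔞 p ∈ (⨅ i : ℕ, 𝔫1 ^ i • ⊤ :
      Submodule (MvPolynomial (Ex N (e + 1)) k ⧸ 𝔞) (MvPolynomial (Ex N (e + 1)) k ⧸ 𝔞)) := by
    rw [Submodule.mem_iInf]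
    intro M
    rw [smul_eq_mul, Ideal.mul_top]
    change _ ∈ (𝔫.map q𝔞) ^ M
    rw [← Ideal.map_pow]
    obtain ⟨a, ha, b, hb', hab⟩ := Submodule.mem_sup.mp (hmem M)
    rw [← hab, map_add, Ideal.Quotient.eq_zero_iff_mem.mpr ha, zero_add]
    exact Ideal.mem_map_of_mem _ hb'
  obtain ⟨r, hr⟩ := (Ideal.mem_iInf_smul_pow_eq_bot_iff 𝔫1 (q𝔞 p)).mp hiInf
  obtain ⟨n', hn', hn2⟩ := (Ideal.mem_map_iff_of_surjective q𝔞
    Ideal.Quotient.mk_surjective).mp r.2
  refine ⟨1 - n', ?_, ?_⟩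
  · rw [map_sub, map_one, (RingHom.mem_ker).mp hn', sub_zero]
    exact one_ne_zero
  · rw [← Ideal.Quotient.eq_zero_iff_mem, map_mul, map_sub, map_one]
    change (1 - q𝔞 n') * q𝔞 p = 0
    rw [hn2, sub_mul, one_mul]
    rw [smul_eq_mul] at hr
    rw [hr, sub_self]

theorem main_mem [IsAlgClosed k] [CharZero k] (he : 2 ≤ e) {f0 : Ex N (e + 1) → k}
    {bl : Fin (N + 1) → Fin (N + 1)} (hb : Blocks f0 bl) (h0 : 𝓡.dsc f0 ≠ 0) (m : ℕ)
    (p : MvPolynomial (Ex N (e + 1)) k) (hp : IsSemi (XA N (e + 1)).toRAct (m • wx 𝓡.r) p)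
    (hp0 : eval f0 p = 0) : ∃ L, 𝓡.dX ^ L * p ∈ 𝓡.ai f0 := by
  obtain ⟨a, ha, hap⟩ := 𝓡.krull_step he hb h0 m p hp hp0
  let J : Ideal (MvPolynomial (Ex N (e + 1)) k) :=
    { carrier := {c | c * p ∈ 𝓡.ai f0}
      add_mem' := by
        intro x y hx hy
        change (x + y) * p ∈ 𝓡.ai f0
        rw [add_mul]
        exact Submodule.add_mem _ hx hy
      zero_mem' := by
        change 0 * p ∈ 𝓡.ai f0
        rw [zero_mul]
        exact Submodule.zero_mem _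
      smul_mem' := by
        intro x y hy
        change (x * y) * p ∈ 𝓡.ai f0
        rw [mul_assoc]
        exact Ideal.mul_mem_left _ _ hy }
  have hstab : ∀ (A : Mt Bool (N + 1) k), (∀ s, (A s).det ≠ 0) → ∀ x ∈ 𝓡.ai f0,
      compT (XA N (e + 1)).toRAct A x ∈ 𝓡.ai f0 := by
    intro A hA x hx
    have hinf : Infinite k := IsAlgClosed.instInfinite
    have hle : 𝓡.ai f0 ≤ (𝓡.ai f0).comap
        (compT (XA N (e + 1)).toRAct A : MvPolynomial (Ex N (e + 1)) k →ₐ[k] _) := by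
      unfold ai
      rw [Ideal.span_le]
      rintro _ ⟨l, q, hq, rfl, hq0⟩
      change compT (XA N (e + 1)).toRAct A (pull q) ∈ 𝓡.ai f0
      have h1 : compT (XA N (e + 1)).toRAct A (pull q) =
          C (detw (wx (l • 𝓡.r)) A) * pull q := by
        apply MvPolynomial.funext
        intro c
        rw [eval_compT, hq.pull A c, map_mul, eval_C]
      rw [h1]
      exact Ideal.mul_mem_left _ _ (Ideal.subset_span ⟨l, q, hq, rfl, hq0⟩)
    exact hle hx
  have hrad : 𝓡.dX ∈ J.radical := by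
    rw [← vanishingIdeal_zeroLocus_eq_radical (K := k), mem_vanishingIdeal_iff]
    intro c1 hc1
    by_contra hne
    rw [aeval_eq_eval_self, eval_dX] at hne
    have hz : ∀ x ∈ J, eval c1 x = 0 := by
      intro x hx
      have := (mem_zeroLocus_iff.mp hc1) x hx
      rwa [aeval_eq_eval_self] at this
    obtain ⟨g, h, hgh, hact⟩ := 𝓡.separate' he hb h0 hne (by
      intro l q hq hq0
      rw [← eval_pull]
      apply hz
      change pull q * p ∈ 𝓡.ai f0
      exact Ideal.mul_mem_right _ _ (Ideal.subset_span ⟨l, q, hq, rfl, hq0⟩))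
    have hinf : Infinite k := IsAlgClosed.instInfinite
    have hdh : ∀ s, (diag h s).det ≠ 0 := by
      intro s h2
      have h3 := congrArg Matrix.det hgh
      rw [Matrix.det_mul, Matrix.det_one] at h3
      have h4 : h.det = 0 := h2
      rw [h4, mul_zero] at h3
      exact zero_ne_one h3
    have h5 := hstab (diag h) hdh _ hap
    rw [map_mul] at h5
    have h6 : compT (XA N (e + 1)).toRAct (diag h) p = C (detw (m • wx 𝓡.r) (diag h)) * p := by
      apply MvPolynomial.funext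
      intro c
      rw [eval_compT, hp (diag h) c, map_mul, eval_C]
    rw [h6] at h5
    have h7 : compT (XA N (e + 1)).toRAct (diag h) a ∈ J := by
      change _ * p ∈ 𝓡.ai f0
      have h8 := Ideal.mul_mem_left _ (C (detw (m • wx 𝓡.r) (diag h))⁻¹) h5
      have h9 : (C (detw (m • wx 𝓡.r) (diag h))⁻¹ * (compT (XA N (e + 1)).toRAct (diag h) a *
          (C (detw (m • wx 𝓡.r) (diag h)) * p)) : MvPolynomial (Ex N (e + 1)) k) =
          compT (XA N (e + 1)).toRAct (diag h) a * p := by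
        have h10 : (C (detw (m • wx 𝓡.r) (diag h))⁻¹ * C (detw (m • wx 𝓡.r) (diag h)) :
            MvPolynomial (Ex N (e + 1)) k) = 1 := by
          rw [← C_mul, inv_mul_cancel₀ (detw_ne_zero _ _ hdh), C_1]
        linear_combination (compT (XA N (e + 1)).toRAct (diag h) a * p) * h10
      rwa [h9] at h8
    have h8 := hz _ h7
    rw [eval_compT, ← hact] at h8
    have h9 := act_diag_inv_X hgh f0
    rw [h9] at h8
    exact ha h8
  obtain ⟨L, hL⟩ := hrad
  exact ⟨L, hL⟩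

end ResD

end

end Pool.Agent.Helper819.Gr
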