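import Pool.Agent.Helper819.Gr.M4

/-!
The pull back along the gradient map is surjective on invariants.
-/

open MvPolynomial

namespace Pool.Agent.Helper819.Gr

open Pool.Agent.Helper819.Apolar Pool.Agent.Helper819.Dyn Pool.Agent.Helper819.Zar

noncomputable section

set_option linter.unusedSectionVars false

section abs

variable {R S : Type} [CommRing R] [CommRing S] [Algebra R S]

theorem map_ne_top_of_integral [Algebra.IsIntegral R S]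
    (hinj : Function.Injective (algebraMap R S)) (𝔪 : Ideal R) (h𝔪 : 𝔪.IsMaximal) :
    Ideal.map (algebraMap R S) 𝔪 ≠ ⊤ := by
  obtain ⟨Q, hQ, hQ2⟩ := Ideal.exists_ideal_over_maximal_of_isIntegral (S := S) 𝔪 (by
    rw [(RingHom.injective_iff_ker_eq_bot _).mp hinj]
    exact bot_le)
  intro htop
  apply hQ.ne_top
  rw [eq_top_iff, ← htop, Ideal.map_le_iff_le_comap, hQ2]

theorem surj_of_local [Module.Finite R S]
    (h : ∀ 𝔪 : Ideal R, 𝔪.IsMaximal → ∀ s : S, ∃ r : R,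
      s - algebraMap R S r ∈ Ideal.map (algebraMap R S) 𝔪) :
    Function.Surjective (algebraMap R S) := by
  let R1 : Submodule R S := LinearMap.range (Algebra.linearMap R S)
  let Q := S ⧸ R1
  have hann : Module.annihilator R Q = ⊤ := by
    by_contra hne
    obtain ⟨𝔪, h𝔪, hle⟩ := Ideal.exists_le_maximal _ hne
    have hQ : (⊤ : Submodule R Q) ≤ 𝔪 • (⊤ : Submodule R Q) := by
      rintro x _
      obtain ⟨s, rfl⟩ := Submodule.mkQ_surjective R1 x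
      obtain ⟨r, hr⟩ := h 𝔪 h𝔪 s
      have h1 : R1.mkQ s = R1.mkQ (s - algebraMap R S r) := by
        rw [map_sub]
        have h2 : R1.mkQ (algebraMap R S r) = 0 :=
          (Submodule.Quotient.mk_eq_zero R1).mpr ⟨r, rfl⟩
        rw [h2, sub_zero]
      rw [h1]
      have h3 : s - algebraMap R S r ∈ 𝔪 • (⊤ : Submodule R S) := by
        rw [Ideal.smul_top_eq_map]
        exact hr
      have h4 := Submodule.mem_map_of_mem (f := R1.mkQ) h3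
      rw [Submodule.map_smul''] at h4
      exact Submodule.smul_mono le_rfl le_top h4
    obtain ⟨r, hr1, hr2⟩ := Submodule.exists_sub_one_mem_and_smul_eq_zero_of_fg_of_le_smul 𝔪
      (⊤ : Submodule R Q) Module.Finite.fg_top hQ
    have h5 : r ∈ 𝔪 := hle (Module.mem_annihilator.mpr fun x => hr2 x trivial)
    apply h𝔪.ne_top
    rw [Ideal.eq_top_iff_one]
    have h6 : (1 : R) = r - (r - 1) := by ring
    rw [h6]
    exact Submodule.sub_mem _ h5 hr1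
  intro s
  have h1 : (1 : R) ∈ Module.annihilator R Q := by rw [hann]; trivial
  have h2 := Module.mem_annihilator.mp h1 (R1.mkQ s)
  rw [one_smul] at h2
  obtain ⟨r, hr⟩ := (Submodule.Quotient.mk_eq_zero R1).mp h2
  exact ⟨r, hr⟩

theorem maximal_eval {K : Type} [Field K] (φ : R →+* K) (𝔪 : Ideal R) (h𝔪 : 𝔪.IsMaximal)
    (h : ∀ r ∈ 𝔪, φ r = 0) (r : R) : r ∈ 𝔪 ↔ φ r = 0 := by
  have h1 : 𝔪 = RingHom.ker φ := h𝔪.eq_of_le (RingHom.ker_ne_top φ) h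
  rw [h1]
  rfl

end abs

variable {k : Type} [Field k] {N e : ℕ} (𝓡 : ResD k N e)

namespace ResD

theorem mem_RR (r : 𝓡.RR) : ∃ l q, ∃ hq : IsSemi (ZA N e).toRAct (l • 𝓡.r) q,
    r = 𝓡.mkR l q hq := by
  obtain ⟨l, q, hq, h1⟩ := r.2
  exact ⟨l, q, hq, Subtype.ext (Subtype.ext h1)⟩

/-- evaluation -/
def evR (x : 𝓡.Xs) : 𝓡.RR →+* k where
  toFun r := r.1.1 x
  map_one' := rfl
  map_mul' _ _ := rfl
  map_zero' := rfl
  map_add' _ _ := rfl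

theorem exists_center [IsAlgClosed k] [CharZero k] (he : 2 ≤ e) (𝔪 : Ideal 𝓡.RR)
    (h𝔪 : 𝔪.IsMaximal) :
    ∃ (f0 : Ex N (e + 1) → k) (bl : Fin (N + 1) → Fin (N + 1)) (_ : Blocks f0 bl)
      (_ : 𝓡.dsc f0 ≠ 0), ∀ l q (hq : IsSemi (ZA N e).toRAct (l • 𝓡.r) q),
        𝓡.mkR l q hq ∈ 𝔪 ↔ eval (grad f0) q = 0 := by
  have hint := 𝓡.isIntegral (by omega)
  have hinj : Function.Injective (algebraMap 𝓡.RR 𝓡.SS) := Subtype.val_injective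
  have hmap : Ideal.map (algebraMap 𝓡.RR 𝓡.SS) 𝔪 ≠ ⊤ :=
    @map_ne_top_of_integral 𝓡.RR 𝓡.SS _ _ _ hint hinj 𝔪 h𝔪
  set 𝔟 : Ideal (MvPolynomial (Ex N (e + 1)) k) := Ideal.span
    {P | ∃ l q, ∃ hq : IsSemi (ZA N e).toRAct (l • 𝓡.r) q,
      P = pull q ∧ 𝓡.mkR l q hq ∈ 𝔪} with h𝔟
  have hnot : ¬ 𝓡.dX ∈ 𝔟.radical := by
    rintro ⟨L, hL⟩
    have h1 : IsSemi (XA N (e + 1)).toRAct (0 • wx 𝓡.r) (1 : MvPolynomial (Ex N (e + 1)) k) := by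
      rw [zero_smul]
      exact IsSemi.one
    have h2 := 𝓡.sharp_mem 𝔪 1 0 h1 L (by rw [mul_one]; exact hL)
    apply hmap
    rw [Ideal.eq_top_iff_one]
    have h3 : 𝓡.mkS 0 1 h1 = 1 := by
      apply Subtype.ext
      funext x
      change eval x.1 1 / 𝓡.dsc x.1 ^ 0 = 1
      rw [map_one, pow_zero, div_one]
    rwa [h3] at h2
  rw [← vanishingIdeal_zeroLocus_eq_radical (K := k), mem_vanishingIdeal_iff] at hnot
  push Not at hnot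
  obtain ⟨c1, hc1, hne⟩ := hnot
  rw [aeval_eq_eval_self, eval_dX] at hne
  obtain ⟨g, h, hgh, bl, hb⟩ := exists_blocks he c1 (𝓡.NZ_of_dsc hne)
  set f0 := (XA N (e + 1)).act (diag g) c1 with hf0
  have hdg : ∀ s, (diag g s).det ≠ 0 := by
    intro s h2
    have h3 := congrArg Matrix.det hgh
    rw [Matrix.det_mul, Matrix.det_one] at h3
    have h4 : g.det = 0 := h2
    rw [h4, zero_mul] at h3
    exact zero_ne_one h3
  have hf00 : 𝓡.dsc f0 ≠ 0 := by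
    have h1 := 𝓡.dX_semi (diag g) c1
    rw [eval_dX, eval_dX] at h1
    rw [hf0, h1]
    exact mul_ne_zero (detw_ne_zero _ _ hdg) hne
  have hz : ∀ l q (hq : IsSemi (ZA N e).toRAct (l • 𝓡.r) q),
        𝓡.mkR l q hq ∈ 𝔪 → eval (grad f0) q = 0 := by
    intro l q hq hm
    have h1 := (mem_zeroLocus_iff.mp hc1) (pull q) (Ideal.subset_span ⟨l, q, hq, rfl, hm⟩)
    rw [aeval_eq_eval_self] at h1
    rw [← eval_pull, hf0, hq.pull (diag g) c1, h1, mul_zero]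
  have hle : ∀ r ∈ 𝔪, 𝓡.evR ⟨f0, hf00⟩ r = 0 := by
    intro r hr
    obtain ⟨l', q', hq', rfl⟩ := 𝓡.mem_RR r
    change eval f0 (pull q') / 𝓡.dsc f0 ^ l' = 0
    rw [eval_pull, hz l' q' hq' hr, zero_div]
  have hiff := @maximal_eval 𝓡.RR _ k _ (𝓡.evR ⟨f0, hf00⟩) 𝔪 h𝔪 hle
  refine ⟨f0, bl, hb, hf00, fun l q hq => ⟨hz l q hq, fun h0 => ?_⟩⟩
  rw [hiff]
  change eval f0 (pull q) / 𝓡.dsc f0 ^ l = 0
  rw [eval_pull, h0, zero_div]

theorem decomp [IsAlgClosed k] [CharZero k] (he : 2 ≤ e) (𝔪 : Ideal 𝓡.RR)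
    (h𝔪 : 𝔪.IsMaximal) (s : 𝓡.SS) :
    ∃ r : 𝓡.RR, s - algebraMap 𝓡.RR 𝓡.SS r ∈ Ideal.map (algebraMap 𝓡.RR 𝓡.SS) 𝔪 := by
  obtain ⟨f0, bl, hb, hf00, hiff⟩ := 𝓡.exists_center he 𝔪 h𝔪
  obtain ⟨m, p, hp, rfl⟩ := 𝓡.mem_SS s
  set a := eval f0 p / 𝓡.dsc f0 ^ m with ha
  have hp' : IsSemi (XA N (e + 1)).toRAct (m • wx 𝓡.r) (p - C a * 𝓡.dX ^ m) :=
    hp.sub ((𝓡.dX_semi.pow m).C_mul a)
  have hp0 : eval f0 (p - C a * 𝓡.dX ^ m) = 0 := by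
    rw [map_sub, map_mul, eval_C, map_pow, eval_dX, ha, div_mul_cancel₀ _ (pow_ne_zero _ hf00),
      sub_self]
  obtain ⟨L, hL⟩ := 𝓡.main_mem he hb hf00 m _ hp' hp0
  have hle : 𝓡.ai f0 ≤ Ideal.span {P | ∃ l q, ∃ hq : IsSemi (ZA N e).toRAct (l • 𝓡.r) q,
      P = pull q ∧ 𝓡.mkR l q hq ∈ 𝔪} := by
    unfold ai
    apply Ideal.span_mono
    rintro _ ⟨l, q, hq, rfl, hq0⟩
    exact ⟨l, q, hq, rfl, (hiff l q hq).mpr hq0⟩
  have h1 := 𝓡.sharp_mem 𝔪 _ m hp' L (hle hL)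
  let ra : 𝓡.RR := ⟨algebraMap k 𝓡.SS a, 𝓡.RR.algebraMap_mem a⟩
  refine ⟨ra, ?_⟩
  have h2 : 𝓡.mkS m p hp - algebraMap 𝓡.RR 𝓡.SS ra =
      𝓡.mkS m (p - C a * 𝓡.dX ^ m) hp' := by
    apply Subtype.ext
    funext x
    change eval x.1 p / 𝓡.dsc x.1 ^ m - a = eval x.1 (p - C a * 𝓡.dX ^ m) / 𝓡.dsc x.1 ^ m
    rw [map_sub, map_mul, eval_C, map_pow, eval_dX, sub_div,
      mul_div_cancel_right₀ _ (pow_ne_zero _ x.2)]
  rw [h2]
  exact h1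

theorem surj_of_decomp (hfin : Module.Finite 𝓡.RR 𝓡.SS)
    (h : ∀ 𝔪 : Ideal 𝓡.RR, 𝔪.IsMaximal → ∀ s : 𝓡.SS, ∃ r : 𝓡.RR,
      s - algebraMap 𝓡.RR 𝓡.SS r ∈ Ideal.map (algebraMap 𝓡.RR 𝓡.SS) 𝔪) :
    Function.Surjective (algebraMap 𝓡.RR 𝓡.SS) :=
  @surj_of_local 𝓡.RR 𝓡.SS _ _ _ hfin h

theorem top_of_surj (h : Function.Surjective (algebraMap 𝓡.RR 𝓡.SS)) : 𝓡.RR = ⊤ := by
  rw [eq_top_iff]
  intro s _
  obtain ⟨r, hr⟩ := h s
  rw [← hr]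
  exact r.2

theorem surj_alg [IsAlgClosed k] [CharZero k] (he : 2 ≤ e) :
    Function.Surjective (algebraMap 𝓡.RR 𝓡.SS) :=
  𝓡.surj_of_decomp (𝓡.finite (by omega)) (𝓡.decomp he)

/-- Every invariant of nonsingular forms comes from an invariant of tuples. -/
theorem RR_eq_top [IsAlgClosed k] [CharZero k] (he : 2 ≤ e) : 𝓡.RR = ⊤ :=
  𝓡.top_of_surj (𝓡.surj_alg he)

/-- Surjectivity, concretely. -/
theorem exists_tuple_invariant [IsAlgClosed k] [CharZero k] (he : 2 ≤ e) (m : ℕ)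
    (p : MvPolynomial (Ex N (e + 1)) k) (hp : IsSemi (XA N (e + 1)).toRAct (m • wx 𝓡.r) p) :
    ∃ (l : ℕ) (q : MvPolynomial (Ix N e) k), IsSemi (ZA N e).toRAct (l • 𝓡.r) q ∧
      ∀ c, 𝓡.dsc c ≠ 0 → eval c p / 𝓡.dsc c ^ m = eval (grad c) q / 𝓡.dsc c ^ l := by
  have h1 : 𝓡.mkS m p hp ∈ 𝓡.RR := by rw [𝓡.RR_eq_top he]; trivial
  obtain ⟨l, q, hq, h2⟩ := h1
  refine ⟨l, q, hq, fun c hc => ?_⟩
  have h3 := congrFun h2 ⟨c, hc⟩
  change eval c p / 𝓡.dsc c ^ m = eval c (pull q) / 𝓡.dsc c ^ l at h3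
  rw [h3, eval_pull]

end ResD

end

end Pool.Agent.Helper819.Gr
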