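import Pool.Agent.Helper819.Gr.Defs2
import Pool.Agent.Helper819.Gr.M5

/-!
Comparison of the rings of invariant regular functions with the algebraic model: forms.
-/

open MvPolynomial

namespace Pool.Agent.Helper819.GradMap

open Pool.Agent.Helper819.Gr Pool.Agent.Helper819.Apolar Pool.Agent.Helper819.Dyn

noncomputable section

set_option linter.unusedSectionVars false

variable {N e : ℕ} (𝓡 : ResD ℂ N e)

theorem frm_ne_zero {c : Ex N (e + 1) → ℂ} (hc : 𝓡.dsc c ≠ 0) : frm c ≠ 0 := by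
  intro h0
  have h1 := 𝓡.NZ_of_dsc hc
  rw [tup_grad, h0] at h1
  have h2 := h1 (fun _ => 1) (fun i => by
    change eval _ (pderiv i 0) = 0
    rw [map_zero, map_zero])
  exact one_ne_zero (congrFun h2 0)

theorem line_mem {c : Ex N (e + 1) → ℂ} (hc : 𝓡.dsc c ≠ 0) :
    Submodule.span ℂ {frm c} ∈ PX (N + 1) (e + 1) := by
  refine ⟨?_, ?_, ?_⟩
  · rw [Submodule.span_singleton_le_iff_mem]
    exact frm_homog c
  · exact finrank_span_singleton (frm_ne_zero 𝓡 hc)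
  · intro f hf hf0 x hx
    obtain ⟨a, rfl⟩ := Submodule.mem_span_singleton.mp hf
    have ha : a ≠ 0 := by
      rintro rfl
      exact hf0 (zero_smul _ _)
    have h1 := 𝓡.NZ_of_dsc hc
    rw [tup_grad] at h1
    apply h1
    intro i
    have h2 := hx i
    rw [smul_eq_C_mul, pderiv_C_mul, map_mul, eval_C] at h2
    exact (mul_eq_zero.mp h2).resolve_left ha

/-- the line of a nonsingular form -/
def lineOf (c : 𝓡.Xs) : PX (N + 1) (e + 1) := ⟨Submodule.span ℂ {frm c.1}, line_mem 𝓡 c.2⟩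

theorem exists_lineOf (L : PX (N + 1) (e + 1)) : ∃ c : 𝓡.Xs, lineOf 𝓡 c = L := by
  obtain ⟨f, hf, hfd, hLf⟩ := PX_gen L.2
  have h1 : frm (cff (d := e + 1) f) = f := frm_cff hfd
  have h2 : 𝓡.dsc (cff (d := e + 1) f) ≠ 0 := by
    apply (𝓡.iff _).mpr
    intro x hx
    rw [tup_grad, h1] at hx
    have h3 := L.2
    rw [hLf] at h3
    exact PX_nonsing h3 hf x hx
  refine ⟨⟨_, h2⟩, Subtype.ext ?_⟩
  change Submodule.span ℂ {frm (cff f)} = L.1
  rw [h1, hLf]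

/-- polynomials in the coefficients of one form -/
def toEx (N d : ℕ) : MvPolynomial (Fin 1 × (Fin (N + 1) →₀ ℕ)) ℂ →ₐ[ℂ]
    MvPolynomial (Ex N d) ℂ := by
  classical
  exact aeval fun p => if h : p.2 ∈ Finset.finsuppAntidiag Finset.univ d then X ⟨p.2, h⟩ else 0

theorem eval_toEx {d : ℕ} (c : Ex N d → ℂ) (P : MvPolynomial (Fin 1 × (Fin (N + 1) →₀ ℕ)) ℂ) :
    eval c (toEx N d P) = eval (coeffs fun _ : Fin 1 => frm c) P := by
  classical
  unfold toEx
  have h1 := comp_aeval_apply (R := ℂ) (fun p : Fin 1 × (Fin (N + 1) →₀ ℕ) =>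
    (if h : p.2 ∈ Finset.finsuppAntidiag Finset.univ d then X ⟨p.2, h⟩ else 0 :
      MvPolynomial (Ex N d) ℂ)) (aeval c) P
  rw [← coe_aeval_eq_eval, ← coe_aeval_eq_eval]
  refine Eq.trans ?_ (h1.trans ?_)
  · congr 2
  · change aeval _ P = aeval _ P
    congr 2
    funext p
    change aeval c (dite _ _ _) = coeff p.2 (frm c)
    split_ifs with h
    · rw [aeval_X]
      exact (coeff_frm c ⟨p.2, h⟩).symm
    · rw [map_zero, (frm_homog c).coeff_eq_zero]
      intro h2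
      exact h ((mem_Ex p.2).mpr h2)

/-- existence of a global fraction -/
theorem exists_frac (h : PX (N + 1) (e + 1) → ℂ) (hreg : IsRegF 1 (PX (N + 1) (e + 1)) h) :
    ∃ (m : ℕ) (P : MvPolynomial (Ex N (e + 1)) ℂ), ∀ c : 𝓡.Xs,
      h (lineOf 𝓡 c) * 𝓡.dsc c.1 ^ m = eval c.1 P := by
  let J : Ideal (MvPolynomial (Ex N (e + 1)) ℂ) :=
    { carrier := {Q | ∃ P : MvPolynomial (Ex N (e + 1)) ℂ, ∀ c : 𝓡.Xs,
        h (lineOf 𝓡 c) * eval c.1 Q = eval c.1 P}
      add_mem' := by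
        rintro Q Q' ⟨P, hP⟩ ⟨P', hP'⟩
        exact ⟨P + P', fun c => by rw [map_add, map_add, mul_add, hP, hP']⟩
      zero_mem' := ⟨0, fun c => by rw [map_zero, mul_zero]⟩
      smul_mem' := by
        rintro R Q ⟨P, hP⟩
        exact ⟨R * P, fun c => by rw [smul_eq_mul, map_mul, map_mul, ← hP]; ring⟩ }
  have hrad : 𝓡.dX ∈ J.radical := by
    rw [← vanishingIdeal_zeroLocus_eq_radical (K := ℂ), mem_vanishingIdeal_iff]
    intro c0 hc0
    by_contra hne
    rw [aeval_eq_eval_self, 𝓡.eval_dX] at hne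
    obtain ⟨P, Q, hQ, h1⟩ := hreg (lineOf 𝓡 ⟨c0, hne⟩) (fun _ => frm c0)
      (frame_of_ne (frm_ne_zero 𝓡 hne))
    rw [← eval_toEx] at hQ
    have h2 : toEx N (e + 1) Q * toEx N (e + 1) Q ∈ J := by
      refine ⟨toEx N (e + 1) Q * toEx N (e + 1) P, fun c => ?_⟩
      rw [map_mul, map_mul]
      by_cases h0 : eval c.1 (toEx N (e + 1) Q) = 0
      · rw [h0]; ring
      · have h3 := h1 (lineOf 𝓡 c) (fun _ => frm c.1) (frame_of_ne (frm_ne_zero 𝓡 c.2)) (by
          rw [← eval_toEx]; exact h0)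
        rw [← eval_toEx, ← eval_toEx] at h3
        rw [h3]
        field_simp
    have h3 := (mem_zeroLocus_iff.mp hc0) _ h2
    rw [aeval_eq_eval_self, map_mul] at h3
    exact hQ (mul_self_eq_zero.mp h3)
  obtain ⟨m, P, hP⟩ := hrad
  refine ⟨m, P, fun c => ?_⟩
  rw [← hP, map_pow, 𝓡.eval_dX]

theorem subst_smul' {d : ℕ} (t : ℂ) (g : Matrix (Fin (N + 1)) (Fin (N + 1)) ℂ)
    {F : MvPolynomial (Fin (N + 1)) ℂ} (hF : F.IsHomogeneous d) :
    subst (t • g) F = t ^ d • subst g F := by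
  apply MvPolynomial.funext
  intro x
  rw [eval_subst, smul_eval, eval_subst, Matrix.smul_mulVec, eval_smul_hom hF]

theorem exists_scale (g : Matrix (Fin (N + 1)) (Fin (N + 1)) ℂ) (hg : g.det ≠ 0) :
    ∃ (t : ℂ) (g1 : Matrix.SpecialLinearGroup (Fin (N + 1)) ℂ), t ≠ 0 ∧ g = t • g1.1 := by
  obtain ⟨t, ht⟩ := IsAlgClosed.exists_pow_nat_eq g.det (n := N + 1) (by omega)
  have ht0 : t ≠ 0 := by
    rintro rfl
    rw [zero_pow (by omega)] at ht
    exact hg ht.symm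
  refine ⟨t, ⟨t⁻¹ • g, ?_⟩, ht0, ?_⟩
  · rw [Matrix.det_smul, Fintype.card_fin, ← ht, inv_pow, inv_mul_cancel₀ (pow_ne_zero _ ht0)]
  · change g = t • (t⁻¹ • g)
    rw [smul_smul, mul_inv_cancel₀ ht0, one_smul]

theorem dsc_act {A : Mt Bool (N + 1) ℂ} (hA : (A true).det ≠ 0) {c : Ex N (e + 1) → ℂ}
    (hc : 𝓡.dsc c ≠ 0) : 𝓡.dsc ((XA N (e + 1)).act A c) ≠ 0 := by
  have h1 := 𝓡.dX_semi A c
  rw [𝓡.eval_dX, 𝓡.eval_dX] at h1
  rw [h1, detw_wx]
  exact mul_ne_zero (detw_ne_zero _ _ fun _ => hA) hc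

theorem inv_act (h : Inv 1 (PX (N + 1) (e + 1))) (A : Mt Bool (N + 1) ℂ)
    (hA : (A true).det ≠ 0) (c : 𝓡.Xs) :
    h.1 (lineOf 𝓡 ⟨(XA N (e + 1)).act A c.1, dsc_act 𝓡 hA c.2⟩) = h.1 (lineOf 𝓡 c) := by
  obtain ⟨t, g1, ht, hg⟩ := exists_scale (A true) hA
  apply h.2.2 g1
  change Submodule.span ℂ {frm ((XA N (e + 1)).act A c.1)} =
    (Submodule.span ℂ {frm c.1}).map (chg g1.1).toLinearMap
  rw [Submodule.map_span, Set.image_singleton, frm_XA, hg, subst_smul' t g1.1 (frm_homog c.1)]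
  change Submodule.span ℂ {t ^ (e + 1) • chg g1.1 (frm c.1)} =
    Submodule.span ℂ {chg g1.1 (frm c.1)}
  exact Submodule.span_singleton_smul_eq (isUnit_iff_ne_zero.mpr (pow_ne_zero _ ht)) _

/-- the comparison map -/
theorem comp_mem (h : Inv 1 (PX (N + 1) (e + 1))) (he : 1 ≤ e) :
    (fun c => h.1 (lineOf 𝓡 c)) ∈ 𝓡.SS := by
  obtain ⟨m, P, hP⟩ := exists_frac 𝓡 h.1 h.2.1.toF
  refine ⟨m, P, ?_, ?_⟩
  · -- semi-invariance on the nonsingular locus
    have h1 : ∀ (c : 𝓡.Xs) (A : Mt Bool (N + 1) ℂ),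
        eval ((XA N (e + 1)).act A c.1) P = detw (m • wx 𝓡.r) A * eval c.1 P := by
      intro c A
      have h2 : aeval (Gr.orb (XA N (e + 1)).toRAct c.1) P =
          C (eval c.1 P) * dtw (N + 1) ℂ (m • wx 𝓡.r) := by
        apply Gr.poly_ext
        intro A hA
        rw [Gr.eval_aeval_orb, map_mul, eval_C, eval_dtw]
        have h3 := hP ⟨(XA N (e + 1)).act A c.1, dsc_act 𝓡 (hA true) c.2⟩
        rw [inv_act 𝓡 h A (hA true) c] at h3
        have h4 := 𝓡.dX_semi A c.1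
        rw [𝓡.eval_dX, 𝓡.eval_dX] at h4
        change h.1 (lineOf 𝓡 c) * 𝓡.dsc ((XA N (e + 1)).act A c.1) ^ m =
          eval ((XA N (e + 1)).act A c.1) P at h3
        rw [← h3, h4, mul_pow, ← hP c, detw_smul]
        ring
      rw [← Gr.eval_aeval_orb, h2, map_mul, eval_C, eval_dtw, mul_comm]
    intro A c
    have h5 : (Gr.compT (XA N (e + 1)).toRAct A P - C (detw (m • wx 𝓡.r) A) * P) * 𝓡.dX = 0 := by
      apply MvPolynomial.funext
      intro c
      rw [map_mul, map_sub, map_mul, eval_C, Gr.eval_compT, 𝓡.eval_dX, map_zero]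
      by_cases hc : 𝓡.dsc c = 0
      · rw [hc, mul_zero]
      · have h6 := h1 ⟨c, hc⟩ A
        change eval ((XA N (e + 1)).act A c) P = detw (m • wx 𝓡.r) A * eval c P at h6
        rw [h6, sub_self, zero_mul]
    have h7 : 𝓡.dX ≠ 0 := by
      intro h0
      apply 𝓡.dsc_fermat he
      rw [← 𝓡.eval_dX, h0, map_zero]
    have h8 := congrArg (eval c) ((mul_eq_zero.mp h5).resolve_right h7)
    rw [map_sub, map_mul, eval_C, Gr.eval_compT, map_zero, sub_eq_zero] at h8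
    exact h8
  · funext c
    change h.1 (lineOf 𝓡 c) = eval c.1 P / 𝓡.dsc c.1 ^ m
    rw [← hP, mul_div_cancel_right₀ _ (pow_ne_zero _ c.2)]

/-- The comparison map as an algebra homomorphism. -/
def cmp (he : 1 ≤ e) : InvRing 1 (PX (N + 1) (e + 1)) →ₐ[ℂ] 𝓡.SS where
  toFun h := ⟨fun c => h.1 (lineOf 𝓡 c), comp_mem 𝓡 h he⟩
  map_one' := rfl
  map_mul' _ _ := rfl
  map_zero' := rfl
  map_add' _ _ := rfl
  commutes' _ := rfl

theorem cmp_injective (he : 1 ≤ e) : Function.Injective (cmp 𝓡 he) := by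
  intro h h' hh
  apply Subtype.ext
  funext L
  obtain ⟨c, rfl⟩ := exists_lineOf 𝓡 L
  exact congrFun (congrArg Subtype.val hh) c

end

end Pool.Agent.Helper819.GradMap
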