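import Pool.Agent.Helper819.Gr.N1

/-!
The pull back of invariant functions along the gradient map is surjective.
-/

open MvPolynomial

namespace Pool.Agent.Helper819.GradMap

open Pool.Agent.Helper819.Gr Pool.Agent.Helper819.Apolar Pool.Agent.Helper819.Dyn

noncomputable section

set_option linter.unusedSectionVars false

variable {N e : ℕ}

theorem frame_homog {W : Submodule ℂ (MvPolynomial (Fin (N + 1)) ℂ)} (hW : W ∈ Z (N + 1) e)
    {F : Fin (N + 1) → MvPolynomial (Fin (N + 1)) ℂ} (hF : IsFrame W F) (i : Fin (N + 1)) :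
    (F i).IsHomogeneous e := by
  have h1 : F i ∈ W := by
    rw [← hF.2]
    exact Submodule.subset_span ⟨i, rfl⟩
  exact hW.1 h1

theorem frame_NZ {W : Submodule ℂ (MvPolynomial (Fin (N + 1)) ℂ)} (hW : W ∈ Z (N + 1) e)
    {F : Fin (N + 1) → MvPolynomial (Fin (N + 1)) ℂ} (hF : IsFrame W F) : NZ F := by
  intro x hx
  apply hW.2.2
  intro G hG
  rw [← hF.2] at hG
  obtain ⟨c, rfl⟩ := (Submodule.mem_span_range_iff_exists_fun ℂ).mp hG
  rw [map_sum]
  apply Finset.sum_eq_zero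
  intro i _
  rw [smul_eval, hx i, mul_zero]

theorem exists_frame {W : Submodule ℂ (MvPolynomial (Fin (N + 1)) ℂ)} (hW : W ∈ Z (N + 1) e) :
    ∃ F : Fin (N + 1) → MvPolynomial (Fin (N + 1)) ℂ, IsFrame W F := by
  have hfin : Module.Finite ℂ W := Module.finite_of_finrank_pos (by rw [hW.2.1]; omega)
  let b := Module.finBasisOfFinrankEq ℂ W hW.2.1
  refine ⟨fun i => (b i).1, ?_, ?_⟩
  · exact b.linearIndependent.map' W.subtype (Submodule.ker_subtype W)
  · have h1 : (Set.range fun i => (b i).1) = W.subtype '' Set.range b := by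
      rw [← Set.range_comp]
      rfl
    rw [h1, Submodule.span_image, b.span_eq, Submodule.map_top, Submodule.range_subtype]

theorem frame_change {W : Submodule ℂ (MvPolynomial (Fin (N + 1)) ℂ)}
    {F G : Fin (N + 1) → MvPolynomial (Fin (N + 1)) ℂ} (hF : IsFrame W F) (hG : IsFrame W G) :
    ∃ M : Matrix (Fin (N + 1)) (Fin (N + 1)) ℂ, M.det ≠ 0 ∧
      ∀ i, G i = ∑ j, C (M j i) * F j := by
  have h1 : ∀ i, ∃ c : Fin (N + 1) → ℂ, ∑ j, c j • F j = G i := by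
    intro i
    apply (Submodule.mem_span_range_iff_exists_fun ℂ).mp
    rw [hF.2, ← hG.2]
    exact Submodule.subset_span ⟨i, rfl⟩
  have h2 : ∀ i, ∃ c : Fin (N + 1) → ℂ, ∑ j, c j • G j = F i := by
    intro i
    apply (Submodule.mem_span_range_iff_exists_fun ℂ).mp
    rw [hG.2, ← hF.2]
    exact Submodule.subset_span ⟨i, rfl⟩
  choose a ha using h1
  choose b hb using h2
  let M : Matrix (Fin (N + 1)) (Fin (N + 1)) ℂ := Matrix.of fun j i => a i j
  let M' : Matrix (Fin (N + 1)) (Fin (N + 1)) ℂ := Matrix.of fun j i => b i j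
  have h3 : M' * M = 1 := by
    ext l i
    have h4 : ∑ l, (M' * M) l i • G l = ∑ l, (1 : Matrix (Fin (N + 1)) (Fin (N + 1)) ℂ) l i •
        G l := by
      have h5 : ∑ l, (1 : Matrix (Fin (N + 1)) (Fin (N + 1)) ℂ) l i • G l = G i := by
        rw [Finset.sum_eq_single i]
        · rw [Matrix.one_apply_eq, one_smul]
        · intro j _ hj
          rw [Matrix.one_apply_ne hj, zero_smul]
        · intro h
          exact absurd (Finset.mem_univ _) h
      rw [h5, ← ha i]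
      simp only [← hb, Finset.smul_sum, smul_smul]
      rw [Finset.sum_comm]
      refine Finset.sum_congr rfl fun l _ => ?_
      rw [← Finset.sum_smul, Matrix.mul_apply]
      congr 1
      refine Finset.sum_congr rfl fun j _ => ?_
      exact mul_comm _ _
    have h6 : ∑ l, ((M' * M) l i - (1 : Matrix (Fin (N + 1)) (Fin (N + 1)) ℂ) l i) • G l = 0 := by
      simp only [sub_smul, Finset.sum_sub_distrib]
      rw [h4, sub_self]
    exact sub_eq_zero.mp (Fintype.linearIndependent_iff.mp hG.1 _ h6 l)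
  refine ⟨M, ?_, ?_⟩
  · intro h0
    have h4 := congrArg Matrix.det h3
    rw [Matrix.det_mul, h0, mul_zero, Matrix.det_one] at h4
    exact zero_ne_one h4
  · intro i
    rw [← ha i]
    refine Finset.sum_congr rfl fun j _ => ?_
    exact smul_eq_C_mul _ _

theorem cf_change {F G : Fin (N + 1) → MvPolynomial (Fin (N + 1)) ℂ}
    (hF : ∀ i, (F i).IsHomogeneous e) (M : Matrix (Fin (N + 1)) (Fin (N + 1)) ℂ)
    (h : ∀ i, G i = ∑ j, C (M j i) * F j) :
    (cf G : Ix N e → ℂ) = (ZA N e).act (pr2 M 1) (cf F) := by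
  change cf G = cf (zact (pr2 M 1) (tup (cf F)))
  rw [tup_cf hF]
  congr 1
  funext i
  rw [h i]
  refine Finset.sum_congr rfl fun j _ => ?_
  change _ = C (M j i) * subst 1 (F j)
  rw [subst_one]

theorem cf_subst {F : Fin (N + 1) → MvPolynomial (Fin (N + 1)) ℂ}
    (hF : ∀ i, (F i).IsHomogeneous e) (g : Matrix (Fin (N + 1)) (Fin (N + 1)) ℂ) :
    (cf (fun i => subst g (F i)) : Ix N e → ℂ) = (ZA N e).act (pr2 1 g) (cf F) := by
  change cf _ = cf (zact (pr2 1 g) (tup (cf F)))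
  rw [tup_cf hF]
  congr 1
  funext i
  change _ = ∑ j, C ((1 : Matrix (Fin (N + 1)) (Fin (N + 1)) ℂ) j i) * subst g (F j)
  rw [Finset.sum_eq_single i]
  · rw [Matrix.one_apply_eq, C_1, one_mul]
  · intro j _ hj
    rw [Matrix.one_apply_ne hj, C_0, zero_mul]
  · intro h
    exact absurd (Finset.mem_univ _) h

variable (𝓡 : ResD ℂ N e)

theorem D_cf_ne {W : Submodule ℂ (MvPolynomial (Fin (N + 1)) ℂ)} (hW : W ∈ Z (N + 1) e)
    {F : Fin (N + 1) → MvPolynomial (Fin (N + 1)) ℂ} (hF : IsFrame W F) :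
    eval (cf F) 𝓡.D ≠ 0 := by
  rw [𝓡.iff, tup_cf (frame_homog hW hF)]
  exact frame_NZ hW hF

theorem quot_act {l : ℕ} {q : MvPolynomial (Ix N e) ℂ}
    (hq : IsSemi (ZA N e).toRAct (l • 𝓡.r) q) (A : Mt Bool (N + 1) ℂ)
    (hA : ∀ s, (A s).det ≠ 0) (c : Ix N e → ℂ) :
    eval ((ZA N e).act A c) q / eval ((ZA N e).act A c) 𝓡.D ^ l =
      eval c q / eval c 𝓡.D ^ l := by
  rw [hq A c, 𝓡.semi A c, mul_pow, detw_smul]
  exact mul_div_mul_left _ _ (pow_ne_zero _ (detw_ne_zero _ _ hA))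

theorem quot_frame {l : ℕ} {q : MvPolynomial (Ix N e) ℂ}
    (hq : IsSemi (ZA N e).toRAct (l • 𝓡.r) q)
    {W : Submodule ℂ (MvPolynomial (Fin (N + 1)) ℂ)} (hW : W ∈ Z (N + 1) e)
    {F G : Fin (N + 1) → MvPolynomial (Fin (N + 1)) ℂ} (hF : IsFrame W F) (hG : IsFrame W G) :
    eval (cf G) q / eval (cf G) 𝓡.D ^ l = eval (cf F) q / eval (cf F) 𝓡.D ^ l := by
  obtain ⟨M, hM, h1⟩ := frame_change hF hG
  rw [cf_change (frame_homog hW hF) M h1]
  apply quot_act 𝓡 hq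
  intro s
  cases s
  · exact hM
  · change (1 : Matrix (Fin (N + 1)) (Fin (N + 1)) ℂ).det ≠ 0
    rw [Matrix.det_one]
    exact one_ne_zero

theorem subst_injective {g : Matrix (Fin (N + 1)) (Fin (N + 1)) ℂ} (hg : g.det ≠ 0) :
    Function.Injective (subst g) := by
  intro F G h
  have h1 := congrArg (subst g⁻¹) h
  rwa [subst_subst, subst_subst, Matrix.mul_nonsing_inv _ (isUnit_iff_ne_zero.mpr hg), subst_one,
    subst_one] at h1

theorem frame_subst {W : Submodule ℂ (MvPolynomial (Fin (N + 1)) ℂ)}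
    {F : Fin (N + 1) → MvPolynomial (Fin (N + 1)) ℂ} (hF : IsFrame W F)
    {g : Matrix (Fin (N + 1)) (Fin (N + 1)) ℂ} (hg : g.det ≠ 0) :
    IsFrame (W.map (chg g).toLinearMap) (fun i => subst g (F i)) := by
  constructor
  · exact hF.1.map' (subst g).toLinearMap (LinearMap.ker_eq_bot.mpr (subst_injective hg))
  · rw [← hF.2, Submodule.map_span, ← Set.range_comp]
    rfl

/-- the function on `Z` -/
def hfun (l : ℕ) (q : MvPolynomial (Ix N e) ℂ) (W : Z (N + 1) e) : ℂ :=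
  eval (cf (Classical.choose (exists_frame W.2))) q /
    eval (cf (Classical.choose (exists_frame W.2))) 𝓡.D ^ l

theorem hfun_eq {l : ℕ} {q : MvPolynomial (Ix N e) ℂ}
    (hq : IsSemi (ZA N e).toRAct (l • 𝓡.r) q) (W : Z (N + 1) e)
    {F : Fin (N + 1) → MvPolynomial (Fin (N + 1)) ℂ} (hF : IsFrame W.1 F) :
    hfun 𝓡 l q W = eval (cf F) q / eval (cf F) 𝓡.D ^ l :=
  quot_frame 𝓡 hq W.2 hF (Classical.choose_spec (exists_frame W.2))

/-- extension of the variables -/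
def toCo (N e : ℕ) : MvPolynomial (Ix N e) ℂ →ₐ[ℂ]
    MvPolynomial (Fin (N + 1) × (Fin (N + 1) →₀ ℕ)) ℂ :=
  rename fun p => (p.1, p.2.1)

theorem eval_toCo (F : Fin (N + 1) → MvPolynomial (Fin (N + 1)) ℂ)
    (q : MvPolynomial (Ix N e) ℂ) : eval (coeffs F) (toCo N e q) = eval (cf F) q := by
  unfold toCo
  rw [eval_rename]
  rfl

theorem hfun_mem {l : ℕ} {q : MvPolynomial (Ix N e) ℂ}
    (hq : IsSemi (ZA N e).toRAct (l • 𝓡.r) q) :
    hfun 𝓡 l q ∈ Inv (N + 1) (Z (N + 1) e) := by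
  refine ⟨IsRegF.toReg fun W F hF => ?_, fun g W W' h => ?_⟩
  · refine ⟨toCo N e q, toCo N e (𝓡.D ^ l), ?_, fun W' G hG _ => ?_⟩
    · rw [eval_toCo, map_pow]
      exact pow_ne_zero _ (D_cf_ne 𝓡 W.2 hF)
    · rw [eval_toCo, eval_toCo, hfun_eq 𝓡 hq W' hG, map_pow]
  · obtain ⟨F, hF⟩ := exists_frame W.2
    have hg : g.1.det ≠ 0 := by rw [g.2]; exact one_ne_zero
    have h1 := frame_subst hF hg
    rw [← h] at h1
    rw [hfun_eq 𝓡 hq W' h1, hfun_eq 𝓡 hq W hF, cf_subst (frame_homog W.2 hF)]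
    apply quot_act 𝓡 hq
    intro s
    cases s
    · change (1 : Matrix (Fin (N + 1)) (Fin (N + 1)) ℂ).det ≠ 0
      rw [Matrix.det_one]
      exact one_ne_zero
    · exact hg

theorem gradMap_lineOf (he : 3 ≤ e + 1) {l : ℕ} {q : MvPolynomial (Ix N e) ℂ}
    (hq : IsSemi (ZA N e).toRAct (l • 𝓡.r) q) (c : 𝓡.Xs) :
    hfun 𝓡 l q (gradMap (N + 1) (e + 1) he (lineOf 𝓡 c)) =
      eval (grad c.1) q / 𝓡.dsc c.1 ^ l :=
  hfun_eq 𝓡 hq _ (frame_grad he (line_mem 𝓡 c.2) (frm_ne_zero 𝓡 c.2) rfl)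

theorem exists_inv (he : 3 ≤ e + 1) (s : 𝓡.SS) :
    ∃ h' : InvRing (N + 1) (Z (N + 1) (e + 1 - 1)),
      cmp 𝓡 (by omega) (pullback (N + 1) (e + 1) he h') = s := by
  obtain ⟨_, m, p, hp, rfl⟩ := s
  obtain ⟨l, q, hq, h1⟩ := 𝓡.exists_tuple_invariant (by omega) m p hp
  refine ⟨⟨hfun 𝓡 l q, hfun_mem 𝓡 hq⟩, ?_⟩
  apply Subtype.ext
  funext c
  change hfun 𝓡 l q (gradMap (N + 1) (e + 1) he (lineOf 𝓡 c)) = eval c.1 p / 𝓡.dsc c.1 ^ m
  rw [gradMap_lineOf 𝓡 he hq, h1 c.1 c.2]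

theorem cmp_surjective (he : 3 ≤ e + 1) : Function.Surjective (cmp 𝓡 (by omega)) := by
  intro s
  obtain ⟨h', hh⟩ := exists_inv 𝓡 he s
  exact ⟨_, hh⟩

theorem pullback_surjective (he : 3 ≤ e + 1) :
    Function.Surjective (pullback (N + 1) (e + 1) he) := by
  obtain ⟨𝓡⟩ := exists_ResD (k := ℂ) (N := N) (e := e) (by omega)
  intro h
  obtain ⟨h', hh⟩ := exists_inv 𝓡 he (cmp 𝓡 (by omega) h)
  exact ⟨h', cmp_injective 𝓡 (by omega) hh⟩

end

end Pool.Agent.Helper819.GradMap
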