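import Pool.Agent.Helper819.Gr.N2

/-!
The ring of invariants of nonsingular forms is a normal domain.
-/

open MvPolynomial

namespace Pool.Agent.Helper819.Gr

open Pool.Agent.Helper819.Apolar Pool.Agent.Helper819.Dyn

noncomputable section

set_option linter.unusedSectionVars false

section icl

theorem icl_of_sub {R T : Type} [CommRing R] [IsDomain R] [CommRing T] [IsDomain T]
    [IsIntegrallyClosed T] (f : R →+* T) (hf : Function.Injective f)
    (h : ∀ a b : R, b ≠ 0 → ∀ t : T, f b * t = f a → ∃ r, f r = t) : IsIntegrallyClosed R := by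
  rw [isIntegrallyClosed_iff (FractionRing R)]
  intro x hx
  let g : R →+* FractionRing T := (algebraMap T (FractionRing T)).comp f
  have hg : Function.Injective g := (IsFractionRing.injective T (FractionRing T)).comp hf
  let φ : FractionRing R →+* FractionRing T := IsFractionRing.lift hg
  have hφ : ∀ r, φ (algebraMap R (FractionRing R) r) = g r := IsFractionRing.lift_algebraMap hg
  obtain ⟨p, hp, hp2⟩ := hx
  have h1 : IsIntegral T (φ x) := by
    refine ⟨p.map f, hp.map f, ?_⟩
    rw [Polynomial.eval₂_map]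
    have h2 : (algebraMap T (FractionRing T)).comp f =
        φ.comp (algebraMap R (FractionRing R)) := by
      ext r
      exact (hφ r).symm
    rw [h2, ← Polynomial.hom_eval₂, hp2, map_zero]
  obtain ⟨t, ht⟩ := (isIntegrallyClosed_iff (FractionRing T)).mp inferInstance h1
  obtain ⟨a, b, hb, rfl⟩ := IsFractionRing.div_surjective (A := R) x
  have hb0 : b ≠ 0 := nonZeroDivisors.ne_zero hb
  have hgb : g b ≠ 0 := by
    intro h0
    exact hb0 (hg (h0.trans (map_zero g).symm))
  have h3 : f b * t = f a := by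
    apply IsFractionRing.injective T (FractionRing T)
    rw [map_mul, ht, map_div₀, hφ, hφ]
    change g b * (g a / g b) = g a
    rw [mul_div_cancel₀ _ hgb]
  obtain ⟨r, hr⟩ := h a b hb0 t h3
  refine ⟨r, ?_⟩
  have h4 : b * r = a := hf (by rw [map_mul, hr, h3])
  have hb1 : algebraMap R (FractionRing R) b ≠ 0 := by
    intro h0
    exact hb0 (IsFractionRing.injective R (FractionRing R) (h0.trans (map_zero _).symm))
  rw [← h4, map_mul, mul_div_cancel_left₀ _ hb1]

end icl

section loc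

variable {k : Type} [Field k] [Infinite k] {σ : Type} (D : MvPolynomial σ k)

/-- evaluation on the localization -/
def evL (c : {c : σ → k // eval c D ≠ 0}) : Localization.Away D →+* k :=
  IsLocalization.Away.lift D (g := eval c.1) (isUnit_iff_ne_zero.mpr c.2)

theorem evL_alg (c : {c : σ → k // eval c D ≠ 0}) (p : MvPolynomial σ k) :
    evL D c (algebraMap _ _ p) = eval c.1 p :=
  IsLocalization.Away.lift_eq D _ p

theorem loc_domain (hD : D ≠ 0) : IsDomain (Localization.Away D) :=
  IsLocalization.isDomain_localization (powers_le_nonZeroDivisors_of_noZeroDivisors hD)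

theorem loc_icl (hD : D ≠ 0) : IsIntegrallyClosed (Localization.Away D) :=
  isIntegrallyClosed_of_isLocalization (R := MvPolynomial σ k) (Localization.Away D)
    (Submonoid.powers D) (powers_le_nonZeroDivisors_of_noZeroDivisors hD)

theorem evL_div (c : {c : σ → k // eval c D ≠ 0}) (z : Localization.Away D) (m : ℕ)
    (p : MvPolynomial σ k) (h : z * algebraMap _ _ D ^ m = algebraMap _ _ p) :
    evL D c z = eval c.1 p / eval c.1 D ^ m := by
  have h1 := congrArg (evL D c) h
  rw [map_mul, map_pow, evL_alg, evL_alg] at h1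
  rw [← h1, mul_div_cancel_right₀ _ (pow_ne_zero _ c.2)]

theorem evL_inj (hD : D ≠ 0) {z w : Localization.Away D} (h : ∀ c, evL D c z = evL D c w) :
    z = w := by
  rw [← sub_eq_zero]
  obtain ⟨m, p, hp⟩ := IsLocalization.Away.surj D (z - w)
  have h1 : p = 0 := by
    have h2 : p * D = 0 := by
      apply MvPolynomial.funext
      intro c
      rw [map_mul, map_zero]
      by_cases hc : eval c D = 0
      · rw [hc, mul_zero]
      · have h3 := evL_div D ⟨c, hc⟩ _ m p hp
        rw [map_sub, h, sub_self] at h3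
        have h4 : eval c p = 0 := by
          rcases div_eq_zero_iff.mp h3.symm with h5 | h5
          · exact h5
          · exact absurd h5 (pow_ne_zero _ hc)
        rw [h4, zero_mul]
    exact (mul_eq_zero.mp h2).resolve_right hD
  rw [h1, map_zero] at hp
  have hu : IsUnit (algebraMap (MvPolynomial σ k) (Localization.Away D) D ^ m) :=
    (IsLocalization.Away.algebraMap_isUnit D).pow m
  exact (hu.mul_left_eq_zero).mp hp

theorem exists_evL (m : ℕ) (p : MvPolynomial σ k) : ∃ z : Localization.Away D,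
    ∀ c, evL D c z = eval c.1 p / eval c.1 D ^ m := by
  have hu : IsUnit (algebraMap (MvPolynomial σ k) (Localization.Away D) D ^ m) :=
    (IsLocalization.Away.algebraMap_isUnit D).pow m
  obtain ⟨v, hv⟩ := hu.exists_left_inv
  refine ⟨v * algebraMap _ _ p, fun c => ?_⟩
  apply evL_div
  calc v * algebraMap _ _ p * algebraMap _ _ D ^ m =
      (v * algebraMap _ _ D ^ m) * algebraMap _ _ p := by ring
    _ = _ := by rw [hv, one_mul]

/-- A ring of functions all of which are fractions embeds into the localization. -/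
theorem exists_embed (hD : D ≠ 0) (S : Subalgebra k ({c : σ → k // eval c D ≠ 0} → k))
    (hS : ∀ s ∈ S, ∃ (m : ℕ) (p : MvPolynomial σ k), ∀ c, s c = eval c.1 p / eval c.1 D ^ m) :
    ∃ f : S →+* Localization.Away D, ∀ s c, evL D c (f s) = s.1 c := by
  have h1 : ∀ s : S, ∃ z : Localization.Away D, ∀ c, evL D c z = s.1 c := by
    intro s
    obtain ⟨m, p, hp⟩ := hS s.1 s.2
    obtain ⟨z, hz⟩ := exists_evL D m p
    exact ⟨z, fun c => by rw [hz, hp]⟩
  choose f hf using h1
  refine ⟨{ toFun := f, map_one' := ?_, map_mul' := ?_, map_zero' := ?_, map_add' := ?_ }, hf⟩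
  · apply evL_inj D hD
    intro c
    rw [hf, map_one]
    rfl
  · intro s t
    apply evL_inj D hD
    intro c
    rw [hf, map_mul, hf, hf]
    rfl
  · apply evL_inj D hD
    intro c
    rw [hf, map_zero]
    rfl
  · intro s t
    apply evL_inj D hD
    intro c
    rw [hf, map_add, hf, hf]
    rfl

theorem normal_of_frac (hD : D ≠ 0) (S : Subalgebra k ({c : σ → k // eval c D ≠ 0} → k))
    (hS : ∀ s ∈ S, ∃ (m : ℕ) (p : MvPolynomial σ k), ∀ c, s c = eval c.1 p / eval c.1 D ^ m)
    (h : ∀ a ∈ S, ∀ b ∈ S, b ≠ 0 → ∀ (m : ℕ) (p : MvPolynomial σ k),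
      (∀ c, b c * (eval c.1 p / eval c.1 D ^ m) = a c) →
      (fun c : {c : σ → k // eval c D ≠ 0} => eval c.1 p / eval c.1 D ^ m) ∈ S) :
    IsDomain S ∧ IsIntegrallyClosed S := by
  have hdom := loc_domain D hD
  have hicl := loc_icl D hD
  obtain ⟨f, hf⟩ := exists_embed D hD S hS
  have hinj : Function.Injective f := by
    intro s t hst
    apply Subtype.ext
    funext c
    rw [← hf, ← hf, hst]
  have hdS : IsDomain S := Function.Injective.isDomain f hinj
  refine ⟨hdS, icl_of_sub f hinj ?_⟩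
  intro a b hb t ht
  obtain ⟨m, p, hp⟩ := IsLocalization.Away.surj D t
  have h1 : ∀ c, evL D c t = eval c.1 p / eval c.1 D ^ m := fun c => evL_div D c t m p hp
  have h2 := h a.1 a.2 b.1 b.2 (fun h0 => hb (Subtype.ext h0)) m p (fun c => by
    rw [← h1, ← hf, ← hf, ← map_mul, ht])
  refine ⟨⟨_, h2⟩, evL_inj D hD fun c => ?_⟩
  rw [hf, h1]

end loc

section semi

variable {k : Type} [Field k] [Infinite k] {ι : Type} [Fintype ι] [DecidableEq ι] {n : ℕ}
  {σ : Type} {α : RAct ι n σ}

theorem semi_of_det {w : ι → ℕ} {p : MvPolynomial σ k}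
    (h : ∀ A : Mt ι n k, (∀ s, (A s).det ≠ 0) → ∀ c, eval (α.act A c) p =
      detw w A * eval c p) : IsSemi α w p := by
  intro A c
  have h2 : aeval (orb α c) p = C (eval c p) * dtw n k w := by
    apply poly_ext
    intro A hA
    rw [eval_aeval_orb, map_mul, eval_C, eval_dtw, h A hA c, mul_comm]
  rw [← eval_aeval_orb, h2, map_mul, eval_C, eval_dtw, mul_comm]

end semi

namespace ResD

variable {k : Type} [Field k] {N e : ℕ} (𝓡 : ResD k N e)

theorem fr_act {m : ℕ} {p : MvPolynomial (Ex N (e + 1)) k}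
    (hp : IsSemi (XA N (e + 1)).toRAct (m • wx 𝓡.r) p) (A : Mt Bool (N + 1) k)
    (hA : ∀ s, (A s).det ≠ 0) (c : Ex N (e + 1) → k) :
    eval ((XA N (e + 1)).act A c) p / 𝓡.dsc ((XA N (e + 1)).act A c) ^ m =
      eval c p / 𝓡.dsc c ^ m := by
  have h4 := 𝓡.dX_semi A c
  rw [𝓡.eval_dX, 𝓡.eval_dX] at h4
  rw [hp A c, h4, mul_pow, detw_smul]
  exact mul_div_mul_left _ _ (pow_ne_zero _ (detw_ne_zero _ _ hA))

theorem dX_ne_zero [CharZero k] (he : 1 ≤ e) : 𝓡.dX ≠ 0 := by
  intro h0
  apply 𝓡.dsc_fermat he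
  rw [← 𝓡.eval_dX, h0, map_zero]

/-- the ring as functions on the nonvanishing locus -/
def SS' : Subalgebra k ({c : Ex N (e + 1) → k // eval c 𝓡.dX ≠ 0} → k) where
  carrier := {h | ∃ m p, IsSemi (XA N (e + 1)).toRAct (m • wx 𝓡.r) p ∧
    h = fun c => eval c.1 p / eval c.1 𝓡.dX ^ m}
  mul_mem' := by
    rintro _ _ ⟨m, p, hp, rfl⟩ ⟨m', p', hp', rfl⟩
    refine ⟨m + m', p * p', ?_, ?_⟩
    · rw [add_smul]
      exact hp.mul hp'
    · funext c
      change eval c.1 p / eval c.1 𝓡.dX ^ m * (eval c.1 p' / eval c.1 𝓡.dX ^ m') = _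
      rw [map_mul, pow_add, div_mul_div_comm]
  add_mem' := by
    rintro _ _ ⟨m, p, hp, rfl⟩ ⟨m', p', hp', rfl⟩
    refine ⟨m + m', p * 𝓡.dX ^ m' + 𝓡.dX ^ m * p', ?_, ?_⟩
    · rw [add_smul]
      exact (hp.mul (𝓡.dX_semi.pow m')).add ((𝓡.dX_semi.pow m).mul hp')
    · funext c
      change eval c.1 p / eval c.1 𝓡.dX ^ m + (eval c.1 p' / eval c.1 𝓡.dX ^ m') = _
      rw [map_add, map_mul, map_mul, map_pow, map_pow, pow_add, div_add_div _ _
        (pow_ne_zero _ c.2) (pow_ne_zero _ c.2)]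
  algebraMap_mem' := by
    intro a
    refine ⟨0, C a, ?_, ?_⟩
    · rw [zero_smul]
      have := (IsSemi.one (α := (XA N (e + 1)).toRAct) (k := k)).C_mul a
      rwa [mul_one] at this
    · funext c
      change a = eval c.1 (C a) / _ ^ 0
      rw [eval_C, pow_zero, div_one]

theorem normal' [IsAlgClosed k] [CharZero k] (he : 1 ≤ e) :
    IsDomain 𝓡.SS' ∧ IsIntegrallyClosed 𝓡.SS' := by
  have hinf : Infinite k := IsAlgClosed.instInfinite
  apply normal_of_frac 𝓡.dX (𝓡.dX_ne_zero he)
  · rintro _ ⟨m, p, hp, rfl⟩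
    exact ⟨m, p, fun c => rfl⟩
  · rintro _ ⟨m1, a, ha, rfl⟩ _ ⟨m2, b, hb, rfl⟩ hb0 m p hp
    refine ⟨m, p, ?_, rfl⟩
    apply semi_of_det
    intro A hA
    have hb1 : b ≠ 0 := by
      rintro rfl
      apply hb0
      funext c
      rw [map_zero, zero_div]
      rfl
    have h1 : b * ((compT (XA N (e + 1)).toRAct A p - C (detw (m • wx 𝓡.r) A) * p) *
        𝓡.dX) = 0 := by
      apply MvPolynomial.funext
      intro c
      rw [map_mul, map_mul, map_sub, map_mul, eval_C, eval_compT, map_zero]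
      by_cases hc : eval c 𝓡.dX = 0
      · rw [hc, mul_zero, mul_zero]
      · have hc' : eval ((XA N (e + 1)).act A c) 𝓡.dX ≠ 0 := by
          rw [𝓡.dX_semi A c]
          exact mul_ne_zero (detw_ne_zero _ _ hA) hc
        have h2 := hp ⟨c, hc⟩
        have h3 := hp ⟨_, hc'⟩
        have h4 := 𝓡.fr_act ha A hA c
        have h5 := 𝓡.fr_act hb A hA c
        simp only [← eval_dX] at h4 h5
        change eval ((XA N (e + 1)).act A c) b / eval ((XA N (e + 1)).act A c) 𝓡.dX ^ m2 *
          (eval ((XA N (e + 1)).act A c) p / eval ((XA N (e + 1)).act A c) 𝓡.dX ^ m) =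
          eval ((XA N (e + 1)).act A c) a / eval ((XA N (e + 1)).act A c) 𝓡.dX ^ m1 at h3
        change eval c b / eval c 𝓡.dX ^ m2 * (eval c p / eval c 𝓡.dX ^ m) =
          eval c a / eval c 𝓡.dX ^ m1 at h2
        rw [h4, h5, ← h2] at h3
        by_cases hbc : eval c b = 0
        · rw [hbc, zero_mul]
        · have h6 : eval c b / eval c 𝓡.dX ^ m2 ≠ 0 := div_ne_zero hbc (pow_ne_zero _ hc)
          have h7 := mul_left_cancel₀ h6 h3
          rw [𝓡.dX_semi A c, mul_pow, div_eq_div_iff (mul_ne_zero (pow_ne_zero _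
            (detw_ne_zero _ _ hA)) (pow_ne_zero _ hc)) (pow_ne_zero _ hc)] at h7
          have h8 : eval ((XA N (e + 1)).act A c) p = detw (m • wx 𝓡.r) A * eval c p := by
            rw [detw_smul]
            apply mul_right_cancel₀ (pow_ne_zero m hc)
            rw [h7]
            ring
          change eval c b * ((eval ((XA N (e + 1)).act A c) p - _) * _) = 0
          rw [h8, sub_self, zero_mul, mul_zero]
    have h2 := (mul_eq_zero.mp ((mul_eq_zero.mp h1).resolve_left hb1)).resolve_right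
      (𝓡.dX_ne_zero he)
    intro c
    have h3 := congrArg (eval c) h2
    rw [map_sub, map_mul, eval_C, eval_compT, map_zero, sub_eq_zero] at h3
    exact h3

/-- comparison of the two descriptions -/
def eqSS : 𝓡.SS →ₐ[k] 𝓡.SS' where
  toFun s := ⟨fun c => s.1 ⟨c.1, by rw [← 𝓡.eval_dX]; exact c.2⟩, by
    obtain ⟨m, p, hp, h1⟩ := s.2
    refine ⟨m, p, hp, ?_⟩
    rw [h1]
    funext c
    change eval c.1 p / 𝓡.dsc c.1 ^ m = _
    rw [← 𝓡.eval_dX]⟩
  map_one' := rfl
  map_mul' _ _ := rfl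
  map_zero' := rfl
  map_add' _ _ := rfl
  commutes' _ := rfl

theorem eqSS_bij : Function.Bijective 𝓡.eqSS := by
  constructor
  · intro s t h
    apply Subtype.ext
    funext c
    exact congrFun (congrArg Subtype.val h) ⟨c.1, by rw [𝓡.eval_dX]; exact c.2⟩
  · rintro ⟨_, m, p, hp, rfl⟩
    refine ⟨𝓡.mkS m p hp, ?_⟩
    apply Subtype.ext
    funext c
    change eval c.1 p / 𝓡.dsc c.1 ^ m = eval c.1 p / eval c.1 𝓡.dX ^ m
    rw [𝓡.eval_dX]

theorem normal [IsAlgClosed k] [CharZero k] (he : 1 ≤ e) :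
    IsDomain 𝓡.SS ∧ IsIntegrallyClosed 𝓡.SS := by
  obtain ⟨h1, h2⟩ := 𝓡.normal' he
  let E : 𝓡.SS ≃+* 𝓡.SS' := RingEquiv.ofBijective 𝓡.eqSS 𝓡.eqSS_bij
  exact ⟨MulEquiv.isDomain 𝓡.SS' E.toMulEquiv, IsIntegrallyClosed.of_equiv E.symm⟩

end ResD

end

end Pool.Agent.Helper819.Gr
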