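import Pool.Agent.Helper819.Gr.N3

/-!
The image of the gradient map on quotients is a normal variety.
-/

open MvPolynomial

namespace Pool.Agent.Helper819.GradMap

open Pool.Agent.Helper819.Gr Pool.Agent.Helper819.Apolar Pool.Agent.Helper819.Dyn

noncomputable section

set_option linter.unusedSectionVars false

section abs

variable {B A S : Type} [CommRing B] [CommRing A] [CommRing S] [Algebra ℂ B] [Algebra ℂ A]
  [Algebra ℂ S]

theorem vanishing_range (φ : B →+* A) [IsDomain A] :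
    PrimeSpectrum.vanishingIdeal (Set.range (PrimeSpectrum.comap φ)) = RingHom.ker φ := by
  rw [← PrimeSpectrum.vanishingIdeal_closure, PrimeSpectrum.closure_range_comap,
    PrimeSpectrum.vanishingIdeal_zeroLocus_eq_radical]
  exact (RingHom.ker_isPrime φ).radical

theorem final_abs (φ : B →ₐ[ℂ] A) (hφ : Function.Surjective φ) (ψ : A →ₐ[ℂ] S)
    (hψ : Function.Bijective ψ) (hS : IsDomain S) (hS2 : IsIntegrallyClosed S)
    (hft : Algebra.FiniteType ℂ S) :
    IsClosed (Set.range (PrimeSpectrum.comap φ.toRingHom)) ∧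
    IsDomain (B ⧸ PrimeSpectrum.vanishingIdeal (Set.range (PrimeSpectrum.comap φ.toRingHom))) ∧
    IsIntegrallyClosed
      (B ⧸ PrimeSpectrum.vanishingIdeal (Set.range (PrimeSpectrum.comap φ.toRingHom))) ∧
    Algebra.FiniteType ℂ
      (B ⧸ PrimeSpectrum.vanishingIdeal (Set.range (PrimeSpectrum.comap φ.toRingHom))) := by
  let E : A ≃ₐ[ℂ] S := AlgEquiv.ofBijective ψ hψ
  have hA : IsDomain A := MulEquiv.isDomain S E.toRingEquiv.toMulEquiv
  have hA2 : IsIntegrallyClosed A := IsIntegrallyClosed.of_equiv E.symm.toRingEquiv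
  have hA3 : Algebra.FiniteType ℂ A := hft.equiv E.symm
  have h1 : PrimeSpectrum.vanishingIdeal (Set.range (PrimeSpectrum.comap φ.toRingHom)) =
      RingHom.ker φ := vanishing_range φ.toRingHom
  let E2 : (B ⧸ PrimeSpectrum.vanishingIdeal (Set.range (PrimeSpectrum.comap φ.toRingHom)))
      ≃ₐ[ℂ] A := (Ideal.quotientEquivAlgOfEq ℂ h1).trans
        (Ideal.quotientKerAlgEquivOfSurjective hφ)
  exact ⟨PrimeSpectrum.isClosed_range_comap_of_surjective A φ.toRingHom hφ,
    MulEquiv.isDomain A E2.toRingEquiv.toMulEquiv,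
    IsIntegrallyClosed.of_equiv E2.symm.toRingEquiv, hA3.equiv E2.symm⟩

end abs

theorem main {N e : ℕ} (he : 3 ≤ e + 1) :
    Function.Surjective (pullback (N + 1) (e + 1) he) ∧
    IsClosed (Set.range (PrimeSpectrum.comap (pullback (N + 1) (e + 1) he).toRingHom)) ∧
    IsDomain (InvRing (N + 1) (Z (N + 1) (e + 1 - 1)) ⧸ PrimeSpectrum.vanishingIdeal
      (Set.range (PrimeSpectrum.comap (pullback (N + 1) (e + 1) he).toRingHom))) ∧
    IsIntegrallyClosed (InvRing (N + 1) (Z (N + 1) (e + 1 - 1)) ⧸ PrimeSpectrum.vanishingIdeal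
      (Set.range (PrimeSpectrum.comap (pullback (N + 1) (e + 1) he).toRingHom))) ∧
    Algebra.FiniteType ℂ (InvRing (N + 1) (Z (N + 1) (e + 1 - 1)) ⧸ PrimeSpectrum.vanishingIdeal
      (Set.range (PrimeSpectrum.comap (pullback (N + 1) (e + 1) he).toRingHom))) := by
  obtain ⟨𝓡⟩ := exists_ResD (k := ℂ) (N := N) (e := e) (by omega)
  obtain ⟨h1, h2⟩ := 𝓡.normal (by omega)
  refine ⟨pullback_surjective he, ?_⟩
  exact final_abs (pullback (N + 1) (e + 1) he) (pullback_surjective he) (cmp 𝓡 (by omega))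
    ⟨cmp_injective 𝓡 (by omega), cmp_surjective 𝓡 he⟩ h1 h2 (𝓡.finiteType (by omega))

end

end Pool.Agent.Helper819.GradMap
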