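import Pool.Agent.Helper819.Gr.Rey

/-!
Linear right actions of products of matrix monoids, semi-invariants and the Reynolds operator.
-/

open MvPolynomial

namespace Pool.Agent.Helper819.Gr

open Pool.Agent.Helper819.Apolar

noncomputable section

set_option linter.unusedSectionVars false

/-- A linear right action of a product of matrix monoids on affine space, given functorially. -/
structure RAct (ι : Type) [Fintype ι] [DecidableEq ι] (n : ℕ) (σ : Type) where
  act : ∀ {R : Type} [CommRing R], Mt ι n R → (σ → R) → (σ → R)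
  map_act : ∀ {R S : Type} [CommRing R] [CommRing S] (φ : R →+* S) (A : Mt ι n R) (c : σ → R)
    (p : σ), φ (act A c p) = act (fun s => (A s).map φ) (fun q => φ (c q)) p
  act_act : ∀ {R : Type} [CommRing R] (A B : Mt ι n R) (c : σ → R),
    act B (act A c) = act (A * B) c
  act_one : ∀ {R : Type} [CommRing R] (c : σ → R), act 1 c = c
  act_add : ∀ {R : Type} [CommRing R] (A : Mt ι n R) (c c' : σ → R),
    act A (c + c') = act A c + act A c'
  act_smul : ∀ {R : Type} [CommRing R] (A : Mt ι n R) (r : R) (c : σ → R),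
    act A (r • c) = r • act A c

variable {ι : Type} [Fintype ι] [DecidableEq ι] {n : ℕ} {σ : Type} (α : RAct ι n σ)

namespace RAct

/-- The action as a linear map -/
def actL {R : Type} [CommRing R] (A : Mt ι n R) : (σ → R) →ₗ[R] (σ → R) where
  toFun := α.act A
  map_add' := α.act_add A
  map_smul' := α.act_smul A

theorem actL_apply {R : Type} [CommRing R] (A : Mt ι n R) (c : σ → R) :
    α.actL A c = α.act A c := rfl

theorem act_zero {R : Type} [CommRing R] (A : Mt ι n R) : α.act A (0 : σ → R) = 0 :=
  map_zero (α.actL A)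

theorem act_sum {R : Type} [CommRing R] (A : Mt ι n R) {τ : Type} (s : Finset τ)
    (c : τ → σ → R) : α.act A (∑ i ∈ s, c i) = ∑ i ∈ s, α.act A (c i) :=
  map_sum (α.actL A) _ _

theorem act_inv_left {R : Type} [CommRing R] (A B : Mt ι n R) (h : A * B = 1) (c : σ → R) :
    α.act B (α.act A c) = c := by
  rw [α.act_act, h, α.act_one]

end RAct

theorem mul_inv_mt {K : Type} [Field K] (A : Mt ι n K) (hA : ∀ s, (A s).det ≠ 0) :
    A * (fun s => (A s)⁻¹) = 1 := by
  funext s
  exact Matrix.mul_nonsing_inv _ (isUnit_iff_ne_zero.mpr (hA s))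

theorem inv_mul_mt {K : Type} [Field K] (A : Mt ι n K) (hA : ∀ s, (A s).det ≠ 0) :
    (fun s => (A s)⁻¹) * A = 1 := by
  funext s
  exact Matrix.nonsing_inv_mul _ (isUnit_iff_ne_zero.mpr (hA s))

theorem inv_det_ne {K : Type} [Field K] (A : Mt ι n K) (hA : ∀ s, (A s).det ≠ 0) (s : ι) :
    ((A s)⁻¹).det ≠ 0 := by
  rw [Matrix.det_nonsing_inv, Ring.inverse_eq_inv']
  exact inv_ne_zero (hA s)

section field

variable {k : Type} [Field k]

/-- The orbit map of `c` as a vector of polynomials in the matrices. -/
def orb (c : σ → k) : σ → KJ ι n k := α.act (gmat ι n k) (fun p => C (c p))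

theorem eval_orb (A : Mt ι n k) (c : σ → k) (p : σ) :
    eval (ent A) (orb α c p) = α.act A c p := by
  unfold orb
  rw [α.map_act, gmat_map_eval]
  simp only [eval_C]

theorem aeval_orb {R : Type} [CommRing R] [Algebra k R] (A : Mt ι n R) (c : σ → k) (p : σ) :
    aeval (ent A) (orb α c p) = α.act A (fun q => algebraMap k R (c q)) p := by
  unfold orb
  have h1 := α.map_act (aeval (ent A) : KJ ι n k →ₐ[k] R).toRingHom (gmat ι n k)
    (fun p => C (c p)) p
  change aeval (ent A) (α.act (gmat ι n k) (fun p => C (c p)) p) = _ at h1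
  rw [h1]
  have h2 : (fun s => (gmat ι n k s).map (aeval (ent A) : KJ ι n k →ₐ[k] R).toRingHom) = A :=
    gmat_map_aeval (k := k) A
  rw [h2]
  congr 1
  funext q
  exact algHom_C _ _

theorem eval_aeval_orb (A : Mt ι n k) (c : σ → k) (P : MvPolynomial σ k) :
    eval (ent A) (aeval (orb α c) P) = eval (α.act A c) P := by
  have h1 : eval (ent A) (bind₁ (orb α c) P) = eval (fun i => eval (ent A) (orb α c i)) P :=
    eval_bind' _ _ _
  rw [aeval_eq_bind₁, h1]
  congr 2
  funext p
  exact eval_orb α A c p

theorem aeval_aeval_orb {R : Type} [CommRing R] [Algebra k R] (A : Mt ι n R) (c : σ → k)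
    (P : MvPolynomial σ k) :
    aeval (ent A) (aeval (orb α c) P) = aeval (α.act A (fun q => algebraMap k R (c q))) P := by
  have h1 := comp_aeval_apply (orb α c) (aeval (ent A) : KJ ι n k →ₐ[k] R) P
  rw [h1]
  congr 2
  funext p
  exact aeval_orb α A c p

/-- composition with the action -/
def compT (B : Mt ι n k) : MvPolynomial σ k →ₐ[k] MvPolynomial σ k :=
  aeval (α.act (fun s => (B s).map C) (X : σ → MvPolynomial σ k))

theorem eval_compT (B : Mt ι n k) (c : σ → k) (P : MvPolynomial σ k) :
    eval c (compT α B P) = eval (α.act B c) P := by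
  have h1 : eval c (bind₁ (α.act (fun s => (B s).map C) (X : σ → MvPolynomial σ k)) P) =
      eval (fun i => eval c (α.act (fun s => (B s).map C) (X : σ → MvPolynomial σ k) i)) P :=
    eval_bind' _ _ _
  unfold compT
  rw [aeval_eq_bind₁, h1]
  congr 2
  funext p
  have hB : (fun s => ((B s).map (C : k →+* MvPolynomial σ k)).map (eval c)) = B := by
    funext s
    ext i j
    simp only [Matrix.map_apply, eval_C]
  rw [α.map_act, hB]
  simp only [eval_X]

theorem aeval_compT {R : Type} [CommRing R] [Algebra k R] (B : Mt ι n k) (y : σ → R)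
    (P : MvPolynomial σ k) :
    aeval y (compT α B P) = aeval (α.act (fun s => (B s).map (algebraMap k R)) y) P := by
  unfold compT
  have h1 := comp_aeval_apply (α.act (fun s => (B s).map C) (X : σ → MvPolynomial σ k))
    (aeval y : MvPolynomial σ k →ₐ[k] R) P
  rw [h1]
  congr 2
  funext p
  have h2 := α.map_act (aeval y : MvPolynomial σ k →ₐ[k] R).toRingHom (fun s => (B s).map C)
    (X : σ → MvPolynomial σ k) p
  change aeval y (α.act (fun s => (B s).map C) (X : σ → MvPolynomial σ k) p) = _ at h2
  rw [h2]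
  congr 1
  · funext s
    ext i j
    simp
  · funext q
    exact aeval_X y q

theorem Rsub_aeval_orb [Infinite k] (B : Mt ι n k) (c : σ → k) (P : MvPolynomial σ k) :
    Rsub B (aeval (orb α c) P) = aeval (orb α c) (compT α B P) := by
  apply poly_ext
  intro A _
  rw [eval_Rsub, eval_aeval_orb, eval_aeval_orb, eval_compT, α.act_act]

theorem Lsub_aeval_orb [Infinite k] (B : Mt ι n k) (c : σ → k) (P : MvPolynomial σ k) :
    Lsub B (aeval (orb α c) P) = aeval (orb α (α.act B c)) P := by
  apply poly_ext
  intro A _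
  rw [eval_Lsub, eval_aeval_orb, eval_aeval_orb, α.act_act]

/-- `P` is a semi-invariant of weight `w`. -/
def IsSemi (w : ι → ℕ) (P : MvPolynomial σ k) : Prop :=
  ∀ (A : Mt ι n k) (c : σ → k), eval (α.act A c) P = detw w A * eval c P

variable {α}

theorem IsSemi.mul {w w' : ι → ℕ} {P Q : MvPolynomial σ k} (hP : IsSemi α w P)
    (hQ : IsSemi α w' Q) : IsSemi α (w + w') (P * Q) := by
  intro A c
  rw [map_mul, map_mul, hP A c, hQ A c, detw_add]
  ring

theorem IsSemi.add {w : ι → ℕ} {P Q : MvPolynomial σ k} (hP : IsSemi α w P)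
    (hQ : IsSemi α w Q) : IsSemi α w (P + Q) := by
  intro A c
  rw [map_add, map_add, hP A c, hQ A c]
  ring

theorem IsSemi.zero {w : ι → ℕ} : IsSemi α w (0 : MvPolynomial σ k) := by
  intro A c
  rw [map_zero, map_zero, mul_zero]

theorem IsSemi.one : IsSemi α (0 : ι → ℕ) (1 : MvPolynomial σ k) := by
  intro A c
  rw [map_one, map_one, detw_zero, one_mul]

theorem IsSemi.C_mul {w : ι → ℕ} {P : MvPolynomial σ k} (hP : IsSemi α w P) (a : k) :
    IsSemi α w (C a * P) := by
  intro A c
  rw [map_mul, map_mul, hP A c, eval_C, eval_C]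
  ring

theorem IsSemi.neg {w : ι → ℕ} {P : MvPolynomial σ k} (hP : IsSemi α w P) :
    IsSemi α w (-P) := by
  intro A c
  rw [map_neg, map_neg, hP A c]
  ring

theorem IsSemi.sub {w : ι → ℕ} {P Q : MvPolynomial σ k} (hP : IsSemi α w P)
    (hQ : IsSemi α w Q) : IsSemi α w (P - Q) := by
  rw [sub_eq_add_neg]
  exact hP.add hQ.neg

theorem IsSemi.pow {w : ι → ℕ} {P : MvPolynomial σ k} (hP : IsSemi α w P) (m : ℕ) :
    IsSemi α (m • w) (P ^ m) := by
  intro A c
  rw [map_pow, map_pow, hP A c, mul_pow, detw_smul]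

theorem IsSemi.sum {w : ι → ℕ} {τ : Type} (s : Finset τ) {P : τ → MvPolynomial σ k}
    (hP : ∀ i ∈ s, IsSemi α w (P i)) : IsSemi α w (∑ i ∈ s, P i) := by
  intro A c
  rw [map_sum, map_sum, Finset.mul_sum]
  exact Finset.sum_congr rfl fun i hi => hP i hi A c

variable (α)

theorem aeval_orb_semi [Infinite k] {w : ι → ℕ} {P : MvPolynomial σ k} (hP : IsSemi α w P)
    (c : σ → k) : aeval (orb α c) P = C (eval c P) * dtw n k w := by
  apply poly_ext
  intro A _
  rw [eval_aeval_orb, hP A c, map_mul, eval_C, eval_dtw]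
  ring

variable {α} in
/-- semi-invariance over arbitrary algebras -/
theorem IsSemi.aeval_act [Infinite k] {w : ι → ℕ} {P : MvPolynomial σ k} (hP : IsSemi α w P)
    {R : Type} [CommRing R] [Algebra k R] (A : Mt ι n R) (c : σ → R) :
    aeval (α.act A c) P = detw w A * aeval c P := by
  let T := MvPolynomial (Jx ι n ⊕ σ) k
  let gA : Mt ι n T := fun s => Matrix.of fun i j => X (Sum.inl (s, i, j))
  let gc : σ → T := fun p => X (Sum.inr p)
  have key : aeval (α.act gA gc) P = detw w gA * aeval gc P := by
    apply MvPolynomial.funext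
    intro x
    have e1 := comp_aeval_apply (α.act gA gc) (aeval x : T →ₐ[k] k) P
    have e2 := comp_aeval_apply gc (aeval x : T →ₐ[k] k) P
    have e3 : ∀ Q : T, aeval x Q = eval x Q := fun Q => by rw [← coe_aeval_eq_eval]; rfl
    rw [e3] at e1 e2
    rw [map_mul, e1, e2, map_detw]
    have e4 : (fun i => aeval x (α.act gA gc i)) =
        α.act (fun s => Matrix.of fun i j => x (Sum.inl (s, i, j))) (fun p => x (Sum.inr p)) := by
      funext p
      rw [e3, α.map_act]
      congr 1
      · funext s
        ext i j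
        simp [gA]
      · funext q
        simp [gc]
    have e5 : (fun i => aeval x (gc i)) = fun p => x (Sum.inr p) := by
      funext q
      simp [gc]
    have e6 : (fun s => (gA s).map (eval x)) =
        fun s => Matrix.of fun i j => x (Sum.inl (s, i, j)) := by
      funext s
      ext i j
      simp [gA]
    rw [e4, e5, e6]
    have e7 : ∀ (y : σ → k), aeval y P = eval y P := fun y => by rw [← coe_aeval_eq_eval]; rfl
    rw [e7, e7]
    exact hP _ _
  let φ : T →ₐ[k] R := aeval (Sum.elim (ent A) c)
  have h1 := congrArg φ key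
  rw [map_mul, comp_aeval_apply (α.act gA gc) φ P, comp_aeval_apply gc φ P] at h1
  have e1 : (fun i => φ (α.act gA gc i)) = α.act A c := by
    funext p
    have := α.map_act φ.toRingHom gA gc p
    change φ (α.act gA gc p) = _ at this
    rw [this]
    congr 1
    · funext s
      ext i j
      change φ (X (Sum.inl (s, i, j))) = _
      change aeval _ _ = _
      rw [aeval_X]
      rfl
    · funext q
      change aeval _ _ = _
      rw [aeval_X]
      rfl
  have e2 : (fun i => φ (gc i)) = c := by
    funext q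
    change aeval _ _ = _
    rw [aeval_X]
    rfl
  have e3 : φ (detw w gA) = detw w A := by
    have := map_detw φ.toRingHom w gA
    change φ (detw w gA) = _ at this
    rw [this]
    congr 1
    funext s
    ext i j
    change φ (X (Sum.inl (s, i, j))) = _
    change aeval _ _ = _
    rw [aeval_X]
    rfl
  rw [e1, e2, e3] at h1
  exact h1

/-- The generic form of `P(act A c)`. -/
def bigP (P : MvPolynomial σ k) : MvPolynomial σ (KJ ι n k) :=
  aeval (α.act (fun s => (gmat ι n k s).map C) (X : σ → MvPolynomial σ (KJ ι n k))) P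

theorem eval_bigP (c : σ → k) (P : MvPolynomial σ k) :
    eval (fun p => C (c p)) (bigP α P) = aeval (orb α c) P := by
  unfold bigP
  have h0 : (eval (fun p => (C (c p) : KJ ι n k))).comp
      (algebraMap k (MvPolynomial σ (KJ ι n k))) = algebraMap k (KJ ι n k) := by
    ext1 a
    rw [RingHom.comp_apply, IsScalarTower.algebraMap_apply k (KJ ι n k)
      (MvPolynomial σ (KJ ι n k)) a]
    exact eval_C _
  have hA : (fun s => ((gmat ι n k s).map (C : KJ ι n k →+* MvPolynomial σ (KJ ι n k))).map
      (eval (fun p => (C (c p) : KJ ι n k)))) = gmat ι n k := by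
    funext s
    ext i j : 2
    simp only [Matrix.map_apply, eval_C]
  rw [aeval_def, hom_eval₂, h0, aeval_def]
  congr 1
  funext p
  rw [α.map_act, hA]
  simp only [eval_X]
  rfl

variable [CharZero k]

/-- The Reynolds operator of weight `w`. -/
def sharp (w : ι → ℕ) (P : MvPolynomial σ k) : MvPolynomial σ k :=
  ∑ m ∈ (bigP α P).support, monomial m (rho w (coeff m (bigP α P)))

theorem eval_sharp (w : ι → ℕ) (c : σ → k) (P : MvPolynomial σ k) :
    eval c (sharp α w P) = rho w (aeval (orb α c) P) := by
  rw [← eval_bigP, eval_eq (fun p => C (c p)) (bigP α P), rho_sum]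
  unfold sharp
  rw [map_sum]
  refine Finset.sum_congr rfl fun m _ => ?_
  rw [eval_monomial]
  have h1 : (coeff m (bigP α P) * ∏ i ∈ m.support, (C (c i) : KJ ι n k) ^ m i) =
      C (∏ i ∈ m.support, c i ^ m i) * coeff m (bigP α P) := by
    rw [map_prod, mul_comm]
    simp only [C_pow]
  rw [h1, rho_smul, mul_comm]
  rfl

theorem isSemi_sharp (w : ι → ℕ) (P : MvPolynomial σ k) : IsSemi α w (sharp α w P) := by
  intro B c
  have hinf : Infinite k := inferInstance
  rw [eval_sharp, eval_sharp, ← Lsub_aeval_orb, rho_Lsub]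

theorem sharp_semi {w : ι → ℕ} {P : MvPolynomial σ k} (hP : IsSemi α w P) :
    sharp α w P = P := by
  have hinf : Infinite k := inferInstance
  apply MvPolynomial.funext
  intro c
  rw [eval_sharp, aeval_orb_semi α hP, rho_smul, rho_dtw, mul_one]

theorem sharp_add (w : ι → ℕ) (P Q : MvPolynomial σ k) :
    sharp α w (P + Q) = sharp α w P + sharp α w Q := by
  have hinf : Infinite k := inferInstance
  apply MvPolynomial.funext
  intro c
  rw [eval_sharp, map_add, rho_add, map_add, eval_sharp, eval_sharp]

theorem sharp_mul_semi (w : ι → ℕ) {v : ι → ℕ} {P : MvPolynomial σ k} (hP : IsSemi α v P)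
    (A : MvPolynomial σ k) : sharp α (w + v) (A * P) = sharp α w A * P := by
  have hinf : Infinite k := inferInstance
  apply MvPolynomial.funext
  intro c
  rw [eval_sharp, map_mul, aeval_orb_semi α hP, map_mul, eval_sharp]
  have h1 : aeval (orb α c) A * (C (eval c P) * dtw n k v) =
      C (eval c P) * (dtw n k v * aeval (orb α c) A) := by ring
  rw [h1, rho_smul, rho_det_mul, mul_comm]

theorem sharp_sum (w : ι → ℕ) {τ : Type} (s : Finset τ) (A : τ → MvPolynomial σ k) :
    sharp α w (∑ i ∈ s, A i) = ∑ i ∈ s, sharp α w (A i) := by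
  have hinf : Infinite k := inferInstance
  apply MvPolynomial.funext
  intro c
  rw [eval_sharp, map_sum, rho_sum, map_sum]
  exact Finset.sum_congr rfl fun i _ => (eval_sharp _ _ _ _).symm

theorem sharp_vanish (w : ι → ℕ) (P : MvPolynomial σ k) (c : σ → k)
    (h : ∀ A : Mt ι n k, (∀ s, (A s).det ≠ 0) → eval (α.act A c) P = 0) :
    eval c (sharp α w P) = 0 := by
  have hinf : Infinite k := inferInstance
  rw [eval_sharp]
  have h1 : aeval (orb α c) P = 0 := by
    apply poly_ext
    intro A hA
    rw [eval_aeval_orb, map_zero, h A hA]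
  rw [h1, rho_zero]

end field

end

end Pool.Agent.Helper819.Gr
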