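import Mathlib

/-!
A Jacobian criterion and principal prime ideals.
-/

open MvPolynomial

namespace Pool.Agent.Helper819.Gr

noncomputable section

set_option linter.unusedSectionVars false

section jac

variable {T : Type} [Fintype T] [DecidableEq T] {k : Type} [Field k]

theorem pderiv_aeval' {τ : Type} [DecidableEq τ] (φ : T → MvPolynomial τ k) (P : MvPolynomial T k)
    (t : τ) : pderiv t (aeval φ P) = ∑ p, aeval φ (pderiv p P) * pderiv t (φ p) := by
  induction P using MvPolynomial.induction_on with
  | C a =>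
    have : aeval φ (C a : MvPolynomial T k) = C a := algHom_C _ _
    rw [this]
    simp
  | add p q hp hq =>
    simp only [map_add, hp, hq, add_mul, Finset.sum_add_distrib]
  | mul_X p i hp =>
    rw [map_mul, aeval_X, Derivation.leibniz, hp, smul_eq_mul, smul_eq_mul]
    have h2 : ∀ q, aeval φ (pderiv q (p * X i)) =
        (if q = i then aeval φ p else 0) + φ i * aeval φ (pderiv q p) := by
      intro q
      rw [Derivation.leibniz, map_add, smul_eq_mul, smul_eq_mul, map_mul, map_mul, aeval_X]
      congr 1
      by_cases hq : q = i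
      · subst hq
        rw [pderiv_X_self, map_one, mul_one, if_pos rfl]
      · rw [pderiv_X_of_ne (fun h => hq h.symm), map_zero, mul_zero, if_neg hq]
    simp_rw [h2, add_mul, Finset.sum_add_distrib]
    congr 1
    · rw [Finset.sum_eq_single i]
      · rw [if_pos rfl]
      · intro b _ hb
        rw [if_neg hb, zero_mul]
      · simp
    · rw [Finset.mul_sum]
      exact Finset.sum_congr rfl fun q _ => by ring

theorem eq_C_of_pderiv [CharZero k] {P : MvPolynomial T k} (h : ∀ p, pderiv p P = 0) :
    P = C (coeff 0 P) := by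
  ext m
  rw [coeff_C]
  split_ifs with h0
  · rw [h0]
  · obtain ⟨i, hi⟩ := Finsupp.ne_iff.mp (Ne.symm h0)
    rw [Finsupp.zero_apply] at hi
    have h1 := congrArg (coeff (m - Finsupp.single i 1)) (h i)
    rw [coeff_pderiv, coeff_zero, tsub_add_cancel_of_le] at h1
    · rcases mul_eq_zero.mp h1 with h2 | h2
      · exact h2
      · exfalso
        have h3 : ((((m - Finsupp.single i 1 : T →₀ ℕ) i + 1 : ℕ)) : k) = 0 := by
          exact_mod_cast h2
        exact absurd (Nat.cast_eq_zero.mp h3) (Nat.succ_ne_zero _)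
    · rw [Finsupp.single_le_iff]
      omega

theorem totalDegree_pderiv_lt {P : MvPolynomial T k} (p : T) (h : pderiv p P ≠ 0) :
    (pderiv p P).totalDegree < P.totalDegree := by
  obtain ⟨m, hm⟩ : ∃ m ∈ (pderiv p P).support,
      (pderiv p P).totalDegree = m.sum fun _ e => e := by
    have hne : (pderiv p P).support.Nonempty := by
      rw [Finset.nonempty_iff_ne_empty, Ne, support_eq_empty]
      exact h
    obtain ⟨m, hm1, hm2⟩ := Finset.exists_mem_eq_sup _ hne (fun m => m.sum fun _ e => e)
    exact ⟨m, hm1, hm2⟩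
  rw [hm.2]
  have h1 : coeff (m + Finsupp.single p 1) P ≠ 0 := by
    have h2 := mem_support_iff.mp hm.1
    rw [coeff_pderiv] at h2
    exact left_ne_zero_of_mul h2
  have h2 := le_totalDegree (mem_support_iff.mpr h1)
  have h3 : (m + Finsupp.single p 1).sum (fun _ e => e) = m.sum (fun _ e => e) + 1 := by
    rw [Finsupp.sum_add_index']
    · simp
    · intro _; rfl
    · intro _ _ _; rfl
  omega

/-- Jacobian criterion for algebraic independence -/
theorem jac_indep [CharZero k] (φ : T → MvPolynomial T k)
    (hdet : (Matrix.of fun p t => pderiv t (φ p)).det ≠ 0) :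
    ∀ (m : ℕ) (P : MvPolynomial T k), P.totalDegree ≤ m → aeval φ P = 0 → P = 0 := by
  intro m
  induction m with
  | zero =>
    intro P hP h0
    rw [totalDegree_eq_zero_iff_eq_C.mp (Nat.le_zero.mp hP)] at h0 ⊢
    have : aeval φ (C (coeff 0 P) : MvPolynomial T k) = C (coeff 0 P) := algHom_C _ _
    rwa [this] at h0
  | succ m ih =>
    intro P hP h0
    have h1 : ∀ p, pderiv p P = 0 := by
      have h2 : (fun p => aeval φ (pderiv p P)) = 0 := by
        apply Matrix.eq_zero_of_vecMul_eq_zero hdet
        funext t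
        have h3 := pderiv_aeval' φ P t
        rw [h0, map_zero] at h3
        exact h3.symm
      intro p
      by_contra hne
      have h3 := totalDegree_pderiv_lt p hne
      exact hne (ih _ (by omega) (congrFun h2 p))
    rw [eq_C_of_pderiv h1] at h0 ⊢
    have : aeval φ (C (coeff 0 P) : MvPolynomial T k) = C (coeff 0 P) := algHom_C _ _
    rwa [this] at h0

end jac

section principal

/-- A nonzero prime ideal of `A[T]` which meets `A` trivially is principal. -/
theorem principal_poly {A : Type} [CommRing A] [IsDomain A] [UniqueFactorizationMonoid A]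
    (𝔭 : Ideal (Polynomial A)) (hp : 𝔭.IsPrime) (h0 : 𝔭 ≠ ⊥)
    (hA : ∀ a : A, Polynomial.C a ∈ 𝔭 → a = 0) :
    ∃ D, Prime D ∧ 𝔭 = Ideal.span {D} := by
  obtain ⟨D, hD, hDp⟩ := hp.exists_mem_prime_of_ne_bot h0
  refine ⟨D, hDp, ?_⟩
  apply le_antisymm
  swap
  · rw [Ideal.span_le]
    rintro _ rfl
    exact hD
  intro Q hQ
  have hprime : (Ideal.span {D}).IsPrime := (Ideal.span_singleton_prime hDp.ne_zero).mpr hDp
  let B := Polynomial A ⧸ Ideal.span {D}
  have hBdom : IsDomain B := Ideal.Quotient.isDomain _
  by_contra hne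
  let π : Polynomial A →+* B := Ideal.Quotient.mk (Ideal.span {D})
  have hAB : ∀ a : A, algebraMap A B a = π (Polynomial.C a) := fun a => rfl
  have hX : IsAlgebraic A (π Polynomial.X) := by
    refine ⟨D, hDp.ne_zero, ?_⟩
    have h1 : ∀ q : Polynomial A, Polynomial.aeval (π Polynomial.X) q = π q := by
      intro q
      induction q using Polynomial.induction_on with
      | C a => rw [Polynomial.aeval_C]; rfl
      | add p q hp hq => rw [map_add, map_add, hp, hq]
      | monomial n a _ =>
        rw [map_mul, map_pow, Polynomial.aeval_C, Polynomial.aeval_X, map_mul, map_pow]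
        rfl
    rw [h1]
    exact Ideal.Quotient.eq_zero_iff_mem.mpr (Ideal.mem_span_singleton_self D)
  have hinj : Function.Injective (algebraMap A B) := by
    rw [injective_iff_map_eq_zero]
    intro a ha
    apply hA
    have h1 : Polynomial.C a ∈ Ideal.span {D} := Ideal.Quotient.eq_zero_iff_mem.mp ha
    exact (Ideal.span_singleton_le_iff_mem _).mpr hD h1
  have hfs : FaithfulSMul A B := (faithfulSMul_iff_algebraMap_injective A B).mpr hinj
  have hall : ∀ q : Polynomial A, IsAlgebraic A (π q) := by
    intro q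
    induction q using Polynomial.induction_on with
    | C a => exact isAlgebraic_algebraMap a
    | add p q hp hq => rw [map_add]; exact hp.add hq
    | monomial n a _ =>
      rw [map_mul, map_pow]
      exact (isAlgebraic_algebraMap (A := B) a).mul (hX.pow _)
  have hQ0 : π Q ≠ 0 := fun h => hne (Ideal.Quotient.eq_zero_iff_mem.mp h)
  obtain ⟨r, hr, s, hs⟩ := (hall Q).exists_nonzero_dvd (mem_nonZeroDivisors_of_ne_zero hQ0)
  apply hr
  apply hA
  obtain ⟨s', rfl⟩ := Ideal.Quotient.mk_surjective s
  have h1 : π (Polynomial.C r - Q * s') = 0 := by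
    rw [map_sub, map_mul, sub_eq_zero]
    exact hs
  have h2 := Ideal.Quotient.eq_zero_iff_mem.mp h1
  have h3 : Polynomial.C r = (Polynomial.C r - Q * s') + Q * s' := by ring
  rw [h3]
  exact 𝔭.add_mem ((Ideal.span_singleton_le_iff_mem _).mpr hD h2) (𝔭.mul_mem_right _ hQ)

/-- A nonzero prime ideal of a polynomial ring which contains no polynomial in all but one of the
variables is principal. -/
theorem principal_mv {σ : Type} [Fintype σ] [DecidableEq σ] {k : Type} [Field k] (p0 : σ)
    (𝔭 : Ideal (MvPolynomial σ k)) (hp : 𝔭.IsPrime) (h0 : 𝔭 ≠ ⊥)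
    (hA : ∀ a : MvPolynomial {p : σ // p ≠ p0} k, rename Subtype.val a ∈ 𝔭 → a = 0) :
    ∃ D, Prime D ∧ 𝔭 = Ideal.span {D} := by
  let e : Option {p : σ // p ≠ p0} ≃ σ :=
    { toFun := fun o => o.elim p0 Subtype.val
      invFun := fun p => if h : p = p0 then none else some ⟨p, h⟩
      left_inv := by
        intro o
        cases o with
        | none => simp
        | some p => simp [p.2]
      right_inv := by
        intro p
        by_cases h : p = p0
        · simp [h]
        · simp [h] }
  let E : Polynomial (MvPolynomial {p : σ // p ≠ p0} k) ≃ₐ[k] MvPolynomial σ k :=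
    (optionEquivLeft k {p : σ // p ≠ p0}).symm.trans (renameEquiv k e)
  have hEC : ∀ a, E (Polynomial.C a) = rename Subtype.val a := by
    intro a
    induction a using MvPolynomial.induction_on with
    | C a =>
      change rename e ((optionEquivLeft k {p : σ // p ≠ p0}).symm (Polynomial.C (C a))) = _
      rw [optionEquivLeft_symm_C_C, rename_C, rename_C]
    | add p q hp hq => rw [map_add, map_add, map_add, hp, hq]
    | mul_X p i hp =>
      rw [map_mul, map_mul, map_mul, hp, rename_X]
      congr 1
      change rename e ((optionEquivLeft k {p : σ // p ≠ p0}).symm (Polynomial.C (X i))) = _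
      rw [optionEquivLeft_symm_C_X, rename_X]
      rfl
  let 𝔮 : Ideal (Polynomial (MvPolynomial {p : σ // p ≠ p0} k)) := 𝔭.comap E
  have hq : 𝔮.IsPrime := Ideal.IsPrime.comap E
  obtain ⟨D, hD, hqD⟩ := principal_poly 𝔮 hq (by
    intro hbot
    apply h0
    rw [eq_bot_iff]
    intro x hx
    have h1 : E.symm x ∈ 𝔮 := by
      change E (E.symm x) ∈ 𝔭
      rwa [AlgEquiv.apply_symm_apply]
    rw [hbot, Ideal.mem_bot] at h1
    rw [Ideal.mem_bot]
    exact (map_eq_zero_iff E.symm E.symm.injective).mp h1) (by
    intro a ha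
    apply hA
    rw [← hEC]
    exact ha)
  refine ⟨E D, (MulEquiv.prime_iff E.toMulEquiv).mpr hD, ?_⟩
  ext x
  have h1 : x ∈ 𝔭 ↔ E.symm x ∈ 𝔮 := by
    change _ ↔ E (E.symm x) ∈ 𝔭
    rw [AlgEquiv.apply_symm_apply]
  rw [h1, hqD, Ideal.mem_span_singleton, Ideal.mem_span_singleton]
  constructor
  · rintro ⟨y, hy⟩
    refine ⟨E y, ?_⟩
    rw [← map_mul, ← hy, AlgEquiv.apply_symm_apply]
  · rintro ⟨y, hy⟩
    refine ⟨E.symm y, ?_⟩
    rw [hy, map_mul, AlgEquiv.symm_apply_apply]

end principal

end

end Pool.Agent.Helper819.Gr
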