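import Pool.Agent.Helper819.Gr.Rey

/-!
Polynomial characters of products of general linear groups.
-/

open MvPolynomial

namespace Pool.Agent.Helper819.Gr

open Pool.Agent.Helper819.Apolar

noncomputable section

set_option linter.unusedSectionVars false

variable {k : Type} [Field k] [Infinite k]

theorem mult_poly (g : Polynomial k) (h : ∀ a b, g.eval (a * b) = g.eval a * g.eval b)
    (h1 : g.eval 1 = 1) : ∃ r : ℕ, ∀ a, g.eval a = a ^ r := by
  have hg : g ≠ 0 := by
    rintro rfl
    rw [Polynomial.eval_zero] at h1
    exact zero_ne_one h1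
  refine ⟨g.natDegree, fun a => ?_⟩
  have h2 : g.comp (Polynomial.C a * Polynomial.X) = Polynomial.C (g.eval a) * g := by
    apply Polynomial.funext
    intro b
    rw [Polynomial.eval_comp, Polynomial.eval_mul, Polynomial.eval_mul, Polynomial.eval_C,
      Polynomial.eval_C, Polynomial.eval_X, h]
  have h3 := congrArg (fun q => Polynomial.coeff q g.natDegree) h2
  simp only [Polynomial.comp_C_mul_X_coeff, Polynomial.coeff_C_mul] at h3
  have h4 : g.coeff g.natDegree ≠ 0 := Polynomial.leadingCoeff_ne_zero.mpr hg
  rw [mul_comm] at h3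
  exact (mul_right_cancel₀ h4 h3).symm

theorem add_poly (g : Polynomial k) (h : ∀ a b, g.eval (a + b) = g.eval a * g.eval b)
    (h1 : g.eval 0 = 1) : ∀ a, g.eval a = 1 := by
  have h2 : g * g.comp (-Polynomial.X) = 1 := by
    apply Polynomial.funext
    intro b
    rw [Polynomial.eval_mul, Polynomial.eval_comp, Polynomial.eval_neg, Polynomial.eval_X, ← h,
      add_neg_cancel, h1, Polynomial.eval_one]
  have h3 : IsUnit g := IsUnit.of_mul_eq_one _ h2
  have h4 := Polynomial.natDegree_eq_zero_of_isUnit h3
  obtain ⟨c, rfl⟩ := Polynomial.natDegree_eq_zero.mp h4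
  intro a
  rw [Polynomial.eval_C] at h1 ⊢
  exact h1

theorem char_one {N : ℕ} (c : MvPolynomial (Fin (N + 1) × Fin (N + 1)) k)
    (h1 : eval (Apolar.ent (1 : Matrix (Fin (N + 1)) (Fin (N + 1)) k)) c = 1)
    (hmul : ∀ A B : Matrix (Fin (N + 1)) (Fin (N + 1)) k,
      eval (Apolar.ent (A * B)) c = eval (Apolar.ent A) c * eval (Apolar.ent B) c) :
    ∃ r : ℕ, ∀ A : Matrix (Fin (N + 1)) (Fin (N + 1)) k, A.det ≠ 0 →
      eval (Apolar.ent A) c = A.det ^ r := by
  classical
  let f : Matrix (Fin (N + 1)) (Fin (N + 1)) k → k := fun A => eval (Apolar.ent A) c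
  have hf1 : f 1 = 1 := h1
  have hfm : ∀ A B, f (A * B) = f A * f B := hmul
  -- polynomial paths
  have hpath : ∀ M : Matrix (Fin (N + 1)) (Fin (N + 1)) (Polynomial k),
      ∃ g : Polynomial k, ∀ a, g.eval a = f (M.map (Polynomial.eval a)) := by
    intro M
    refine ⟨aeval (fun p => M p.1 p.2) c, fun a => ?_⟩
    have h2 := comp_aeval_apply (fun p => M p.1 p.2) (Polynomial.aeval a : Polynomial k →ₐ[k] k) c
    change (Polynomial.aeval a : Polynomial k →ₐ[k] k) _ = _
    rw [h2]
    rfl
  -- diagonal elements
  have hdiag : ∀ i : Fin (N + 1), ∃ r : ℕ, ∀ a,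
      f (Matrix.diagonal (Function.update 1 i a)) = a ^ r := by
    intro i
    obtain ⟨g, hg⟩ := hpath (Matrix.diagonal (Function.update 1 i Polynomial.X))
    have hg' : ∀ a, g.eval a = f (Matrix.diagonal (Function.update 1 i a)) := by
      intro a
      rw [hg]
      congr 1
      ext p q
      rw [Matrix.map_apply]
      by_cases hpq : p = q
      · subst hpq
        rw [Matrix.diagonal_apply_eq, Matrix.diagonal_apply_eq]
        by_cases hp : p = i
        · subst hp; simp
        · rw [Function.update_of_ne hp, Function.update_of_ne hp]; simp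
      · rw [Matrix.diagonal_apply_ne _ hpq, Matrix.diagonal_apply_ne _ hpq]; simp
    obtain ⟨r, hr⟩ := mult_poly g (by
      intro a b
      rw [hg', hg', hg', ← hfm, Matrix.diagonal_mul_diagonal]
      congr 2
      funext p
      by_cases hp : p = i
      · subst hp; simp
      · simp [Function.update_of_ne hp]) (by
      rw [hg']
      have : (Function.update 1 i 1 : Fin (N + 1) → k) = 1 := Function.update_eq_self i 1
      rw [this]
      change f (Matrix.diagonal (fun _ => 1)) = 1
      rw [Matrix.diagonal_one, hf1])
    exact ⟨r, fun a => by rw [← hg', hr]⟩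
  choose r hr using hdiag
  -- all exponents agree
  have hrij : ∀ (i j : Fin (N + 1)) (a : k), a ^ r i = a ^ r j := by
    intro i j a
    let P : Matrix (Fin (N + 1)) (Fin (N + 1)) k :=
      Matrix.of fun p q => if q = Equiv.swap i j p then 1 else 0
    have hPP : P * P = 1 := by
      ext p q
      rw [Matrix.mul_apply, Finset.sum_eq_single (Equiv.swap i j p)]
      · simp only [P, Matrix.of_apply, Equiv.swap_apply_self, if_true, one_mul]
        rw [Matrix.one_apply]
        simp only [eq_comm]
      · intro b _ hb
        simp [P, hb]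
      · simp
    have hPf : f P ≠ 0 := by
      intro h0
      have h2 := hfm P P
      rw [hPP, hf1, h0, zero_mul] at h2
      exact one_ne_zero h2
    have hconj : P * Matrix.diagonal (Function.update 1 i a) =
        Matrix.diagonal (Function.update 1 j a) * P := by
      ext p q
      rw [Matrix.mul_diagonal, Matrix.diagonal_mul]
      simp only [P, Matrix.of_apply]
      by_cases hq : q = Equiv.swap i j p
      · rw [if_pos hq, one_mul, mul_one, hq]
        by_cases hp : p = j
        · subst hp; simp
        · rw [Function.update_of_ne hp]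
          rw [Function.update_of_ne]
          · rfl
          · intro h2
            apply hp
            have h3 := congrArg (Equiv.swap i j) h2
            rwa [Equiv.swap_apply_self, Equiv.swap_apply_left] at h3
      · rw [if_neg hq, zero_mul, mul_zero]
    have h2 := congrArg f hconj
    rw [hfm, hfm, hr, hr, mul_comm] at h2
    exact mul_right_cancel₀ hPf h2
  have hD : ∀ (S : Finset (Fin (N + 1))) (d : Fin (N + 1) → k),
      f (Matrix.diagonal (fun p => if p ∈ S then d p else 1)) = ∏ p ∈ S, d p ^ r 0 := by
    intro S d
    induction S using Finset.induction_on with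
    | empty =>
      simp only [Finset.notMem_empty, if_false, Finset.prod_empty]
      rw [Matrix.diagonal_one, hf1]
    | insert i S hi ih =>
      rw [Finset.prod_insert hi, ← ih, hrij 0 i, ← hr, ← hfm, Matrix.diagonal_mul_diagonal]
      congr 2
      funext p
      by_cases hp : p = i
      · subst hp
        simp [hi]
      · simp [Function.update_of_ne hp, hp]
  refine ⟨r 0, fun A hA => ?_⟩
  refine Matrix.diagonal_transvection_induction_of_det_ne_zero
    (fun A => f A = A.det ^ r 0) A hA ?_ ?_ ?_
  · intro D _
    have h2 := hD Finset.univ D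
    simp only [Finset.mem_univ, if_true] at h2
    rw [h2, Matrix.det_diagonal, Finset.prod_pow]
  · intro t
    obtain ⟨g, hg⟩ := hpath (Matrix.transvection t.i t.j Polynomial.X)
    have hg' : ∀ a, g.eval a = f (Matrix.transvection t.i t.j a) := by
      intro a
      rw [hg]
      congr 1
      ext p q
      unfold Matrix.transvection
      rw [Matrix.map_apply, Matrix.add_apply, Matrix.add_apply, Matrix.one_apply,
        Matrix.one_apply, Matrix.single_apply, Matrix.single_apply]
      split_ifs <;> simp
    have h2 := add_poly g (by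
      intro a b
      rw [hg', hg', hg', ← hfm, Matrix.transvection_mul_transvection_same t.i t.j t.hij]) (by
      rw [hg', Matrix.transvection_zero, hf1])
    change f (Matrix.transvection t.i t.j t.c) = _
    rw [← hg', h2, Matrix.TransvectionStruct.det, one_pow]
  · intro A B _ _ hA hB
    change f (A * B) = _
    rw [hfm, hA, hB, Matrix.det_mul, mul_pow]

variable {ι : Type} [Fintype ι] [DecidableEq ι]

theorem char_mt {N : ℕ} (c : KJ ι (N + 1) k) (h1 : eval (ent (1 : Mt ι (N + 1) k)) c = 1)
    (hmul : ∀ A B : Mt ι (N + 1) k, eval (ent (A * B)) c = eval (ent A) c * eval (ent B) c) :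
    ∃ r : ι → ℕ, ∀ A : Mt ι (N + 1) k, (∀ s, (A s).det ≠ 0) →
      eval (ent A) c = detw r A := by
  have hs : ∀ s : ι, ∃ r : ℕ, ∀ M : Matrix (Fin (N + 1)) (Fin (N + 1)) k, M.det ≠ 0 →
      eval (ent (Pi.mulSingle s M : Mt ι (N + 1) k)) c = M.det ^ r := by
    intro s
    let c' : MvPolynomial (Fin (N + 1) × Fin (N + 1)) k :=
      bind₁ (fun p : Jx ι (N + 1) => if p.1 = s then X p.2 else
        C ((1 : Matrix (Fin (N + 1)) (Fin (N + 1)) k) p.2.1 p.2.2)) c
    have hc' : ∀ M : Matrix (Fin (N + 1)) (Fin (N + 1)) k, eval (Apolar.ent M) c' =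
        eval (ent (Pi.mulSingle s M : Mt ι (N + 1) k)) c := by
      intro M
      change eval _ (bind₁ _ c) = _
      rw [eval_bind']
      congr 2
      funext p
      by_cases hp : p.1 = s
      · rw [if_pos hp, eval_X]
        unfold ent
        rw [hp, Pi.mulSingle_eq_same]
        rfl
      · rw [if_neg hp, eval_C]
        unfold ent
        rw [Pi.mulSingle_eq_of_ne hp]
    obtain ⟨r, hr⟩ := char_one c' (by
      rw [hc', Pi.mulSingle_one, h1]) (by
      intro A B
      rw [hc', hc', hc', Pi.mulSingle_mul, hmul])
    exact ⟨r, fun M hM => by rw [← hc', hr M hM]⟩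
  choose r hr using hs
  refine ⟨r, fun A hA => ?_⟩
  have key : ∀ S : Finset ι, eval (ent (fun s => if s ∈ S then A s else 1 : Mt ι (N + 1) k)) c =
      ∏ s ∈ S, (A s).det ^ r s := by
    intro S
    induction S using Finset.induction_on with
    | empty =>
      simp only [Finset.notMem_empty, if_false, Finset.prod_empty]
      exact h1
    | insert s S hs ih =>
      rw [Finset.prod_insert hs, ← ih, ← hr s (A s) (hA s), ← hmul]
      congr 2
      have : (fun t => if t ∈ insert s S then A t else 1 : Mt ι (N + 1) k) =
          Pi.mulSingle s (A s) * (fun t => if t ∈ S then A t else 1) := by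
        funext t
        rw [Pi.mul_apply]
        by_cases ht : t = s
        · subst ht
          simp [hs]
        · rw [Pi.mulSingle_eq_of_ne ht]
          simp [ht]
      rw [this]
  have h2 := key Finset.univ
  simp only [Finset.mem_univ, if_true] at h2
  exact h2

end

end Pool.Agent.Helper819.Gr
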