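import Pool.Agent.Helper819.Gr.Res1
import Pool.Agent.Helper819.Gr.Res2
import Pool.Agent.Helper819.Gr.Lead3
import Pool.Agent.Helper819.OpenU

/-!
The resultant: generator of the ideal of degenerate tuples.
-/

open MvPolynomial

namespace Pool.Agent.Helper819.Gr

open Pool.Agent.Helper819.Apolar Pool.Agent.Helper819.Dyn

noncomputable section

set_option linter.unusedSectionVars false

variable {k : Type} [Field k] {N e : ℕ}

/-- the exponent of the last pure power -/
def al (N e : ℕ) : Ex N e := ⟨Finsupp.single (Fin.last N) e, (mem_Ex _).mpr (Finsupp.degree_single _ _)⟩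

/-- the omitted coordinate -/
def p0 (N e : ℕ) : Ix N e := (Fin.last N, al N e)

/-- the remaining coordinates -/
abbrev Tx (N e : ℕ) : Type := {p : Ix N e // p ≠ p0 N e}

instance : DecidableEq (Ix N e) := inferInstance

/-- the parameters -/
def tv (k : Type) [Field k] (p : Ix N e) : MvPolynomial (Tx N e) k :=
  if h : p = p0 N e then 0 else X ⟨p, h⟩

/-- the coordinates of the common zero -/
def xt (k : Type) [Field k] (N e : ℕ) (m : Fin (N + 1)) : MvPolynomial (Tx N e) k :=
  if m = Fin.last N then 1 else tv k (m, al N e)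

/-- the coordinates of the degenerate tuple -/
def ph (k : Type) [Field k] (p : Ix N e) : MvPolynomial (Tx N e) k :=
  if p.2 = al N e then
    -∑ β ∈ Finset.univ.erase (al N e), tv k (p.1, β) * ∏ m, xt k N e m ^ β.1 m
  else tv k p

/-- the parametrisation of degenerate tuples -/
def th (k : Type) [Field k] (N e : ℕ) : MvPolynomial (Ix N e) k →ₐ[k] MvPolynomial (Tx N e) k :=
  aeval (ph k)

theorem eval_tup_sum {R : Type} [CommRing R] (c : Ix N e → R) (i : Fin (N + 1))
    (x : Fin (N + 1) → R) : eval x (tup c i) = ∑ β : Ex N e, c (i, β) * ∏ m, x m ^ β.1 m := by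
  unfold tup
  rw [map_sum]
  refine Finset.sum_congr rfl fun β _ => ?_
  rw [eval_monomial, Finsupp.prod_fintype]
  intro m
  rw [pow_zero]

/-- every degenerate tuple with a zero in the last chart is parametrised -/
theorem th_point {K : Type} [Field K] [Algebra k K] (c : Ix N e → K) (x : Fin (N + 1) → K)
    (hx : x (Fin.last N) = 1) (h : ∀ i, eval x (tup c i) = 0) :
    ∃ t : Tx N e → K, ∀ P : MvPolynomial (Ix N e) k, aeval t (th k N e P) = aeval c P := by
  classical
  let t : Tx N e → K := fun p => if p.1.2 = al N e then x p.1.1 else c p.1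
  have htv : ∀ p : Ix N e, p ≠ p0 N e → aeval t (tv k p) =
      if p.2 = al N e then x p.1 else c p := by
    intro p hp
    unfold tv
    rw [dif_neg hp, aeval_X]
  have hxt : ∀ m, aeval t (xt k N e m) = x m := by
    intro m
    unfold xt
    split_ifs with hm
    · rw [hm, hx, map_one]
    · rw [htv, if_pos rfl]
      intro h'
      exact hm (congrArg Prod.fst h')
  have hph : ∀ p, aeval t (ph k p) = c p := by
    rintro ⟨i, β⟩
    unfold ph
    by_cases hβ : β = al N e
    · subst hβ
      rw [if_pos rfl, map_neg, map_sum]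
      have h1 := h i
      rw [eval_tup_sum, ← Finset.add_sum_erase _ _ (Finset.mem_univ (al N e))] at h1
      have h2 : ∏ m, x m ^ (al N e).1 m = 1 := by
        rw [Finset.prod_eq_single (Fin.last N)]
        · rw [hx, one_pow]
        · intro b _ hb
          have : (al N e).1 b = 0 := by
            change (Finsupp.single (Fin.last N) e) b = 0
            rw [Finsupp.single_apply, if_neg (fun h' => hb h'.symm)]
          rw [this, pow_zero]
        · simp
      rw [h2, mul_one] at h1
      have h3 : ∑ β ∈ Finset.univ.erase (al N e), aeval t (tv k (i, β) *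
          ∏ m, xt k N e m ^ β.1 m) =
          ∑ β ∈ Finset.univ.erase (al N e), c (i, β) * ∏ m, x m ^ β.1 m := by
        refine Finset.sum_congr rfl fun β hβ => ?_
        have hβ' : β ≠ al N e := Finset.ne_of_mem_erase hβ
        rw [map_mul, map_prod, htv _ (fun h' => hβ' (congrArg Prod.snd h')), if_neg hβ']
        congr 1
        refine Finset.prod_congr rfl fun m _ => ?_
        rw [map_pow, hxt]
      rw [h3]
      exact (eq_neg_of_add_eq_zero_left h1).symm
    · rw [if_neg hβ, htv _ (fun h' => hβ (congrArg Prod.snd h')), if_neg hβ]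
  refine ⟨t, fun P => ?_⟩
  unfold th
  rw [comp_aeval_apply (ph k) (aeval t : MvPolynomial (Tx N e) k →ₐ[k] K) P]
  congr 2
  funext p
  exact hph p

/-- parametrised tuples are degenerate -/
theorem th_deg (t : Tx N e → k) : (∀ i, eval (fun m => eval t (xt k N e m))
    (tup (fun p => eval t (ph k p)) i) = 0) := by
  classical
  intro i
  have h2 : ∏ m, eval t (xt k N e m) ^ (al N e).1 m = 1 := by
    rw [Finset.prod_eq_single (Fin.last N)]
    · unfold xt
      rw [if_pos rfl, map_one, one_pow]
    · intro b _ hb
      have : (al N e).1 b = 0 := by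
        change (Finsupp.single (Fin.last N) e) b = 0
        rw [Finsupp.single_apply, if_neg (fun h' => hb h'.symm)]
      rw [this, pow_zero]
    · simp
  rw [eval_tup_sum, ← Finset.add_sum_erase _ _ (Finset.mem_univ (al N e)), h2, mul_one]
  have h3 : eval t (ph k (i, al N e)) = -∑ β ∈ Finset.univ.erase (al N e),
      eval t (tv k (i, β)) * ∏ m, eval t (xt k N e m) ^ β.1 m := by
    unfold ph
    rw [if_pos rfl, map_neg, map_sum]
    congr 1
    refine Finset.sum_congr rfl fun β _ => ?_
    rw [map_mul, map_prod]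
    simp only [map_pow]
  rw [h3]
  have h4 : ∑ β ∈ Finset.univ.erase (al N e), eval t (ph k (i, β)) *
      ∏ m, eval t (xt k N e m) ^ β.1 m = ∑ β ∈ Finset.univ.erase (al N e),
      eval t (tv k (i, β)) * ∏ m, eval t (xt k N e m) ^ β.1 m := by
    refine Finset.sum_congr rfl fun β hβ => ?_
    unfold ph
    rw [if_neg (Finset.ne_of_mem_erase hβ)]
  rw [h4]
  ring

theorem xt_last (t : Tx N e → k) : eval t (xt k N e (Fin.last N)) = 1 := by
  unfold xt
  rw [if_pos rfl, map_one]

theorem not_NZ_th (t : Tx N e → k) : ¬ NZ (tup (fun p => eval t (ph k p))) := by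
  intro h
  have h1 := congrFun (h _ (th_deg t)) (Fin.last N)
  rw [xt_last] at h1
  exact one_ne_zero h1

theorem eval_th (t : Tx N e → k) (P : MvPolynomial (Ix N e) k) :
    eval t (th k N e P) = eval (fun p => eval t (ph k p)) P := by
  have h1 := comp_aeval_apply (ph k) (aeval t : MvPolynomial (Tx N e) k →ₐ[k] k) P
  rw [aeval_eq_eval_self] at h1
  unfold th
  rw [h1, aeval_eq_eval_self]
  rfl

/-- the remaining coordinates are independent -/
theorem th_indep [CharZero k] (he : 1 ≤ e) (P : MvPolynomial (Tx N e) k)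
    (h : th k N e (rename Subtype.val P) = 0) : P = 0 := by
  classical
  have hφ : aeval (fun p : Tx N e => ph k p.1) P = 0 := by
    unfold th at h
    rw [aeval_rename] at h
    exact h
  refine jac_indep (fun p : Tx N e => ph k p.1) ?_ P.totalDegree P le_rfl hφ
  -- the special exponents
  let bs : Fin (N + 1) → Fin (N + 1) →₀ ℕ := fun i =>
    Finsupp.single (Fin.last N) (e - 1) + Finsupp.single i 1
  have hbs : ∀ i, bs i ∈ Finset.finsuppAntidiag Finset.univ e := by
    intro i
    rw [mem_Ex, map_add, Finsupp.degree_single, Finsupp.degree_single]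
    omega
  let B : Fin (N + 1) → Ex N e := fun i => ⟨bs i, hbs i⟩
  have hBal : ∀ i, i ≠ Fin.last N → B i ≠ al N e := by
    intro i hi h'
    have h1 : bs i = Finsupp.single (Fin.last N) e := congrArg Subtype.val h'
    have h2 := DFunLike.congr_fun h1 i
    have h3 : (bs i) i = 1 := by
      change (Finsupp.single (Fin.last N) (e - 1) + Finsupp.single i 1 : Fin (N + 1) →₀ ℕ) i = 1
      rw [Finsupp.add_apply, Finsupp.single_apply, Finsupp.single_apply, if_pos rfl,
        if_neg (fun h' => hi h'.symm)]
    rw [h3, Finsupp.single_apply, if_neg (fun h' => hi h'.symm)] at h2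
    exact one_ne_zero h2
  let t0 : Tx N e → k := fun p => if p.1.2 = B p.1.1 then 1 else 0
  have htv0 : ∀ i β, i ≠ Fin.last N → eval t0 (tv k (i, β)) = if β = B i then 1 else 0 := by
    intro i β hi
    unfold tv
    rw [dif_neg (fun h' => hi (congrArg Prod.fst h')), eval_X]
  have hxt0 : ∀ m, m ≠ Fin.last N → eval t0 (xt k N e m) = 0 := by
    intro m hm
    unfold xt
    rw [if_neg hm, htv0 m _ hm, if_neg (fun h' => hBal m hm h'.symm)]
  have hmon : ∀ β : Ex N e, β ≠ al N e → eval t0 (∏ m, xt k N e m ^ β.1 m) = 0 := by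
    intro β hβ
    have h1 : ∃ m, m ≠ Fin.last N ∧ β.1 m ≠ 0 := by
      by_contra hcon
      push Not at hcon
      apply hβ
      apply Subtype.ext
      change β.1 = Finsupp.single (Fin.last N) e
      have hdeg := (mem_Ex β.1).mp β.2
      rw [Finsupp.degree_eq_sum, Finset.sum_eq_single (Fin.last N)] at hdeg
      · ext m
        rw [Finsupp.single_apply]
        by_cases hm : Fin.last N = m
        · rw [if_pos hm, ← hm, hdeg]
        · rw [if_neg hm, hcon m (fun h' => hm h'.symm)]
      · intro b _ hb
        exact hcon b hb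
      · simp
    obtain ⟨m, hm1, hm2⟩ := h1
    rw [map_prod]
    apply Finset.prod_eq_zero (Finset.mem_univ m)
    rw [map_pow, hxt0 m hm1, zero_pow hm2]
  have hBmon : ∀ i, i ≠ Fin.last N → ∏ m, xt k N e m ^ (B i).1 m = tv k (i, al N e) := by
    intro i hi
    rw [← Finset.mul_prod_erase _ _ (Finset.mem_univ i),
      ← Finset.mul_prod_erase (Finset.univ.erase i) _
        (Finset.mem_erase.mpr ⟨fun h' => hi h'.symm, Finset.mem_univ (Fin.last N)⟩)]
    have h1 : (B i).1 i = 1 := by
      change (Finsupp.single (Fin.last N) (e - 1) + Finsupp.single i 1 : Fin (N + 1) →₀ ℕ) i = 1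
      rw [Finsupp.add_apply, Finsupp.single_apply, Finsupp.single_apply, if_pos rfl,
        if_neg (fun h' => hi h'.symm)]
    rw [h1, pow_one, Finset.prod_eq_one, mul_one]
    · unfold xt
      rw [if_neg hi, if_pos rfl, one_pow, mul_one]
    · intro m hm
      have hm1 : m ≠ Fin.last N := Finset.ne_of_mem_erase hm
      have hm2 : m ≠ i := Finset.ne_of_mem_erase (Finset.mem_of_mem_erase hm)
      have : (B i).1 m = 0 := by
        change (Finsupp.single (Fin.last N) (e - 1) + Finsupp.single i 1 : Fin (N + 1) →₀ ℕ) m = 0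
        rw [Finsupp.add_apply, Finsupp.single_apply, Finsupp.single_apply,
          if_neg (fun h' => hm1 h'.symm), if_neg (fun h' => hm2 h'.symm), add_zero]
      rw [this, pow_zero]
  -- the Jacobian at t0
  have hJ : ∀ p t : Tx N e, eval t0 (pderiv t (ph k p.1)) =
      if p = t then (if p.1.2 = al N e then -1 else 1) else 0 := by
    rintro ⟨⟨i, β⟩, hp⟩ t
    unfold ph
    by_cases hβ : β = al N e
    · subst hβ
      have hi : i ≠ Fin.last N := by
        rintro rfl
        exact hp rfl
      simp only [if_true]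
      rw [map_neg, map_neg, map_sum, map_sum]
      have h1 : ∀ β ∈ Finset.univ.erase (al N e), eval t0 (pderiv t (tv k (i, β) *
          ∏ m, xt k N e m ^ β.1 m)) = if β = B i then eval t0 (pderiv t (tv k (i, al N e)))
            else 0 := by
        intro β hβ
        rw [Derivation.leibniz, map_add, smul_eq_mul, smul_eq_mul, map_mul, map_mul,
          hmon β (Finset.ne_of_mem_erase hβ), zero_mul, add_zero, htv0 i β hi]
        split_ifs with h2
        · rw [one_mul, h2, hBmon i hi]
        · rw [zero_mul]
      rw [Finset.sum_congr rfl h1, Finset.sum_ite_eq', if_pos (Finset.mem_erase.mpr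
        ⟨hBal i hi, Finset.mem_univ _⟩)]
      unfold tv
      rw [dif_neg hp]
      by_cases ht : (⟨(i, al N e), hp⟩ : Tx N e) = t
      · rw [← ht, pderiv_X_self, map_one, if_pos rfl]
      · rw [pderiv_X_of_ne ht, map_zero, neg_zero, if_neg ht]
    · simp only [if_neg hβ]
      unfold tv
      rw [dif_neg hp]
      by_cases ht : (⟨(i, β), hp⟩ : Tx N e) = t
      · rw [← ht, pderiv_X_self, map_one, if_pos rfl]
      · rw [pderiv_X_of_ne ht, map_zero, if_neg ht]
  intro h0
  have h1 := congrArg (eval t0) h0
  rw [map_zero, RingHom.map_det] at h1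
  have h2 : (eval t0).mapMatrix (Matrix.of fun p t : Tx N e => pderiv t (ph k p.1)) =
      Matrix.diagonal (fun p : Tx N e => if p.1.2 = al N e then (-1 : k) else 1) := by
    ext p t
    rw [RingHom.mapMatrix_apply, Matrix.map_apply, Matrix.of_apply, hJ, Matrix.diagonal_apply]
  rw [h2, Matrix.det_diagonal, Finset.prod_eq_zero_iff] at h1
  obtain ⟨p, _, hp⟩ := h1
  split_ifs at hp
  · exact one_ne_zero (neg_eq_zero.mp hp)
  · exact one_ne_zero hp

end

end Pool.Agent.Helper819.Gr
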