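import Pool.Agent.Helper819.Gr.Res3

/-!
The resultant: a semi-invariant polynomial cutting out the degenerate tuples.
-/

open MvPolynomial

namespace Pool.Agent.Helper819.Gr

open Pool.Agent.Helper819.Apolar Pool.Agent.Helper819.Dyn

noncomputable section

set_option linter.unusedSectionVars false

variable {k : Type} [Field k] {N e : ℕ}

/-- coefficients of the power tuple -/
def pwt (k : Type) [Field k] (N e : ℕ) : Ix N e → k := cf (fun i => X i ^ e)

theorem tup_pwt : tup (pwt k N e) = fun i => (X i ^ e : MvPolynomial (Fin (N + 1)) k) := by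
  apply tup_cf
  intro i
  have := (isHomogeneous_X k i).pow e
  rwa [one_mul] at this

theorem NZ_pwt (he : 1 ≤ e) : NZ (tup (pwt k N e)) := by
  intro x hx
  rw [tup_pwt] at hx
  funext i
  have h1 := hx i
  rw [map_pow, eval_X] at h1
  exact pow_eq_zero_iff (by omega) |>.mp h1

theorem eval_zact {R : Type} [CommRing R] (A : Mt Bool (N + 1) R) (F : Tuple R N)
    (y : Fin (N + 1) → R) (i : Fin (N + 1)) :
    eval y (zact A F i) = ∑ j, A false j i * eval ((A true).mulVec y) (F j) := by
  unfold zact
  rw [map_sum]
  refine Finset.sum_congr rfl fun j _ => ?_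
  rw [map_mul, eval_C, eval_subst]

/-- the semi-invariant generator vanishes when the translated tuple has a zero in the chart -/
theorem zero_of_zero {K : Type} [Field K] [Algebra k K] {D : MvPolynomial (Ix N e) k}
    (hD : th k N e D = 0) (c : Ix N e → K) (y : Fin (N + 1) → K) (hy : y (Fin.last N) ≠ 0)
    (h : ∀ i, eval y (tup c i) = 0) : aeval c D = 0 := by
  obtain ⟨t, ht⟩ := th_point (k := k) c ((y (Fin.last N))⁻¹ • y) (by
    rw [Pi.smul_apply, smul_eq_mul, inv_mul_cancel₀ hy]) (by
    intro i
    rw [eval_smul_hom (tup_homog c i), h, mul_zero])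
  rw [← ht, hD, map_zero]

theorem zero_trans {K : Type} [Field K] [Algebra k K] {D : MvPolynomial (Ix N e) k}
    (hD : th k N e D = 0) (A : Mt Bool (N + 1) K) (hA : (A true).det ≠ 0) (c : Ix N e → K)
    (x : Fin (N + 1) → K) (hx : ((A true)⁻¹.mulVec x) (Fin.last N) ≠ 0)
    (h : ∀ i, eval x (tup c i) = 0) : aeval ((ZA N e).act A c) D = 0 := by
  apply zero_of_zero hD _ _ hx
  intro i
  rw [tup_ZA, eval_zact, Matrix.mulVec_mulVec,
    Matrix.mul_nonsing_inv _ (isUnit_iff_ne_zero.mpr hA), Matrix.one_mulVec]
  apply Finset.sum_eq_zero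
  intro j _
  rw [h, mul_zero]

variable [IsAlgClosed k]

theorem mem_ker_th {P : MvPolynomial (Ix N e) k} (h : ∀ c, eval c P ≠ 0 → NZ (tup c)) :
    th k N e P = 0 := by
  have hinf : Infinite k := IsAlgClosed.instInfinite
  apply MvPolynomial.funext
  intro t
  rw [eval_th, map_zero]
  by_contra hne
  exact not_NZ_th t (h _ hne)

theorem compT_mem [Infinite k] {D : MvPolynomial (Ix N e) k} (hD : th k N e D = 0)
    (A : Mt Bool (N + 1) k) (hA : ∀ s, (A s).det ≠ 0) :
    th k N e (compT (ZA N e).toRAct A D) = 0 := by
  let Λ : MvPolynomial (Tx N e) k := ∑ m, C ((A true)⁻¹ (Fin.last N) m) * xt k N e m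
  have hΛe : ∀ t, eval t Λ = ((A true)⁻¹.mulVec (fun m => eval t (xt k N e m))) (Fin.last N) := by
    intro t
    change eval t (∑ m, C ((A true)⁻¹ (Fin.last N) m) * xt k N e m) = _
    rw [map_sum]
    exact Finset.sum_congr rfl fun m _ => by rw [map_mul, eval_C]
  have hΛ : Λ ≠ 0 := by
    intro h0
    have hrow : ∀ m, (A true)⁻¹ (Fin.last N) m = 0 := by
      have h1 : (A true)⁻¹ (Fin.last N) (Fin.last N) = 0 := by
        have h2 := congrArg (eval (0 : Tx N e → k)) h0
        rw [map_zero] at h2
        change eval 0 (∑ m, C ((A true)⁻¹ (Fin.last N) m) * xt k N e m) = 0 at h2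
        rw [map_sum, Finset.sum_eq_single (Fin.last N)] at h2
        · rw [map_mul, eval_C, xt_last, mul_one] at h2
          exact h2
        · intro b _ hb
          rw [map_mul]
          unfold xt tv
          rw [if_neg hb, dif_neg (fun h' => hb (congrArg Prod.fst h')), eval_X, Pi.zero_apply,
            mul_zero]
        · simp
      intro m
      by_cases hm : m = Fin.last N
      · rw [hm, h1]
      · let t : Tx N e → k := fun p => if p.1 = (m, al N e) then 1 else 0
        have h2 := congrArg (eval t) h0
        rw [map_zero] at h2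
        change eval t (∑ m, C ((A true)⁻¹ (Fin.last N) m) * xt k N e m) = 0 at h2
        rw [map_sum, Finset.sum_eq_single m] at h2
        · rw [map_mul, eval_C] at h2
          unfold xt tv at h2
          rw [if_neg hm, dif_neg (fun h' => hm (congrArg Prod.fst h')), eval_X] at h2
          simp only [t, if_true, mul_one] at h2
          exact h2
        · intro b _ hb
          by_cases hb' : b = Fin.last N
          · rw [hb', map_mul, eval_C, h1, zero_mul]
          · rw [map_mul]
            unfold xt tv
            rw [if_neg hb', dif_neg (fun h' => hb' (congrArg Prod.fst h')), eval_X]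
            simp only [t]
            rw [if_neg (fun h' => hb (congrArg Prod.fst h')), mul_zero]
        · simp
    have h3 := inv_det_ne A hA true
    apply h3
    exact Matrix.det_eq_zero_of_row_eq_zero (Fin.last N) hrow
  have h1 : th k N e (compT (ZA N e).toRAct A D) * Λ = 0 := by
    apply MvPolynomial.funext
    intro t
    rw [map_mul, map_zero, eval_th, eval_compT, hΛe]
    by_cases hne : ((A true)⁻¹.mulVec (fun m => eval t (xt k N e m))) (Fin.last N) = 0
    · rw [hne, mul_zero]
    · have h2 := zero_trans (k := k) hD A (hA true) (fun p => eval t (ph k p)) _ hne (th_deg t)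
      rw [aeval_eq_eval_self] at h2
      rw [h2, zero_mul]
  exact (mul_eq_zero.mp h1).resolve_right hΛ

theorem compT_compT (α : RAct Bool (N + 1) (Ix N e)) (A B : Mt Bool (N + 1) k)
    (P : MvPolynomial (Ix N e) k) : compT α A (compT α B P) = compT α (A * B) P := by
  have hinf : Infinite k := IsAlgClosed.instInfinite
  apply MvPolynomial.funext
  intro c
  rw [eval_compT, eval_compT, eval_compT, α.act_act]

theorem compT_one (α : RAct Bool (N + 1) (Ix N e)) (P : MvPolynomial (Ix N e) k) :
    compT α 1 P = P := by
  have hinf : Infinite k := IsAlgClosed.instInfinite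
  apply MvPolynomial.funext
  intro c
  rw [eval_compT, α.act_one]

/-- Existence of the resultant. -/
theorem exists_res [CharZero k] (he : 1 ≤ e) :
    ∃ (D : MvPolynomial (Ix N e) k) (r : Bool → ℕ), IsSemi (ZA N e).toRAct r D ∧
      r true = e * r false ∧ (∀ c, eval c D ≠ 0 ↔ NZ (tup c)) ∧
      ∀ (K : Type) [Field K] [Algebra k K] (c : Ix N e → K), aeval c D ≠ 0 → NZ (tup c) := by
  classical
  have hinf : Infinite k := inferInstance
  obtain ⟨P0, hP0, hP0'⟩ := exists_open (NZ_pwt (k := k) (N := N) he)
  have hP0k : th k N e P0 = 0 := mem_ker_th hP0'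
  obtain ⟨D, hDp, hker⟩ := principal_mv (p0 N e) (RingHom.ker (th k N e))
    (RingHom.ker_isPrime _) (by
      intro h
      have h1 : P0 ∈ RingHom.ker (th k N e) := hP0k
      rw [h, Ideal.mem_bot] at h1
      rw [h1, map_zero] at hP0
      exact hP0 rfl) (by
      intro a ha
      exact th_indep he a ha)
  have hD : th k N e D = 0 := by
    have h1 : D ∈ RingHom.ker (th k N e) := by
      rw [hker]
      exact Ideal.mem_span_singleton_self D
    exact h1
  have hdvd : ∀ P : MvPolynomial (Ix N e) k, th k N e P = 0 → D ∣ P := by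
    intro P hP
    have h1 : P ∈ RingHom.ker (th k N e) := hP
    rw [hker, Ideal.mem_span_singleton] at h1
    exact h1
  have hNZ : ∀ c, NZ (tup c) → eval c D ≠ 0 := by
    intro c hc
    obtain ⟨P, hP1, hP2⟩ := exists_open hc
    obtain ⟨q, hq⟩ := hdvd P (mem_ker_th hP2)
    rw [hq, map_mul] at hP1
    exact left_ne_zero_of_mul hP1
  -- semi-invariance up to constants
  have hconst : ∀ A : Mt Bool (N + 1) k, (∀ s, (A s).det ≠ 0) →
      ∃ a : k, compT (ZA N e).toRAct A D = C a * D := by
    intro A hA
    obtain ⟨q, hq⟩ := hdvd _ (compT_mem hD A hA)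
    obtain ⟨q', hq'⟩ := hdvd _ (compT_mem hD (fun s => (A s)⁻¹) (inv_det_ne A hA))
    have h1 : D = compT (ZA N e).toRAct A (compT (ZA N e).toRAct (fun s => (A s)⁻¹) D) := by
      rw [compT_compT, mul_inv_mt A hA, compT_one]
    rw [hq', map_mul, hq] at h1
    have h2 : q * compT (ZA N e).toRAct A q' = 1 := by
      apply mul_left_cancel₀ hDp.ne_zero
      rw [mul_one, ← mul_assoc]
      exact h1.symm
    have h3 : IsUnit q := IsUnit.of_mul_eq_one _ h2
    rw [MvPolynomial.isUnit_iff_eq_C_of_isReduced] at h3
    obtain ⟨a, _, rfl⟩ := h3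
    exact ⟨a, by rw [hq, mul_comm]⟩
  obtain ⟨F1, hF1⟩ : ∃ F1 : Ix N e → k, eval F1 D ≠ 0 := ⟨pwt k N e, hNZ _ (NZ_pwt he)⟩
  obtain ⟨cp, hcp⟩ : ∃ cp : KJ Bool (N + 1) k,
      ∀ A, eval (ent A) cp * eval F1 D = eval ((ZA N e).act A F1) D := by
    refine ⟨C (eval F1 D)⁻¹ * aeval (orb (ZA N e).toRAct F1) D, fun A => ?_⟩
    rw [map_mul, eval_C, eval_aeval_orb]
    field_simp
  have hact : ∀ (A : Mt Bool (N + 1) k), (∀ s, (A s).det ≠ 0) → ∀ c,
      eval ((ZA N e).act A c) D = eval (ent A) cp * eval c D := by
    intro A hA c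
    obtain ⟨a, ha⟩ := hconst A hA
    have h1 : ∀ c, eval ((ZA N e).act A c) D = a * eval c D := by
      intro c
      rw [← eval_compT, ha, map_mul, eval_C]
    have h2 := hcp A
    rw [h1] at h2
    rw [h1, mul_right_cancel₀ hF1 h2]
  obtain ⟨r, hr⟩ := char_mt cp (by
    apply mul_right_cancel₀ hF1
    rw [hcp, (ZA N e).act_one, one_mul]) (by
    intro A B
    have h1 : Lsub A cp = C (eval (ent A) cp) * cp := by
      apply poly_ext
      intro B hB
      rw [eval_Lsub, map_mul, eval_C]
      apply mul_right_cancel₀ hF1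
      rw [hcp, ← (ZA N e).act_act, hact B hB, ← hcp]
      ring
    rw [← eval_Lsub, h1, map_mul, eval_C])
  have hsemi : IsSemi (ZA N e).toRAct r D := by
    intro A c
    have h1 : aeval (orb (ZA N e).toRAct c) D = C (eval c D) * dtw (N + 1) k r := by
      apply poly_ext
      intro A hA
      rw [eval_aeval_orb, map_mul, eval_C, eval_dtw, hact A hA, hr A hA, mul_comm]
    rw [← eval_aeval_orb, h1, map_mul, eval_C, eval_dtw, mul_comm]
  have hK : ∀ (K : Type) [Field K] [Algebra k K] (c : Ix N e → K), aeval c D ≠ 0 →
      NZ (tup c) := by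
    intro K _ _ c hc x hx
    by_contra hne
    apply hc
    by_cases hl : x (Fin.last N) = 0
    · obtain ⟨j, hj⟩ := Function.ne_iff.mp hne
      have hjl : Fin.last N ≠ j := by
        rintro rfl
        exact hj hl
      let A : Mt Bool (N + 1) K := fun s => if s then Matrix.transvection (Fin.last N) j (-1) else 1
      have hdet : ∀ s, (A s).det = 1 := by
        intro s
        cases s
        · change (1 : Matrix (Fin (N + 1)) (Fin (N + 1)) K).det = 1
          exact Matrix.det_one
        · change (Matrix.transvection (Fin.last N) j (-1 : K)).det = 1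
          exact Matrix.det_transvection_of_ne _ _ hjl _
      have hinv : (A true)⁻¹ = Matrix.transvection (Fin.last N) j 1 := by
        apply Matrix.inv_eq_right_inv
        change Matrix.transvection (Fin.last N) j (-1) * Matrix.transvection (Fin.last N) j 1 = 1
        rw [Matrix.transvection_mul_transvection_same _ _ hjl, neg_add_cancel,
          Matrix.transvection_zero]
      have h1 := zero_trans (k := k) hD A (by rw [hdet]; exact one_ne_zero) c x (by
        rw [hinv]
        unfold Matrix.transvection
        rw [Matrix.add_mulVec, Matrix.one_mulVec, Pi.add_apply, hl, zero_add]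
        have : (Matrix.single (Fin.last N) j (1 : K)).mulVec x (Fin.last N) = x j := by
          simp [Matrix.single_mulVec]
        rw [this]
        exact hj) hx
      rw [hsemi.aeval_act] at h1
      have h2 : detw r A = 1 := by
        unfold detw
        simp [hdet]
      rwa [h2, one_mul] at h1
    · exact zero_of_zero hD c x hl hx
  refine ⟨D, r, hsemi, ?_, fun c => ⟨fun h => ?_, hNZ c⟩, hK⟩
  · -- weights
    have hs1 : ∀ (t : k) (c : Ix N e → k),
        (ZA N e).act (fun s => if s then t • (1 : Matrix (Fin (N + 1)) (Fin (N + 1)) k) else 1) c =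
          (ZA N e).act (fun s => if s then 1 else
            (t ^ e) • (1 : Matrix (Fin (N + 1)) (Fin (N + 1)) k)) c := by
      intro t c
      have h1 : tup ((ZA N e).act (fun s => if s then
          t • (1 : Matrix (Fin (N + 1)) (Fin (N + 1)) k) else 1) c) =
          tup ((ZA N e).act (fun s => if s then 1 else
            (t ^ e) • (1 : Matrix (Fin (N + 1)) (Fin (N + 1)) k)) c) := by
        rw [tup_ZA, tup_ZA]
        funext i
        apply MvPolynomial.funext
        intro y
        rw [eval_zact, eval_zact]
        refine Finset.sum_congr rfl fun j _ => ?_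
        simp only [if_true, Bool.false_eq_true, if_false]
        rw [Matrix.smul_mulVec, Matrix.one_mulVec, eval_smul_hom (tup_homog c j),
          Matrix.smul_apply, smul_eq_mul]
        ring
      rw [← cf_tup ((ZA N e).act (fun s => if s then
          t • (1 : Matrix (Fin (N + 1)) (Fin (N + 1)) k) else 1) c), h1, cf_tup]
    have h2 := congrArg (fun c => eval c D) (hs1 2 F1)
    simp only [hsemi _ F1] at h2
    have h3 := mul_right_cancel₀ hF1 h2
    unfold detw at h3
    rw [Fintype.prod_bool, Fintype.prod_bool] at h3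
    simp only [if_true, Bool.false_eq_true, if_false, Matrix.det_one, one_pow, mul_one, one_mul,
      Matrix.det_smul, Fintype.card_fin] at h3
    rw [← pow_mul, ← pow_mul, ← pow_mul] at h3
    have h4 : ((2 ^ ((N + 1) * r true) : ℕ) : k) = ((2 ^ (e * ((N + 1) * r false)) : ℕ) : k) := by
      push_cast
      rw [h3]
    have h5 := Nat.pow_right_injective le_rfl (Nat.cast_injective h4)
    have h6 : (N + 1) * r true = (N + 1) * (e * r false) := by
      have h5' : (N + 1) * r true = e * ((N + 1) * r false) := h5
      rw [h5']; ring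
    exact Nat.eq_of_mul_eq_mul_left (Nat.succ_pos N) h6
  · apply hK k c
    rw [aeval_eq_eval_self]
    exact h

end

end Pool.Agent.Helper819.Gr
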