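import Pool.Agent.Helper819.Reyn

/-!
The Reynolds functional of a finite product of general linear groups.
-/

open MvPolynomial

namespace Pool.Agent.Helper819.Gr

open Pool.Agent.Helper819.Apolar

noncomputable section

set_option linter.unusedSectionVars false

variable {ι : Type} [Fintype ι] [DecidableEq ι] {n : ℕ}

/-- index set of the matrix entries -/
abbrev Jx (ι : Type) (n : ℕ) : Type := ι × Fin n × Fin n

/-- families of matrices -/
abbrev Mt (ι : Type) (n : ℕ) (R : Type) : Type := ι → Matrix (Fin n) (Fin n) R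

/-- polynomials in the entries -/
abbrev KJ (ι : Type) (n : ℕ) (k : Type) [CommRing k] : Type := MvPolynomial (Jx ι n) k

/-- the generic matrices -/
def gmat (ι : Type) (n : ℕ) (R : Type) [CommRing R] : Mt ι n (KJ ι n R) :=
  fun s => Matrix.of fun i j => X (s, i, j)

/-- weighted determinant -/
def detw {R : Type} [CommRing R] (w : ι → ℕ) (A : Mt ι n R) : R := ∏ s, (A s).det ^ w s

/-- entries -/
def ent {R : Type} (A : Mt ι n R) : Jx ι n → R := fun p => A p.1 p.2.1 p.2.2

/-- the weighted determinant polynomial -/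
def dtw (n : ℕ) (k : Type) [CommRing k] (w : ι → ℕ) : KJ ι n k := detw w (gmat ι n k)

theorem map_detw {R S : Type} [CommRing R] [CommRing S] (φ : R →+* S) (w : ι → ℕ) (A : Mt ι n R) :
    φ (detw w A) = detw w (fun s => (A s).map φ) := by
  unfold detw
  rw [map_prod]
  refine Finset.prod_congr rfl fun s _ => ?_
  rw [map_pow, RingHom.map_det]
  rfl

theorem gmat_map_aeval {k R : Type} [CommRing k] [CommRing R] [Algebra k R] (A : Mt ι n R) :
    (fun s => (gmat ι n k s).map (aeval (ent A) : KJ ι n k →ₐ[k] R)) = A := by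
  funext s
  ext i j
  simp [gmat, ent]

theorem gmat_map_eval {k : Type} [CommRing k] (A : Mt ι n k) :
    (fun s => (gmat ι n k s).map (eval (ent A))) = A := by
  funext s
  ext i j
  simp [gmat, ent]

theorem eval_dtw {k : Type} [CommRing k] (w : ι → ℕ) (A : Mt ι n k) :
    eval (ent A) (dtw n k w) = detw w A := by
  unfold dtw
  rw [map_detw, gmat_map_eval]

theorem aeval_dtw {k R : Type} [CommRing k] [CommRing R] [Algebra k R] (w : ι → ℕ) (A : Mt ι n R) :
    aeval (ent A) (dtw n k w) = detw w A := by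
  unfold dtw
  have h1 := map_detw (aeval (ent A) : KJ ι n k →ₐ[k] R).toRingHom w (gmat ι n k)
  have h2 := gmat_map_aeval (k := k) A
  change aeval (ent A) (detw w (gmat ι n k)) = _ at h1
  rw [h1]
  congr 1

theorem detw_mul {R : Type} [CommRing R] (w : ι → ℕ) (A B : Mt ι n R) :
    detw w (A * B) = detw w A * detw w B := by
  unfold detw
  rw [← Finset.prod_mul_distrib]
  refine Finset.prod_congr rfl fun s _ => ?_
  rw [Pi.mul_apply, Matrix.det_mul, mul_pow]

theorem detw_add {R : Type} [CommRing R] (w w' : ι → ℕ) (A : Mt ι n R) :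
    detw (w + w') A = detw w A * detw w' A := by
  unfold detw
  rw [← Finset.prod_mul_distrib]
  refine Finset.prod_congr rfl fun s _ => ?_
  rw [Pi.add_apply, pow_add]

theorem detw_zero {R : Type} [CommRing R] (A : Mt ι n R) : detw (0 : ι → ℕ) A = 1 := by
  unfold detw
  simp

theorem detw_smul {R : Type} [CommRing R] (m : ℕ) (w : ι → ℕ) (A : Mt ι n R) :
    detw (m • w) A = detw w A ^ m := by
  unfold detw
  rw [← Finset.prod_pow]
  refine Finset.prod_congr rfl fun s _ => ?_
  rw [Pi.smul_apply, smul_eq_mul, mul_comm, pow_mul]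

theorem detw_ne_zero {R : Type} [CommRing R] [IsDomain R] (w : ι → ℕ) (A : Mt ι n R)
    (hA : ∀ s, (A s).det ≠ 0) : detw w A ≠ 0 :=
  Finset.prod_ne_zero_iff.mpr fun s _ => pow_ne_zero _ (hA s)

theorem detw_isUnit {R : Type} [CommRing R] (w : ι → ℕ) (A : Mt ι n R)
    (hA : ∀ s, IsUnit (A s).det) : IsUnit (detw w A) := by
  unfold detw
  rw [IsUnit.prod_univ_iff]
  exact fun s => (hA s).pow _

theorem detw_transpose {R : Type} [CommRing R] (w : ι → ℕ) (A : Mt ι n R) :
    detw w (fun s => (A s).transpose) = detw w A := by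
  unfold detw
  refine Finset.prod_congr rfl fun s _ => ?_
  rw [Matrix.det_transpose]

theorem detw_one {R : Type} [CommRing R] (w : ι → ℕ) : detw w (1 : Mt ι n R) = 1 := by
  unfold detw
  simp

theorem dtw_add (k : Type) [CommRing k] (w w' : ι → ℕ) :
    dtw n k (w + w') = dtw n k w * dtw n k w' := detw_add _ _ _

theorem dtw_ne_zero (k : Type) [CommRing k] [IsDomain k] (w : ι → ℕ) : dtw n k w ≠ 0 := by
  apply detw_ne_zero
  intro s h
  let f : KJ ι n k →ₐ[k] k := aeval (ent (1 : Mt ι n k))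
  have h1 : f (gmat ι n k s).det = (1 : Matrix (Fin n) (Fin n) k).det := by
    have e1 := RingHom.map_det (f : KJ ι n k →+* k) (gmat ι n k s)
    change (f : KJ ι n k →+* k) (gmat ι n k s).det = _
    rw [e1]
    congr 1
    exact congrFun (gmat_map_aeval (k := k) (1 : Mt ι n k)) s
  rw [h, map_zero, Matrix.det_one] at h1
  exact zero_ne_one h1

section field

variable {k : Type} [Field k]

/-- `p(A) ↦ p(B A)` -/
def Lsub (B : Mt ι n k) : KJ ι n k →ₐ[k] KJ ι n k :=
  bind₁ (fun p => ∑ l, C (B p.1 p.2.1 l) * X (p.1, l, p.2.2))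

/-- `p(A) ↦ p(A B)` -/
def Rsub (B : Mt ι n k) : KJ ι n k →ₐ[k] KJ ι n k :=
  bind₁ (fun p => ∑ l, C (B p.1 l p.2.2) * X (p.1, p.2.1, l))

theorem eval_Lsub (A B : Mt ι n k) (p : KJ ι n k) :
    eval (ent A) (Lsub B p) = eval (ent (B * A)) p := by
  unfold Lsub
  rw [eval_bind']
  congr 1
  congr 1
  funext q
  rw [map_sum]
  simp only [map_mul, eval_C, eval_X]
  rfl

theorem eval_Rsub (A B : Mt ι n k) (p : KJ ι n k) :
    eval (ent A) (Rsub B p) = eval (ent (A * B)) p := by
  unfold Rsub
  rw [eval_bind']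
  congr 1
  congr 1
  funext q
  rw [map_sum]
  simp only [map_mul, eval_C, eval_X]
  change _ = (A q.1 * B q.1) q.2.1 q.2.2
  rw [Matrix.mul_apply]
  exact Finset.sum_congr rfl fun l _ => mul_comm _ _

/-- the big matrix -/
def hat (B : Mt ι n k) : Matrix (Jx ι n) (Jx ι n) k :=
  fun p q => if p.1 = q.1 ∧ p.2.2 = q.2.2 then B p.1 p.2.1 q.2.1 else 0

theorem lsub_hat (B : Mt ι n k) : lsub (hat B) = Lsub B := by
  unfold lsub Lsub
  congr 1
  funext p
  have h1 : ∀ q ∈ (Finset.univ : Finset (Jx ι n)), q ∉ Finset.univ.image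
      (fun l : Fin n => ((p.1, l, p.2.2) : Jx ι n)) → C (hat B p q) * X q = (0 : KJ ι n k) := by
    intro q _ hq
    have : ¬ (p.1 = q.1 ∧ p.2.2 = q.2.2) := by
      rintro ⟨h1, h2⟩
      apply hq
      rw [Finset.mem_image]
      exact ⟨q.2.1, Finset.mem_univ _, by rw [h1, h2]⟩
    unfold hat
    rw [if_neg this, map_zero, zero_mul]
  rw [← Finset.sum_subset (Finset.subset_univ _) h1, Finset.sum_image]
  · refine Finset.sum_congr rfl fun l _ => ?_
    simp [hat]
  · intro a _ b _ hab
    simpa using hab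

theorem hat_transpose (B : Mt ι n k) :
    (hat B).transpose = hat (fun s => (B s).transpose) := by
  ext p q
  simp only [hat, Matrix.transpose_apply]
  by_cases h : q.1 = p.1 ∧ q.2.2 = p.2.2
  · rw [if_pos h, if_pos ⟨h.1.symm, h.2.symm⟩, h.1]
  · rw [if_neg h, if_neg (fun h' => h ⟨h'.1.symm, h'.2.symm⟩)]

theorem pr_Lsub (B : Mt ι n k) (f g : KJ ι n k) :
    pr (Lsub (fun s => (B s).transpose) f) g = pr f (Lsub B g) := by
  rw [← lsub_hat, ← lsub_hat, ← hat_transpose]
  exact pr_lsub (hat B) f g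

theorem ent_surj (x : Jx ι n → k) : ∃ A : Mt ι n k, x = ent A :=
  ⟨fun s => Matrix.of fun i j => x (s, i, j), rfl⟩

theorem poly_ext [Infinite k] {p q : KJ ι n k}
    (h : ∀ A : Mt ι n k, (∀ s, (A s).det ≠ 0) → eval (ent A) p = eval (ent A) q) : p = q := by
  have h1 : dtw n k (fun _ : ι => 1) * (p - q) = 0 := by
    apply MvPolynomial.funext
    intro x
    obtain ⟨A, rfl⟩ := ent_surj x
    rw [map_mul, map_zero, eval_dtw, map_sub]
    by_cases hA : ∀ s, (A s).det ≠ 0
    · rw [h A hA, sub_self, mul_zero]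
    · push Not at hA
      obtain ⟨s, hs⟩ := hA
      have : detw (fun _ : ι => 1) A = 0 := by
        unfold detw
        exact Finset.prod_eq_zero (Finset.mem_univ s) (by rw [hs, pow_one])
      rw [this, zero_mul]
  exact sub_eq_zero.mp ((mul_eq_zero.mp h1).resolve_left (dtw_ne_zero k _))

theorem Lsub_dtw [Infinite k] (B : Mt ι n k) (w : ι → ℕ) :
    Lsub B (dtw n k w) = C (detw w B) * dtw n k w := by
  apply poly_ext
  intro A _
  rw [eval_Lsub, eval_dtw, map_mul, eval_C, eval_dtw, detw_mul]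

variable [CharZero k]

/-- normalisation constant -/
def cw (n : ℕ) (k : Type) [Field k] (w : ι → ℕ) : k := pr (dtw n k w) (dtw n k w)

theorem cw_ne_zero (w : ι → ℕ) : cw n k w ≠ 0 := by
  have h1 : dtw n k w = map (Int.castRingHom k) (dtw n ℤ w) := by
    unfold dtw
    rw [map_detw]
    congr 1
    funext s
    ext i j
    simp [gmat]
  unfold cw
  rw [h1]
  exact pr_self_ne_zero (dtw_ne_zero ℤ _)

/-- The Reynolds functional of weight `w`. -/
def rho (w : ι → ℕ) (p : KJ ι n k) : k := pr (dtw n k w) p / cw n k w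

theorem rho_add (w : ι → ℕ) (p q : KJ ι n k) : rho w (p + q) = rho w p + rho w q := by
  unfold rho
  rw [pr_add_right, add_div]

theorem rho_zero (w : ι → ℕ) : rho w (0 : KJ ι n k) = 0 := by
  unfold rho
  rw [pr_zero_right, zero_div]

theorem rho_smul (w : ι → ℕ) (r : k) (p : KJ ι n k) : rho w (C r * p) = r * rho w p := by
  unfold rho
  rw [pr_smul_right, mul_div_assoc]

theorem rho_sum (w : ι → ℕ) {τ : Type} (s : Finset τ) (g : τ → KJ ι n k) :
    rho w (∑ i ∈ s, g i) = ∑ i ∈ s, rho w (g i) := by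
  unfold rho
  rw [pr_sum_right, Finset.sum_div]

theorem rho_dtw (w : ι → ℕ) : rho w (dtw n k w) = 1 := div_self (cw_ne_zero w)

theorem rho_Lsub (w : ι → ℕ) (B : Mt ι n k) (p : KJ ι n k) :
    rho w (Lsub B p) = detw w B * rho w p := by
  have hinf : Infinite k := inferInstance
  unfold rho
  rw [← pr_Lsub, Lsub_dtw, pr_smul_left, detw_transpose, mul_div_assoc]

theorem rho_det_mul (w w' : ι → ℕ) (p : KJ ι n k) :
    rho (w + w') (dtw n k w' * p) = rho w p := by
  have hinf : Infinite k := inferInstance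
  obtain ⟨q, hq⟩ := exists_adjoint (dtw n k (w + w')) (dtw n k w')
  have h1 : ∀ B : Mt ι n k, (∀ s, (B s).det ≠ 0) →
      Lsub (fun s => (B s).transpose) q = C (detw w B) * q := by
    intro B hB
    apply pr_ext
    intro p
    rw [pr_Lsub, pr_smul_left, ← hq, ← hq]
    have h2 : Lsub B (dtw n k w' * p) = C (detw w' B) * (dtw n k w' * Lsub B p) := by
      rw [map_mul, Lsub_dtw]
      ring
    have h3 : detw w' B * pr (dtw n k (w + w')) (dtw n k w' * Lsub B p) =
        detw (w + w') B * pr (dtw n k (w + w')) (dtw n k w' * p) := by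
      rw [← pr_smul_right, ← h2, ← pr_Lsub, Lsub_dtw, pr_smul_left, detw_transpose]
    apply mul_left_cancel₀ (detw_ne_zero w' B hB)
    rw [h3, detw_add]
    ring
  have h2 : q = C (eval (ent 1) q) * dtw n k w := by
    apply poly_ext
    intro A hA
    have h3 := congrArg (eval (ent (1 : Mt ι n k)))
      (h1 (fun s => (A s).transpose) (fun s => by rw [Matrix.det_transpose]; exact hA s))
    simp only [Matrix.transpose_transpose] at h3
    rw [eval_Lsub, map_mul, eval_C, detw_transpose] at h3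
    have h4 : (fun s => A s) * (1 : Mt ι n k) = A := mul_one A
    rw [h4] at h3
    rw [h3, map_mul, eval_C, eval_dtw, mul_comm]
  have h3 : cw n k (w + w') = eval (ent 1) q * cw n k w := by
    unfold cw
    have e1 : pr (dtw n k (w + w')) (dtw n k (w + w')) =
        pr (dtw n k (w + w')) (dtw n k w' * dtw n k w) := by
      congr 1
      rw [dtw_add, mul_comm]
    rw [e1, hq]
    conv_lhs => rw [h2]
    rw [pr_smul_left]
  unfold rho
  rw [hq]
  conv_lhs => rw [h2]
  rw [pr_smul_left, h3]
  have h4 : eval (ent 1) q ≠ 0 := by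
    intro h
    rw [h, zero_mul] at h3
    exact cw_ne_zero _ h3
  exact mul_div_mul_left _ _ h4

end field

end

end Pool.Agent.Helper819.Gr
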