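import Pool.Agent.Helper819.Gr.Defs2

/-!
The morphism of quotients induced by the gradient morphism, as a morphism of schemes.
-/

open AlgebraicGeometry CategoryTheory

namespace Pool.Agent.Helper819.GradMap

noncomputable section

/-- `ℙX_n^d // SL_n`, the spectrum of the ring of invariant regular functions. -/
def quotPX (n d : ℕ) : Scheme := Spec (CommRingCat.of (InvRing 1 (PX n d)))

/-- `Z_n^k // SL_n`, the spectrum of the ring of invariant regular functions. -/
def quotZ (n k : ℕ) : Scheme := Spec (CommRingCat.of (InvRing n (Z n k)))

/-- The morphism `ℙX_n^d // SL_n ⟶ Z_n^{d-1} // SL_n` of quotients induced by the gradient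
morphism. -/
def quotGrad (n d : ℕ) (hd : 3 ≤ d) : quotPX n d ⟶ quotZ n (d - 1) :=
  Spec.map (CommRingCat.ofHom (pullback n d hd).toRingHom)

end

end Pool.Agent.Helper819.GradMap
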