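import Mathlib

/-!
Smith normal form over valuation rings.
-/

namespace Pool.Agent.Helper819.Gr

noncomputable section

set_option linter.unusedSectionVars false

variable {L : Type} [Field L] (O : ValuationSubring L)

/-- `M = U D V` with `U`, `V` invertible over `O` and `D` diagonal. -/
def SD {ι : Type} [Fintype ι] [DecidableEq ι] (M : Matrix ι ι L) : Prop :=
  ∃ U U' V V' : Matrix ι ι O, U * U' = 1 ∧ U' * U = 1 ∧ V * V' = 1 ∧ V' * V = 1 ∧
    ∃ d : ι → L, M = U.map O.subtype * Matrix.diagonal d * V.map O.subtype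

variable {O}

theorem SD_submatrix {ι ι' : Type} [Fintype ι] [DecidableEq ι] [Fintype ι'] [DecidableEq ι']
    (e f : ι' ≃ ι) {M : Matrix ι ι L} (h : SD O (M.submatrix e f)) : SD O M := by
  obtain ⟨U, U', V, V', h1, h2, h3, h4, d, hd⟩ := h
  refine ⟨U.submatrix e.symm e.symm, U'.submatrix e.symm e.symm, V.submatrix e.symm f.symm,
    V'.submatrix f.symm e.symm, ?_, ?_, ?_, ?_, d ∘ e.symm, ?_⟩
  · rw [Matrix.submatrix_mul_equiv, h1, Matrix.submatrix_one_equiv]
  · rw [Matrix.submatrix_mul_equiv, h2, Matrix.submatrix_one_equiv]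
  · rw [Matrix.submatrix_mul_equiv, h3, Matrix.submatrix_one_equiv]
  · rw [Matrix.submatrix_mul_equiv, h4, Matrix.submatrix_one_equiv]
  · have e1 : M = (M.submatrix e f).submatrix e.symm f.symm := by
      rw [Matrix.submatrix_submatrix]
      simp
    rw [e1, hd]
    have e2 : (U.submatrix e.symm e.symm).map O.subtype =
        (U.map O.subtype).submatrix e.symm e.symm := rfl
    have e3 : (V.submatrix e.symm f.symm).map O.subtype =
        (V.map O.subtype).submatrix e.symm f.symm := rfl
    have e4 : Matrix.diagonal (d ∘ e.symm) = (Matrix.diagonal d).submatrix e.symm e.symm :=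
      (Matrix.submatrix_diagonal_equiv d e.symm).symm
    rw [e2, e3, e4, Matrix.submatrix_mul_equiv, Matrix.submatrix_mul_equiv]

theorem SD_step {ι : Type} [Fintype ι] [DecidableEq ι]
    (ih : ∀ M : Matrix ι ι L, SD O M) (M : Matrix (Unit ⊕ ι) (Unit ⊕ ι) L)
    (h0 : M (Sum.inl ()) (Sum.inl ()) ≠ 0)
    (hmax : ∀ i j, O.valuation (M i j) ≤ O.valuation (M (Sum.inl ()) (Sum.inl ()))) :
    SD O M := by
  set a := M (Sum.inl ()) (Sum.inl ()) with ha
  have hdiv : ∀ i j, M i j / a ∈ O := by
    intro i j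
    rw [← O.valuation_le_one_iff, map_div₀]
    exact div_le_one_of_le₀ (hmax i j) zero_le
  let c : Matrix ι Unit O := Matrix.of fun i _ => ⟨M (Sum.inr i) (Sum.inl ()) / a, hdiv _ _⟩
  let b : Matrix Unit ι O := Matrix.of fun _ j => ⟨M (Sum.inl ()) (Sum.inr j) / a, hdiv _ _⟩
  let D' : Matrix ι ι L := Matrix.of fun i j =>
    M (Sum.inr i) (Sum.inr j) - M (Sum.inr i) (Sum.inl ()) * M (Sum.inl ()) (Sum.inr j) / a
  obtain ⟨U, U', V, V', h1, h2, h3, h4, d, hd⟩ := ih D'
  refine ⟨Matrix.fromBlocks 1 0 c U, Matrix.fromBlocks 1 0 (-(U' * c)) U',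
    Matrix.fromBlocks 1 b 0 V, Matrix.fromBlocks 1 (-(b * V')) 0 V', ?_, ?_, ?_, ?_,
    Sum.elim (fun _ => a) d, ?_⟩
  · rw [Matrix.fromBlocks_multiply]
    simp [← Matrix.mul_assoc, h1]
  · rw [Matrix.fromBlocks_multiply]
    simp [h2]
  · rw [Matrix.fromBlocks_multiply]
    simp [h3]
  · rw [Matrix.fromBlocks_multiply]
    simp [Matrix.mul_assoc, h4]
  · rw [← Matrix.fromBlocks_diagonal, Matrix.fromBlocks_map, Matrix.fromBlocks_map,
      Matrix.fromBlocks_multiply, Matrix.fromBlocks_multiply]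
    have e1 : (1 : Matrix Unit Unit O).map O.subtype = 1 := by
      ext i j; simp [Matrix.one_apply]
    have e2 : (0 : Matrix Unit ι O).map O.subtype = 0 := by
      ext i j; simp
    have e3 : (0 : Matrix ι Unit O).map O.subtype = 0 := by
      ext i j; simp
    simp only [e1, e2, e3, Matrix.mul_zero, Matrix.zero_mul, add_zero, zero_add, Matrix.one_mul,
      Matrix.mul_one]
    have hU : ∀ i, i = () := fun i => rfl
    ext i j
    rcases i with i | i <;> rcases j with j | j
    · obtain rfl := hU i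
      obtain rfl := hU j
      simp [Matrix.diagonal_apply, ha]
    · obtain rfl := hU i
      have : (Matrix.diagonal (fun _ : Unit => a) * b.map O.subtype) () j = a * (b.map O.subtype) () j :=
        Matrix.diagonal_mul _ _ _ _
      rw [Matrix.fromBlocks_apply₁₂, this]
      change M (Sum.inl ()) (Sum.inr j) = a * (M (Sum.inl ()) (Sum.inr j) / a)
      rw [mul_div_cancel₀ _ h0]
    · obtain rfl := hU j
      have : (c.map O.subtype * Matrix.diagonal (fun _ : Unit => a)) i () =
          (c.map O.subtype) i () * a :=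
        Matrix.mul_diagonal _ _ _ _
      rw [Matrix.fromBlocks_apply₂₁, this]
      change M (Sum.inr i) (Sum.inl ()) = (M (Sum.inr i) (Sum.inl ()) / a) * a
      rw [div_mul_cancel₀ _ h0]
    · rw [Matrix.fromBlocks_apply₂₂, ← hd, Matrix.add_apply, Matrix.mul_apply]
      have : (c.map O.subtype * Matrix.diagonal (fun _ : Unit => a)) i () =
          (c.map O.subtype) i () * a :=
        Matrix.mul_diagonal _ _ _ _
      rw [Fintype.sum_unique]
      change _ = (c.map O.subtype * Matrix.diagonal (fun _ : Unit => a)) i () *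
        (b.map O.subtype) () j + _
      rw [this]
      change M (Sum.inr i) (Sum.inr j) = M (Sum.inr i) (Sum.inl ()) / a * a *
        (M (Sum.inl ()) (Sum.inr j) / a) + (M (Sum.inr i) (Sum.inr j) -
          M (Sum.inr i) (Sum.inl ()) * M (Sum.inl ()) (Sum.inr j) / a)
      rw [div_mul_cancel₀ _ h0]
      ring

theorem SD_sum {ι : Type} [Fintype ι] [DecidableEq ι]
    (ih : ∀ M : Matrix ι ι L, SD O M) (M : Matrix (Unit ⊕ ι) (Unit ⊕ ι) L) : SD O M := by
  obtain ⟨p, _, hp⟩ := Finset.exists_max_image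
    (Finset.univ : Finset ((Unit ⊕ ι) × (Unit ⊕ ι)))
    (fun p => O.valuation (M p.1 p.2)) ⟨(Sum.inl (), Sum.inl ()), Finset.mem_univ _⟩
  have hmax : ∀ i j, O.valuation (M i j) ≤ O.valuation (M p.1 p.2) :=
    fun i j => hp (i, j) (Finset.mem_univ _)
  by_cases h0 : M p.1 p.2 = 0
  · have hM : M = 0 := by
      ext i j
      have := hmax i j
      rw [h0, map_zero, le_zero_iff] at this
      exact (map_eq_zero _).mp this
    refine ⟨1, 1, 1, 1, by simp, by simp, by simp, by simp, 0, ?_⟩
    rw [hM]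
    simp
  · apply SD_submatrix (Equiv.swap (Sum.inl ()) p.1) (Equiv.swap (Sum.inl ()) p.2)
    apply SD_step ih
    · rw [Matrix.submatrix_apply, Equiv.swap_apply_left, Equiv.swap_apply_left]
      exact h0
    · intro i j
      rw [Matrix.submatrix_apply, Matrix.submatrix_apply, Equiv.swap_apply_left,
        Equiv.swap_apply_left]
      exact hmax _ _

/-- Smith normal form over a valuation ring. -/
theorem smith (n : ℕ) (M : Matrix (Fin n) (Fin n) L) : SD O M := by
  induction n with
  | zero =>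
    refine ⟨1, 1, 1, 1, by simp, by simp, by simp, by simp, 0, ?_⟩
    ext i
    exact i.elim0
  | succ n ih =>
    have h1 := SD_sum (O := O) ih
    let e : Unit ⊕ Fin n ≃ Fin (n + 1) :=
      (Equiv.sumComm _ _).trans ((Equiv.optionEquivSumPUnit (Fin n)).symm.trans
        (finSuccEquiv n).symm)
    exact SD_submatrix e e (h1 _)

end

end Pool.Agent.Helper819.Gr
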