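import Pool.Agent.Helper819.Gr.Forms
import Pool.Agent.Helper819.Desc

/-!
Taylor expansions and leading forms.
-/

open MvPolynomial

namespace Pool.Agent.Helper819.Gr

open Pool.Agent.Helper819.Apolar Pool.Agent.Helper819.Dyn

noncomputable section

set_option linter.unusedSectionVars false

section

variable {k : Type} [Field k] {σ : Type} {R S : Type} [CommRing R] [Algebra k R] [CommRing S]
  [Algebra k S]

/-- `P(c + T v)` -/
def tayl (c v : σ → R) : MvPolynomial σ k →ₐ[k] Polynomial R :=
  aeval (fun p => Polynomial.C (c p) + Polynomial.X * Polynomial.C (v p))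

theorem map_tayl (φ : R →ₐ[k] S) (c v : σ → R) (P : MvPolynomial σ k) :
    (tayl c v P).map (φ : R →+* S) = tayl (fun p => φ (c p)) (fun p => φ (v p)) P := by
  have h1 := comp_aeval_apply (fun p => Polynomial.C (c p) + Polynomial.X * Polynomial.C (v p))
    (Polynomial.mapAlgHom φ) P
  unfold tayl
  change Polynomial.mapAlgHom φ _ = _
  rw [h1]
  congr 2
  funext p
  simp

theorem coeff_tayl_map (φ : R →ₐ[k] S) (c v : σ → R) (P : MvPolynomial σ k) (i : ℕ) :
    φ ((tayl c v P).coeff i) = (tayl (fun p => φ (c p)) (fun p => φ (v p)) P).coeff i := by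
  rw [← map_tayl, Polynomial.coeff_map]
  rfl

theorem eval_tayl (s : R) (c v : σ → R) (P : MvPolynomial σ k) :
    (tayl c v P).eval s = aeval (fun p => c p + s * v p) P := by
  have h1 := comp_aeval_apply (fun p => Polynomial.C (c p) + Polynomial.X * Polynomial.C (v p))
    ((Polynomial.aeval s : Polynomial R →ₐ[R] R).restrictScalars k) P
  unfold tayl
  change (Polynomial.aeval s : Polynomial R →ₐ[R] R) _ = _
  change (Polynomial.aeval s : Polynomial R →ₐ[R] R) _ = _ at h1
  rw [h1]
  congr 2
  funext p
  simp
  ring

theorem aeval_tayl {T : Type} [CommRing T] [Algebra k T] [Algebra R T] [IsScalarTower k R T]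
    (s : T) (c v : σ → R) (P : MvPolynomial σ k) :
    Polynomial.aeval s (tayl c v P) =
      aeval (fun p => algebraMap R T (c p) + s * algebraMap R T (v p)) P := by
  have h1 := comp_aeval_apply (fun p => Polynomial.C (c p) + Polynomial.X * Polynomial.C (v p))
    ((Polynomial.aeval s : Polynomial R →ₐ[R] T).restrictScalars k) P
  unfold tayl
  change (Polynomial.aeval s : Polynomial R →ₐ[R] T) _ = _ at h1
  rw [h1]
  congr 2
  funext p
  simp
  ring

theorem tayl_smul (s : R) (c v : σ → R) (P : MvPolynomial σ k) (i : ℕ) :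
    (tayl c (s • v) P).coeff i = s ^ i * (tayl c v P).coeff i := by
  have h1 : tayl c (s • v) P = (tayl c v P).comp (Polynomial.C s * Polynomial.X) := by
    have h2 := aeval_tayl (k := k) (R := R) (T := Polynomial R) (Polynomial.C s * Polynomial.X) c v P
    rw [Polynomial.comp, Polynomial.eval₂_eq_eval_map, ← Polynomial.eval_map_algebraMap] at *
    change (Polynomial.map (algebraMap R (Polynomial R)) (tayl c v P)).eval _ = _ at h2
    change _ = (Polynomial.map (algebraMap R (Polynomial R)) (tayl c v P)).eval _
    rw [h2]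
    unfold tayl
    congr 2
    funext p
    change _ = Polynomial.C (c p) + Polynomial.C s * Polynomial.X * Polynomial.C (v p)
    rw [Pi.smul_apply, smul_eq_mul, Polynomial.C_mul]
    ring
  rw [h1, Polynomial.comp_C_mul_X_coeff, mul_comm]

theorem tayl_coeff_zero (c v : σ → R) (P : MvPolynomial σ k) :
    (tayl c v P).coeff 0 = aeval c P := by
  rw [Polynomial.coeff_zero_eq_eval_zero, eval_tayl]
  congr 2
  funext p
  rw [zero_mul, add_zero]

/-- The `j`-th leading form of `P` at `c`. -/
def lf (j : ℕ) (P : MvPolynomial σ k) (c : σ → k) : MvPolynomial σ k :=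
  (tayl (fun p => (C (c p) : MvPolynomial σ k)) X P).coeff j

theorem aeval_lf (j : ℕ) (P : MvPolynomial σ k) (c : σ → k) (v : σ → R) :
    aeval v (lf j P c) = (tayl (fun p => algebraMap k R (c p)) v P).coeff j := by
  unfold lf
  rw [coeff_tayl_map (aeval v : MvPolynomial σ k →ₐ[k] R)]
  congr 3
  · funext p
    exact algHom_C _ _
  · funext p
    exact aeval_X _ _

theorem eval_lf (j : ℕ) (P : MvPolynomial σ k) (c v : σ → k) :
    eval v (lf j P c) = (tayl c v P).coeff j := by
  rw [← coe_aeval_eq_eval]
  exact aeval_lf j P c v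

theorem lf_add (j : ℕ) (P Q : MvPolynomial σ k) (c : σ → k) :
    lf j (P + Q) c = lf j P c + lf j Q c := by
  unfold lf
  rw [map_add, Polynomial.coeff_add]

theorem lf_sub (j : ℕ) (P Q : MvPolynomial σ k) (c : σ → k) :
    lf j (P - Q) c = lf j P c - lf j Q c := by
  unfold lf
  rw [map_sub, Polynomial.coeff_sub]

theorem lf_zero_right (j : ℕ) (c : σ → k) : lf j (0 : MvPolynomial σ k) c = 0 := by
  unfold lf
  rw [map_zero, Polynomial.coeff_zero]

theorem lf_homog [Infinite k] (j : ℕ) (P : MvPolynomial σ k) (c : σ → k) :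
    (lf j P c).IsHomogeneous j := by
  apply homog_of_scale
  intro r x
  rw [eval_lf, eval_lf, tayl_smul]

/-- lowest coefficient of a product -/
theorem coeff_mul_low {A B : Polynomial R} {i j : ℕ} (hA : ∀ a < i, A.coeff a = 0)
    (hB : ∀ b < j, B.coeff b = 0) : (A * B).coeff (i + j) = A.coeff i * B.coeff j := by
  rw [Polynomial.coeff_mul, Finset.sum_eq_single (i, j)]
  · rintro ⟨a, b⟩ hab hne
    have h1 : a + b = i + j := Finset.HasAntidiagonal.mem_antidiagonal.mp hab
    by_cases ha : a < i
    · rw [hA a ha, zero_mul]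
    · by_cases hb : b < j
      · rw [hB b hb, mul_zero]
      · exfalso
        apply hne
        have h2 : a = i := by omega
        have h3 : b = j := by omega
        rw [h2, h3]
  · intro h
    exact absurd (Finset.HasAntidiagonal.mem_antidiagonal.mpr (rfl : i + j = i + j)) h

theorem coeff_mul_low' {A B : Polynomial R} {i j : ℕ} (hA : ∀ a < i, A.coeff a = 0)
    (hB : ∀ b < j, B.coeff b = 0) : ∀ a < i + j, (A * B).coeff a = 0 := by
  intro m hm
  rw [Polynomial.coeff_mul]
  apply Finset.sum_eq_zero
  rintro ⟨a, b⟩ hab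
  have h1 : a + b = m := Finset.HasAntidiagonal.mem_antidiagonal.mp hab
  by_cases ha : a < i
  · rw [hA a ha, zero_mul]
  · rw [hB b (by omega), mul_zero]

/-- `P` vanishes to order at least `j` at `c`. -/
def Ord (j : ℕ) (P : MvPolynomial σ k) (c : σ → k) : Prop := ∀ i < j, lf i P c = 0

theorem Ord.coeff {j : ℕ} {P : MvPolynomial σ k} {c : σ → k} (h : Ord j P c) (v : σ → R)
    {i : ℕ} (hi : i < j) : (tayl (fun p => algebraMap k R (c p)) v P).coeff i = 0 := by
  rw [← aeval_lf, h i hi, map_zero]

theorem ord_iff [Infinite k] {j : ℕ} {P : MvPolynomial σ k} {c : σ → k} :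
    Ord j P c ↔ ∀ i < j, ∀ v : σ → k, (tayl c v P).coeff i = 0 := by
  constructor
  · intro h i hi v
    rw [← eval_lf, h i hi, map_zero]
  · intro h i hi
    apply MvPolynomial.funext
    intro v
    rw [eval_lf, h i hi, map_zero]

theorem Ord.sub {j : ℕ} {P Q : MvPolynomial σ k} {c : σ → k} (hP : Ord j P c)
    (hQ : Ord j Q c) : Ord j (P - Q) c := by
  intro i hi
  rw [lf_sub, hP i hi, hQ i hi, sub_zero]

theorem Ord.mono {i j : ℕ} {P : MvPolynomial σ k} {c : σ → k} (h : Ord j P c) (hij : i ≤ j) :
    Ord i P c := fun a ha => h a (lt_of_lt_of_le ha hij)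

theorem Ord.mul_left {j : ℕ} {P : MvPolynomial σ k} {c : σ → k} (h : Ord j P c)
    (A : MvPolynomial σ k) : Ord j (A * P) c := by
  intro i hi
  unfold lf
  rw [map_mul]
  refine coeff_mul_low' (i := 0) (j := j) (by intro a ha; omega) ?_ i (by omega)
  intro b hb
  exact h b hb

theorem lf_mul_left {j : ℕ} {P : MvPolynomial σ k} {c : σ → k} (h : Ord j P c)
    (A : MvPolynomial σ k) : lf j (A * P) c = C (eval c A) * lf j P c := by
  unfold lf
  rw [map_mul]
  have h1 := coeff_mul_low (i := 0) (j := j)
    (A := tayl (fun p => (C (c p) : MvPolynomial σ k)) X A)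
    (B := tayl (fun p => (C (c p) : MvPolynomial σ k)) X P)
    (by intro a ha; omega) (fun b hb => h b hb)
  rw [zero_add] at h1
  rw [h1, tayl_coeff_zero]
  congr 1
  have h2 := comp_aeval_apply c (Algebra.ofId k (MvPolynomial σ k)) A
  rw [← coe_aeval_eq_eval]
  exact h2.symm

end

section semi

variable {k : Type} [Field k] [Infinite k] {ι : Type} [Fintype ι] [DecidableEq ι] {n : ℕ}
  {σ : Type}

theorem tayl_act {α : RAct ι n σ} {w : ι → ℕ} {P : MvPolynomial σ k} (hP : IsSemi α w P)
    {R : Type} [CommRing R] [Algebra k R] (A : Mt ι n R) (c v : σ → R) :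
    tayl (α.act A c) (α.act A v) P = Polynomial.C (detw w A) * tayl c v P := by
  have h1 := hP.aeval_act (R := Polynomial R) (fun s => (A s).map Polynomial.C)
    (fun p => Polynomial.C (c p) + Polynomial.X * Polynomial.C (v p))
  have h2 : (fun p => Polynomial.C (c p) + Polynomial.X * Polynomial.C (v p)) =
      (fun p => Polynomial.C (c p)) + (Polynomial.X : Polynomial R) • (fun p => Polynomial.C (v p)) :=
    rfl
  have h3 : α.act (fun s => (A s).map Polynomial.C)
      (fun p => Polynomial.C (c p) + Polynomial.X * Polynomial.C (v p)) =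
      fun p => Polynomial.C (α.act A c p) + Polynomial.X * Polynomial.C (α.act A v p) := by
    rw [h2, α.act_add, α.act_smul]
    funext p
    rw [Pi.add_apply, Pi.smul_apply, smul_eq_mul, α.map_act, α.map_act]
  rw [h3, ← map_detw Polynomial.C] at h1
  exact h1

/-- Leading forms of semi-invariants are semi-invariant under the stabiliser. -/
theorem lf_stab {α : RAct ι n σ} {w : ι → ℕ} {P : MvPolynomial σ k} (hP : IsSemi α w P)
    (j : ℕ) {c : σ → k} {A : Mt ι n k} (hA : α.act A c = c) (v : σ → k) :
    eval (α.act A v) (lf j P c) = detw w A * eval v (lf j P c) := by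
  rw [eval_lf, eval_lf]
  have h1 := tayl_act hP A c v
  rw [hA] at h1
  rw [h1, Polynomial.coeff_C_mul]

/-- Leading forms of semi-invariants are invariant under tangential translations. -/
theorem lf_xi {α : DAct ι n σ} {w : ι → ℕ} {P : MvPolynomial σ k}
    (hP : IsSemi α.toRAct w P) {j : ℕ} {c : σ → k} (hc : Ord j P c) (Y : Mt ι n k) (v : σ → k) :
    eval (v + α.xi Y c) (lf j P c) = eval v (lf j P c) := by
  -- the moving point
  let B : Mt ι n (Polynomial k) := fun s => 1 + (Polynomial.X : Polynomial k) • (Y s).map Polynomial.C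
  let y : σ → Polynomial k := α.act B
    (fun p => Polynomial.C (c p) + Polynomial.X * Polynomial.C (v p))
  have hy0 : ∀ p, (y p).coeff 0 = c p := by
    intro p
    have h1 := α.map_act (Polynomial.evalRingHom (0 : k)) B
      (fun p => Polynomial.C (c p) + Polynomial.X * Polynomial.C (v p)) p
    have h2 : (fun s => (B s).map (Polynomial.evalRingHom (0 : k))) = 1 := by
      funext s
      ext i j
      simp [B, Matrix.one_apply]
      split_ifs <;> simp
    rw [h2, α.act_one] at h1
    rw [Polynomial.coeff_zero_eq_eval_zero]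
    change Polynomial.evalRingHom 0 (y p) = _
    rw [h1]
    simp
  -- the first order term
  let φ : Polynomial k →ₐ[k] DualNumber k := Polynomial.aeval DualNumber.eps
  have hφX : φ Polynomial.X = DualNumber.eps := Polynomial.aeval_X _
  have hφC : ∀ a, φ (Polynomial.C a) = algebraMap k _ a := fun a => Polynomial.aeval_C _ _
  have hφsnd : ∀ q : Polynomial k, φ q = algebraMap k _ (q.coeff 0) +
      DualNumber.eps * algebraMap k _ (q.coeff 1) := by
    intro q
    have h1 : q = Polynomial.C (q.coeff 0) + Polynomial.X * (Polynomial.C (q.coeff 1) +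
        Polynomial.X * q.divX.divX) := by
      conv_lhs => rw [← Polynomial.divX_mul_X_add q, ← Polynomial.divX_mul_X_add q.divX]
      rw [Polynomial.coeff_divX]
      ring
    conv_lhs => rw [h1]
    rw [map_add, map_mul, map_add, map_mul, hφX, hφC, hφC]
    have h2 := DualNumber.eps_mul_eps (R := k)
    linear_combination (φ q.divX.divX) * h2
  have hy1 : ∀ p, (y p).coeff 1 = v p + α.xi Y c p := by
    intro p
    have h1 := α.map_act (φ : Polynomial k →+* DualNumber k) B
      (fun p => Polynomial.C (c p) + Polynomial.X * Polynomial.C (v p)) p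
    have h2 : (fun s => (B s).map (φ : Polynomial k →+* DualNumber k)) =
        oneE (DualNumber.eps : DualNumber k) Y := by
      funext s
      ext1 i j
      change φ ((1 + (Polynomial.X : Polynomial k) • (Y s).map Polynomial.C) i j) = _
      rw [Matrix.add_apply, Matrix.smul_apply, Matrix.map_apply, smul_eq_mul, map_add, map_mul,
        hφX, hφC, Matrix.one_apply]
      unfold oneE
      rw [Matrix.add_apply, Matrix.smul_apply, Matrix.map_apply, smul_eq_mul, Matrix.one_apply]
      split_ifs <;> simp
    have h3 : (fun q => (φ : Polynomial k →+* DualNumber k) (Polynomial.C (c q) +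
        Polynomial.X * Polynomial.C (v q))) = (fun q => algebraMap k (DualNumber k) (c q)) +
        (DualNumber.eps : DualNumber k) • (fun q => algebraMap k (DualNumber k) (v q)) := by
      funext q
      change φ _ = _
      rw [map_add, map_mul, hφX, hφC, hφC]
      simp only [Pi.add_apply, Pi.smul_apply, smul_eq_mul]
    rw [h2, h3, α.act_add, α.act_smul] at h1
    rw [Pi.add_apply, Pi.smul_apply, smul_eq_mul,
      α.act_eps (DualNumber.eps : DualNumber k) DualNumber.eps_mul_eps,
      α.act_eps (DualNumber.eps : DualNumber k) DualNumber.eps_mul_eps] at h1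
    change φ (y p) = _ at h1
    rw [hφsnd, hy0] at h1
    have h4 : algebraMap k (DualNumber k) (c p) +
        DualNumber.eps * algebraMap k (DualNumber k) ((y p).coeff 1) =
        algebraMap k (DualNumber k) (c p) +
        DualNumber.eps * algebraMap k (DualNumber k) (v p + α.xi Y c p) := by
      rw [h1, map_add]
      linear_combination (algebraMap k (DualNumber k) (α.xi Y v p)) *
        (DualNumber.eps_mul_eps (R := k))
    have h5 := congrArg TrivSqZeroExt.snd h4
    rw [snd_form, snd_form] at h5
    exact h5
  -- divide by T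
  let u : σ → Polynomial k := fun p => (y p).divX
  have hyu : y = fun p => algebraMap k (Polynomial k) (c p) + Polynomial.X * u p := by
    funext p
    have h1 := (Polynomial.divX_mul_X_add (y p)).symm
    rw [hy0] at h1
    calc y p = (y p).divX * Polynomial.X + Polynomial.C (c p) := h1
      _ = Polynomial.C (c p) + Polynomial.X * (y p).divX := by ring
  have hu0 : ∀ p, (u p).coeff 0 = v p + α.xi Y c p := by
    intro p
    change (y p).divX.coeff 0 = _
    rw [Polynomial.coeff_divX]
    exact hy1 p
  have key := hP.aeval_act (R := Polynomial k) B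
    (fun p => Polynomial.C (c p) + Polynomial.X * Polynomial.C (v p))
  change aeval y P = _ at key
  have hL : aeval y P = (tayl (fun p => algebraMap k (Polynomial k) (c p)) u P).eval
      Polynomial.X := by
    rw [eval_tayl, hyu]
  have hR : aeval (fun p => Polynomial.C (c p) + Polynomial.X * Polynomial.C (v p)) P =
      tayl c v P := rfl
  have hLc : (aeval y P).coeff j = (aeval u (lf j P c)).coeff 0 := by
    rw [hL, Polynomial.eval_eq_sum_range, Polynomial.finsetSum_coeff]
    have h1 : ∀ i ∈ Finset.range ((tayl (fun p => algebraMap k (Polynomial k) (c p)) u P).natDegree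
        + 1), ((tayl (fun p => algebraMap k (Polynomial k) (c p)) u P).coeff i *
          Polynomial.X ^ i).coeff j =
        if i = j then (aeval u (lf j P c)).coeff 0 else 0 := by
      intro i _
      rw [Polynomial.coeff_mul_X_pow']
      split_ifs with h2 h3 h3
      · rw [h3, Nat.sub_self, aeval_lf]
      · have : i < j := lt_of_le_of_ne h2 h3
        rw [hc.coeff _ this, Polynomial.coeff_zero]
      · omega
      · rfl
    rw [Finset.sum_congr rfl h1, Finset.sum_ite_eq']
    split_ifs with h2
    · rfl
    · rw [aeval_lf]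
      rw [Finset.mem_range, not_lt] at h2
      have h3 : (tayl (fun p => algebraMap k (Polynomial k) (c p)) u P).coeff j = 0 :=
        Polynomial.coeff_eq_zero_of_natDegree_lt (by omega)
      rw [h3, Polynomial.coeff_zero]
  have hRc : (detw w B * tayl c v P).coeff j = (tayl c v P).coeff j := by
    have h1 := coeff_mul_low (i := 0) (j := j) (A := detw w B) (B := tayl c v P)
      (by intro a ha; omega) (fun b hb => by
        have := hc.coeff (R := k) v hb
        exact this)
    rw [zero_add] at h1
    rw [h1]
    have h2 : (detw w B).coeff 0 = 1 := by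
      rw [Polynomial.coeff_zero_eq_eval_zero]
      change Polynomial.evalRingHom 0 _ = _
      rw [map_detw]
      have h3 : (fun s => (B s).map (Polynomial.evalRingHom (0 : k))) = 1 := by
        funext s
        ext i j
        simp [B, Matrix.one_apply]
        split_ifs <;> simp
      rw [h3, detw_one]
    rw [h2, one_mul]
  have h1 : (aeval u (lf j P c)).coeff 0 = (tayl c v P).coeff j := by
    rw [← hLc, key, hR, hRc]
  have h2 : (aeval u (lf j P c)).coeff 0 = eval (v + α.xi Y c) (lf j P c) := by
    rw [Polynomial.coeff_zero_eq_eval_zero]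
    have h3 := comp_aeval_apply u ((Polynomial.aeval (0 : k) : Polynomial k →ₐ[k] k)) (lf j P c)
    rw [← coe_aeval_eq_eval]
    change (Polynomial.aeval (0 : k) : Polynomial k →ₐ[k] k) _ = _
    rw [h3]
    have h4 : (fun i => (Polynomial.aeval (0 : k) : Polynomial k →ₐ[k] k) (u i)) =
        v + α.xi Y c := by
      funext p
      rw [Pi.add_apply, ← hu0 p, Polynomial.coeff_zero_eq_eval_zero]
      rfl
    rw [h4]
    rfl
  rw [← h2, h1, eval_lf]

end semi

end

end Pool.Agent.Helper819.Gr
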