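import Pool.Agent.Helper819.Gr.Res4
import Pool.Agent.Helper819.Gr.Smith
import Pool.Agent.Helper819.Gr.Lead5

/-!
Coordinate formulas: gradients and torus actions.
-/

open MvPolynomial

namespace Pool.Agent.Helper819.Gr

open Pool.Agent.Helper819.Apolar Pool.Agent.Helper819.Dyn

noncomputable section

set_option linter.unusedSectionVars false

variable {R : Type} [CommRing R] {N d e : ℕ}

theorem coeff_pderiv' (i : Fin (N + 1)) (m : Fin (N + 1) →₀ ℕ)
    (F : MvPolynomial (Fin (N + 1)) R) :
    coeff m (pderiv i F) = (m i + 1 : ℕ) * coeff (m + Finsupp.single i 1) F := by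
  induction F using MvPolynomial.induction_on' with
  | monomial u a =>
    rw [pderiv_monomial, coeff_monomial, coeff_monomial]
    by_cases h : u = m + Finsupp.single i 1
    · subst h
      rw [if_pos (by simp), if_pos rfl]
      simp [mul_comm]
    · rw [if_neg h]
      by_cases h2 : u - Finsupp.single i 1 = m
      · rw [if_pos h2]
        have h3 : u i = 0 := by
          by_contra h0
          apply h
          rw [← h2]
          rw [tsub_add_cancel_of_le]
          rw [Finsupp.single_le_iff]
          omega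
        rw [h3]; simp
      · rw [if_neg h2]; simp
  | add p q hp hq =>
    rw [map_add, coeff_add, hp, hq, coeff_add]
    ring

/-- the exponent `m + e_i` -/
def up (i : Fin (N + 1)) (m : Ex N e) : Ex N (e + 1) :=
  ⟨m.1 + Finsupp.single i 1, (mem_Ex _).mpr (by
    rw [map_add, (mem_Ex m.1).mp m.2, Finsupp.degree_single])⟩

theorem up_apply (i j : Fin (N + 1)) (m : Ex N e) :
    (up i m).1 j = m.1 j + if i = j then 1 else 0 := by
  unfold up
  rw [Finsupp.add_apply, Finsupp.single_apply]

theorem grad_apply (c : Ex N (e + 1) → R) (i : Fin (N + 1)) (m : Ex N e) :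
    grad c (i, m) = (m.1 i + 1 : ℕ) * c (up i m) := by
  unfold grad cf
  rw [coeff_pderiv']
  congr 1
  exact coeff_frm c (up i m)

theorem exists_down (α : Ex N (e + 1)) (i : Fin (N + 1)) (hi : α.1 i ≠ 0) :
    ∃ m : Ex N e, up i m = α := by
  have h1 : Finsupp.single i 1 ≤ α.1 := by
    rw [Finsupp.single_le_iff]
    omega
  refine ⟨⟨α.1 - Finsupp.single i 1, (mem_Ex _).mpr ?_⟩, ?_⟩
  · have h2 := (mem_Ex α.1).mp α.2
    have h3 : (α.1 - Finsupp.single i 1 + Finsupp.single i 1).degree = e + 1 := by
      rw [tsub_add_cancel_of_le h1, h2]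
    rw [map_add, Finsupp.degree_single] at h3
    omega
  · apply Subtype.ext
    change α.1 - Finsupp.single i 1 + Finsupp.single i 1 = α.1
    exact tsub_add_cancel_of_le h1

/-- value of a monomial -/
def mon {R : Type} [CommMonoid R] (t : Fin (N + 1) → R) (m : Fin (N + 1) →₀ ℕ) : R :=
  ∏ j, t j ^ m j

theorem mon_add {R : Type} [CommMonoid R] (t : Fin (N + 1) → R) (m m' : Fin (N + 1) →₀ ℕ) :
    mon t (m + m') = mon t m * mon t m' := by
  unfold mon
  rw [← Finset.prod_mul_distrib]
  exact Finset.prod_congr rfl fun j _ => by rw [Finsupp.add_apply, pow_add]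

theorem mon_single {R : Type} [CommMonoid R] (t : Fin (N + 1) → R) (i : Fin (N + 1)) :
    mon t (Finsupp.single i 1) = t i := by
  unfold mon
  rw [Finset.prod_eq_single i]
  · simp
  · intro j _ hj
    rw [Finsupp.single_eq_of_ne hj]; simp
  · simp

theorem mon_const {R : Type} [CommMonoid R] (a : R) (m : Fin (N + 1) →₀ ℕ) :
    mon (fun _ => a) m = a ^ m.degree := by
  unfold mon
  rw [Finset.prod_pow_eq_pow_sum, Finsupp.degree_eq_sum]

theorem mon_mul {R : Type} [CommMonoid R] (s t : Fin (N + 1) → R) (m : Fin (N + 1) →₀ ℕ) :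
    mon (fun i => s i * t i) m = mon s m * mon t m := by
  unfold mon
  rw [← Finset.prod_mul_distrib]
  exact Finset.prod_congr rfl fun j _ => mul_pow _ _ _

theorem map_mon {R S F : Type} [CommMonoid R] [CommMonoid S] [FunLike F R S]
    [MonoidHomClass F R S] (φ : F) (t : Fin (N + 1) → R)
    (m : Fin (N + 1) →₀ ℕ) : φ (mon t m) = mon (fun i => φ (t i)) m := by
  unfold mon
  rw [map_prod]
  exact Finset.prod_congr rfl fun j _ => map_pow _ _ _

theorem coeff_subst_diagonal (t : Fin (N + 1) → R) (F : MvPolynomial (Fin (N + 1)) R)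
    (m : Fin (N + 1) →₀ ℕ) :
    coeff m (subst (Matrix.diagonal t) F) = mon t m * coeff m F := by
  have h1 : (fun l => ∑ j, C (Matrix.diagonal t l j) * (X j : MvPolynomial (Fin (N + 1)) R)) =
      fun l => C (t l) * X l := by
    funext l
    rw [Finset.sum_eq_single l]
    · rw [Matrix.diagonal_apply_eq]
    · intro j _ hj
      rw [Matrix.diagonal_apply_ne _ hj.symm]; simp
    · simp
  unfold subst
  rw [h1]
  induction F using MvPolynomial.induction_on' with
  | monomial u a =>
    have h2 : bind₁ (fun l => C (t l) * X l) (monomial u a : MvPolynomial (Fin (N + 1)) R) =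
        monomial u (mon t u * a) := by
      have h3 : ∏ i ∈ u.support, (C (t i) * X i : MvPolynomial (Fin (N + 1)) R) ^ u i =
          ∏ i, (C (t i) * X i : MvPolynomial (Fin (N + 1)) R) ^ u i := by
        apply Finset.prod_subset (Finset.subset_univ _)
        intro i _ hi
        rw [Finsupp.notMem_support_iff.mp hi, pow_zero]
      rw [bind₁_monomial, h3]
      simp only [mul_pow, Finset.prod_mul_distrib]
      rw [monomial_eq (s := u) (a := mon t u * a), Finsupp.prod_fintype _ _ (by simp)]
      unfold mon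
      simp only [map_mul, map_prod, map_pow]
      ring
    rw [h2, coeff_monomial, coeff_monomial]
    split_ifs with h
    · rw [h]
    · rw [mul_zero]
  | add p q hp hq =>
    rw [map_add, coeff_add, hp, hq, coeff_add]
    ring

theorem XA_diagonal (A : Mt Bool (N + 1) R) (t : Fin (N + 1) → R)
    (hA : A true = Matrix.diagonal t) (c : Ex N d → R) (m : Ex N d) :
    (XA N d).act A c m = mon t m.1 * c m := by
  change coeff m.1 (subst (A true) (frm c)) = _
  rw [hA, coeff_subst_diagonal, coeff_frm]

theorem ZA_diagonal (A : Mt Bool (N + 1) R) (a t : Fin (N + 1) → R)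
    (hA : A true = Matrix.diagonal t) (hA' : A false = Matrix.diagonal a) (c : Ix N d → R)
    (p : Ix N d) :
    (ZA N d).act A c p = a p.1 * mon t p.2.1 * c p := by
  change coeff p.2.1 (∑ j, C (A false j p.1) * subst (A true) (tup c j)) = _
  rw [Finset.sum_eq_single p.1]
  · rw [hA, hA', Matrix.diagonal_apply_eq, coeff_C_mul, coeff_subst_diagonal, coeff_tup]
    ring
  · intro j _ hj
    rw [hA', Matrix.diagonal_apply_ne _ hj]; simp
  · simp

/-- `act` by a pair -/
def pr2 (B g : Matrix (Fin (N + 1)) (Fin (N + 1)) R) : Mt Bool (N + 1) R :=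
  fun s => if s then g else B

@[simp] theorem pr2_true (B g : Matrix (Fin (N + 1)) (Fin (N + 1)) R) : pr2 B g true = g := rfl

@[simp] theorem pr2_false (B g : Matrix (Fin (N + 1)) (Fin (N + 1)) R) : pr2 B g false = B := rfl

theorem pr2_mul (B g B' g' : Matrix (Fin (N + 1)) (Fin (N + 1)) R) :
    pr2 B g * pr2 B' g' = pr2 (B * B') (g * g') := by
  funext s
  cases s <;> rfl

theorem pr2_one : pr2 (1 : Matrix (Fin (N + 1)) (Fin (N + 1)) R) 1 = 1 := by
  funext s
  cases s <;> rfl

theorem diag_eq_pr2 (g : Matrix (Fin (N + 1)) (Fin (N + 1)) R) : diag g = pr2 g g := by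
  funext s
  cases s <;> rfl

theorem map_pr2 {S : Type} [CommRing S] (φ : R →+* S)
    (B g : Matrix (Fin (N + 1)) (Fin (N + 1)) R) :
    (fun s => (pr2 B g s).map φ) = pr2 (B.map φ) (g.map φ) := by
  funext s
  cases s <;> rfl

theorem eta_pr2 (A : Mt Bool (N + 1) R) : A = pr2 (A false) (A true) := by
  funext s
  cases s <;> rfl

theorem XA_congr {A B : Mt Bool (N + 1) R} (h : A true = B true) (c : Ex N d → R) :
    (XA N d).act A c = (XA N d).act B c := by
  change cff (subst (A true) (frm c)) = cff (subst (B true) (frm c))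
  rw [h]

theorem detw_pr2 (r : Bool → ℕ) (B g : Matrix (Fin (N + 1)) (Fin (N + 1)) R) :
    detw r (pr2 B g) = g.det ^ r true * B.det ^ r false := by
  unfold detw
  rw [Fintype.prod_bool]
  rfl

end

end Pool.Agent.Helper819.Gr
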