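import Pool.Agent.Helper819.Gr.V1

/-!
Valuations: properness of the action on nonsingular forms.
-/

open MvPolynomial

namespace Pool.Agent.Helper819.Gr

open Pool.Agent.Helper819.Apolar Pool.Agent.Helper819.Dyn

noncomputable section

set_option linter.unusedSectionVars false

variable {L : Type} [Field L] (O : ValuationSubring L) {N d e : ℕ}

theorem coe_grad (c : Ex N (e + 1) → O) :
    (fun p => ((grad c p : O) : L)) = grad (fun q => (c q : L)) := by
  funext p
  exact map_grad O.subtype c p

theorem eval_grad_act (c : Ex N (e + 1) → L) (g : Matrix (Fin (N + 1)) (Fin (N + 1)) L)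
    (x : Fin (N + 1) → L) (i : Fin (N + 1)) :
    eval x (tup (grad ((XA N (e + 1)).act (diag g) c)) i) =
      ∑ j, g j i * eval (g.mulVec x) (tup (grad c) j) := by
  rw [grad_act, tup_ZA, eval_zact]
  rfl

theorem nl_step (he : 1 ≤ e) {c c' : Ex N (e + 1) → O} (hc : Good O (grad c))
    (hc' : Good O (grad c')) (g h : Matrix (Fin (N + 1)) (Fin (N + 1)) L) (hgh : g * h = 1)
    (hact : (XA N (e + 1)).act (diag g) (fun p => (c p : L)) = fun p => (c' p : L))
    (i0 j0 : Fin (N + 1)) (hmax : ∀ i j, O.valuation (g i j) ≤ O.valuation (g i0 j0))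
    (i j : Fin (N + 1)) : O.valuation (h i j) ^ e ≤ O.valuation (g i0 j0) := by
  set v := O.valuation
  let x : Fin (N + 1) → L := fun l => h l j
  have hgx : g.mulVec x = Pi.single j 1 := by
    funext l
    have h1 : g.mulVec x l = (g * h) l j := by
      rw [Matrix.mul_apply]; rfl
    rw [h1, hgh, Matrix.one_apply, Pi.single_apply]
  have hn1 : nrm v (Pi.single j 1 : Fin (N + 1) → L) = 1 := by
    refine nrm_eq_of _ (fun i => ?_) j ?_
    · by_cases hi : i = j
      · subst hi; simp
      · simp [hi]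
    · simp
  have e1 := norm_eq O hc he (g.mulVec x)
  have e2 := norm_eq O hc' he x
  rw [coe_grad] at e1 e2
  rw [hgx, hn1, one_pow] at e1
  have e3 : nrm v (fun i => eval x (tup (grad fun q => (c' q : L)) i)) ≤ v (g i0 j0) := by
    apply nrm_le
    intro l
    rw [← hact, eval_grad_act]
    refine v.map_sum_le fun m _ => ?_
    rw [map_mul, hgx]
    have e4 := le_nrm v (fun i => eval (Pi.single j 1 : Fin (N + 1) → L)
      (tup (grad fun q => (c q : L)) i)) m
    rw [e1] at e4
    calc v (g m l) * v (eval (Pi.single j 1) (tup (grad fun q => (c q : L)) m))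
        ≤ v (g i0 j0) * 1 := mul_le_mul' (hmax _ _) e4
      _ = _ := mul_one _
  rw [e2] at e3
  refine le_trans ?_ e3
  exact pow_le_pow_left' (le_nrm v x i) e

/-- Properness. -/
theorem nl (he : 2 ≤ e) {c c' : Ex N (e + 1) → O} (hc : Good O (grad c))
    (hc' : Good O (grad c')) (g h : Matrix (Fin (N + 1)) (Fin (N + 1)) L) (hgh : g * h = 1)
    (hact : (XA N (e + 1)).act (diag g) (fun p => (c p : L)) = fun p => (c' p : L)) :
    (∀ i j, g i j ∈ O) ∧ ∀ i j, h i j ∈ O := by
  have hhg : h * g = 1 := mul_eq_one_comm.mp hgh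
  have hact' : (XA N (e + 1)).act (diag h) (fun p => (c' p : L)) = fun p => (c p : L) := by
    rw [← hact, (XA N (e + 1)).act_act]
    have : diag g * diag h = 1 := by
      rw [diag_eq_pr2, diag_eq_pr2, pr2_mul, hgh, pr2_one]
    rw [this, (XA N (e + 1)).act_one]
  obtain ⟨i0, j0, h0⟩ := exists_max_entry O.valuation g
  obtain ⟨i1, j1, h1⟩ := exists_max_entry O.valuation h
  have e1 := nl_step O (by omega) hc hc' g h hgh hact i0 j0 h0 i1 j1
  have e2 := nl_step O (by omega) hc' hc h g hhg hact' i1 j1 h1 i0 j0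
  set a := O.valuation (g i0 j0)
  set b := O.valuation (h i1 j1)
  have ha : a ≤ 1 := by
    by_contra hcon
    push Not at hcon
    have e3 : a ^ (e * e) ≤ a := by
      rw [pow_mul]
      exact (pow_le_pow_left' e2 e).trans e1
    have e4 : a ^ 1 < a ^ (e * e) := pow_lt_pow_right₀ hcon (by nlinarith)
    rw [pow_one] at e4
    exact absurd e3 (not_le.mpr e4)
  have hb : b ≤ 1 := by
    by_contra hcon
    push Not at hcon
    exact absurd (e1.trans ha) (not_le.mpr (one_lt_pow₀ hcon (by omega)))
  exact ⟨fun i j => (O.valuation_le_one_iff _).mp ((h0 i j).trans ha),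
    fun i j => (O.valuation_le_one_iff _).mp ((h1 i j).trans hb)⟩

end

end Pool.Agent.Helper819.Gr
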