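import Pool.Agent.Helper819.Gr.V2

/-!
Valuations: integral tuples in the orbit of a gradient.
-/

open MvPolynomial

namespace Pool.Agent.Helper819.Gr

open Pool.Agent.Helper819.Apolar Pool.Agent.Helper819.Dyn

noncomputable section

set_option linter.unusedSectionVars false

variable {k : Type} [Field k] {L : Type} [Field L] [Algebra k L] (O : ValuationSubring L)
  [Algebra k O] [IsScalarTower k O L] {N d e : ℕ} {σ : Type}

theorem coe_aeval (c : σ → O) (P : MvPolynomial σ k) :
    ((aeval c P : O) : L) = aeval (fun p => (c p : L)) P :=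
  comp_aeval_apply c (IsScalarTower.toAlgHom k O L) P

theorem res_aeval (c : σ → O) (P : MvPolynomial σ k) :
    IsLocalRing.residue O (aeval c P) = aeval (fun p => IsLocalRing.residue O (c p)) P :=
  comp_aeval_apply c (IsScalarTower.toAlgHom k O (IsLocalRing.ResidueField O)) P

theorem k_mem (a : k) : algebraMap k L a ∈ O := by
  rw [IsScalarTower.algebraMap_apply k O L]
  exact (algebraMap k O a).2

theorem val_nat [CharZero k] {n : ℕ} (hn : n ≠ 0) : O.valuation ((n : ℕ) : L) = 1 := by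
  have h1 : IsUnit ((algebraMap k O) (n : k)) := (isUnit_iff_ne_zero.mpr
    (Nat.cast_ne_zero.mpr hn)).map _
  have h2 := (O.valuation_eq_one_iff _).mp h1
  rw [← h2]
  congr 1
  change _ = algebraMap O L (algebraMap k O (n : k))
  rw [← IsScalarTower.algebraMap_apply, map_natCast]

theorem good_of_unit {D : MvPolynomial (Ix N e) k}
    (hD : ∀ (K : Type) [Field K] [Algebra k K] (c : Ix N e → K), aeval c D ≠ 0 → NZ (tup c))
    (c : Ix N e → O) (h : IsUnit (aeval c D)) : Good O c := by
  apply hD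
  rw [← res_aeval]
  exact (IsLocalRing.residue_ne_zero_iff_isUnit _).mpr h

theorem coe_act_X (A : Mt Bool (N + 1) O) (c : Ex N d → O) :
    (fun p => (((XA N d).act A c p : O) : L)) =
      (XA N d).act (fun s => (A s).map O.subtype) (fun p => (c p : L)) := by
  funext p
  exact (XA N d).map_act O.subtype A c p

theorem coe_act_Z (A : Mt Bool (N + 1) O) (c : Ix N d → O) :
    (fun p => (((ZA N d).act A c p : O) : L)) =
      (ZA N d).act (fun s => (A s).map O.subtype) (fun p => (c p : L)) := by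
  funext p
  exact (ZA N d).map_act O.subtype A c p

theorem mon_ne_zero {L : Type} [Field L] {t : Fin (N + 1) → L} (ht : ∀ i, t i ≠ 0)
    (m : Fin (N + 1) →₀ ℕ) : mon t m ≠ 0 :=
  Finset.prod_ne_zero_iff.mpr fun j _ => pow_ne_zero _ (ht j)

theorem mon_inv {L : Type} [Field L] (t : Fin (N + 1) → L)
    (m : Fin (N + 1) →₀ ℕ) : mon (fun i => (t i)⁻¹) m = (mon t m)⁻¹ := by
  unfold mon
  rw [← Finset.prod_inv_distrib]
  exact Finset.prod_congr rfl fun j _ => inv_pow _ _

/-- Integral tuples in the orbit of a gradient. -/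
theorem vl [CharZero k] [IsAlgClosed L] {D : MvPolynomial (Ix N e) k} {r : Bool → ℕ}
    [Infinite k]
    (hsemi : IsSemi (ZA N e).toRAct r D) (hr : r true = e * r false)
    (x : Ix N e → O) (hx : IsUnit (aeval x D)) (f : Ex N (e + 1) → L)
    (B g : Matrix (Fin (N + 1)) (Fin (N + 1)) L) (hB : B.det ≠ 0) (hg : g.det ≠ 0)
    (hxf : (fun p => (x p : L)) = (ZA N e).act (pr2 B g) (grad f)) :
    ∃ (s : Fin (N + 1) → L) (A : Mt Bool (N + 1) O) (h : Ex N (e + 1) → O)
      (g' : Matrix (Fin (N + 1)) (Fin (N + 1)) L), (∀ i, s i ≠ 0) ∧ g'.det ≠ 0 ∧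
      (fun p => (h p : L)) = (XA N (e + 1)).act (diag g') f ∧ IsUnit (aeval (grad h) D) ∧
      (∀ p, ((grad h p : O) : L) = s p.1 ^ e * (mon s p.2.1)⁻¹ * ((ZA N e).act A x p : O)) ∧
      ∀ p : Ix N e, IsUnit (grad h p) →
        O.valuation (s p.1 ^ e) = O.valuation (mon s p.2.1) := by
  obtain ⟨U, U', V, V', hUU', hU'U, hVV', hV'V, δ, hδ⟩ := smith (O := O) (N + 1) (B⁻¹ * g)
  have hdet : (B⁻¹ * g).det ≠ 0 := by
    rw [Matrix.det_mul, Matrix.det_nonsing_inv, Ring.inverse_eq_inv']
    exact mul_ne_zero (inv_ne_zero hB) hg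
  have hδ0 : ∀ i, δ i ≠ 0 := by
    intro i hi
    apply hdet
    rw [hδ, Matrix.det_mul, Matrix.det_mul, Matrix.det_diagonal,
      Finset.prod_eq_zero (Finset.mem_univ i) hi, mul_zero, zero_mul]
  choose s hs using fun i => IsAlgClosed.exists_pow_nat_eq (δ i) (n := e + 1) (by omega)
  have hs0 : ∀ i, s i ≠ 0 := by
    intro i hi
    apply hδ0 i
    rw [← hs i, hi, zero_pow (by omega)]
  -- matrices over L
  set UL := U.map O.subtype
  set VL := V.map O.subtype
  set VL' := V'.map O.subtype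
  have hVL : VL * VL' = 1 := by
    rw [← Matrix.map_mul, hVV']
    exact Matrix.map_one _ (map_zero _) (map_one _)
  have hVLd : VL'.det ≠ 0 := by
    intro h0
    have := congrArg Matrix.det hVL
    rw [Matrix.det_mul, h0, mul_zero, Matrix.det_one] at this
    exact zero_ne_one this
  let y : Ix N e → O := (ZA N e).act (pr2 U V') x
  have hyL : (fun p => (y p : L)) = (ZA N e).act (pr2 UL VL') (fun p => (x p : L)) := by
    rw [coe_act_Z]
    have h1 := map_pr2 O.subtype U V'
    rw [h1]
  have hyu : IsUnit (aeval y D) := by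
    rw [hsemi.aeval_act]
    refine IsUnit.mul ?_ hx
    apply detw_isUnit
    intro b
    cases b
    · exact (Matrix.isUnit_iff_isUnit_det _).mp (IsUnit.of_mul_eq_one _ hUU')
    · exact (Matrix.isUnit_iff_isUnit_det _).mp (IsUnit.of_mul_eq_one _ hV'V)
  let f2 : Ex N (e + 1) → L := (XA N (e + 1)).act (diag (g * VL')) f
  have hBB : B * B⁻¹ = 1 := Matrix.mul_nonsing_inv _ (isUnit_iff_ne_zero.mpr hB)
  have hf2 : grad f2 = (ZA N e).act (pr2 (Matrix.diagonal δ) 1) (fun p => (y p : L)) := by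
    rw [hyL, hxf, (ZA N e).act_act, (ZA N e).act_act, pr2_mul, pr2_mul]
    have h1 : grad f2 = (ZA N e).act (diag (g * VL')) (grad f) := grad_act _ _
    rw [h1, diag_eq_pr2]
    congr 2
    · have h2 : B * (UL * Matrix.diagonal δ) * (VL * VL') = B * (B⁻¹ * g) * VL' := by
        rw [hδ]
        simp only [Matrix.mul_assoc]
      rw [hVL, Matrix.mul_one, ← Matrix.mul_assoc, ← Matrix.mul_assoc, hBB, Matrix.one_mul] at h2
      exact h2.symm.trans (Matrix.mul_assoc _ _ _)
    · rw [Matrix.mul_one]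
  have hf2' : ∀ p : Ix N e, grad f2 p = δ p.1 * (y p : L) := by
    intro p
    rw [hf2, ZA_diagonal (pr2 (Matrix.diagonal δ) 1) δ (fun _ => 1) (by simp) rfl]
    rw [mon_const, one_pow, mul_one]
  -- valuations of coefficients
  set v := O.valuation with hv
  have hvs0 : ∀ i, v (s i) ≠ 0 := fun i => (Valuation.ne_zero_iff _).mpr (hs0 i)
  have hcoef : ∀ (α : Ex N (e + 1)) (i : Fin (N + 1)), α.1 i ≠ 0 →
      v (f2 α) ≤ v (s i) ^ (e + 1) := by
    intro α i hi
    obtain ⟨m, rfl⟩ := exists_down α i hi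
    have h1 := hf2' (i, m)
    rw [grad_apply] at h1
    have h2 := congrArg v h1
    rw [map_mul, map_mul, hv, val_nat (k := k) O (by omega), one_mul, ← hv, ← hs i, map_pow] at h2
    rw [h2]
    calc v (s i) ^ (e + 1) * v (y (i, m) : L) ≤ v (s i) ^ (e + 1) * 1 :=
          mul_le_mul' le_rfl (O.valuation_le_one _)
      _ = _ := mul_one _
  have hmonv : ∀ m : Fin (N + 1) →₀ ℕ, v (mon s m) = mon (fun i => v (s i)) m := by
    intro m
    exact map_mon v s m
  have hlow : ∀ (m : Fin (N + 1) →₀ ℕ) (a : O.ValueGroup), (∀ j, m j ≠ 0 → a ≤ v (s j)) →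
      a ^ m.degree ≤ v (mon s m) := by
    intro m a ha
    rw [hmonv, ← mon_const (N := N) a m]
    unfold mon
    refine Finset.prod_le_prod' fun j _ => ?_
    by_cases hj : m j = 0
    · rw [hj, pow_zero, pow_zero]
    · exact pow_le_pow_left' (ha j hj) _
  have hexmin : ∀ α : Ex N (e + 1), ∃ i, α.1 i ≠ 0 ∧ ∀ j, α.1 j ≠ 0 → v (s i) ≤ v (s j) := by
    intro α
    have hne : α.1.support.Nonempty := by
      rw [Finsupp.support_nonempty_iff]
      intro h0
      have := (mem_Ex α.1).mp α.2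
      rw [h0] at this
      simp at this
    obtain ⟨i, hi, him⟩ := Finset.exists_min_image α.1.support (fun i => v (s i)) hne
    exact ⟨i, Finsupp.mem_support_iff.mp hi, fun j hj => him j (Finsupp.mem_support_iff.mpr hj)⟩
  have hhO : ∀ α : Ex N (e + 1), (mon s α.1)⁻¹ * f2 α ∈ O := by
    intro α
    obtain ⟨i, hi, him⟩ := hexmin α
    rw [← O.valuation_le_one_iff, map_mul, map_inv₀]
    have h1 : v (f2 α) ≤ v (mon s α.1) := (hcoef α i hi).trans (by
      have := hlow α.1 (v (s i)) him
      rwa [(mem_Ex α.1).mp α.2] at this)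
    rw [mul_comm]
    have hm0 : 0 < v (mon s α.1) := zero_lt_iff.mpr ((Valuation.ne_zero_iff _).mpr (mon_ne_zero hs0 _))
    rw [← div_eq_mul_inv]
    exact div_le_one_of_le₀ h1 zero_le
  let h : Ex N (e + 1) → O := fun α => ⟨(mon s α.1)⁻¹ * f2 α, hhO α⟩
  have hh : (fun p => (h p : L)) =
      (XA N (e + 1)).act (diag (Matrix.diagonal fun i => (s i)⁻¹)) f2 := by
    funext α
    rw [XA_diagonal (diag (Matrix.diagonal fun i => (s i)⁻¹)) (fun i => (s i)⁻¹) rfl, mon_inv]
  have hgradh : ∀ p, ((grad h p : O) : L) = s p.1 ^ e * (mon s p.2.1)⁻¹ * (y p : O) := by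
    intro p
    have h1 := congrFun (coe_grad O h) p
    rw [h1, hh, grad_act, ZA_diagonal (diag (diag (Matrix.diagonal fun i => (s i)⁻¹) true))
      (fun i => (s i)⁻¹) (fun i => (s i)⁻¹) rfl rfl, hf2', ← hs p.1, mon_inv]
    have h2 : (s p.1)⁻¹ * s p.1 = 1 := inv_mul_cancel₀ (hs0 p.1)
    linear_combination (s p.1 ^ e * (mon s p.2.1)⁻¹ * (y p : L)) * h2
  refine ⟨s, pr2 U V', h, g * VL' * Matrix.diagonal (fun i => (s i)⁻¹), hs0, ?_, ?_, ?_,
    hgradh, ?_⟩
  · rw [Matrix.det_mul, Matrix.det_mul, Matrix.det_diagonal]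
    exact mul_ne_zero (mul_ne_zero hg hVLd) (Finset.prod_ne_zero_iff.mpr fun i _ =>
      inv_ne_zero (hs0 i))
  · rw [hh, (XA N (e + 1)).act_act]
    congr 1
  · have h1 : aeval (fun p => ((grad h p : O) : L)) D = aeval (fun p => (y p : L)) D := by
      have h2 : (fun p => ((grad h p : O) : L)) = (ZA N e).act
          (pr2 (Matrix.diagonal fun i => (s i) ^ e) (Matrix.diagonal fun i => (s i)⁻¹))
          (fun p => (y p : L)) := by
        funext p
        rw [hgradh, ZA_diagonal (pr2 (Matrix.diagonal fun i => (s i) ^ e)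
          (Matrix.diagonal fun i => (s i)⁻¹))
          (fun i => (s i) ^ e) (fun i => (s i)⁻¹) rfl rfl, mon_inv]
      rw [h2, hsemi.aeval_act, detw_pr2, hr, Matrix.det_diagonal, Matrix.det_diagonal]
      have h3 : (∏ i, (s i)⁻¹) ^ (e * r false) * (∏ i, s i ^ e) ^ r false = 1 := by
        rw [pow_mul, ← mul_pow, ← Finset.prod_pow, ← Finset.prod_mul_distrib]
        have : ∀ i, (s i)⁻¹ ^ e * s i ^ e = 1 := by
          intro i
          rw [← mul_pow, inv_mul_cancel₀ (hs0 i), one_pow]
        simp only [this, Finset.prod_const_one, one_pow]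
      rw [h3, one_mul]
    rw [← coe_aeval, ← coe_aeval] at h1
    rw [Subtype.ext h1]
    exact hyu
  · intro p hp
    -- the coefficient of h is a unit
    set α := up p.1 p.2 with hα
    have h1 : IsUnit (h α) := by
      rw [show p = (p.1, p.2) from rfl, grad_apply] at hp
      exact isUnit_of_mul_isUnit_right hp
    have h2 : v (h α : L) = 1 := (O.valuation_eq_one_iff _).mp h1
    have h3 : v (f2 α) = v (mon s α.1) := by
      have h4 : (h α : L) = (mon s α.1)⁻¹ * f2 α := rfl
      rw [h4, map_mul, map_inv₀] at h2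
      have hm0 : v (mon s α.1) ≠ 0 := (Valuation.ne_zero_iff _).mpr (mon_ne_zero hs0 _)
      exact (inv_mul_eq_one₀ hm0).mp h2 |>.symm
    obtain ⟨i, hi, him⟩ := hexmin α
    have hall : ∀ j, α.1 j ≠ 0 → v (s j) = v (s i) := by
      intro j hj
      refine le_antisymm ?_ (him j hj)
      obtain ⟨m, hm⟩ := exists_down α j hj
      have h5 : v (s j) * v (s i) ^ e ≤ v (s i) ^ (e + 1) := by
        refine le_trans ?_ (h3 ▸ hcoef α i hi)
        have h6 : v (mon s α.1) = v (s j) * v (mon s m.1) := by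
          rw [← hm]
          change v (mon s (m.1 + Finsupp.single j 1)) = _
          rw [mon_add, mon_single, map_mul, mul_comm]
        rw [h6]
        refine mul_le_mul' le_rfl ?_
        have h7 := hlow m.1 (v (s i)) (by
          intro l hl
          apply him
          rw [← hm, up_apply]
          omega)
        rwa [(mem_Ex m.1).mp m.2] at h7
      rw [pow_succ, mul_comm] at h5
      exact le_of_mul_le_mul_left h5 (zero_lt_iff.mpr (pow_ne_zero _ (hvs0 i)))
    have hp1 : v (s p.1) = v (s i) := hall p.1 (by rw [hα, up_apply, if_pos rfl]; omega)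
    rw [map_pow, hp1, hmonv]
    have h8 : mon (fun i => v (s i)) p.2.1 = mon (fun _ => v (s i)) p.2.1 := by
      unfold mon
      refine Finset.prod_congr rfl fun j _ => ?_
      by_cases hj : p.2.1 j = 0
      · rw [hj, pow_zero, pow_zero]
      · change v (s j) ^ _ = v (s i) ^ _
        rw [hall j (by rw [hα, up_apply]; omega)]
    rw [h8, mon_const, (mem_Ex p.2.1).mp p.2.2]

end

end Pool.Agent.Helper819.Gr
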