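import Pool.Agent.Helper819.Gr.V3

/-!
Orbit closures of gradients are minimal.
-/

open MvPolynomial

namespace Pool.Agent.Helper819.Gr

open Pool.Agent.Helper819.Apolar Pool.Agent.Helper819.Dyn

noncomputable section

set_option linter.unusedSectionVars false

theorem aeval_const {k R σ : Type} [Field k] [CommRing R] [Algebra k R] (c : σ → k)
    (P : MvPolynomial σ k) : aeval (fun p => algebraMap k R (c p)) P = algebraMap k R (eval c P) := by
  have h1 := comp_aeval_apply (R := k) c (Algebra.ofId k R) P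
  rw [← coe_aeval_eq_eval]
  exact h1.symm

/-- Specialising a torus degeneration. -/
theorem torus_spec {κ : Type} [Field κ] {L : Type} [Field L] (O : ValuationSubring L)
    {N e : ℕ} (ρ : O →+* κ) (s : Fin (N + 1) → L) (hs : ∀ i, s i ≠ 0)
    (y w : Ix N e → O)
    (hw : ∀ p, ((w p : O) : L) = s p.1 ^ e * (mon s p.2.1)⁻¹ * (y p : O))
    (h1 : ∀ p, ρ (w p) ≠ 0 → s p.1 ^ e * (mon s p.2.1)⁻¹ ∈ O)
    (h2 : ∀ p, ρ (y p) ≠ 0 → s p.1 ^ e * (mon s p.2.1)⁻¹ ∈ O)
    {k : Type} [Field k] [Algebra k κ] (P : MvPolynomial (Ix N e) k)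
    (G : Matrix (Fin (N + 1)) (Fin (N + 1)) κ)
    (hP : ∀ (T : Type) [CommRing T] [Algebra k T] [Algebra κ T] [IsScalarTower k κ T]
      (A : Mt Bool (N + 1) T), aeval ((ZA N e).act A (fun p => algebraMap κ T (ρ (y p)))) P = 0) :
    aeval ((ZA N e).act (diag G) (fun p => ρ (w p))) P = 0 := by
  classical
  let sx : (Fin (N + 1) → ℤ) → L := fun χ => ∏ j, s j ^ χ j
  have hsx : ∀ χ χ', sx (χ + χ') = sx χ * sx χ' := by
    intro χ χ'
    change ∏ j, s j ^ (χ j + χ' j) = (∏ j, s j ^ χ j) * ∏ j, s j ^ χ' j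
    rw [← Finset.prod_mul_distrib]
    exact Finset.prod_congr rfl fun j _ => zpow_add₀ (hs j) _ _
  have hsx0 : sx 0 = 1 := by
    change ∏ j, s j ^ (0 : ℤ) = 1
    simp
  let H : AddSubmonoid (Fin (N + 1) → ℤ) :=
    { carrier := {χ | sx χ ∈ O}
      zero_mem' := by
        change sx 0 ∈ O
        rw [hsx0]; exact O.one_mem
      add_mem' := by
        intro a b ha hb
        change sx (a + b) ∈ O
        rw [hsx]
        exact O.mul_mem _ _ ha hb }
  let ε0 : Multiplicative H →* κ :=
    { toFun := fun χ => ρ ⟨sx (Multiplicative.toAdd χ : H), (Multiplicative.toAdd χ : H).2⟩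
      map_one' := by
        rw [← map_one ρ]
        congr 1
        exact Subtype.ext hsx0
      map_mul' := by
        intro a b
        rw [← map_mul]
        congr 1
        exact Subtype.ext (hsx _ _) }
  let T := AddMonoidAlgebra κ (Fin (N + 1) → ℤ)
  let TH := AddMonoidAlgebra κ H
  let incl : TH →ₐ[κ] T := AddMonoidAlgebra.mapDomainAlgHom κ κ H.subtype
  have hincl : Function.Injective incl :=
    AddMonoidAlgebra.mapDomain_injective Subtype.val_injective
  have hincls : ∀ (χ : H) (a : κ), incl (AddMonoidAlgebra.single χ a) =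
      AddMonoidAlgebra.single χ.1 a := fun χ a => AddMonoidAlgebra.mapDomain_single
  let ε : TH →ₐ[κ] κ := AddMonoidAlgebra.lift κ κ H ε0
  have hε : ∀ (χ : H) (a : κ), ε (AddMonoidAlgebra.single χ a) =
      a * ρ ⟨sx χ.1, χ.2⟩ := fun χ a => AddMonoidAlgebra.lift_single _ _ _
  let χ : Ix N e → (Fin (N + 1) → ℤ) := fun p j => (if j = p.1 then (e : ℤ) else 0) - (p.2.1 j : ℤ)
  have hχ : ∀ p, sx (χ p) = s p.1 ^ e * (mon s p.2.1)⁻¹ := by
    intro p
    change ∏ j, s j ^ ((if j = p.1 then (e : ℤ) else 0) - (p.2.1 j : ℤ)) = _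
    have : ∀ j, s j ^ ((if j = p.1 then (e : ℤ) else 0) - (p.2.1 j : ℤ)) =
        (if j = p.1 then s j ^ e else 1) * (s j ^ p.2.1 j)⁻¹ := by
      intro j
      rw [zpow_sub₀ (hs j), div_eq_mul_inv, zpow_natCast]
      split_ifs
      · rw [zpow_natCast]
      · rw [zpow_zero]
    simp_rw [this]
    rw [Finset.prod_mul_distrib, Finset.prod_ite_eq', if_pos (Finset.mem_univ _),
      Finset.prod_inv_distrib]
    rfl
  let y' : Ix N e → TH := fun p =>
    if hp : χ p ∈ H then AddMonoidAlgebra.single ⟨χ p, hp⟩ (ρ (y p)) else 0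
  have hH : ∀ p, χ p ∈ H ↔ s p.1 ^ e * (mon s p.2.1)⁻¹ ∈ O := by
    intro p
    rw [← hχ]
    rfl
  have hy1 : ∀ p, incl (y' p) = AddMonoidAlgebra.single (χ p) (ρ (y p)) := by
    intro p
    change incl (dite _ _ _) = _
    split_ifs with hp
    · exact hincls _ _
    · have : ρ (y p) = 0 := by
        by_contra hne
        exact hp ((hH p).mpr (h2 p hne))
      rw [this, map_zero]
      exact (AddMonoidAlgebra.single_zero _).symm
  have hy2 : ∀ p, ε (y' p) = ρ (w p) := by
    intro p
    change ε (dite _ _ _) = _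
    split_ifs with hp
    · rw [hε, ← map_mul]
      congr 1
      apply Subtype.ext
      change (y p : L) * sx (χ p) = w p
      rw [hw, hχ, mul_comm]
    · have : ρ (w p) = 0 := by
        by_contra hne
        exact hp ((hH p).mpr (h1 p hne))
      rw [this, map_zero]
  let sg : (Fin (N + 1) → ℤ) → T := fun χ => AddMonoidAlgebra.single χ 1
  have hsg : ∀ χ χ', sg (χ + χ') = sg χ * sg χ' := by
    intro χ χ'
    change (AddMonoidAlgebra.single _ _ : T) = AddMonoidAlgebra.single _ _ * AddMonoidAlgebra.single _ _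
    rw [AddMonoidAlgebra.single_mul_single, mul_one]
  have hsg0 : sg 0 = 1 := rfl
  let sgm : Multiplicative (Fin (N + 1) → ℤ) →* T :=
    { toFun := fun a => sg (Multiplicative.toAdd a)
      map_one' := hsg0
      map_mul' := fun a b => hsg _ _ }
  let a0 : Fin (N + 1) → T := fun i => sg (fun j => if j = i then (e : ℤ) else 0)
  let t0 : Fin (N + 1) → T := fun i => sg (fun j => if j = i then (-1 : ℤ) else 0)
  have hmon : ∀ m : Fin (N + 1) →₀ ℕ, mon t0 m = sg (fun j => -(m j : ℤ)) := by
    intro m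
    have e1 : mon t0 m = sgm (∏ i, (Multiplicative.ofAdd
        (fun j => if j = i then (-1 : ℤ) else 0)) ^ m i) := by
      rw [map_prod]
      unfold mon
      refine Finset.prod_congr rfl fun i _ => ?_
      rw [map_pow]
      rfl
    rw [e1]
    change sg _ = _
    congr 1
    rw [toAdd_prod]
    funext j
    rw [Finset.sum_apply]
    have e2 : ∀ i, (Multiplicative.toAdd ((Multiplicative.ofAdd
        (fun j : Fin (N + 1) => if j = i then (-1 : ℤ) else 0)) ^ m i)) j =
        if i = j then (-(m i : ℤ)) else 0 := by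
      intro i
      rw [toAdd_pow, toAdd_ofAdd, Pi.smul_apply]
      by_cases h : j = i
      · rw [if_pos h, if_pos h.symm]; simp
      · rw [if_neg h, if_neg (fun h' => h h'.symm)]; simp
    simp_rw [e2]
    rw [Finset.sum_ite_eq' , if_pos (Finset.mem_univ _)]
  have hy3 : (fun p => incl (y' p)) = (ZA N e).act (pr2 (Matrix.diagonal a0) (Matrix.diagonal t0))
      (fun p => algebraMap κ T (ρ (y p))) := by
    funext p
    rw [hy1, ZA_diagonal (pr2 (Matrix.diagonal a0) (Matrix.diagonal t0)) a0 t0 rfl rfl, hmon,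
      ← hsg]
    have e1 : (fun j => if j = p.1 then (e : ℤ) else 0) + (fun j => -(p.2.1 j : ℤ)) = χ p := by
      funext j
      rw [Pi.add_apply]
      change _ = (if j = p.1 then (e : ℤ) else 0) - (p.2.1 j : ℤ)
      ring
    rw [e1]
    change _ = AddMonoidAlgebra.single _ _ * AddMonoidAlgebra.single 0 (ρ (y p))
    rw [AddMonoidAlgebra.single_mul_single, one_mul, add_zero]
  -- conclusion
  let inclk : TH →ₐ[k] T := incl.restrictScalars k
  let εk : TH →ₐ[k] κ := ε.restrictScalars k
  let z : Ix N e → TH := (ZA N e).act (diag (G.map (algebraMap κ TH))) y'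
  have hz : aeval z P = 0 := by
    apply hincl
    have e1 := comp_aeval_apply z inclk P
    change incl (aeval z P) = incl 0
    change incl (aeval z P) = _ at e1
    rw [e1, map_zero]
    have e2 : (fun i => inclk (z i)) = (ZA N e).act (pr2 (Matrix.diagonal a0) (Matrix.diagonal t0) *
        diag (G.map (algebraMap κ T))) (fun p => algebraMap κ T (ρ (y p))) := by
      rw [← (ZA N e).act_act, ← hy3]
      funext p
      have e3 := (ZA N e).map_act (incl : TH →+* T) (diag (G.map (algebraMap κ TH))) y' p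
      change incl (z p) = _ at e3
      change incl (z p) = _
      rw [e3]
      congr 1
      funext b
      refine Matrix.ext fun i j => ?_
      change incl (algebraMap κ TH (G i j)) = algebraMap κ T (G i j)
      exact incl.commutes _
    rw [e2]
    exact hP T _
  have e1 := comp_aeval_apply z εk P
  rw [hz, map_zero] at e1
  rw [e1]
  congr 2
  funext p
  have e3 := (ZA N e).map_act (ε : TH →+* κ) (diag (G.map (algebraMap κ TH))) y' p
  change ε (z p) = _ at e3
  change _ = ε (z p)
  rw [e3]
  congr 1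
  · funext b
    ext i j
    change G i j = ε (algebraMap κ TH (G i j))
    rw [ε.commutes]
    rfl
  · funext q
    exact (hy2 q).symm

end

end Pool.Agent.Helper819.Gr
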