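import Pool.Agent.Helper819.Gr.V4

/-!
Orbit closures of gradients are minimal (continued).
-/

open MvPolynomial

namespace Pool.Agent.Helper819.Gr

open Pool.Agent.Helper819.Apolar Pool.Agent.Helper819.Dyn

noncomputable section

set_option linter.unusedSectionVars false

variable {k : Type} [Field k] {N e : ℕ}

theorem gmat_det_ne (ι : Type) [Fintype ι] [DecidableEq ι] (n : ℕ) (s : ι) :
    (gmat ι n k s).det ≠ 0 := by
  intro h
  apply dtw_ne_zero (ι := ι) (n := n) k (fun _ => 1)
  unfold dtw detw
  exact Finset.prod_eq_zero (Finset.mem_univ s) (by rw [h, pow_one])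

theorem grad_const {R : Type} [CommRing R] [Algebra k R] (f : Ex N (e + 1) → k) :
    grad (fun p => algebraMap k R (f p)) = fun p => algebraMap k R (grad f p) := by
  funext p
  exact (map_grad (algebraMap k R) f p).symm

/-- algebra structure on a valuation ring containing `k` -/
@[reducible] def algO {L : Type} [Field L] [Algebra k L] (O : ValuationSubring L)
    (hk : ∀ a : k, algebraMap k L a ∈ O) : Algebra k O :=
  ((algebraMap k L).codRestrict O.toSubring hk).toAlgebra

/-- The main consequence of the valuative analysis. -/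
theorem kl [IsAlgClosed k] [CharZero k] (he : 2 ≤ e) {D : MvPolynomial (Ix N e) k}
    {r : Bool → ℕ} (hsemi : IsSemi (ZA N e).toRAct r D) (hr : r true = e * r false)
    (hDK : ∀ (K : Type) [Field K] [Algebra k K] (c : Ix N e → K), aeval c D ≠ 0 → NZ (tup c))
    (f0 : Ex N (e + 1) → k) (hf0 : eval (grad f0) D ≠ 0) (c : Ix N e → k) (hc : eval c D ≠ 0)
    (h : ∀ P, aeval (orb (ZA N e).toRAct (grad f0)) P = 0 → eval c P = 0)
    (P : MvPolynomial (Ix N e) k) (hP : aeval (orb (ZA N e).toRAct c) P = 0) :
    eval (grad f0) P = 0 := by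
  let K0 := FractionRing (KJ Bool (N + 1) k)
  let L := AlgebraicClosure K0
  let ι : KJ Bool (N + 1) k →ₐ[k] L := (IsScalarTower.toAlgHom k K0 L).comp
    (IsScalarTower.toAlgHom k (KJ Bool (N + 1) k) K0)
  have hι : Function.Injective ι := by
    intro a b hab
    have h1 : algebraMap K0 L (algebraMap (KJ Bool (N + 1) k) K0 a) =
      algebraMap K0 L (algebraMap (KJ Bool (N + 1) k) K0 b) := hab
    exact IsFractionRing.injective (KJ Bool (N + 1) k) K0 ((algebraMap K0 L).injective h1)
  let A : Mt Bool (N + 1) L := fun s => (gmat Bool (N + 1) k s).map ι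
  have hιA : ∀ x, ι x = aeval (ent A) x := by
    intro x
    have : ι = aeval (ent A) := by
      apply algHom_ext
      intro p
      rw [aeval_X]
      rfl
    rw [this]
  have hdetA : ∀ s, (A s).det ≠ 0 := by
    intro s h0
    apply gmat_det_ne (k := k) Bool (N + 1) s
    apply hι
    rw [map_zero]
    have h1 := RingHom.map_det (ι : KJ Bool (N + 1) k →+* L) (gmat Bool (N + 1) k s)
    exact h1.trans h0
  let φ : MvPolynomial (Ix N e) k →ₐ[k] L := ι.comp (aeval (orb (ZA N e).toRAct (grad f0)))
  have hφX : ∀ p, φ (X p) = (ZA N e).act A (fun q => algebraMap k L (grad f0 q)) p := by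
    intro p
    change ι (aeval _ (X p)) = _
    rw [aeval_X, hιA, aeval_orb]
  obtain ⟨O, hO1, hO2⟩ := exists_val φ c (by
    intro P hP
    apply h
    apply hι
    rw [map_zero]
    exact hP)
  have hk : ∀ a : k, algebraMap k L a ∈ O := by
    intro a
    have h1 := hO1 (C a)
    rwa [algHom_C] at h1
  letI : Algebra k O := algO O hk
  haveI : IsScalarTower k O L := IsScalarTower.of_algebraMap_eq (fun _ => rfl)
  let κ := IsLocalRing.ResidueField O
  let ρ : O →+* κ := IsLocalRing.residue O
  have hρk : ∀ a : k, ρ (algebraMap k O a) = algebraMap k κ a := fun a => rfl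
  let x : Ix N e → O := fun p => ⟨φ (X p), hO1 _⟩
  have hxL : (fun p => (x p : L)) = (ZA N e).act (pr2 (A false) (A true))
      (grad (fun q => algebraMap k L (f0 q))) := by
    rw [← eta_pr2, grad_const]
    funext p
    exact hφX p
  have hρx : ∀ p, ρ (x p) = algebraMap k κ (c p) := by
    intro p
    rw [← hρk, ← sub_eq_zero, ← map_sub]
    change IsLocalRing.residue O _ = 0
    rw [IsLocalRing.residue_eq_zero_iff, O.valuation_lt_one_iff]
    have h1 := hO2 (X p - C (c p)) (by simp)
    rw [map_sub, algHom_C] at h1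
    exact h1
  have hx : IsUnit (aeval x D) := by
    rw [← IsLocalRing.residue_ne_zero_iff_isUnit, res_aeval]
    have h1 : (fun p => IsLocalRing.residue O (x p)) = fun p => algebraMap k κ (c p) :=
      funext hρx
    rw [h1, aeval_const]
    exact (map_ne_zero _).mpr hc
  obtain ⟨s, AO, hh, g', hs0, hg', hact, hunit, hgradh, hval⟩ := vl O hsemi hr x hx
    (fun q => algebraMap k L (f0 q)) (A false) (A true) (hdetA _) (hdetA _) hxL
  let c0 : Ex N (e + 1) → O := fun q => algebraMap k O (f0 q)
  have hc0u : IsUnit (aeval (grad c0) D) := by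
    have h1 : grad c0 = fun p => algebraMap k O (grad f0 p) := grad_const f0
    rw [h1, aeval_const]
    exact (isUnit_iff_ne_zero.mpr hf0).map _
  have hG1 : Good O (grad c0) := good_of_unit O hDK _ hc0u
  have hG2 : Good O (grad hh) := good_of_unit O hDK _ hunit
  have hgg : g' * g'⁻¹ = 1 := Matrix.mul_nonsing_inv _ (isUnit_iff_ne_zero.mpr hg')
  obtain ⟨hgO, hgO'⟩ := nl O he hG1 hG2 g' g'⁻¹ hgg (by
    rw [hact]
    rfl)
  let G : Matrix (Fin (N + 1)) (Fin (N + 1)) O := Matrix.of fun i j => ⟨g' i j, hgO i j⟩
  let G' : Matrix (Fin (N + 1)) (Fin (N + 1)) O := Matrix.of fun i j => ⟨g'⁻¹ i j, hgO' i j⟩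
  have hinj : Function.Injective (fun M : Matrix (Fin (N + 1)) (Fin (N + 1)) O =>
      M.map O.subtype) := by
    intro M M' hM
    refine Matrix.ext fun i j => Subtype.ext ?_
    exact congrFun (congrFun hM i) j
  have hGG' : G * G' = 1 := by
    apply hinj
    change (G * G').map O.subtype = (1 : Matrix (Fin (N + 1)) (Fin (N + 1)) O).map O.subtype
    rw [Matrix.map_mul, Matrix.map_one _ (map_zero _) (map_one _)]
    exact hgg
  have hactO : (XA N (e + 1)).act (diag G) c0 = hh := by
    funext p
    apply Subtype.ext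
    have h1 := congrFun (coe_act_X O (diag G) c0) p
    have h2 := congrFun hact p
    rw [h1]
    change _ = (fun p => (hh p : L)) p
    rw [hact]
    rfl
  have hgO2 : grad c0 = (ZA N e).act (diag G') (grad hh) := by
    rw [← hactO, grad_act, (ZA N e).act_act]
    have h3 : diag (diag G true) * diag G' = 1 := by
      change diag G * diag G' = 1
      rw [diag_eq_pr2, diag_eq_pr2, pr2_mul, hGG', pr2_one]
    rw [h3, (ZA N e).act_one]
  have hfin : (fun p => algebraMap k κ (grad f0 p)) = (ZA N e).act (diag (G'.map ρ))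
      (fun p => ρ (grad hh p)) := by
    funext p
    have h1 := (ZA N e).map_act ρ (diag G') (grad hh) p
    rw [← hgO2] at h1
    have h2 : grad c0 p = algebraMap k O (grad f0 p) := congrFun (grad_const f0) p
    rw [h2, hρk] at h1
    exact h1
  have key := torus_spec O ρ s hs0 ((ZA N e).act AO x) (grad hh) hgradh (by
      intro p hp
      have h1 : IsUnit (grad hh p) := (IsLocalRing.residue_ne_zero_iff_isUnit _).mp hp
      have h2 := hval p h1
      rw [← O.valuation_le_one_iff, map_mul, map_inv₀, h2, mul_inv_cancel₀]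
      exact (Valuation.ne_zero_iff _).mpr (mon_ne_zero hs0 _)) (by
      intro p hp
      have h1 : IsUnit ((ZA N e).act AO x p) := (IsLocalRing.residue_ne_zero_iff_isUnit _).mp hp
      have h2 := (O.valuation_eq_one_iff _).mp h1
      have h3 := congrArg O.valuation (hgradh p)
      rw [map_mul, h2, mul_one] at h3
      rw [← O.valuation_le_one_iff, ← h3]
      exact O.valuation_le_one _) P (G'.map ρ) (by
      intro T _ _ _ _ B
      have h1 : (fun p => algebraMap κ T (ρ ((ZA N e).act AO x p))) =
          (ZA N e).act (fun b => ((AO b).map ρ).map (algebraMap κ T))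
            (fun q => algebraMap k T (c q)) := by
        funext p
        rw [(ZA N e).map_act ρ, (ZA N e).map_act (algebraMap κ T)]
        congr 1
        funext q
        rw [hρx, ← IsScalarTower.algebraMap_apply]
      rw [h1, (ZA N e).act_act, ← aeval_aeval_orb, hP, map_zero])
  rw [← hfin, aeval_const] at key
  exact (map_eq_zero _).mp key

end

end Pool.Agent.Helper819.Gr
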