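import Pool.Agent.Helper819.Gr.V5

/-!
Integrality of the invariants of forms over the invariants of tuples.
-/

open MvPolynomial

namespace Pool.Agent.Helper819.Gr

open Pool.Agent.Helper819.Apolar Pool.Agent.Helper819.Dyn

noncomputable section

set_option linter.unusedSectionVars false

variable {k : Type} [Field k] {N e : ℕ}

/-- pull back along the gradient -/
def pull : MvPolynomial (Ix N e) k →ₐ[k] MvPolynomial (Ex N (e + 1)) k := aeval (grad X)

theorem aeval_pull {R : Type} [CommRing R] [Algebra k R] (c : Ex N (e + 1) → R)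
    (q : MvPolynomial (Ix N e) k) : aeval c (pull q) = aeval (grad c) q := by
  unfold pull
  have h1 := comp_aeval_apply (grad (X : Ex N (e + 1) → MvPolynomial (Ex N (e + 1)) k))
    (aeval c : MvPolynomial (Ex N (e + 1)) k →ₐ[k] R) q
  rw [h1]
  congr 2
  funext p
  have h2 := map_grad (aeval c : MvPolynomial (Ex N (e + 1)) k →ₐ[k] R).toRingHom X p
  change aeval c (grad X p) = _ at h2
  rw [h2]
  congr 1
  funext q
  exact aeval_X _ _

theorem eval_pull (c : Ex N (e + 1) → k) (q : MvPolynomial (Ix N e) k) :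
    eval c (pull q) = eval (grad c) q := by
  rw [← coe_aeval_eq_eval, ← coe_aeval_eq_eval]
  exact aeval_pull c q

/-- the weight of the pull back -/
def wx (v : Bool → ℕ) : Bool → ℕ := fun b => if b then v true + v false else 0

theorem wx_smul (m : ℕ) (v : Bool → ℕ) : wx (m • v) = m • wx v := by
  funext b
  cases b
  · simp [wx]
  · simp [wx, mul_add]

theorem wx_add (v v' : Bool → ℕ) : wx (v + v') = wx v + wx v' := by
  funext b
  cases b
  · simp [wx]
  · simp [wx]; ring

theorem detw_wx {R : Type} [CommRing R] (v : Bool → ℕ) (A : Mt Bool (N + 1) R) :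
    detw (wx v) A = detw v (diag (A true)) := by
  unfold detw
  rw [Fintype.prod_bool, Fintype.prod_bool]
  simp [wx, diag, pow_add]

theorem IsSemi.pull {v : Bool → ℕ} {q : MvPolynomial (Ix N e) k}
    (hq : IsSemi (ZA N e).toRAct v q) : IsSemi (XA N (e + 1)).toRAct (wx v) (pull q) := by
  intro A c
  rw [eval_pull, eval_pull, grad_act, hq, detw_wx]

theorem dtw_smul (n : ℕ) {ι : Type} [Fintype ι] [DecidableEq ι] (k : Type) [CommRing k] (m : ℕ)
    (w : ι → ℕ) : dtw n k (m • w) = dtw n k w ^ m := by
  unfold dtw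
  exact detw_smul m w (gmat ι n k)

theorem integrality [IsAlgClosed k] [CharZero k] {D : MvPolynomial (Ix N e) k}
    {r : Bool → ℕ} (hsemi : IsSemi (ZA N e).toRAct r D) (hr : r true = e * r false)
    (hD0 : ∃ c : Ex N (e + 1) → k, eval (grad c) D ≠ 0)
    (p : MvPolynomial (Ex N (e + 1)) k) (m : ℕ)
    (hp : IsSemi (XA N (e + 1)).toRAct (m • wx r) p) :
    ∃ (n l : ℕ) (b : ℕ → MvPolynomial (Ix N e) k), (∀ i, IsSemi (ZA N e).toRAct (l • r) (b i)) ∧
      ∀ c : Ex N (e + 1) → k, eval (grad c) D ≠ 0 →
        (eval c p / eval (grad c) D ^ m) ^ n + ∑ i ∈ Finset.range n,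
          (eval (grad c) (b i) / eval (grad c) D ^ l) *
            (eval c p / eval (grad c) D ^ m) ^ i = 0 := by
  let T0 := MvPolynomial (Jx Bool (N + 1) ⊕ Ex N (e + 1)) k
  let K0 := FractionRing T0
  let L := AlgebraicClosure K0
  let ι : T0 →ₐ[k] L := (IsScalarTower.toAlgHom k K0 L).comp (IsScalarTower.toAlgHom k T0 K0)
  have hι : Function.Injective ι := by
    intro a b hab
    have h1 : algebraMap K0 L (algebraMap T0 K0 a) = algebraMap K0 L (algebraMap T0 K0 b) := hab
    exact IsFractionRing.injective T0 K0 ((algebraMap K0 L).injective h1)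
  let A0 : Mt Bool (N + 1) T0 := fun s => Matrix.of fun i j => X (Sum.inl (s, i, j))
  let g0 : Ex N (e + 1) → T0 := fun q => X (Sum.inr q)
  let x0 : Ix N e → T0 := (ZA N e).act A0 (grad g0)
  let A : Mt Bool (N + 1) L := fun s => (A0 s).map ι
  let f : Ex N (e + 1) → L := fun q => ι (g0 q)
  let x : Ix N e → L := fun q => ι (x0 q)
  have hx : x = (ZA N e).act A (grad f) := by
    funext q
    have h1 := (ZA N e).map_act (ι : T0 →+* L) A0 (grad g0) q
    change ι (x0 q) = _ at h1
    change ι (x0 q) = _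
    rw [h1]
    congr 1
    funext q'
    exact map_grad (ι : T0 →+* L) g0 q'
  -- specialisation to a point
  have hspec : ∀ (A' : Mt Bool (N + 1) k) (c' : Ex N (e + 1) → k),
      ∃ ψ : T0 →ₐ[k] k, (∀ s, (A0 s).map ψ = A' s) ∧ (∀ q, ψ (g0 q) = c' q) := by
    intro A' c'
    refine ⟨aeval (Sum.elim (ent A') c'), fun s => ?_, fun q => ?_⟩
    · ext i j
      change aeval _ (X _) = _
      rw [aeval_X]
      rfl
    · change aeval _ (X _) = _
      rw [aeval_X]
      rfl
  obtain ⟨c1, hc1⟩ := hD0
  have hdetA : ∀ s, (A s).det ≠ 0 := by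
    intro s h0
    have h1 := RingHom.map_det (ι : T0 →+* L) (A0 s)
    have h2 : ι (A0 s).det = 0 := h1.trans h0
    have h3 : (A0 s).det = 0 := hι (by rw [h2, map_zero])
    obtain ⟨ψ, hψ, _⟩ := hspec 1 c1
    have h4 := RingHom.map_det (ψ : T0 →+* k) (A0 s)
    have h5 : ψ (A0 s).det = (1 : Matrix (Fin (N + 1)) (Fin (N + 1)) k).det := by
      refine h4.trans ?_
      congr 1
      exact hψ s
    rw [h3, map_zero, Matrix.det_one] at h5
    exact zero_ne_one h5
  have hDf : aeval (grad f) D ≠ 0 := by
    intro h0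
    have h1 : ι (aeval (grad g0) D) = 0 := by
      rw [← h0, comp_aeval_apply]
      congr 2
      funext q
      exact map_grad (ι : T0 →+* L) g0 q
    have h3 : aeval (grad g0) D = 0 := hι (by rw [h1, map_zero])
    obtain ⟨ψ, _, hψ⟩ := hspec 1 c1
    have h4 : ψ (aeval (grad g0) D) = eval (grad c1) D := by
      rw [comp_aeval_apply, ← aeval_eq_eval_self]
      congr 2
      funext q
      have := map_grad (ψ : T0 →+* k) g0 q
      change ψ (grad g0 q) = _ at this
      change ψ (grad g0 q) = _
      rw [this]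
      congr 1
      funext q'
      exact hψ q'
    rw [h3, map_zero] at h4
    exact hc1 h4.symm
  have hDx : aeval x D ≠ 0 := by
    rw [hx, hsemi.aeval_act]
    exact mul_ne_zero (detw_ne_zero _ _ hdetA) hDf
  -- the subring
  let B : Subring L :=
    { carrier := {y | ∃ (l : ℕ) (b : MvPolynomial (Ix N e) k), y * aeval x D ^ l = aeval x b}
      mul_mem' := by
        rintro y y' ⟨l, b, h⟩ ⟨l', b', h'⟩
        refine ⟨l + l', b * b', ?_⟩
        rw [map_mul, ← h, ← h', pow_add]
        ring
      one_mem' := ⟨0, 1, by simp⟩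
      add_mem' := by
        rintro y y' ⟨l, b, h⟩ ⟨l', b', h'⟩
        refine ⟨l + l', b * D ^ l' + b' * D ^ l, ?_⟩
        rw [map_add, map_mul, map_mul, ← h, ← h', map_pow, map_pow, pow_add]
        ring
      zero_mem' := ⟨0, 0, by simp⟩
      neg_mem' := by
        rintro y ⟨l, b, h⟩
        refine ⟨l, -b, ?_⟩
        rw [map_neg, ← h, neg_mul] }
  set S : L := aeval f p / aeval (grad f) D ^ m with hS
  have hmem : S ∈ (integralClosure (Subring.closure (B : Set L)) L).toSubring := by
    rw [← iInf_valuationSubring_superset]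
    rw [Subring.mem_iInf]
    rintro ⟨O, hO⟩
    change S ∈ O
    have hk : ∀ a : k, algebraMap k L a ∈ O := fun a => hO ⟨0, C a, by
      rw [pow_zero, mul_one, algHom_C]⟩
    have hxO : ∀ q, x q ∈ O := fun q => hO ⟨0, X q, by
      rw [pow_zero, mul_one, aeval_X]⟩
    have hDO : (aeval x D)⁻¹ ∈ O := hO ⟨1, 1, by
      rw [pow_one, inv_mul_cancel₀ hDx, map_one]⟩
    letI : Algebra k O := algO O hk
    haveI : IsScalarTower k O L := IsScalarTower.of_algebraMap_eq (fun _ => rfl)
    let xO : Ix N e → O := fun q => ⟨x q, hxO q⟩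
    have hxu : IsUnit (aeval xO D) := by
      refine IsUnit.of_mul_eq_one (⟨_, hDO⟩ : O) ?_
      apply Subtype.ext
      change ((aeval xO D : O) : L) * (aeval x D)⁻¹ = 1
      rw [coe_aeval]
      exact mul_inv_cancel₀ hDx
    obtain ⟨s, AO, hh, g', hs0, hg', hact, hunit, _, _⟩ := vl O hsemi hr xO hxu f (A false)
      (A true) (hdetA _) (hdetA _) (by rw [← eta_pr2, ← hx])
    have h1 : aeval (fun q => (hh q : L)) p =
        detw r (diag g') ^ m * aeval f p := by
      rw [hact, hp.aeval_act, detw_smul, detw_wx]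
      rfl
    have h2 : aeval (fun q => ((grad hh q : O) : L)) D =
        detw r (diag g') * aeval (grad f) D := by
      rw [coe_grad, hact, grad_act, hsemi.aeval_act]
      rfl
    have hdg : detw r (diag g') ≠ 0 := detw_ne_zero _ _ fun s => hg'
    have h3 : S = ((aeval hh p : O) : L) / ((aeval (grad hh) D : O) : L) ^ m := by
      rw [coe_aeval, coe_aeval, h1, h2, mul_pow, mul_div_mul_left _ _ (pow_ne_zero _ hdg)]
    rw [h3]
    have h4 := (O.valuation_eq_one_iff _).mp hunit
    rw [← O.valuation_le_one_iff, map_div₀, map_pow, h4, one_pow, div_one]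
    exact O.valuation_le_one _
  have hint : IsIntegral (Subring.closure (B : Set L)) S := hmem
  obtain ⟨P, hP1, hP2⟩ := hint
  have hcoeff : ∀ i, ∃ (l : ℕ) (b : MvPolynomial (Ix N e) k),
      ((P.coeff i : Subring.closure (B : Set L)) : L) * aeval x D ^ l = aeval x b := by
    intro i
    have h1 : ((P.coeff i : Subring.closure (B : Set L)) : L) ∈ B :=
      (Subring.closure_le.mpr (fun _ h => h) : Subring.closure (B : Set L) ≤ B) (P.coeff i).2
    exact h1
  choose l0 b0 hb0 using hcoeff
  set n := P.natDegree with hn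
  set l := ∑ i ∈ Finset.range (n + 1), l0 i with hl
  have hb1 : ∀ i ∈ Finset.range (n + 1), ((P.coeff i : Subring.closure (B : Set L)) : L) *
      aeval x D ^ l = aeval x (b0 i * D ^ (l - l0 i)) := by
    intro i hi
    have h1 : l0 i ≤ l := Finset.single_le_sum (f := l0) (fun _ _ => Nat.zero_le _) hi
    rw [map_mul, ← hb0, map_pow, mul_assoc, ← pow_add, Nat.add_sub_cancel' h1]
  let b1 : ℕ → MvPolynomial (Ix N e) k := fun i => b0 i * D ^ (l - l0 i)
  -- the equation in L
  have hsum : ∑ i ∈ Finset.range (n + 1), ((P.coeff i : Subring.closure (B : Set L)) : L) *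
      S ^ i = 0 := by
    rw [← hP2, Polynomial.eval₂_eq_sum_range]
    rfl
  have heq : aeval x D ^ l * aeval f p ^ n + ∑ i ∈ Finset.range n,
      aeval x (b1 i) * (aeval f p ^ i * aeval (grad f) D ^ (m * (n - i))) = 0 := by
    have h1 : (aeval x D ^ l * aeval (grad f) D ^ (m * n)) * ∑ i ∈ Finset.range (n + 1),
      ((P.coeff i : Subring.closure (B : Set L)) : L) * S ^ i = 0 := by rw [hsum, mul_zero]
    rw [Finset.mul_sum, Finset.sum_range_succ, add_comm] at h1
    have hSi : ∀ i ≤ n, aeval (grad f) D ^ (m * n) * S ^ i =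
        aeval f p ^ i * aeval (grad f) D ^ (m * (n - i)) := by
      intro i hi
      have h2 : m * n = m * (n - i) + m * i := by
        rw [← mul_add, Nat.sub_add_cancel hi]
      rw [hS, div_pow, h2, pow_add, ← pow_mul]
      have h3 : aeval (grad f) D ^ (m * i) ≠ 0 := pow_ne_zero _ hDf
      rw [mul_assoc, mul_div_cancel₀ _ h3, mul_comm]
    rw [← h1]
    congr 1
    · have h2 : ((P.coeff n : Subring.closure (B : Set L)) : L) = 1 := by
        rw [hn, Polynomial.coeff_natDegree, hP1.leadingCoeff]
        rfl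
      rw [h2, one_mul, mul_assoc, hSi n le_rfl, Nat.sub_self, mul_zero, pow_zero, mul_one]
    · refine Finset.sum_congr rfl fun i hi => ?_
      have hi' := Finset.mem_range.mp hi
      rw [← hb1 i (Finset.mem_range.mpr (by omega)), ← hSi i hi'.le]
      ring
  -- the polynomial identity
  have heq0 : aeval x0 D ^ l * aeval g0 p ^ n + ∑ i ∈ Finset.range n,
      aeval x0 (b1 i) * (aeval g0 p ^ i * aeval (grad g0) D ^ (m * (n - i))) = 0 := by
    apply hι
    rw [map_zero, ← heq, map_add, map_sum]
    have e1 : ∀ Q : MvPolynomial (Ix N e) k, ι (aeval x0 Q) = aeval x Q :=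
      fun Q => comp_aeval_apply _ _ _
    have e2 : ∀ Q : MvPolynomial (Ex N (e + 1)) k, ι (aeval g0 Q) = aeval f Q :=
      fun Q => comp_aeval_apply _ _ _
    have e3 : ι (aeval (grad g0) D) = aeval (grad f) D := by
      rw [comp_aeval_apply]
      congr 2
      funext q
      exact map_grad (ι : T0 →+* L) g0 q
    simp only [map_mul, map_pow, e1, e2, e3]
  refine ⟨n, l, fun i => sharp (ZA N e).toRAct (l • r) (b1 i),
    fun i => isSemi_sharp _ _ _, fun c hc => ?_⟩
  -- specialise to c
  have hKJ : dtw (N + 1) k (l • r) * C (eval (grad c) D ^ l * eval c p ^ n) +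
      ∑ i ∈ Finset.range n, aeval (orb (ZA N e).toRAct (grad c)) (b1 i) *
        C (eval c p ^ i * eval (grad c) D ^ (m * (n - i))) = 0 := by
    let ψ : T0 →ₐ[k] KJ Bool (N + 1) k := aeval (Sum.elim X (fun q => C (c q)))
    have e2 : ∀ Q : MvPolynomial (Ex N (e + 1)) k, ψ (aeval g0 Q) = C (eval c Q) := by
      intro Q
      rw [comp_aeval_apply]
      have : (fun i => ψ (g0 i)) = fun i => algebraMap k (KJ Bool (N + 1) k) (c i) := by
        funext q
        change aeval _ (X _) = _
        rw [aeval_X]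
        rfl
      rw [this, aeval_const]
      rfl
    have e4 : (fun i => ψ (grad g0 i)) = fun i => algebraMap k (KJ Bool (N + 1) k) (grad c i) := by
      funext q
      have h1 := map_grad (ψ : T0 →+* KJ Bool (N + 1) k) g0 q
      change ψ (grad g0 q) = _ at h1
      rw [h1, map_grad]
      congr 1
      funext q'
      change aeval _ (X _) = _
      rw [aeval_X]
      rfl
    have e3 : ψ (aeval (grad g0) D) = C (eval (grad c) D) := by
      rw [comp_aeval_apply, e4, aeval_const]
      rfl
    have e1 : ∀ Q : MvPolynomial (Ix N e) k, ψ (aeval x0 Q) =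
        aeval (orb (ZA N e).toRAct (grad c)) Q := by
      have e5 : (fun i => ψ (x0 i)) = orb (ZA N e).toRAct (grad c) := by
        funext q
        have h1 := (ZA N e).map_act (ψ : T0 →+* KJ Bool (N + 1) k) A0 (grad g0) q
        change ψ (x0 q) = _ at h1
        rw [h1]
        have e6 : (fun s => (A0 s).map (ψ : T0 →+* KJ Bool (N + 1) k)) =
            gmat Bool (N + 1) k := by
          funext s
          refine Matrix.ext fun i j => ?_
          change aeval _ (X _) = _
          rw [aeval_X]
          rfl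
        rw [e6]
        exact congrArg (fun z => (ZA N e).act (gmat Bool (N + 1) k) z q) e4
      intro Q
      rw [comp_aeval_apply, e5]
    have h1 := congrArg ψ heq0
    rw [map_zero, map_add, map_sum] at h1
    simp only [map_mul, map_pow, e1, e2, e3] at h1
    rw [aeval_orb_semi _ hsemi] at h1
    rw [← h1, dtw_smul]
    simp only [map_mul, map_pow]
    rw [mul_pow]
    have h5 : dtw (N + 1) k r ^ l * (C (eval (grad c) D) ^ l * C (eval c p) ^ n) =
        C (eval (grad c) D) ^ l * dtw (N + 1) k r ^ l * C (eval c p) ^ n := by ring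
    rw [h5]
  have hρ := congrArg (rho (l • r)) hKJ
  rw [rho_zero, rho_add, rho_sum, mul_comm, rho_smul, rho_dtw, mul_one] at hρ
  have hρ2 : ∀ i, rho (l • r) (aeval (orb (ZA N e).toRAct (grad c)) (b1 i) *
        C (eval c p ^ i * eval (grad c) D ^ (m * (n - i)))) =
      (eval c p ^ i * eval (grad c) D ^ (m * (n - i))) *
        eval (grad c) (sharp (ZA N e).toRAct (l • r) (b1 i)) := by
    intro i
    rw [mul_comm, rho_smul, eval_sharp]
  simp only [hρ2] at hρ
  have hne : eval (grad c) D ^ l * eval (grad c) D ^ (m * n) ≠ 0 :=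
    mul_ne_zero (pow_ne_zero _ hc) (pow_ne_zero _ hc)
  apply mul_left_cancel₀ hne
  rw [mul_zero, ← hρ, mul_add, Finset.mul_sum]
  congr 1
  · rw [div_pow, ← pow_mul]
    have h3 : eval (grad c) D ^ (m * n) ≠ 0 := pow_ne_zero _ hc
    field_simp
  · refine Finset.sum_congr rfl fun i hi => ?_
    have hi' := (Finset.mem_range.mp hi).le
    have h2 : m * n = m * (n - i) + m * i := by
      rw [← mul_add, Nat.sub_add_cancel hi']
    rw [div_pow, h2, pow_add, ← pow_mul]
    have h3 : eval (grad c) D ^ (m * i) ≠ 0 := pow_ne_zero _ hc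
    have h4 : eval (grad c) D ^ l ≠ 0 := pow_ne_zero _ hc
    field_simp

end

end Pool.Agent.Helper819.Gr
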